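import Pool.Agent.Y113.MT.Stm
import Mathlib.LinearAlgebra.Lagrange
import Mathlib.LinearAlgebra.Matrix.Block

/-!
# Auxiliary lemmas for the project MT
-/

set_option autoImplicit false

open Matrix

namespace Pool.Agent.Y113.MT

section
variable {F : Type} [Field F]

lemma SS_apply {n : ℕ} (i j : Fin n) : SS F n i j = if (i : ℕ) + j + 1 = n then (-1) ^ (i : ℕ) else 0 := rfl

lemma SS_rev {n : ℕ} (i : Fin n) : SS F n i (Fin.rev i) = (-1) ^ (i : ℕ) := by
  rw [SS_apply, if_pos]
  have := i.2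
  rw [Fin.val_rev]
  omega

lemma SS_ne {n : ℕ} {i j : Fin n} (h : j ≠ Fin.rev i) : SS F n i j = 0 := by
  rw [SS_apply, if_neg]
  intro h2
  apply h
  ext
  rw [Fin.val_rev]
  have := i.2
  omega

lemma mul_SS {n : ℕ} (X : Matrix (Fin n) (Fin n) F) (i j : Fin n) :
    (X * SS F n) i j = X i (Fin.rev j) * (-1) ^ ((Fin.rev j : Fin n) : ℕ) := by
  rw [Matrix.mul_apply, Finset.sum_eq_single (Fin.rev j)]
  · rw [show SS F n (Fin.rev j) j = (-1) ^ ((Fin.rev j : Fin n) : ℕ) from by
      have := SS_rev (F := F) (Fin.rev j)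
      rwa [Fin.rev_rev] at this]
  · intro b _ hb
    rw [SS_ne, mul_zero]
    intro h
    apply hb
    rw [h, Fin.rev_rev]
  · intro h
    exact absurd (Finset.mem_univ _) h

lemma SS_mul {n : ℕ} (X : Matrix (Fin n) (Fin n) F) (i j : Fin n) :
    (SS F n * X) i j = (-1) ^ (i : ℕ) * X (Fin.rev i) j := by
  rw [Matrix.mul_apply, Finset.sum_eq_single (Fin.rev i)]
  · rw [SS_rev]
  · intro b _ hb
    rw [SS_ne hb, zero_mul]
  · intro h
    exact absurd (Finset.mem_univ _) h

lemma neg_one_rev {m : ℕ} (i : Fin (2 * m)) : (-1 : F) ^ ((Fin.rev i : Fin (2 * m)) : ℕ) = -(-1) ^ (i : ℕ) := by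
  have h := i.2
  rw [Fin.val_rev]
  have h2 : (-1 : F) ^ (2 * m - ((i : ℕ) + 1)) * (-1) ^ ((i : ℕ) + 1) = 1 := by
    rw [← pow_add, show 2 * m - ((i : ℕ) + 1) + ((i : ℕ) + 1) = 2 * m by omega, pow_mul]
    simp
  have h3 : (-1 : F) ^ ((i : ℕ) + 1) * (-1) ^ ((i : ℕ) + 1) = 1 := by
    rw [← mul_pow]
    simp
  have h4 : (-1 : F) ^ (2 * m - ((i : ℕ) + 1)) = (-1) ^ ((i : ℕ) + 1) := by
    have h5 : (-1 : F) ^ ((i : ℕ) + 1) ≠ 0 := pow_ne_zero _ (by simp)
    exact mul_right_cancel₀ h5 (h2.trans h3.symm)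
  rw [h4, pow_succ]
  ring

lemma neg_one_sq' (i : ℕ) : (-1 : F) ^ i * (-1) ^ i = 1 := by
  rw [← mul_pow]
  simp

lemma SS_sq (m : ℕ) : SS F (2 * m) * SS F (2 * m) = -1 := by
  ext i j
  rw [mul_SS, Matrix.neg_apply]
  by_cases h : i = j
  · subst h
    rw [SS_rev, neg_one_rev, Matrix.one_apply_eq, mul_neg, neg_one_sq']
  · rw [Matrix.one_apply_ne h, SS_ne, zero_mul, neg_zero]
    intro h2
    exact h (Fin.rev_injective h2).symm

lemma SS_det (m : ℕ) : (SS F (2 * m)).det ≠ 0 := by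
  intro h
  have h2 := congrArg Matrix.det (SS_sq (F := F) m)
  rw [Matrix.det_mul, h, mul_zero, Matrix.det_neg, Matrix.det_one, mul_one] at h2
  exact pow_ne_zero _ (by simp) h2.symm

lemma SS_tr (m : ℕ) : (SS F (2 * m))ᵀ = -SS F (2 * m) := by
  ext i j
  rw [Matrix.transpose_apply, Matrix.neg_apply]
  by_cases h : j = Fin.rev i
  · subst h
    rw [SS_rev, show SS F (2 * m) (Fin.rev i) i = (-1) ^ ((Fin.rev i : Fin (2 * m)) : ℕ) from by
      have := SS_rev (F := F) (Fin.rev i)
      rwa [Fin.rev_rev] at this, neg_one_rev]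
  · rw [SS_ne h, SS_ne, neg_zero]
    intro h2
    apply h
    rw [h2, Fin.rev_rev]

/-- `ad gr` multiplies the entry `(a, b)` by `b - a` -/
lemma ad_gr {n : ℕ} [CharZero F] (X : Matrix (Fin n) (Fin n) F) (a b : Fin n) : (gr F n * X - X * gr F n) a b =
    ((((b : ℕ) : ℤ) - ((a : ℕ) : ℤ) : ℤ) : F) * X a b := by
  rw [Matrix.sub_apply, gr, Matrix.diagonal_mul, Matrix.mul_diagonal]
  push_cast
  ring

/-- submodules which are stable under `ad gr` are graded -/
theorem graded {n : ℕ} [CharZero F] (V : Submodule F (Matrix (Fin n) (Fin n) F))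
    (hV : ∀ X ∈ V, gr F n * X - X * gr F n ∈ V) (f : ℤ → F) {X : Matrix (Fin n) (Fin n) F} (hX : X ∈ V) :
    (Matrix.of fun a b : Fin n => f (((b : ℕ) : ℤ) - ((a : ℕ) : ℤ)) * X a b) ∈ V := by
  classical
  have key : ∀ p : Polynomial F, (Matrix.of fun a b : Fin n =>
      p.eval ((((b : ℕ) : ℤ) - ((a : ℕ) : ℤ) : ℤ) : F) * X a b) ∈ V := by
    intro p
    induction p using Polynomial.induction_on' with
    | add p q hp hq =>
      have h := V.add_mem hp hq
      have e : (Matrix.of fun a b : Fin n => (p + q).eval ((((b : ℕ) : ℤ) - ((a : ℕ) : ℤ) : ℤ) : F) * X a b) =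
          (Matrix.of fun a b : Fin n => p.eval ((((b : ℕ) : ℤ) - ((a : ℕ) : ℤ) : ℤ) : F) * X a b) +
          Matrix.of fun a b : Fin n => q.eval ((((b : ℕ) : ℤ) - ((a : ℕ) : ℤ) : ℤ) : F) * X a b := by
        ext a b
        simp only [Matrix.of_apply, Matrix.add_apply, Polynomial.eval_add]
        ring
      rw [e]
      exact h
    | monomial k c =>
      induction k generalizing c with
      | zero =>
        have e : (Matrix.of fun a b : Fin n => (Polynomial.monomial 0 c).eval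
            ((((b : ℕ) : ℤ) - ((a : ℕ) : ℤ) : ℤ) : F) * X a b) = c • X := by
          ext a b
          simp only [Matrix.of_apply, Matrix.smul_apply, Polynomial.eval_monomial, pow_zero, mul_one, smul_eq_mul]
        rw [e]
        exact V.smul_mem _ hX
      | succ k ih =>
        have h := hV _ (ih c)
        have e : (Matrix.of fun a b : Fin n => (Polynomial.monomial (k + 1) c).eval
            ((((b : ℕ) : ℤ) - ((a : ℕ) : ℤ) : ℤ) : F) * X a b) =
            gr F n * (Matrix.of fun a b : Fin n => (Polynomial.monomial k c).eval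
            ((((b : ℕ) : ℤ) - ((a : ℕ) : ℤ) : ℤ) : F) * X a b) - (Matrix.of fun a b : Fin n =>
            (Polynomial.monomial k c).eval ((((b : ℕ) : ℤ) - ((a : ℕ) : ℤ) : ℤ) : F) * X a b) * gr F n := by
          ext a b
          rw [ad_gr]
          simp only [Matrix.of_apply, Polynomial.eval_monomial, pow_succ]
          ring
        rw [e]
        exact h
  set s : Finset ℤ := Finset.Icc (-(n : ℤ)) n with hs
  set v : ℤ → F := fun d => (d : F) with hv
  have hinj : Set.InjOn v s := fun a _ b _ h => by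
    have h' : (a : F) = (b : F) := h
    exact_mod_cast h'
  have h := key (Lagrange.interpolate s v f)
  have e : (Matrix.of fun a b : Fin n => f (((b : ℕ) : ℤ) - ((a : ℕ) : ℤ)) * X a b) =
      Matrix.of fun a b : Fin n => (Lagrange.interpolate s v f).eval ((((b : ℕ) : ℤ) - ((a : ℕ) : ℤ) : ℤ) : F) * X a b := by
    ext a b
    simp only [Matrix.of_apply]
    have hmem : ((b : ℕ) : ℤ) - ((a : ℕ) : ℤ) ∈ s := by
      rw [hs, Finset.mem_Icc]
      have ha := a.2
      have hb := b.2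
      constructor <;> omega
    have h2 := Lagrange.eval_interpolate_at_node (r := f) hinj hmem
    rw [show ((((b : ℕ) : ℤ) - ((a : ℕ) : ℤ) : ℤ) : F) = v (((b : ℕ) : ℤ) - ((a : ℕ) : ℤ)) from rfl, h2]
  rw [e]
  exact h

end

section
variable {F : Type} [Field F] {n : ℕ} (D : Derivation ℤ F F)

lemma dmap_mul (X Y : Matrix (Fin n) (Fin n) F) : (X * Y).map D = X.map D * Y + X * Y.map D := by
  ext i j
  simp only [Matrix.map_apply, Matrix.mul_apply, Matrix.add_apply, map_sum, Derivation.leibniz, smul_eq_mul]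
  rw [← Finset.sum_add_distrib]
  refine Finset.sum_congr rfl fun k _ => ?_
  ring

lemma dmap_smul (c : F) (X : Matrix (Fin n) (Fin n) F) : (c • X).map D = D c • X + c • X.map D := by
  ext i j
  simp only [Matrix.map_apply, Matrix.smul_apply, Matrix.add_apply, Derivation.leibniz, smul_eq_mul]
  ring

lemma dmap_zero {X : Matrix (Fin n) (Fin n) F} (h : ∀ i j, D (X i j) = 0) : X.map D = 0 := by
  ext i j
  simp only [Matrix.map_apply, h, Matrix.zero_apply]

lemma dmap_tr (X : Matrix (Fin n) (Fin n) F) : Xᵀ.map D = (X.map D)ᵀ := rfl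

lemma dmap_inv {X : Matrix (Fin n) (Fin n) F} (hX : X.det ≠ 0) (h : X.map D = 0) : X⁻¹.map D = 0 := by
  have hu : IsUnit X.det := isUnit_iff_ne_zero.2 hX
  have h1 := dmap_mul D X X⁻¹
  rw [Matrix.mul_nonsing_inv _ hu, h, zero_mul, zero_add] at h1
  have h2 : (1 : Matrix (Fin n) (Fin n) F).map D = 0 := by
    refine dmap_zero D fun i j => ?_
    by_cases hij : i = j
    · subst hij
      rw [Matrix.one_apply_eq, Derivation.map_one_eq_zero]
    · rw [Matrix.one_apply_ne hij, map_zero]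
  rw [h2] at h1
  have h3 := congrArg (fun Y => X⁻¹ * Y) h1
  simp only [mul_zero, ← mul_assoc, Matrix.nonsing_inv_mul _ hu, one_mul] at h3
  exact h3.symm

lemma NN_d (i j : Fin n) : D (NN F n i j) = 0 := by
  unfold NN
  rw [Matrix.of_apply]
  split_ifs
  · exact Derivation.map_one_eq_zero D
  · exact map_zero D

end

end Pool.Agent.Y113.MT
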