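import Mathlib.Algebra.DualNumber
import Mathlib.Algebra.MvPolynomial.PDeriv
import Mathlib.Analysis.Complex.Basic
import Mathlib.LinearAlgebra.Matrix.NonsingularInverse
import Mathlib.LinearAlgebra.Matrix.Trace
import Mathlib.LinearAlgebra.Dimension.Constructions
import Mathlib.LinearAlgebra.FiniteDimensional.Basic
import Mathlib.RingTheory.Derivation.Basic

/-!
# Statements for the project MT: the Mumford–Tate groups of the hypergeometric variations of Hodge structure at `1 / t`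

`n = 2 m` throughout. Convention: `X * SS + SS * Xᵀ = 0` defines the symplectic Lie algebra; the grading element is the
diagonal matrix `gr` and the entry `(a, b)` has degree `b - a`.
-/

set_option autoImplicit false

open Matrix

namespace Pool.Agent.Y113.MT

section
variable (F : Type) [Field F]

/-- the nilpotent matrix with ones above the diagonal -/
def NN (n : ℕ) : Matrix (Fin n) (Fin n) F := Matrix.of fun i j => if (j : ℕ) = i + 1 then 1 else 0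

/-- the antidiagonal alternating form -/
def SS (n : ℕ) : Matrix (Fin n) (Fin n) F := Matrix.of fun i j => if (i : ℕ) + j + 1 = n then (-1) ^ (i : ℕ) else 0

/-- the grading element -/
def gr (n : ℕ) : Matrix (Fin n) (Fin n) F := Matrix.diagonal fun i => ((n : F) - 1) / 2 - ((i : ℕ) : F)

/-- the matrix with the only nonzero entry in the upper right corner -/
def EE (n : ℕ) : Matrix (Fin n) (Fin n) F := Matrix.of fun i j => if (i : ℕ) = 0 ∧ (j : ℕ) + 1 = n then 1 else 0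

variable {F}

/-- the form `∑ x_i σ(x_i)` is definite -/
def Definite (σ : F →+* F) : Prop := ∀ (ι : Type) [Fintype ι] (x : ι → F), ∑ i, x i * σ (x i) = 0 → ∀ i, x i = 0

/-- a subalgebra of the symplectic Lie algebra which is stable under the conjugate transpose and contains the grading
element -/
structure LH (m : ℕ) (σ : F →+* F) (L : Submodule F (Matrix (Fin (2 * m)) (Fin (2 * m)) F)) : Prop where
  br : ∀ X ∈ L, ∀ Y ∈ L, X * Y - Y * X ∈ L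
  sp : ∀ X ∈ L, X * SS F (2 * m) + SS F (2 * m) * Xᵀ = 0
  adj : ∀ X ∈ L, (X.map σ)ᵀ ∈ L
  gr : gr F (2 * m) ∈ L

/-- no coordinate subspace is stable -/
def Irr {n : ℕ} (L : Submodule F (Matrix (Fin n) (Fin n) F)) : Prop :=
  ∀ I : Set (Fin n), I.Nonempty → I ≠ Set.univ → ∃ X ∈ L, ∃ a, a ∉ I ∧ ∃ b ∈ I, X a b ≠ 0

/-- there are `p` linearly independent strictly upper triangular elements of the symplectic Lie algebra which are
orthogonal to `L` for the hermitian form `trace (X Y^*)` -/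
def Xi (m : ℕ) (σ : F →+* F) (L : Submodule F (Matrix (Fin (2 * m)) (Fin (2 * m)) F)) (p : ℕ) : Prop :=
  ∃ ξ : Fin p → Matrix (Fin (2 * m)) (Fin (2 * m)) F, LinearIndependent F ξ ∧
    ∀ j, (ξ j * SS F (2 * m) + SS F (2 * m) * (ξ j)ᵀ = 0) ∧ (∀ a b, b ≤ a → ξ j a b = 0) ∧
      ∀ X ∈ L, Matrix.trace (X * ((ξ j).map σ)ᵀ) = 0

end

/-- LIE1 -/
def S_LIE1 : Prop := ∀ (F : Type) [Field F] [CharZero F] (σ : F →+* F) (m : ℕ), 1 ≤ m →
  ∀ L : Submodule F (Matrix (Fin (2 * m)) (Fin (2 * m)) F), LH m σ L → Irr L → EE F (2 * m) ∈ L →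
  ∀ X : Matrix (Fin (2 * m)) (Fin (2 * m)) F, X * SS F (2 * m) + SS F (2 * m) * Xᵀ = 0 → X ∈ L

/-- LIE2 -/
def S_LIE2 : Prop := ∀ (F : Type) [Field F] [CharZero F] (σ : F →+* F) (m : ℕ), 1 ≤ m → (∀ x, σ (σ x) = x) →
  ∀ L : Submodule F (Matrix (Fin (2 * m)) (Fin (2 * m)) F), LH m σ L → Irr L → EE F (2 * m) ∉ L → Xi m σ L (2 * m - 1)

/-- LIE3 -/
def S_LIE3 : Prop := ∀ (F : Type) [Field F] [CharZero F] (σ : F →+* F) (m : ℕ), 1 ≤ m →
  ∀ L : Submodule F (Matrix (Fin (2 * m)) (Fin (2 * m)) F), LH m σ L → ¬ Irr L → Xi m σ L (2 * m - 2)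

/-- FIN -/
def S_FIN : Prop := ∀ (F : Type) [Field F] (σ : F →+* F), Definite σ → ∀ (n p : ℕ)
  (ξ : Fin p → Matrix (Fin n) (Fin n) F), LinearIndependent F ξ → ∀ c : Fin p → F, ∃ a : Fin p → F,
  ∀ j, Matrix.trace ((∑ i, a i • ξ i) * ((ξ j).map σ)ᵀ) = c j

/-- EB -/
def S_EB : Prop := ∀ (F : Type) [Field F] [CharZero F] (m : ℕ), 1 ≤ m → ∀ J : Matrix (Fin (2 * m)) (Fin (2 * m)) F,
  J.det ≠ 0 → (NN F (2 * m))ᵀ * J = -(J * NN F (2 * m)) → ∀ V : Submodule F (Matrix (Fin (2 * m)) (Fin (2 * m)) F),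
  (∀ W ∈ V, (∃ a : F, W * NN F (2 * m) - NN F (2 * m) * W = a • NN F (2 * m)) ∧ ∃ c : F, Wᵀ * J + J * W = c • J) →
  Module.finrank F V ≤ m + 2

/-- GEN -/
def S_GEN : Prop := ∀ (F : Type) [Field F] [CharZero F] (K : Subfield F) (n : ℕ) (g Y : Matrix (Fin n) (Fin n) F),
  (∀ P : MvPolynomial (Fin n × Fin n) K, MvPolynomial.aeval (fun x => g x.1 x.2) P = 0 →
    ∑ x : Fin n × Fin n, Y x.1 x.2 * MvPolynomial.aeval (fun x => g x.1 x.2) (MvPolynomial.pderiv x P) = 0) →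
  ∃ D : Derivation ℤ F F, (∀ c ∈ K, D c = 0) ∧ ∀ i j, D (g i j) = Y i j

/-- the complex matrix of a rational matrix -/
def cq {n : ℕ} (A : Matrix (Fin n) (Fin n) ℚ) : Matrix (Fin n) (Fin n) ℂ := A.map fun x : ℚ => (x : ℂ)

/-- `H p` is the part of type `(p, n - 1 - p)` of a polarised Hodge structure of weight `n - 1` on `ℚ^n` (row vectors)
with Hodge filtration `Fil`; the polarisation is `± v A wᵀ`. -/
structure Polarised {n : ℕ} (Fil : ℕ → Submodule ℂ (Fin n → ℂ)) (A : Matrix (Fin n) (Fin n) ℚ)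
    (H : ℕ → Submodule ℂ (Fin n → ℂ)) : Prop where
  fil : ∀ p, Fil p = ⨆ r : {r : ℕ // p ≤ r ∧ r < n}, H r
  conj : ∀ p < n, ∀ v ∈ H p, (fun i => star (v i)) ∈ H (n - 1 - p)
  orth : ∀ p < n, ∀ r < n, p + r ≠ n - 1 → ∀ v ∈ H p, ∀ w ∈ H r, v ⬝ᵥ (cq A *ᵥ w) = 0
  pos : ∃ ε : ℂ, (ε = 1 ∨ ε = -1) ∧ ∀ p < n, ∀ v ∈ H p, v ≠ 0 →
    0 < (ε * (Complex.I ^ p * (-Complex.I) ^ (n - 1 - p)) * (v ⬝ᵥ (cq A *ᵥ fun i => star (v i)))).re

/-- IDX -/
def S_IDX : Prop := ∀ (m : ℕ), 1 ≤ m → ∀ (Fil H : ℕ → Submodule ℂ (Fin (2 * m) → ℂ))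
  (A : Matrix (Fin (2 * m)) (Fin (2 * m)) ℚ) (P : Matrix (Fin (2 * m)) (Fin (2 * m)) ℂ), Polarised Fil A H → Aᵀ = -A →
  P.det ≠ 0 → (∀ a b : Fin (2 * m), (a : ℕ) + b + 1 < 2 * m → (P * cq A * Pᵀ) a b = 0) →
  (∀ i : ℕ, i ≤ m → Fil (2 * m - i) = Submodule.span ℂ {v | ∃ a : Fin (2 * m), (a : ℕ) < i ∧ v = P a}) →
  ∃ (B Λ : Matrix (Fin (2 * m)) (Fin (2 * m)) ℂ) (c : ℂ), c ≠ 0 ∧ B * cq A * Bᵀ = c • SS ℂ (2 * m) ∧
    (∀ i j, star (B i j) = B (Fin.rev i) j) ∧ (∀ i : Fin (2 * m), B i ∈ H (2 * m - 1 - i)) ∧ B = Λ * P ∧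
    ∀ a b, a < b → Λ a b = 0

end Pool.Agent.Y113.MT
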