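import Pool.Agent.Y113.MT.Ult

/-!
# The transfer
-/

set_option autoImplicit false
set_option maxHeartbeats 1000000

open Matrix Filter

namespace Pool.Agent.Y113.MT

/-- the data over `ℂ` at one point of the sequence -/
structure ID {m : ℕ} (J Δ : Matrix (Fin (2 * m)) (Fin (2 * m)) ℚ) (q : ℂ) (k : ℕ)
    (g G B Λ Φ : Matrix (Fin (2 * m)) (Fin (2 * m)) ℂ) (M A : Matrix (Fin (2 * m)) (Fin (2 * m)) ℚ) {r : ℕ}
    (x : Fin r → Matrix (Fin (2 * m)) (Fin (2 * m)) ℚ) (κ c : ℂ) : Prop where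
  gJ : gᵀ * cq J * g = cq J
  gen : ∀ P : MvPolynomial (Fin (2 * m) × Fin (2 * m)) ℚ, P.totalDegree ≤ k →
      MvPolynomial.aeval (fun z => g z.1 z.2) P = 0 → ∀ h : Matrix (Fin (2 * m)) (Fin (2 * m)) ℂ, hᵀ * cq J * h = cq J →
      MvPolynomial.aeval (fun z => h z.1 z.2) P = 0
  k0 : κ ≠ 0
  c0 : c ≠ 0
  GM : G * cq M = q • (NN ℂ (2 * m) * G)
  GA : G * cq A * Gᵀ = κ • (cq J)⁻¹
  BL : B = Λ * (cq Δ * (g * G))
  Ll : ∀ a b, a < b → Λ a b = 0
  BA : B * cq A * Bᵀ = c • SS ℂ (2 * m)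
  Bs : ∀ i j, star (B i j) = B (Fin.rev i) j
  BP : B * Φ = Matrix.diagonal (fun i : Fin (2 * m) => ((2 * m - 1 - (i : ℕ) : ℕ) : ℂ)) * B
  br : ∀ a b, x a * x b - x b * x a ∈ Submodule.span ℚ (Set.range x)
  Pm : Φ ∈ Submodule.span ℂ (Set.range fun a => cq (x a))

section
variable {n r : ℕ}

lemma cq_apply (X : Matrix (Fin n) (Fin n) ℚ) (i j : Fin n) : cq X i j = ((X i j : ℚ) : ℂ) := rfl

lemma cq_mul (X Y : Matrix (Fin n) (Fin n) ℚ) : cq (X * Y) = cq X * cq Y := by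
  ext i j
  rw [cq_apply, Matrix.mul_apply, Matrix.mul_apply]
  push_cast
  rfl

lemma cq_sub (X Y : Matrix (Fin n) (Fin n) ℚ) : cq (X - Y) = cq X - cq Y := by
  ext i j
  rw [cq_apply, Matrix.sub_apply, Matrix.sub_apply]
  push_cast
  rfl

lemma cq_add (X Y : Matrix (Fin n) (Fin n) ℚ) : cq (X + Y) = cq X + cq Y := by
  ext i j
  rw [cq_apply, Matrix.add_apply, Matrix.add_apply]
  push_cast
  rfl

lemma cq_neg (X : Matrix (Fin n) (Fin n) ℚ) : cq (-X) = -cq X := by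
  ext i j
  rw [cq_apply, Matrix.neg_apply, Matrix.neg_apply]
  push_cast
  rfl

lemma cq_tr (X : Matrix (Fin n) (Fin n) ℚ) : cq Xᵀ = (cq X)ᵀ := rfl

lemma cq_zero : cq (0 : Matrix (Fin n) (Fin n) ℚ) = 0 := by
  ext i j
  rw [cq_apply, Matrix.zero_apply, Matrix.zero_apply, Rat.cast_zero]

lemma cq_det (X : Matrix (Fin n) (Fin n) ℚ) : (cq X).det = ((X.det : ℚ) : ℂ) := by
  have := (Rat.castHom ℂ).map_det X
  rw [RingHom.mapMatrix_apply] at this
  exact this.symm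

lemma cq_span {x : Fin r → Matrix (Fin n) (Fin n) ℚ} {X : Matrix (Fin n) (Fin n) ℚ} (h : X ∈ Submodule.span ℚ (Set.range x)) :
    cq X ∈ Submodule.span ℂ (Set.range fun a => cq (x a)) := by
  rw [Submodule.mem_span_range_iff_exists_fun] at h ⊢
  obtain ⟨c, rfl⟩ := h
  refine ⟨fun a => (c a : ℂ), ?_⟩
  ext i j
  rw [cq_apply, Matrix.sum_apply, Matrix.sum_apply]
  push_cast
  refine Finset.sum_congr rfl fun a _ => ?_
  rw [Matrix.smul_apply, Matrix.smul_apply, cq_apply, smul_eq_mul, smul_eq_mul]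
  push_cast
  rfl

lemma span_cq {x : Fin r → Matrix (Fin n) (Fin n) ℚ} {X : Matrix (Fin n) (Fin n) ℚ}
    (h : cq X ∈ Submodule.span ℂ (Set.range fun a => cq (x a))) : X ∈ Submodule.span ℚ (Set.range x) := by
  by_contra hX
  obtain ⟨f, hf0, hf⟩ := Submodule.exists_le_ker_of_notMem hX
  rw [Submodule.mem_span_range_iff_exists_fun] at h
  obtain ⟨c, hc⟩ := h
  have h1 : ∀ Y : Matrix (Fin n) (Fin n) ℚ, f Y = ∑ i, ∑ j, Y i j * f (Matrix.single i j 1) := by
    intro Y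
    conv_lhs => rw [Matrix.matrix_eq_sum_single Y]
    rw [map_sum]
    refine Finset.sum_congr rfl fun i _ => ?_
    rw [map_sum]
    refine Finset.sum_congr rfl fun j _ => ?_
    rw [show Matrix.single i j (Y i j) = Y i j • Matrix.single i j (1 : ℚ) by rw [Matrix.smul_single, smul_eq_mul, mul_one], map_smul,
      smul_eq_mul]
  have h2 : ((f X : ℚ) : ℂ) = 0 := by
    have h3 : ((f X : ℚ) : ℂ) = ∑ i, ∑ j, cq X i j * ((f (Matrix.single i j 1) : ℚ) : ℂ) := by
      rw [h1 X]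
      push_cast
      rfl
    rw [h3, ← hc]
    have h4 : ∀ a, ∑ i, ∑ j, cq (x a) i j * ((f (Matrix.single i j 1) : ℚ) : ℂ) = 0 := by
      intro a
      have h5 : f (x a) = 0 := hf (Submodule.subset_span ⟨a, rfl⟩)
      rw [h1 (x a)] at h5
      have h6 := congrArg (fun z : ℚ => (z : ℂ)) h5
      push_cast at h6
      exact h6
    calc ∑ i, ∑ j, (∑ a, c a • cq (x a)) i j * ((f (Matrix.single i j 1) : ℚ) : ℂ) =
        ∑ a, c a * ∑ i, ∑ j, cq (x a) i j * ((f (Matrix.single i j 1) : ℚ) : ℂ) := by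
          simp only [Matrix.sum_apply, Matrix.smul_apply, smul_eq_mul, Finset.sum_mul, Finset.mul_sum, mul_assoc]
          rw [Finset.sum_comm (s := (Finset.univ : Finset (Fin r)))]
          refine Finset.sum_congr rfl fun i _ => ?_
          rw [Finset.sum_comm]
      _ = 0 := by simp only [h4, mul_zero, Finset.sum_const_zero]
  exact hf0 (by exact_mod_cast h2)

lemma gm_span {Y : ℕ → Matrix (Fin n) (Fin n) ℂ} {Z : ℕ → Fin r → Matrix (Fin n) (Fin n) ℂ}
    (h : ∀ k, Y k ∈ Submodule.span ℂ (Set.range (Z k))) :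
    gm Y ∈ Submodule.span UF (Set.range fun a => gm fun k => Z k a) := by
  have h1 : ∀ k, ∃ c : Fin r → ℂ, ∑ a, c a • Z k a = Y k := fun k => by
    rw [← Submodule.mem_span_range_iff_exists_fun]
    exact h k
  choose c hc using h1
  rw [Submodule.mem_span_range_iff_exists_fun]
  refine ⟨fun a => rh fun k => c k a, ?_⟩
  have h2 : Y = fun k => ∑ a, c k a • Z k a := funext fun k => (hc k).symm
  rw [h2, gm_sum]
  refine Finset.sum_congr rfl fun a _ => ?_
  rw [gm_smul]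

lemma span_gm {Y : ℕ → Matrix (Fin n) (Fin n) ℂ} {Z : ℕ → Fin r → Matrix (Fin n) (Fin n) ℂ}
    (h : gm Y ∈ Submodule.span UF (Set.range fun a => gm fun k => Z k a)) :
    ∃ k, Y k ∈ Submodule.span ℂ (Set.range (Z k)) := by
  rw [Submodule.mem_span_range_iff_exists_fun] at h
  obtain ⟨c, hc⟩ := h
  choose f hf using fun a => rh_surj (c a)
  have h1 : gm (fun k => ∑ a, f a k • Z k a) = gm Y := by
    rw [gm_sum, ← hc]
    refine Finset.sum_congr rfl fun a _ => ?_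
    rw [gm_smul, hf]
  obtain ⟨k, hk⟩ := (gm_eq.1 h1).exists
  refine ⟨k, ?_⟩
  rw [Submodule.mem_span_range_iff_exists_fun]
  exact ⟨fun a => f a k, hk⟩

end

/-- **The main theorem for sequences.** -/
theorem ultra (l1 : S_LIE1) (l2 : S_LIE2) (l3 : S_LIE3) (lF : S_FIN) (lE : S_EB) (lG : S_GEN) {m r : ℕ} (hm : 4 ≤ m)
    {J Δ : Matrix (Fin (2 * m)) (Fin (2 * m)) ℚ} {q : ℕ → ℂ} (hq : ∀ k, q k ≠ 0) (hJ : J.det ≠ 0) (hJt : Jᵀ = -J)
    (hJN : (NN ℂ (2 * m))ᵀ * cq J = -(cq J * NN ℂ (2 * m)))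
    {g G B Λ Φ : ℕ → Matrix (Fin (2 * m)) (Fin (2 * m)) ℂ} {M A : ℕ → Matrix (Fin (2 * m)) (Fin (2 * m)) ℚ}
    {x : ℕ → Fin r → Matrix (Fin (2 * m)) (Fin (2 * m)) ℚ} {κ c : ℕ → ℂ} {X : ℕ → Matrix (Fin (2 * m)) (Fin (2 * m)) ℚ}
    (h : ∀ k, ID J Δ (q k) k (g k) (G k) (B k) (Λ k) (Φ k) (M k) (A k) (x k) (κ k) (c k))
    (hX : ∀ k, X k * A k + A k * (X k)ᵀ = 0) : ∃ k, X k ∈ Submodule.span ℚ (Set.range (x k)) := by
  have hJc : (cq J).det ≠ 0 := by
    rw [cq_det]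
    exact_mod_cast hJ
  have key : CD UK sg (gm fun _ => cq J) (gm g) (gm G) (gm fun k => cq (M k)) (gm fun k => cq (A k)) (gm B) (gm Λ)
      (gm fun _ => cq Δ) (gm Φ) (fun a => gm fun k => cq (x k a)) (rh q) (rh κ) (rh c) := by
    refine ⟨sg_sg, sg_UK, sg_def, fun i j => gm_cq _ i j, fun i j => gm_cq _ i j, fun i j => gm_cq _ i j,
      fun i j => gm_cq _ i j, fun a i j => gm_cq _ i j, ?_, ?_, ?_, ?_, ?_, ?_, ?_, ?_, ?_, ?_, ?_, ?_, ?_, ?_, ?_, ?_⟩
    · rw [gm_det]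
      exact rh_ne fun _ => hJc
    · rw [← gm_tr, ← gm_neg, ← cq_tr, hJt]
      congr 1
      funext k
      rw [cq_neg]
    · rw [← gm_NN, ← gm_tr, ← gm_mul, ← gm_mul, ← gm_neg]
      congr 1
      funext k
      exact hJN
    · intro P hP v
      have hJc' : (cq J)ᵀ = -cq J := by rw [← cq_tr, hJt, cq_neg]
      exact generic hJc' (fun k => (h k).gJ) (fun k => (h k).gen) P hP v
    · exact rh_ne hq
    · exact rh_ne fun k => (h k).k0
    · exact rh_ne fun k => (h k).c0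
    · rw [← gm_NN, ← gm_mul, ← gm_mul, ← gm_smul]
      congr 1
      funext k
      exact (h k).GM
    · rw [← gm_mul, ← gm_tr, ← gm_mul, ← gm_inv fun _ => hJc, ← gm_smul]
      congr 1
      funext k
      exact (h k).GA
    · rw [← gm_mul, ← gm_mul, ← gm_mul]
      congr 1
      funext k
      exact (h k).BL
    · intro a b hab
      rw [gm_apply, rh_zero]
      exact Eventually.of_forall fun k => (h k).Ll a b hab
    · rw [← gm_mul, ← gm_tr, ← gm_mul, ← gm_SS, ← gm_smul]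
      congr 1
      funext k
      exact (h k).BA
    · intro i j
      rw [gm_apply, sg_rh, gm_apply]
      congr 1
      funext k
      exact (h k).Bs i j
    · rw [← gm_mul]
      have e : Matrix.diagonal (fun i : Fin (2 * m) => ((2 * m - 1 - (i : ℕ) : ℕ) : UF)) =
          gm fun _ => Matrix.diagonal (fun i : Fin (2 * m) => ((2 * m - 1 - (i : ℕ) : ℕ) : ℂ)) := by
        ext i j
        rw [gm_apply]
        by_cases hij : i = j
        · subst hij
          simp only [Matrix.diagonal_apply_eq]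
          rw [← map_natCast rh]
          rfl
        · simp only [Matrix.diagonal_apply_ne _ hij]
          exact rh_c0.symm
      rw [e, ← gm_mul]
      congr 1
      funext k
      exact (h k).BP
    · intro a b
      rw [← gm_mul, ← gm_mul, ← gm_sub]
      refine gm_span fun k => ?_
      rw [← cq_mul, ← cq_mul, ← cq_sub]
      exact cq_span ((h k).br a b)
    · exact gm_span fun k => (h k).Pm
  have h1 := core l1 l2 l3 lF lE lG key hm (y := gm fun k => cq (X k)) (by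
    rw [← gm_mul, ← gm_tr, ← gm_mul, ← gm_add, ← gm_zero]
    congr 1
    funext k
    rw [← cq_mul, ← cq_tr, ← cq_mul, ← cq_add, hX, cq_zero])
  obtain ⟨k, hk⟩ := span_gm h1
  exact ⟨k, span_cq hk⟩

end Pool.Agent.Y113.MT
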