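import Pool.Agent.Y113.MT.OneW
import Pool.Agent.Y113.MT.Stm
import Pool.Agent.Y113.MT.Ult2

/-!
# Statements for part 4 of the project MT: tuples of fibres
-/

set_option autoImplicit false

open Matrix PowerSeries Pool.Agent.Y119.HY Pool.Agent.Y119.HZ Pool.Agent.Y118.CM

namespace Pool.Agent.Y113.MT

/-- KW -/
def S_KW : Prop := ∀ (n : ℕ) (Q : Polynomial ℚ), QD n Q → (∀ i j, Pool.Agent.Y113.SDc (Hp n Q i j)) → ∃ G0 : ℕ, ∀ G : ℕ, G0 ≤ G →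
    ∀ (p : ℕ) (Ω : Fin p → ℂ) (q k d : ℕ), ∃ E : ℕ, ∀ H t : ℕ, (H + 2) ^ E ≤ t → (∀ u ≤ H, G * u + 2 ≤ t) ∧
    ∀ w : Fin q → ℂ, ∃ S : Finset ℕ,
      (S.card : Cardinal) ≤ Algebra.trdeg ℚ (IntermediateField.adjoin ℚ (Set.range Ω)) + q + 1 ∧
    ∀ u : Fin k → ℕ, Function.Injective u → (∀ j, 1 ≤ u j ∧ u j ≤ H ∧ u j ∉ S) →
    ∀ P : MvPolynomial ((Fin p ⊕ Fin q) ⊕ Fin k × Option (Fin n × Fin n)) ℚ, P.totalDegree ≤ d →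
    MvPolynomial.aeval (Sum.elim (Sum.elim Ω w) fun a : Fin k × Option (Fin n × Fin n) =>
      a.2.elim (((Real.log ((t - G * u a.1 : ℕ) : ℝ) : ℝ)) : ℂ)
        fun x => Hf (Hc n Q) (((1 / ((t - G * u a.1 : ℕ) : ℝ) : ℝ)) : ℂ) x.1 x.2) P = 0 →
    ∀ g : Fin k → Matrix (Fin n) (Fin n) ℂ, (∀ j, (g j).transpose * cm (Jm n Q) * g j = cm (Jm n Q)) → ∀ μ : Fin k → ℂ,
    MvPolynomial.aeval (Sum.elim (Sum.elim Ω w) fun a : Fin k × Option (Fin n × Fin n) =>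
      a.2.elim (μ a.1) fun x => g a.1 x.1 x.2) P = 0

/-- RB -/
def S_RB : Prop := ∀ (ι : Type) [Fintype ι] [DecidableEq ι] (n N : ℕ) (A : ι → Matrix (Fin n) (Fin n) ℚ),
  (∀ i, (A i)ᵀ = -A i) → (∀ i, (A i).det ≠ 0) →
  ∀ 𝔪 : Submodule ℚ ((ι → Matrix (Fin n) (Fin n) ℚ) × Matrix (Fin N) (Fin N) ℚ),
  (∀ X ∈ 𝔪, ∀ Y ∈ 𝔪, ((fun i => X.1 i * Y.1 i - Y.1 i * X.1 i), X.2 * Y.2 - Y.2 * X.2) ∈ 𝔪) →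
  (∀ i j, i ≠ j → ∀ X, X * A i + A i * Xᵀ = 0 → ∃ Y ∈ 𝔪, Y.1 i = X ∧ Y.1 j = 0) →
  (∀ i, ∀ X, X * A i + A i * Xᵀ = 0 → ∃ Y ∈ 𝔪, Y.1 i = X ∧ Y.2 = 0) →
  ∀ X : ι → Matrix (Fin n) (Fin n) ℚ, (∀ i, X i * A i + A i * (X i)ᵀ = 0) → (X, 0) ∈ 𝔪

/-- WF -/
def S_WF : Prop := ∀ (m N : ℕ), 1 ≤ m → ∀ (A : Matrix (Fin (2 * m)) (Fin (2 * m)) ℚ)
  (B : Matrix (Fin (2 * m)) (Fin (2 * m)) ℂ) (c : ℂ) (U : ℤ → Submodule ℂ (Fin N → ℂ)), c ≠ 0 →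
  B * cq A * Bᵀ = c • SS ℂ (2 * m) → DirectSum.IsInternal U → (∀ p : ℤ, U p ≠ ⊥ → U (p - (2 * (m : ℤ) - 1)) = ⊥) →
  ∀ 𝔫 : Submodule ℚ (Matrix (Fin (2 * m)) (Fin (2 * m)) ℚ × Matrix (Fin N) (Fin N) ℚ),
  (∀ X ∈ 𝔫, ∀ Y ∈ 𝔫, (X.1 * Y.1 - Y.1 * X.1, X.2 * Y.2 - Y.2 * X.2) ∈ 𝔫) →
  (∀ X, X * A + A * Xᵀ = 0 → ∃ Y, (X, Y) ∈ 𝔫) →
  ∀ (Φ : Matrix (Fin (2 * m)) (Fin (2 * m)) ℂ) (ΦW : Matrix (Fin N) (Fin N) ℂ),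
  B * Φ = Matrix.diagonal (fun i : Fin (2 * m) => ((2 * m - 1 - (i : ℕ) : ℕ) : ℂ)) * B →
  (∀ p, ∀ z ∈ U p, z ᵥ* ΦW = (p : ℂ) • z) →
  (Φ, ΦW) ∈ Submodule.span ℂ ((fun X : Matrix (Fin (2 * m)) (Fin (2 * m)) ℚ × Matrix (Fin N) (Fin N) ℚ => (cq X.1, cq X.2)) ''
    (𝔫 : Set _)) →
  ∀ X, X * A + A * Xᵀ = 0 → (X, 0) ∈ 𝔫

/-- the infinitesimal action on tensors in `⨂_a V_{c a} ⊗ W^{⊗ j}` -/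
def cact {F : Type} [Field F] {k n N r j : ℕ} (c : Fin r → Fin k) (X : Fin k → Matrix (Fin n) (Fin n) F) (Y : Matrix (Fin N) (Fin N) F)
    (T : (Fin r → Fin n) → (Fin j → Fin N) → F) : (Fin r → Fin n) → (Fin j → Fin N) → F := fun J K =>
  (∑ a, ∑ l, X (c a) l (J a) * T (Function.update J a l) K) + ∑ b, ∑ l, Y l (K b) * T J (Function.update K b l)

/-- TN -/
def S_TN : Prop := ∀ (k n N r j : ℕ) (c : Fin r → Fin k) (A : Fin k → Matrix (Fin n) (Fin n) ℚ),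
  (∀ i, (A i)ᵀ = -A i) → (∀ i, (A i).det ≠ 0) → ∀ (H : Fin k → ℕ → Submodule ℂ (Fin n → ℂ))
  (U : ℤ → Submodule ℂ (Fin N → ℂ)) (Φ : Fin k → Matrix (Fin n) (Fin n) ℂ) (ΦW : Matrix (Fin N) (Fin N) ℂ),
  (∀ i, ∀ p < n, ∀ v ∈ H i p, v ᵥ* Φ i = (p : ℂ) • v) → (∀ p, ∀ z ∈ U p, z ᵥ* ΦW = (p : ℂ) • z) →
  (∀ 𝔪 : Submodule ℚ ((Fin k → Matrix (Fin n) (Fin n) ℚ) × Matrix (Fin N) (Fin N) ℚ),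
    (∀ X ∈ 𝔪, ∀ Y ∈ 𝔪, ((fun i => X.1 i * Y.1 i - Y.1 i * X.1 i), X.2 * Y.2 - Y.2 * X.2) ∈ 𝔪) →
    (Φ, ΦW) ∈ Submodule.span ℂ ((fun X : (Fin k → Matrix (Fin n) (Fin n) ℚ) × Matrix (Fin N) (Fin N) ℚ =>
      (fun i => cq (X.1 i), cq X.2)) '' (𝔪 : Set _)) →
    ∀ X : Fin k → Matrix (Fin n) (Fin n) ℚ, (∀ i, X i * A i + A i * (X i)ᵀ = 0) → (X, 0) ∈ 𝔪) →
  ∀ (P : ℤ) (T : (Fin r → Fin n) → (Fin j → Fin N) → ℚ),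
  (fun J K => ((T J K : ℚ) : ℂ)) ∈ Submodule.span ℂ {f : (Fin r → Fin n) → (Fin j → Fin N) → ℂ |
    ∃ (p : Fin r → ℕ) (v : Fin r → Fin n → ℂ) (q : Fin j → ℤ) (w : Fin j → Fin N → ℂ),
    (∀ a, p a < n ∧ v a ∈ H (c a) (p a)) ∧ (∀ b, w b ∈ U (q b)) ∧ ∑ a, (p a : ℤ) + ∑ b, q b = P ∧
    f = fun J K => (∏ a, v a (J a)) * ∏ b, w b (K b)} →
  ∀ X : Fin k → Matrix (Fin n) (Fin n) ℚ, (∀ i, X i * A i + A i * (X i)ᵀ = 0) → cact c X 0 T = 0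

end Pool.Agent.Y113.MT
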