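import Pool.Agent.Y113.MT.Stm

/-!
# Statements for the second part of the project MT: Hodge classes on the products `Z × X^r`

Tensors are functions `T : (Fin r → Fin n) → (Fin N → F)`, the coordinates of elements of `V^{⊗ r} ⊗ Z`, `V = F^n` (row
vectors; matrices act from the right), `Z = F^N`.
-/

set_option autoImplicit false

open Matrix

namespace Pool.Agent.Y113.MT

section
variable {F : Type} [Field F] {n N r : ℕ}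

/-- the infinitesimal action of a matrix on tensors -/
def act (X : Matrix (Fin n) (Fin n) F) (T : (Fin r → Fin n) → Fin N → F) : (Fin r → Fin n) → Fin N → F :=
  fun J => ∑ a, ∑ j, X j (J a) • T (Function.update J a j)

/-- the action of a matrix on the coefficients -/
def acv (Y : Matrix (Fin N) (Fin N) F) (T : (Fin r → Fin n) → Fin N → F) : (Fin r → Fin n) → Fin N → F :=
  fun J => T J ᵥ* Y

/-- the change of coordinates `e_i ↦ e_i R` -/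
def tr (R : Matrix (Fin n) (Fin n) F) (T : (Fin r → Fin n) → Fin N → F) : (Fin r → Fin n) → Fin N → F :=
  fun J => ∑ I : Fin r → Fin n, (∏ a, R (I a) (J a)) • T I

end

/-- TR -/
def S_TR : Prop := ∀ (F : Type) [Field F] (n N r : ℕ),
  (∀ (X Y : Matrix (Fin n) (Fin n) F) (T : (Fin r → Fin n) → Fin N → F),
    act (X * Y - Y * X) T = act Y (act X T) - act X (act Y T)) ∧
  (∀ (X X' R : Matrix (Fin n) (Fin n) F) (T : (Fin r → Fin n) → Fin N → F), X' * R = R * X →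
    act X (tr R T) = tr R (act X' T)) ∧
  (∀ (R S : Matrix (Fin n) (Fin n) F) (T : (Fin r → Fin n) → Fin N → F), tr S (tr R T) = tr (R * S) T) ∧
  ∀ T : (Fin r → Fin n) → Fin N → F, tr 1 T = T

/-- IDL -/
def S_IDL : Prop := ∀ (F : Type) [Field F] [CharZero F] (m : ℕ), 1 ≤ m →
  ∀ L : Submodule F (Matrix (Fin (2 * m)) (Fin (2 * m)) F),
  (∀ X : Matrix (Fin (2 * m)) (Fin (2 * m)) F, X * SS F (2 * m) + SS F (2 * m) * Xᵀ = 0 → ∀ Y ∈ L, X * Y - Y * X ∈ L) →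
  EE F (2 * m) ∈ L →
  ∀ X : Matrix (Fin (2 * m)) (Fin (2 * m)) F, X * SS F (2 * m) + SS F (2 * m) * Xᵀ = 0 → X ∈ L

/-- DES -/
def S_DES : Prop := ∀ (ι κ : Type) [Fintype ι] (l : κ → ι → ℚ) (x : ι → ℂ), (∀ k, ∑ i, (l k i : ℂ) * x i = 0) →
  x ∈ Submodule.span ℂ {y : ι → ℂ | ∃ z : ι → ℚ, (∀ k, ∑ i, l k i * z i = 0) ∧ y = fun i => (z i : ℂ)}

/-- FFTQ -/
def S_FFTQ : Prop := ∀ (n N r : ℕ) (A : Matrix (Fin n) (Fin n) ℚ), A.det ≠ 0 → Aᵀ = -A →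
  ∀ T : (Fin r → Fin n) → Fin N → ℚ,
  (∀ X : Matrix (Fin n) (Fin n) ℚ, X * A + A * Xᵀ = 0 → act X T = 0) →
  T ∈ Submodule.span ℚ {f : (Fin r → Fin n) → Fin N → ℚ | ∃ (s : ℕ) (e : Fin s × Fin 2 ≃ Fin r) (w : Fin N → ℚ),
    f = fun J i => (∏ l, A⁻¹ (J (e (l, 0))) (J (e (l, 1)))) * w i}

/-- TB -/
def S_TB : Prop := ∀ (m N r : ℕ) (B : Matrix (Fin (2 * m)) (Fin (2 * m)) ℂ) (H : ℕ → Submodule ℂ (Fin (2 * m) → ℂ))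
  (U : ℤ → Submodule ℂ (Fin N → ℂ)) (P : ℤ) (T : (Fin r → Fin (2 * m)) → Fin N → ℂ),
  (∀ p < 2 * m, ∀ v ∈ H p, ∀ i : Fin (2 * m), (i : ℕ) ≠ 2 * m - 1 - p → (v ᵥ* B⁻¹) i = 0) →
  T ∈ Submodule.span ℂ {f : (Fin r → Fin (2 * m)) → Fin N → ℂ | ∃ (p0 : ℤ) (z : Fin N → ℂ) (p : Fin r → ℕ)
    (v : Fin r → Fin (2 * m) → ℂ), z ∈ U p0 ∧ (∀ a, p a < 2 * m ∧ v a ∈ H (p a)) ∧ p0 + ∑ a, (p a : ℤ) = P ∧
    f = fun J i => (∏ a, v a (J a)) * z i} →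
  ∀ I : Fin r → Fin (2 * m), tr B⁻¹ T I ∈ U (P - ∑ a, ((2 * m - 1 - (I a : ℕ) : ℕ) : ℤ))

/-- TYPE -/
def S_TYPE : Prop := ∀ (m N r : ℕ) (A : Matrix (Fin (2 * m)) (Fin (2 * m)) ℚ) (B : Matrix (Fin (2 * m)) (Fin (2 * m)) ℂ)
  (c : ℂ) (U : ℤ → Submodule ℂ (Fin N → ℂ)) (P : ℤ) (T : (Fin r → Fin (2 * m)) → Fin N → ℚ), 1 ≤ m → c ≠ 0 →
  B * cq A * Bᵀ = c • SS ℂ (2 * m) →
  (∀ I : Fin r → Fin (2 * m), tr B⁻¹ (fun J i => ((T J i : ℚ) : ℂ)) I ∈ U (P - ∑ a, ((2 * m - 1 - (I a : ℕ) : ℕ) : ℤ))) →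
  T ∈ Submodule.span ℚ {f : (Fin r → Fin (2 * m)) → Fin N → ℚ | ∃ (s : ℕ) (e : Fin s × Fin 2 ≃ Fin r) (w : Fin N → ℚ),
    f = fun J i => (∏ l, A⁻¹ (J (e (l, 0))) (J (e (l, 1)))) * w i} →
  T ∈ Submodule.span ℚ {f : (Fin r → Fin (2 * m)) → Fin N → ℚ | ∃ (s : ℕ) (e : Fin s × Fin 2 ≃ Fin r) (w : Fin N → ℚ),
    (fun i => ((w i : ℚ) : ℂ)) ∈ U (P - (s : ℤ) * (2 * (m : ℤ) - 1)) ∧
    f = fun J i => (∏ l, A⁻¹ (J (e (l, 0))) (J (e (l, 1)))) * w i}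

/-- OP -/
def S_OP : Prop := ∀ (N : ℕ) (U : ℤ → Submodule ℂ (Fin N → ℂ)), DirectSum.IsInternal U →
  ∃ Φ : Matrix (Fin N) (Fin N) ℂ, ∀ p, ∀ z ∈ U p, z ᵥ* Φ = (p : ℂ) • z

end Pool.Agent.Y113.MT
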