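import Pool.Agent.Y113.MT.HStm

/-!
# Statements for part 4 of the project MT: coloured tensors
-/

set_option autoImplicit false

open Matrix

namespace Pool.Agent.Y113.MT

section
variable {F : Type} [Field F] {k n N r : ℕ}

/-- the infinitesimal action of a tuple of matrices on tensors in `⨂_a V_{c a} ⊗ Z` -/
def cav (c : Fin r → Fin k) (X : Fin k → Matrix (Fin n) (Fin n) F) (T : (Fin r → Fin n) → Fin N → F) :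
    (Fin r → Fin n) → Fin N → F :=
  fun J => ∑ a, ∑ l, X (c a) l (J a) • T (Function.update J a l)

/-- the change of coordinates -/
def ctr (c : Fin r → Fin k) (R : Fin k → Matrix (Fin n) (Fin n) F) (T : (Fin r → Fin n) → Fin N → F) :
    (Fin r → Fin n) → Fin N → F :=
  fun J => ∑ I : Fin r → Fin n, (∏ a, R (c a) (I a) (J a)) • T I

end

/-- FQC -/
def S_FQC : Prop := ∀ (k n N r : ℕ) (c : Fin r → Fin k) (A : Fin k → Matrix (Fin n) (Fin n) ℚ), (∀ i, (A i).det ≠ 0) →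
  (∀ i, (A i)ᵀ = -A i) → ∀ T : (Fin r → Fin n) → Fin N → ℚ,
  (∀ X : Fin k → Matrix (Fin n) (Fin n) ℚ, (∀ i, X i * A i + A i * (X i)ᵀ = 0) → cav c X T = 0) →
  T ∈ Submodule.span ℚ {f : (Fin r → Fin n) → Fin N → ℚ | ∃ (s : ℕ) (e : Fin s × Fin 2 ≃ Fin r) (w : Fin N → ℚ),
    (∀ l, c (e (l, 0)) = c (e (l, 1))) ∧
    f = fun J i => (∏ l, (A (c (e (l, 0))))⁻¹ (J (e (l, 0))) (J (e (l, 1)))) * w i}

/-- TBC -/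
def S_TBC : Prop := ∀ (m k N r : ℕ) (c : Fin r → Fin k) (B : Fin k → Matrix (Fin (2 * m)) (Fin (2 * m)) ℂ)
  (H : Fin k → ℕ → Submodule ℂ (Fin (2 * m) → ℂ)) (U : ℤ → Submodule ℂ (Fin N → ℂ)) (P : ℤ)
  (T : (Fin r → Fin (2 * m)) → Fin N → ℂ),
  (∀ i, ∀ p < 2 * m, ∀ v ∈ H i p, ∀ l : Fin (2 * m), (l : ℕ) ≠ 2 * m - 1 - p → (v ᵥ* (B i)⁻¹) l = 0) →
  T ∈ Submodule.span ℂ {f : (Fin r → Fin (2 * m)) → Fin N → ℂ | ∃ (p0 : ℤ) (z : Fin N → ℂ) (p : Fin r → ℕ)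
    (v : Fin r → Fin (2 * m) → ℂ), z ∈ U p0 ∧ (∀ a, p a < 2 * m ∧ v a ∈ H (c a) (p a)) ∧ p0 + ∑ a, (p a : ℤ) = P ∧
    f = fun J i => (∏ a, v a (J a)) * z i} →
  ∀ I : Fin r → Fin (2 * m), ctr c (fun i => (B i)⁻¹) T I ∈ U (P - ∑ a, ((2 * m - 1 - (I a : ℕ) : ℕ) : ℤ))

/-- TYC -/
def S_TYC : Prop := ∀ (m k N r : ℕ) (c : Fin r → Fin k) (A : Fin k → Matrix (Fin (2 * m)) (Fin (2 * m)) ℚ)
  (B : Fin k → Matrix (Fin (2 * m)) (Fin (2 * m)) ℂ) (κ : Fin k → ℂ) (U : ℤ → Submodule ℂ (Fin N → ℂ)) (P : ℤ)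
  (T : (Fin r → Fin (2 * m)) → Fin N → ℚ), 1 ≤ m → (∀ i, κ i ≠ 0) → (∀ i, B i * cq (A i) * (B i)ᵀ = κ i • SS ℂ (2 * m)) →
  (∀ I : Fin r → Fin (2 * m), ctr c (fun i => (B i)⁻¹) (fun J i => ((T J i : ℚ) : ℂ)) I ∈
    U (P - ∑ a, ((2 * m - 1 - (I a : ℕ) : ℕ) : ℤ))) →
  T ∈ Submodule.span ℚ {f : (Fin r → Fin (2 * m)) → Fin N → ℚ | ∃ (s : ℕ) (e : Fin s × Fin 2 ≃ Fin r) (w : Fin N → ℚ),
    (∀ l, c (e (l, 0)) = c (e (l, 1))) ∧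
    f = fun J i => (∏ l, (A (c (e (l, 0))))⁻¹ (J (e (l, 0))) (J (e (l, 1)))) * w i} →
  T ∈ Submodule.span ℚ {f : (Fin r → Fin (2 * m)) → Fin N → ℚ | ∃ (s : ℕ) (e : Fin s × Fin 2 ≃ Fin r) (w : Fin N → ℚ),
    (∀ l, c (e (l, 0)) = c (e (l, 1))) ∧ (fun i => ((w i : ℚ) : ℂ)) ∈ U (P - (s : ℤ) * (2 * (m : ℤ) - 1)) ∧
    f = fun J i => (∏ l, (A (c (e (l, 0))))⁻¹ (J (e (l, 0))) (J (e (l, 1)))) * w i}

end Pool.Agent.Y113.MT
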