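import Pool.Agent.Y113.MT.Bas

/-!
# Statements for part 5 of the project MT: products with arbitrary factors
-/

set_option autoImplicit false

open Matrix

namespace Pool.Agent.Y113.MT

/-- SIM: simplicity of `sp(A)` over `ℚ` -/
def S_SIM : Prop := ∀ (n : ℕ) (A : Matrix (Fin n) (Fin n) ℚ), Aᵀ = -A → A.det ≠ 0 →
  ∀ L : Submodule ℚ (Matrix (Fin n) (Fin n) ℚ), (∀ X, X * A + A * Xᵀ = 0 → ∀ Y ∈ L, X * Y - Y * X ∈ L) →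
  ∀ Y ∈ L, Y * A + A * Yᵀ = 0 → Y ≠ 0 → ∀ X, X * A + A * Xᵀ = 0 → X ∈ L

/-- INT: the complexification of a fibre product -/
def S_INT : Prop := ∀ (k n N : ℕ) (𝔫 : Fin k → Submodule ℚ (Matrix (Fin n) (Fin n) ℚ × Matrix (Fin N) (Fin N) ℚ))
  (Φ : Fin k → Matrix (Fin n) (Fin n) ℂ) (Ψ : Matrix (Fin N) (Fin N) ℂ), (∀ i, (Φ i, Ψ) ∈ Submodule.span ℂ
    ((fun X : Matrix (Fin n) (Fin n) ℚ × Matrix (Fin N) (Fin N) ℚ => (cq X.1, cq X.2)) '' (𝔫 i : Set _))) →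
  (Φ, Ψ) ∈ Submodule.span ℂ ((fun X : (Fin k → Matrix (Fin n) (Fin n) ℚ) × Matrix (Fin N) (Fin N) ℚ =>
    (fun i => cq (X.1 i), cq X.2)) '' {X | ∀ i, (X.1 i, X.2) ∈ 𝔫 i})

/-- DIM: the number of symplectic factors which act faithfully -/
def S_DIM : Prop := ∀ (k n N : ℕ) (A : Matrix (Fin n) (Fin n) ℚ), Aᵀ = -A → A.det ≠ 0 →
  ∀ 𝔪 : Submodule ℚ ((Fin k → Matrix (Fin n) (Fin n) ℚ) × Matrix (Fin N) (Fin N) ℚ),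
  (∀ X : Fin k → Matrix (Fin n) (Fin n) ℚ, (∀ i, X i * A + A * (X i)ᵀ = 0) → ∃ Y ∈ 𝔪, Y.1 = X) →
  (∀ Y ∈ 𝔪, (∀ i, Y.1 i * A + A * (Y.1 i)ᵀ = 0) → Y.2 = 0 → Y.1 = 0) → k * (n + 1).choose 2 ≤ N ^ 2

end Pool.Agent.Y113.MT
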