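import Pool.Agent.Y113.MT.TupT
import Pool.Agent.Y113.MT.AStm

/-!
# Fibres and an arbitrary Hodge structure
-/

set_option autoImplicit false
set_option maxHeartbeats 1000000

open Matrix PowerSeries Pool.Agent.Y119.HY Pool.Agent.Y119.HZ Pool.Agent.Y118.CM

namespace Pool.Agent.Y113.MT

/-- the fibre at `1/t` is not independent of the Hodge structure with Hodge operator `ΦW` -/
def Bad {m : ℕ} (β : Fin m → ℚ) (t : ℕ) (C : Matrix (Fin (2 * m)) (Fin (2 * m)) ℂ) (A : Matrix (Fin (2 * m)) (Fin (2 * m)) ℚ)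
    {N : ℕ} (ΦW : Matrix (Fin N) (Fin N) ℂ) : Prop :=
  ∃ Fil Hh : ℕ → Submodule ℂ (Fin (2 * m) → ℂ), (∀ p, m ≤ p → Fil p = Fl β t C p) ∧ Polarised Fil A Hh ∧
  ∃ Φ : Matrix (Fin (2 * m)) (Fin (2 * m)) ℂ, (∀ p < 2 * m, ∀ v ∈ Hh p, v ᵥ* Φ = (p : ℂ) • v) ∧
  ∃ 𝔫 : Submodule ℚ (Matrix (Fin (2 * m)) (Fin (2 * m)) ℚ × Matrix (Fin N) (Fin N) ℚ),
  (∀ X ∈ 𝔫, ∀ Y ∈ 𝔫, (X.1 * Y.1 - Y.1 * X.1, X.2 * Y.2 - Y.2 * X.2) ∈ 𝔫) ∧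
  (Φ, ΦW) ∈ Submodule.span ℂ ((fun X : Matrix (Fin (2 * m)) (Fin (2 * m)) ℚ × Matrix (Fin N) (Fin N) ℚ => (cq X.1, cq X.2)) ''
    (𝔫 : Set _)) ∧ ∃ X : Matrix (Fin (2 * m)) (Fin (2 * m)) ℚ, X * A + A * Xᵀ = 0 ∧ (X, 0) ∉ 𝔫

lemma internal_zero : DirectSum.IsInternal (fun _ : ℤ => (⊥ : Submodule ℂ (Fin 0 → ℂ))) := by
  refine DirectSum.isInternal_submodule_of_iSupIndep_of_iSup_eq_top ?_ (Subsingleton.elim _ _)
  intro i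
  exact disjoint_bot_left

section
variable {m : ℕ} {β : Fin m → ℚ}

/-- the projection to the product of the fibres -/
lemma proj_all {k N : ℕ} {A : Matrix (Fin (2 * m)) (Fin (2 * m)) ℚ} {Hh : Fin k → ℕ → Submodule ℂ (Fin (2 * m) → ℂ)}
    (hl : ∀ (N : ℕ) (U : ℤ → Submodule ℂ (Fin N → ℂ)), DirectSum.IsInternal U → (∀ p : ℤ, U p ≠ ⊥ → U (p - (2 * (m : ℤ) - 1)) = ⊥) →
      ∀ (Φ : Fin k → Matrix (Fin (2 * m)) (Fin (2 * m)) ℂ) (ΦW : Matrix (Fin N) (Fin N) ℂ),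
      (∀ i, ∀ p < 2 * m, ∀ v ∈ Hh i p, v ᵥ* Φ i = (p : ℂ) • v) → (∀ p, ∀ z ∈ U p, z ᵥ* ΦW = (p : ℂ) • z) →
      ∀ 𝔪 : Submodule ℚ ((Fin k → Matrix (Fin (2 * m)) (Fin (2 * m)) ℚ) × Matrix (Fin N) (Fin N) ℚ),
      (∀ X ∈ 𝔪, ∀ Y ∈ 𝔪, ((fun i => X.1 i * Y.1 i - Y.1 i * X.1 i), X.2 * Y.2 - Y.2 * X.2) ∈ 𝔪) →
      (Φ, ΦW) ∈ Submodule.span ℂ ((fun X : (Fin k → Matrix (Fin (2 * m)) (Fin (2 * m)) ℚ) × Matrix (Fin N) (Fin N) ℚ =>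
        (fun i => cq (X.1 i), cq X.2)) '' (𝔪 : Set _)) →
      ∀ X : Fin k → Matrix (Fin (2 * m)) (Fin (2 * m)) ℚ, (∀ i, X i * A + A * (X i)ᵀ = 0) → (X, 0) ∈ 𝔪)
    (Φ : Fin k → Matrix (Fin (2 * m)) (Fin (2 * m)) ℂ) (ΦW : Matrix (Fin N) (Fin N) ℂ)
    (hΦ : ∀ i, ∀ p < 2 * m, ∀ v ∈ Hh i p, v ᵥ* Φ i = (p : ℂ) • v)
    (𝔪 : Submodule ℚ ((Fin k → Matrix (Fin (2 * m)) (Fin (2 * m)) ℚ) × Matrix (Fin N) (Fin N) ℚ))
    (hbr : ∀ X ∈ 𝔪, ∀ Y ∈ 𝔪, ((fun i => X.1 i * Y.1 i - Y.1 i * X.1 i), X.2 * Y.2 - Y.2 * X.2) ∈ 𝔪)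
    (hmem : (Φ, ΦW) ∈ Submodule.span ℂ ((fun X : (Fin k → Matrix (Fin (2 * m)) (Fin (2 * m)) ℚ) × Matrix (Fin N) (Fin N) ℚ =>
        (fun i => cq (X.1 i), cq X.2)) '' (𝔪 : Set _))) (X : Fin k → Matrix (Fin (2 * m)) (Fin (2 * m)) ℚ)
    (hX : ∀ i, X i * A + A * (X i)ᵀ = 0) : ∃ Y ∈ 𝔪, Y.1 = X := by
  let π : (Fin k → Matrix (Fin (2 * m)) (Fin (2 * m)) ℚ) × Matrix (Fin N) (Fin N) ℚ →ₗ[ℚ]
      (Fin k → Matrix (Fin (2 * m)) (Fin (2 * m)) ℚ) × Matrix (Fin 0) (Fin 0) ℚ :=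
    { toFun := fun Y => (Y.1, 0)
      map_add' := fun _ _ => by
        refine Prod.ext rfl ?_
        exact Subsingleton.elim _ _
      map_smul' := fun _ _ => by
        refine Prod.ext rfl ?_
        exact Subsingleton.elim _ _ }
  let πC : (Fin k → Matrix (Fin (2 * m)) (Fin (2 * m)) ℂ) × Matrix (Fin N) (Fin N) ℂ →ₗ[ℂ]
      (Fin k → Matrix (Fin (2 * m)) (Fin (2 * m)) ℂ) × Matrix (Fin 0) (Fin 0) ℂ :=
    { toFun := fun Y => (Y.1, 0)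
      map_add' := fun _ _ => by
        refine Prod.ext rfl ?_
        exact Subsingleton.elim _ _
      map_smul' := fun _ _ => by
        refine Prod.ext rfl ?_
        exact Subsingleton.elim _ _ }
  have h1 := hl 0 (fun _ => ⊥) internal_zero (fun p hp => rfl) Φ 0 hΦ (fun p z hz => Subsingleton.elim _ _) (𝔪.map π) (by
      rintro _ ⟨Y, hY, rfl⟩ _ ⟨Y', hY', rfl⟩
      exact ⟨_, hbr Y hY Y' hY', by
        refine Prod.ext rfl ?_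
        exact Subsingleton.elim _ _⟩) (by
      have h2 := Submodule.mem_map_of_mem (f := πC) hmem
      rw [Submodule.map_span] at h2
      refine Submodule.span_mono ?_ h2
      rintro _ ⟨_, ⟨Y, hY, rfl⟩, rfl⟩
      exact ⟨(Y.1, 0), ⟨Y, hY, rfl⟩, by
        refine Prod.ext rfl ?_
        exact Subsingleton.elim _ _⟩) X hX
  obtain ⟨Y, hY, hYX⟩ := h1
  exact ⟨Y, hY, congrArg Prod.fst hYX⟩

/-- the number of bad points -/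
lemma bad_card (sim : S_SIM) (int : S_INT) (dim : S_DIM) {k N : ℕ} {A : Matrix (Fin (2 * m)) (Fin (2 * m)) ℚ} (hAt : Aᵀ = -A)
    (hAd : A.det ≠ 0) {Hh : Fin k → ℕ → Submodule ℂ (Fin (2 * m) → ℂ)}
    (hl : ∀ (N : ℕ) (U : ℤ → Submodule ℂ (Fin N → ℂ)), DirectSum.IsInternal U → (∀ p : ℤ, U p ≠ ⊥ → U (p - (2 * (m : ℤ) - 1)) = ⊥) →
      ∀ (Φ : Fin k → Matrix (Fin (2 * m)) (Fin (2 * m)) ℂ) (ΦW : Matrix (Fin N) (Fin N) ℂ),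
      (∀ i, ∀ p < 2 * m, ∀ v ∈ Hh i p, v ᵥ* Φ i = (p : ℂ) • v) → (∀ p, ∀ z ∈ U p, z ᵥ* ΦW = (p : ℂ) • z) →
      ∀ 𝔪 : Submodule ℚ ((Fin k → Matrix (Fin (2 * m)) (Fin (2 * m)) ℚ) × Matrix (Fin N) (Fin N) ℚ),
      (∀ X ∈ 𝔪, ∀ Y ∈ 𝔪, ((fun i => X.1 i * Y.1 i - Y.1 i * X.1 i), X.2 * Y.2 - Y.2 * X.2) ∈ 𝔪) →
      (Φ, ΦW) ∈ Submodule.span ℂ ((fun X : (Fin k → Matrix (Fin (2 * m)) (Fin (2 * m)) ℚ) × Matrix (Fin N) (Fin N) ℚ =>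
        (fun i => cq (X.1 i), cq X.2)) '' (𝔪 : Set _)) →
      ∀ X : Fin k → Matrix (Fin (2 * m)) (Fin (2 * m)) ℚ, (∀ i, X i * A + A * (X i)ᵀ = 0) → (X, 0) ∈ 𝔪)
    (Φ : Fin k → Matrix (Fin (2 * m)) (Fin (2 * m)) ℂ) (ΦW : Matrix (Fin N) (Fin N) ℂ)
    (hΦ : ∀ i, ∀ p < 2 * m, ∀ v ∈ Hh i p, v ᵥ* Φ i = (p : ℂ) • v)
    (𝔫 : Fin k → Submodule ℚ (Matrix (Fin (2 * m)) (Fin (2 * m)) ℚ × Matrix (Fin N) (Fin N) ℚ))
    (hbr : ∀ i, ∀ X ∈ 𝔫 i, ∀ Y ∈ 𝔫 i, (X.1 * Y.1 - Y.1 * X.1, X.2 * Y.2 - Y.2 * X.2) ∈ 𝔫 i)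
    (hmem : ∀ i, (Φ i, ΦW) ∈ Submodule.span ℂ ((fun X : Matrix (Fin (2 * m)) (Fin (2 * m)) ℚ × Matrix (Fin N) (Fin N) ℚ =>
      (cq X.1, cq X.2)) '' (𝔫 i : Set _))) (X : Fin k → Matrix (Fin (2 * m)) (Fin (2 * m)) ℚ)
    (hX : ∀ i, X i * A + A * (X i)ᵀ = 0) (hXn : ∀ i, (X i, 0) ∉ 𝔫 i) : k * (2 * m + 1).choose 2 ≤ N ^ 2 := by
  let 𝔪 : Submodule ℚ ((Fin k → Matrix (Fin (2 * m)) (Fin (2 * m)) ℚ) × Matrix (Fin N) (Fin N) ℚ) :=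
    { carrier := {X | ∀ i, (X.1 i, X.2) ∈ 𝔫 i}
      add_mem' := fun {Y Z} hY hZ i => (𝔫 i).add_mem (hY i) (hZ i)
      zero_mem' := fun i => (𝔫 i).zero_mem
      smul_mem' := fun a Y hY i => (𝔫 i).smul_mem a (hY i) }
  have hmm : (Φ, ΦW) ∈ Submodule.span ℂ ((fun X : (Fin k → Matrix (Fin (2 * m)) (Fin (2 * m)) ℚ) × Matrix (Fin N) (Fin N) ℚ =>
        (fun i => cq (X.1 i), cq X.2)) '' (𝔪 : Set _)) := int k (2 * m) N 𝔫 Φ ΦW hmem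
  have hproj := proj_all hl Φ ΦW hΦ 𝔪 (fun Y hY Z hZ i => hbr i (Y.1 i, Y.2) (hY i) (Z.1 i, Z.2) (hZ i)) hmm
  refine dim k (2 * m) N A hAt hAd 𝔪 hproj ?_
  intro Y hY hYsp hY2
  funext i
  by_contra hne
  let L : Submodule ℚ (Matrix (Fin (2 * m)) (Fin (2 * m)) ℚ) := (𝔫 i).comap (LinearMap.inl ℚ _ _)
  have hL := sim (2 * m) A hAt hAd L (by
    intro Z hZ V hV
    obtain ⟨W, hW, hWZ⟩ := hproj (fun _ => Z) (fun _ => hZ)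
    have h1 := hbr i (W.1 i, W.2) (hW i) (V, 0) hV
    rw [hWZ] at h1
    simp only [Matrix.mul_zero, Matrix.zero_mul, sub_zero] at h1
    exact h1) (Y.1 i) (by
    have h1 := hY i
    rw [hY2] at h1
    exact h1) (hYsp i) hne (X i) (hX i)
  exact hXn i hL

/-- **Fibres and an arbitrary Hodge structure, Lie form.** -/
theorem arb_lie (kw : S_KW) (nf : S_NF) (td : S_TD) (rb : S_RB) (wf : S_WF) (sim : S_SIM) (int : S_INT) (dim : S_DIM)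
    (hm : 2 ≤ m) (hβ : ∀ j, ∀ a : ℤ, β j ≠ a) :
    ∃ G0 : ℕ, ∀ G : ℕ, G0 ≤ G → ∃ E : ℕ, ∀ H t : ℕ, (H + 2) ^ E ≤ t → (∀ u ≤ H, G * u + 2 ≤ t) ∧
      ∀ (C : Matrix (Fin (2 * m)) (Fin (2 * m)) ℂ) (M : Matrix (Fin (2 * m)) (Fin (2 * m)) ℚ) (q : ℂ), C.det ≠ 0 → q ≠ 0 →
      C * cq M = q • (NN ℂ (2 * m) * C) → ∃ S : Finset ℕ, S.card ≤ m + 2 ∧
      ∀ (A : Matrix (Fin (2 * m)) (Fin (2 * m)) ℚ) (κ : ℂ), κ ≠ 0 → C * cq A * Cᵀ = κ • SS ℂ (2 * m) →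
      ∀ (N : ℕ) (U : ℤ → Submodule ℂ (Fin N → ℂ)), DirectSum.IsInternal U →
      ∃ S' : Finset ℕ, S'.card * (m * (2 * m + 1)) ≤ N ^ 2 ∧
      ∀ (k : ℕ) (u : Fin k → ℕ), Function.Injective u → (∀ i, 1 ≤ u i ∧ u i ≤ H ∧ u i ∉ S ∧ u i ∉ S') →
      ∀ Fil Hh : Fin k → ℕ → Submodule ℂ (Fin (2 * m) → ℂ),
      (∀ i p, m ≤ p → Fil i p = Fl β (t - G * u i) C p) → (∀ i, Polarised (Fil i) A (Hh i)) →
      (∀ _ : Fin k, Aᵀ = -A ∧ A.det ≠ 0) ∧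
      ∀ (Φ : Fin k → Matrix (Fin (2 * m)) (Fin (2 * m)) ℂ) (ΦW : Matrix (Fin N) (Fin N) ℂ),
      (∀ i, ∀ p < 2 * m, ∀ v ∈ Hh i p, v ᵥ* Φ i = (p : ℂ) • v) → (∀ p, ∀ z ∈ U p, z ᵥ* ΦW = (p : ℂ) • z) →
      ∀ 𝔪 : Submodule ℚ ((Fin k → Matrix (Fin (2 * m)) (Fin (2 * m)) ℚ) × Matrix (Fin N) (Fin N) ℚ),
      (∀ X ∈ 𝔪, ∀ Y ∈ 𝔪, ((fun i => X.1 i * Y.1 i - Y.1 i * X.1 i), X.2 * Y.2 - Y.2 * X.2) ∈ 𝔪) →
      (Φ, ΦW) ∈ Submodule.span ℂ ((fun X : (Fin k → Matrix (Fin (2 * m)) (Fin (2 * m)) ℚ) × Matrix (Fin N) (Fin N) ℚ =>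
        (fun i => cq (X.1 i), cq X.2)) '' (𝔪 : Set _)) →
      ∀ X : Fin k → Matrix (Fin (2 * m)) (Fin (2 * m)) ℚ, (∀ i, X i * A + A * (X i)ᵀ = 0) → (X, 0) ∈ 𝔪 := by
  classical
  obtain ⟨G0, hG0⟩ := tup_lie kw nf td rb wf hm hβ
  refine ⟨G0, fun G hG => ?_⟩
  obtain ⟨E, hE⟩ := hG0 G hG
  refine ⟨E, fun H t ht => ?_⟩
  obtain ⟨hlt, h2⟩ := hE H t ht
  refine ⟨hlt, fun C M q hC hq hM => ?_⟩
  obtain ⟨S, hS, hS2⟩ := h2 C M q hC hq hM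
  refine ⟨S, hS, fun A κ hκ hA N U hU => ?_⟩
  obtain ⟨ΨW, hΨW⟩ := Pool.Agent.Y658.MT.op N U hU
  refine ⟨(Finset.Icc 1 H).filter fun u => u ∉ S ∧ Bad β (t - G * u) C A ΨW, ?_, ?_⟩
  · set S' := (Finset.Icc 1 H).filter fun u => u ∉ S ∧ Bad β (t - G * u) C A ΨW with hS'
    have hmem : ∀ i : Fin S'.card, 1 ≤ S'.orderEmbOfFin rfl i ∧ S'.orderEmbOfFin rfl i ≤ H ∧ S'.orderEmbOfFin rfl i ∉ S ∧
        Bad β (t - G * S'.orderEmbOfFin rfl i) C A ΨW := by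
      intro i
      have h3 : S'.orderEmbOfFin rfl i ∈ S' := Finset.orderEmbOfFin_mem S' rfl i
      have h4 := Finset.mem_filter.1 h3
      have h5 := Finset.mem_Icc.1 h4.1
      exact ⟨h5.1, h5.2, h4.2.1, h4.2.2⟩
    choose Fil Hh hFil hHh Φ hΦ 𝔫 hbr hmm X hX hXn using fun i => (hmem i).2.2.2
    obtain ⟨hAA, hl⟩ := hS2 S'.card (fun i => S'.orderEmbOfFin rfl i) (fun i j h => (S'.orderEmbOfFin rfl).injective h)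
      (fun i => ⟨(hmem i).1, (hmem i).2.1, (hmem i).2.2.1⟩) (fun _ => A) (fun _ => κ) (fun _ => hκ) (fun _ => hA) Fil Hh hFil hHh
    rcases Nat.eq_zero_or_pos S'.card with h0 | h0
    · rw [h0, zero_mul]
      exact Nat.zero_le _
    · have h5 := bad_card sim int dim (hAA ⟨0, h0⟩).1 (hAA ⟨0, h0⟩).2 hl Φ ΨW hΦ 𝔫 hbr hmm X hX hXn
      have h6 : (2 * m + 1).choose 2 = m * (2 * m + 1) := by
        rw [Nat.choose_two_right, Nat.add_sub_cancel, show (2 * m + 1) * (2 * m) = m * (2 * m + 1) * 2 by ring,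
          Nat.mul_div_cancel _ (by norm_num)]
      rw [h6] at h5
      exact h5
  · intro k u hu huS Fil Hh hFil hHh
    obtain ⟨hAA, hl⟩ := hS2 k u hu (fun i => ⟨(huS i).1, (huS i).2.1, (huS i).2.2.1⟩) (fun _ => A) (fun _ => κ) (fun _ => hκ)
      (fun _ => hA) Fil Hh hFil hHh
    refine ⟨hAA, fun Φ ΦW hΦ hΦW 𝔪 hbr hmm => ?_⟩
    have huW : ΦW = ΨW := by
      let K : Submodule ℂ (Fin N → ℂ) :=
        { carrier := {z | z ᵥ* ΦW = z ᵥ* ΨW}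
          add_mem' := fun {a b} ha hb => by
            show (a + b) ᵥ* ΦW = (a + b) ᵥ* ΨW
            rw [add_vecMul, add_vecMul, show a ᵥ* ΦW = a ᵥ* ΨW from ha, show b ᵥ* ΦW = b ᵥ* ΨW from hb]
          zero_mem' := by
            show (0 : Fin N → ℂ) ᵥ* ΦW = 0 ᵥ* ΨW
            rw [zero_vecMul, zero_vecMul]
          smul_mem' := fun c a ha => by
            show (c • a) ᵥ* ΦW = (c • a) ᵥ* ΨW
            rw [smul_vecMul, smul_vecMul, show a ᵥ* ΦW = a ᵥ* ΨW from ha] }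
      have hK : K = ⊤ := by
        rw [eq_top_iff, ← hU.submodule_iSup_eq_top]
        refine iSup_le fun p z hz => ?_
        show z ᵥ* ΦW = z ᵥ* ΨW
        rw [hΦW p z hz, hΨW p z hz]
      ext i j
      have h3 : (Pi.single i (1 : ℂ) : Fin N → ℂ) ∈ K := hK ▸ Submodule.mem_top
      have h4 := congrFun (show Pi.single i (1 : ℂ) ᵥ* ΦW = Pi.single i (1 : ℂ) ᵥ* ΨW from h3) j
      rwa [single_one_vecMul, single_one_vecMul] at h4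
    have hproj := proj_all hl Φ ΦW hΦ 𝔪 hbr hmm
    refine rb (Fin k) (2 * m) N (fun _ => A) (fun i => (hAA i).1) (fun i => (hAA i).2) 𝔪 hbr ?_ ?_
    · intro i j hij X hX
      obtain ⟨Y, hY, hYX⟩ := hproj (Pi.single i X) (fun l => by
        by_cases hl : l = i
        · subst hl
          rw [Pi.single_eq_same]
          exact hX
        · rw [Pi.single_eq_of_ne hl, Matrix.zero_mul, Matrix.transpose_zero, Matrix.mul_zero, add_zero])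
      exact ⟨Y, hY, by rw [hYX, Pi.single_eq_same], by rw [hYX, Pi.single_eq_of_ne (Ne.symm hij)]⟩
    · intro i X hX
      let π : (Fin k → Matrix (Fin (2 * m)) (Fin (2 * m)) ℚ) × Matrix (Fin N) (Fin N) ℚ →ₗ[ℚ]
          Matrix (Fin (2 * m)) (Fin (2 * m)) ℚ × Matrix (Fin N) (Fin N) ℚ :=
        { toFun := fun Y => (Y.1 i, Y.2)
          map_add' := fun _ _ => rfl
          map_smul' := fun _ _ => rfl }
      let πC : (Fin k → Matrix (Fin (2 * m)) (Fin (2 * m)) ℂ) × Matrix (Fin N) (Fin N) ℂ →ₗ[ℂ]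
          Matrix (Fin (2 * m)) (Fin (2 * m)) ℂ × Matrix (Fin N) (Fin N) ℂ :=
        { toFun := fun Y => (Y.1 i, Y.2)
          map_add' := fun _ _ => rfl
          map_smul' := fun _ _ => rfl }
      by_contra hcon
      have hbad : Bad β (t - G * u i) C A ΨW := by
        refine ⟨Fil i, Hh i, hFil i, hHh i, Φ i, hΦ i, 𝔪.map π, ?_, ?_, X, hX, ?_⟩
        · rintro _ ⟨Y, hY, rfl⟩ _ ⟨Y', hY', rfl⟩
          exact ⟨_, hbr Y hY Y' hY', rfl⟩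
        · rw [← huW]
          have h2 := Submodule.mem_map_of_mem (f := πC) hmm
          rw [Submodule.map_span] at h2
          refine Submodule.span_mono ?_ h2
          rintro _ ⟨_, ⟨Y, hY, rfl⟩, rfl⟩
          exact ⟨(Y.1 i, Y.2), ⟨Y, hY, rfl⟩, rfl⟩
        · rintro ⟨Y, hY, hYX⟩
          exact hcon ⟨Y, hY, congrArg Prod.fst hYX, congrArg Prod.snd hYX⟩
      refine (huS i).2.2.2 ?_
      rw [Finset.mem_filter, Finset.mem_Icc]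
      exact ⟨⟨(huS i).1, (huS i).2.1⟩, (huS i).2.2.1, hbad⟩

end

end Pool.Agent.Y113.MT
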