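import Pool.Agent.Y113.MT.Arb

/-!
# Hodge classes on products of fibres and an arbitrary variety
-/

set_option autoImplicit false
set_option maxHeartbeats 1000000

open Matrix PowerSeries Pool.Agent.Y119.HY Pool.Agent.Y119.HZ Pool.Agent.Y118.CM

namespace Pool.Agent.Y113.MT

section
variable {m : ℕ} {β : Fin m → ℚ}

/-- from Lie algebras to tensors -/
lemma tens_of_lie (tn : S_TN) (fqc : S_FQC) (tyc : S_TYC) (tbc : S_TBC) (hm : 2 ≤ m) {k N : ℕ}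
    (A : Fin k → Matrix (Fin (2 * m)) (Fin (2 * m)) ℚ) (hAA : ∀ i, (A i)ᵀ = -A i ∧ (A i).det ≠ 0)
    (Hh : Fin k → ℕ → Submodule ℂ (Fin (2 * m) → ℂ)) (B : Fin k → Matrix (Fin (2 * m)) (Fin (2 * m)) ℂ) (cc : Fin k → ℂ)
    (hc : ∀ i, cc i ≠ 0) (hBd : ∀ i, (B i).det ≠ 0) (hBA : ∀ i, B i * cq (A i) * (B i)ᵀ = cc i • SS ℂ (2 * m))
    (hHB : ∀ i, ∀ p < 2 * m, ∀ v ∈ Hh i p, ∀ l : Fin (2 * m), (l : ℕ) ≠ 2 * m - 1 - p → (v ᵥ* (B i)⁻¹) l = 0)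
    (U : ℤ → Submodule ℂ (Fin N → ℂ)) (hU : DirectSum.IsInternal U)
    (hlie : ∀ (Φ : Fin k → Matrix (Fin (2 * m)) (Fin (2 * m)) ℂ) (ΦW : Matrix (Fin N) (Fin N) ℂ),
      (∀ i, ∀ p < 2 * m, ∀ v ∈ Hh i p, v ᵥ* Φ i = (p : ℂ) • v) → (∀ p, ∀ z ∈ U p, z ᵥ* ΦW = (p : ℂ) • z) →
      ∀ 𝔪 : Submodule ℚ ((Fin k → Matrix (Fin (2 * m)) (Fin (2 * m)) ℚ) × Matrix (Fin N) (Fin N) ℚ),
      (∀ X ∈ 𝔪, ∀ Y ∈ 𝔪, ((fun i => X.1 i * Y.1 i - Y.1 i * X.1 i), X.2 * Y.2 - Y.2 * X.2) ∈ 𝔪) →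
      (Φ, ΦW) ∈ Submodule.span ℂ ((fun X : (Fin k → Matrix (Fin (2 * m)) (Fin (2 * m)) ℚ) × Matrix (Fin N) (Fin N) ℚ =>
        (fun i => cq (X.1 i), cq X.2)) '' (𝔪 : Set _)) →
      ∀ X : Fin k → Matrix (Fin (2 * m)) (Fin (2 * m)) ℚ, (∀ i, X i * A i + A i * (X i)ᵀ = 0) → (X, 0) ∈ 𝔪)
    (r j : ℕ) (c : Fin r → Fin k) (P : ℤ) (T : (Fin r → Fin (2 * m)) → (Fin j → Fin N) → ℚ)
    (hT : (fun J K => ((T J K : ℚ) : ℂ)) ∈ Submodule.span ℂ {f : (Fin r → Fin (2 * m)) → (Fin j → Fin N) → ℂ |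
        ∃ (p : Fin r → ℕ) (v : Fin r → Fin (2 * m) → ℂ) (q : Fin j → ℤ) (w : Fin j → Fin N → ℂ),
        (∀ a, p a < 2 * m ∧ v a ∈ Hh (c a) (p a)) ∧ (∀ b, w b ∈ U (q b)) ∧ ∑ a, (p a : ℤ) + ∑ b, q b = P ∧
        f = fun J K => (∏ a, v a (J a)) * ∏ b, w b (K b)}) :
      T ∈ Submodule.span ℚ {f : (Fin r → Fin (2 * m)) → (Fin j → Fin N) → ℚ |
        ∃ (s : ℕ) (e : Fin s × Fin 2 ≃ Fin r) (z : (Fin j → Fin N) → ℚ), (∀ l, c (e (l, 0)) = c (e (l, 1))) ∧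
        (fun K => ((z K : ℚ) : ℂ)) ∈ TW U j (P - (s : ℤ) * (2 * (m : ℤ) - 1)) ∧
        f = fun J K => (∏ l, (A (c (e (l, 0))))⁻¹ (J (e (l, 0))) (J (e (l, 1)))) * z K} := by
  obtain ⟨ΦW, hΦW⟩ := Pool.Agent.Y658.MT.op N U hU
  have hΦ := fun i => op_of_adapted (hBd i) (hHB i)
  have hinv := tn k (2 * m) N r j c A (fun i => (hAA i).1) (fun i => (hAA i).2) Hh U _ ΦW hΦ hΦW (fun 𝔪 hbr hmem X hX =>
    hlie _ ΦW hΦ hΦW 𝔪 hbr hmem X hX) P T hT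
  -- the reindexed tensor
  set T' : (Fin r → Fin (2 * m)) → Fin (Fintype.card (Fin j → Fin N)) → ℚ := fun J i => T J ((en N j).symm i) with hT'
  have hcav : ∀ X : Fin k → Matrix (Fin (2 * m)) (Fin (2 * m)) ℚ, (∀ i, X i * A i + A i * (X i)ᵀ = 0) → cav c X T' = 0 := by
    intro X hX
    funext J i
    have h3 := congrFun (congrFun (hinv X hX) J) ((en N j).symm i)
    unfold cact at h3
    unfold cav
    rw [Finset.sum_apply]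
    simp only [Matrix.zero_apply, zero_mul, Finset.sum_const_zero, add_zero, Pi.zero_apply] at h3
    rw [Pi.zero_apply, Pi.zero_apply, ← h3]
    refine Finset.sum_congr rfl fun a _ => ?_
    rw [Finset.sum_apply]
    refine Finset.sum_congr rfl fun l _ => ?_
    rw [Pi.smul_apply, smul_eq_mul]
  let RC : ((Fin r → Fin (2 * m)) → (Fin j → Fin N) → ℂ) →ₗ[ℂ] ((Fin r → Fin (2 * m)) → Fin (Fintype.card (Fin j → Fin N)) → ℂ) :=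
    { toFun := fun f J i => f J ((en N j).symm i)
      map_add' := fun _ _ => rfl
      map_smul' := fun _ _ => rfl }
  have h1 : (fun J i => ((T' J i : ℚ) : ℂ)) ∈ Submodule.span ℂ {f : (Fin r → Fin (2 * m)) → Fin (Fintype.card (Fin j → Fin N)) → ℂ |
      ∃ (p0 : ℤ) (z : Fin (Fintype.card (Fin j → Fin N)) → ℂ) (p : Fin r → ℕ)
      (v : Fin r → Fin (2 * m) → ℂ), z ∈ (TW U j p0).map (LL ℂ N j).toLinearMap ∧ (∀ a, p a < 2 * m ∧ v a ∈ Hh (c a) (p a)) ∧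
      p0 + ∑ a, (p a : ℤ) = P ∧ f = fun J i => (∏ a, v a (J a)) * z i} := by
    have h2 := Submodule.mem_map_of_mem (f := RC) hT
    rw [Submodule.map_span] at h2
    refine Submodule.span_mono ?_ h2
    rintro _ ⟨_, ⟨p, v, q, w, hp, hw, hsum, rfl⟩, rfl⟩
    refine ⟨∑ b, q b, LL ℂ N j fun K => ∏ b, w b (K b), p, v, ⟨_, Submodule.subset_span ⟨q, w, hw, rfl, rfl⟩, rfl⟩, hp, ?_, rfl⟩
    rw [add_comm]
    exact hsum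
  have htype := tbc m k _ r c B Hh (fun p => (TW U j p).map (LL ℂ N j).toLinearMap) P _ hHB h1
  have h3 := tyc m k _ r c A B cc (fun p => (TW U j p).map (LL ℂ N j).toLinearMap) P T' (by omega) hc hBA htype
    (fqc k (2 * m) _ r c A (fun i => (hAA i).2) (fun i => (hAA i).1) T' hcav)
  -- back
  let RQ : ((Fin r → Fin (2 * m)) → Fin (Fintype.card (Fin j → Fin N)) → ℚ) →ₗ[ℚ] ((Fin r → Fin (2 * m)) → (Fin j → Fin N) → ℚ) :=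
    { toFun := fun f J K => f J (en N j K)
      map_add' := fun _ _ => rfl
      map_smul' := fun _ _ => rfl }
  have h6 : RQ T' = T := by
    funext J K
    show T J ((en N j).symm (en N j K)) = T J K
    rw [Equiv.symm_apply_apply]
  have h7 := Submodule.mem_map_of_mem (f := RQ) h3
  rw [h6, Submodule.map_span] at h7
  refine Submodule.span_mono ?_ h7
  rintro _ ⟨_, ⟨s, e, w, he, hw, rfl⟩, rfl⟩
  refine ⟨s, e, fun K => w (en N j K), he, ?_, rfl⟩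
  obtain ⟨z, hz, hzw⟩ := hw
  have h8 : (fun K => ((w (en N j K) : ℚ) : ℂ)) = z := by
    funext K
    have h9 := congrFun hzw (en N j K)
    have h10 : LL ℂ N j z (en N j K) = z K := by
      rw [LL_apply, Equiv.symm_apply_apply]
    rw [← h10]
    exact h9.symm
  rw [h8]
  exact hz

/-- **Hodge classes on products of fibres and an arbitrary variety.** -/
theorem arb_tensor (kw : S_KW) (nf : S_NF) (td : S_TD) (rb : S_RB) (wf : S_WF) (tn : S_TN) (fqc : S_FQC) (tyc : S_TYC)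
    (tbc : S_TBC) (sim : S_SIM) (int : S_INT) (dim : S_DIM) (hm : 2 ≤ m) (hβ : ∀ j, ∀ a : ℤ, β j ≠ a) :
    ∃ G0 : ℕ, ∀ G : ℕ, G0 ≤ G → ∃ E : ℕ, ∀ H t : ℕ, (H + 2) ^ E ≤ t → (∀ u ≤ H, G * u + 2 ≤ t) ∧
      ∀ (C : Matrix (Fin (2 * m)) (Fin (2 * m)) ℂ) (M : Matrix (Fin (2 * m)) (Fin (2 * m)) ℚ) (q : ℂ), C.det ≠ 0 → q ≠ 0 →
      C * cq M = q • (NN ℂ (2 * m) * C) → ∃ S : Finset ℕ, S.card ≤ m + 2 ∧
      ∀ (A : Matrix (Fin (2 * m)) (Fin (2 * m)) ℚ) (κ : ℂ), κ ≠ 0 → C * cq A * Cᵀ = κ • SS ℂ (2 * m) →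
      ∀ (N : ℕ) (U : ℤ → Submodule ℂ (Fin N → ℂ)), DirectSum.IsInternal U →
      ∃ S' : Finset ℕ, S'.card * (m * (2 * m + 1)) ≤ N ^ 2 ∧
      ∀ (k : ℕ) (u : Fin k → ℕ), Function.Injective u → (∀ i, 1 ≤ u i ∧ u i ≤ H ∧ u i ∉ S ∧ u i ∉ S') →
      ∀ Fil Hh : Fin k → ℕ → Submodule ℂ (Fin (2 * m) → ℂ),
      (∀ i p, m ≤ p → Fil i p = Fl β (t - G * u i) C p) → (∀ i, Polarised (Fil i) A (Hh i)) →
      (∀ (Φ : Fin k → Matrix (Fin (2 * m)) (Fin (2 * m)) ℂ) (ΦW : Matrix (Fin N) (Fin N) ℂ),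
      (∀ i, ∀ p < 2 * m, ∀ v ∈ Hh i p, v ᵥ* Φ i = (p : ℂ) • v) → (∀ p, ∀ z ∈ U p, z ᵥ* ΦW = (p : ℂ) • z) →
      ∀ 𝔪 : Submodule ℚ ((Fin k → Matrix (Fin (2 * m)) (Fin (2 * m)) ℚ) × Matrix (Fin N) (Fin N) ℚ),
      (∀ X ∈ 𝔪, ∀ Y ∈ 𝔪, ((fun i => X.1 i * Y.1 i - Y.1 i * X.1 i), X.2 * Y.2 - Y.2 * X.2) ∈ 𝔪) →
      (Φ, ΦW) ∈ Submodule.span ℂ ((fun X : (Fin k → Matrix (Fin (2 * m)) (Fin (2 * m)) ℚ) × Matrix (Fin N) (Fin N) ℚ =>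
        (fun i => cq (X.1 i), cq X.2)) '' (𝔪 : Set _)) →
      ∀ X : Fin k → Matrix (Fin (2 * m)) (Fin (2 * m)) ℚ, (∀ i, X i * A + A * (X i)ᵀ = 0) → (X, 0) ∈ 𝔪) ∧
      ∀ (r j : ℕ) (c : Fin r → Fin k) (P : ℤ) (T : (Fin r → Fin (2 * m)) → (Fin j → Fin N) → ℚ),
      (fun J K => ((T J K : ℚ) : ℂ)) ∈ Submodule.span ℂ {f : (Fin r → Fin (2 * m)) → (Fin j → Fin N) → ℂ |
        ∃ (p : Fin r → ℕ) (v : Fin r → Fin (2 * m) → ℂ) (q : Fin j → ℤ) (w : Fin j → Fin N → ℂ),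
        (∀ a, p a < 2 * m ∧ v a ∈ Hh (c a) (p a)) ∧ (∀ b, w b ∈ U (q b)) ∧ ∑ a, (p a : ℤ) + ∑ b, q b = P ∧
        f = fun J K => (∏ a, v a (J a)) * ∏ b, w b (K b)} →
      T ∈ Submodule.span ℚ {f : (Fin r → Fin (2 * m)) → (Fin j → Fin N) → ℚ |
        ∃ (s : ℕ) (e : Fin s × Fin 2 ≃ Fin r) (z : (Fin j → Fin N) → ℚ), (∀ l, c (e (l, 0)) = c (e (l, 1))) ∧
        (fun K => ((z K : ℚ) : ℂ)) ∈ TW U j (P - (s : ℤ) * (2 * (m : ℤ) - 1)) ∧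
        f = fun J K => (∏ l, A⁻¹ (J (e (l, 0))) (J (e (l, 1)))) * z K} := by
  obtain ⟨hQ, -⟩ := hQ_of hm hβ
  obtain ⟨G0, hG0⟩ := arb_lie kw nf td rb wf sim int dim hm hβ
  refine ⟨G0, fun G hG => ?_⟩
  obtain ⟨E, hE⟩ := hG0 G hG
  refine ⟨E, fun H t ht => ?_⟩
  obtain ⟨hlt, h2⟩ := hE H t ht
  refine ⟨hlt, fun C M q hC hq hM => ?_⟩
  obtain ⟨S, hS, hS2⟩ := h2 C M q hC hq hM
  refine ⟨S, hS, fun A κ hκ hA N U hU => ?_⟩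
  obtain ⟨S', hS', hS3⟩ := hS2 A κ hκ hA N U hU
  refine ⟨S', hS', fun k u hu huS Fil Hh hFil hHh => ?_⟩
  obtain ⟨hAA, hlie⟩ := hS3 k u hu huS Fil Hh hFil hHh
  refine ⟨hlie, fun r j c P T hT => ?_⟩
  have h2t : ∀ i, 2 ≤ t - G * u i := fun i => by
    have := hlt (u i) (huS i).2.1
    omega
  choose hAt B cc hc hBd hBA hBH hHB using fun i : Fin k => adapted (by omega) hQ (h2t i) hC hκ hA (hFil i) (hHh i)
  exact tens_of_lie tn fqc tyc tbc hm (fun _ => A) (fun i => hAA i) Hh B cc hc hBd hBA hHB U hU hlie r j c P T hT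

end

end Pool.Agent.Y113.MT
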