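import Pool.Agent.Y113.MT.Ult2
import Pool.Agent.Y412.MT.Lie1
import Pool.Agent.Y961.MT.Lie2
import Pool.Agent.Y195.MT.LIE3
import Pool.Agent.Y155.MT.Fin
import Pool.Agent.Y155.MT.EB
import Pool.Agent.Y872.MT.Gen
import Pool.Agent.Y31.MT.Idx
import Pool.Agent.Y118.CM.Cz
import Pool.Agent.Y118.CM.Cl

/-!
# The assembly of the project MT
-/

set_option autoImplicit false
set_option maxHeartbeats 1000000

open Matrix PowerSeries Pool.Agent.Y119.HY Pool.Agent.Y119.HZ Pool.Agent.Y118.CM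

namespace Pool.Agent.Y113.MT

lemma cm_cq {n : ℕ} (X : Matrix (Fin n) (Fin n) ℚ) : cm X = cq X := rfl

lemma NN_eq (n : ℕ) : NN ℂ n = cm (Am n) := by
  ext i j
  rw [cm_apply]
  unfold NN Am
  rw [Matrix.of_apply, Matrix.of_apply]
  split_ifs <;> simp

lemma SS_eq (n : ℕ) : SS ℂ n = cm (J0 n) := by
  ext i j
  rw [cm_apply]
  unfold SS J0
  rw [Matrix.of_apply, Matrix.of_apply]
  split_ifs <;> simp

lemma cq_inj {n : ℕ} {X Y : Matrix (Fin n) (Fin n) ℚ} (h : cq X = cq Y) : X = Y := by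
  ext i j
  have h1 := congrFun (congrFun h i) j
  rw [cq_apply, cq_apply] at h1
  exact_mod_cast h1

/-- the holomorphic part is symplectic -/
lemma Hf_form {n : ℕ} {Q : Polynomial ℚ} (hQ : QD n Q) {t : ℕ} (ht1 : 2 ≤ t) :
    (Hf (Hc n Q) (((1 / (t : ℝ) : ℝ)) : ℂ)).transpose * cm (Jm n Q) * Hf (Hc n Q) (((1 / (t : ℝ) : ℝ)) : ℂ) =
      cm (Jm n Q) := by
  have h1 := Yt_form hQ ht1
  have hN : cm (Am n) ^ n = 0 := Pool.Agent.Y119.HY.Ac_nil
  have hNJ : (cm (Am n)).transpose * cm (Jm n Q) + cm (Jm n Q) * cm (Am n) = 0 := Pool.Agent.Y119.HY.Jc_rel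
  have i2 := E_isom hN hNJ ((Real.log t : ℝ) : ℂ)
  have h3 : Hf (Hc n Q) (((1 / (t : ℝ) : ℝ)) : ℂ) = Yt n Q t * E (cm (Am n)) ((Real.log t : ℝ) : ℂ) := by
    unfold Yt
    have h4 : E (cm (Am n)) (-((Real.log t : ℝ) : ℂ)) * E (cm (Am n)) ((Real.log t : ℝ) : ℂ) = 1 := by
      have := E_mul_neg hN (-((Real.log t : ℝ) : ℂ))
      rwa [neg_neg] at this
    rw [Matrix.mul_assoc, h4, mul_one]
  rw [h3]
  exact isom_mul h1 i2

/-- the rows of the matrix `D(N)` -/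
lemma DN_row {m : ℕ} (β : Fin m → ℚ) (a : Fin (2 * m)) : (cm (DN β)) a = fun c : Fin (2 * m) => (Pool.Agent.Y118.CM.dd β a c : ℂ) := by
  funext c
  rw [cm_apply]
  congr 1
  unfold Pool.Agent.Y118.CM.dd DN
  rw [aeval_Am, Polynomial.coeff_mul_X_pow']

section
variable {m : ℕ} {β : Fin m → ℚ}

/-- the inverse of the form -/
lemma DN_J (hQ : QD (2 * m) (QB β)) : cm (DN β) * (cm (Jm (2 * m) (QB β)))⁻¹ * (cm (DN β))ᵀ =
    (-(-1 : ℂ) ^ m) • cm (J0 (2 * m)) := by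
  set J := cm (Jm (2 * m) (QB β)) with hJ
  set D := cm (DN β) with hD
  set S := cm (J0 (2 * m)) with hS
  have hform : Dᵀ * S * D = ((-1 : ℂ) ^ m) • J := form_relc
  have hJu : IsUnit J.det := isUnit_iff_ne_zero.2 (Jc_det hQ)
  have hSS : S * S = -1 := by
    rw [hS, ← cm_mul, J0_sq ⟨m, by ring⟩, cm_neg, cm_one]
  have h1 : J * (((-(-1 : ℂ) ^ m)) • (D⁻¹ * S * D⁻¹ᵀ)) = 1 := by
    have hDu : IsUnit D.det := isUnit_iff_ne_zero.2 (DN_det hQ)
    have hDTu : IsUnit Dᵀ.det := by rwa [Matrix.det_transpose]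
    have e : J = ((-1 : ℂ) ^ m) • (Dᵀ * S * D) := by
      rw [hform, smul_smul, ← mul_pow]
      norm_num
    rw [e, Matrix.mul_smul, Matrix.smul_mul, smul_smul]
    have e2 : Dᵀ * S * D * (D⁻¹ * S * D⁻¹ᵀ) = -1 := by
      calc Dᵀ * S * D * (D⁻¹ * S * D⁻¹ᵀ) = Dᵀ * S * (D * D⁻¹) * S * D⁻¹ᵀ := by simp only [Matrix.mul_assoc]
        _ = Dᵀ * (S * S) * D⁻¹ᵀ := by
          rw [Matrix.mul_nonsing_inv _ hDu, Matrix.mul_one]
          simp only [Matrix.mul_assoc]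
        _ = -1 := by
          rw [hSS, Matrix.mul_neg, Matrix.mul_one, Matrix.neg_mul, Matrix.transpose_nonsing_inv, Matrix.mul_nonsing_inv _ hDTu]
    rw [e2]
    have e3 : (-(-1 : ℂ) ^ m) * (-1) ^ m = -1 := by
      rw [neg_mul, ← mul_pow]
      norm_num
    rw [e3]
    simp
  have h2 : J⁻¹ = ((-(-1 : ℂ) ^ m)) • (D⁻¹ * S * D⁻¹ᵀ) := Matrix.inv_eq_right_inv h1
  have hDu : IsUnit D.det := isUnit_iff_ne_zero.2 (DN_det hQ)
  have hDTu : IsUnit Dᵀ.det := by rwa [Matrix.det_transpose]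
  rw [h2, Matrix.mul_smul, Matrix.smul_mul]
  congr 1
  calc D * (D⁻¹ * S * D⁻¹ᵀ) * Dᵀ = (D * D⁻¹) * S * (D⁻¹ᵀ * Dᵀ) := by simp only [Matrix.mul_assoc]
    _ = S := by
      rw [Matrix.mul_nonsing_inv _ hDu, Matrix.transpose_nonsing_inv, Matrix.nonsing_inv_mul _ hDTu, Matrix.one_mul, Matrix.mul_one]

/-- the steps of the Hodge filtration -/
noncomputable def Fl (β : Fin m → ℚ) (t : ℕ) (C : Matrix (Fin (2 * m)) (Fin (2 * m)) ℂ) (p : ℕ) :
    Submodule ℂ (Fin (2 * m) → ℂ) :=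
  Submodule.span ℂ {v | ∃ i : ℕ, i + p < 2 * m ∧ v = perr β t i ᵥ* C}

/-- **The data at one point.** -/
theorem index (hm : 1 ≤ m) (hQ : QD (2 * m) (QB β)) {k t : ℕ} (ht : 2 ≤ t)
    (hgen : ∀ K : IntermediateField ℚ ℂ, FiniteDimensional ℚ K → Module.finrank ℚ K ≤ 1 →
      ∀ P : MvPolynomial (Fin (2 * m) × Fin (2 * m)) K, P.totalDegree ≤ k →
      MvPolynomial.aeval (fun x => Hf (Hc (2 * m) (QB β)) (((1 / (t : ℝ) : ℝ)) : ℂ) x.1 x.2) P = 0 →
      ∀ g : Matrix (Fin (2 * m)) (Fin (2 * m)) ℂ, g.transpose * cm (Jm (2 * m) (QB β)) * g = cm (Jm (2 * m) (QB β)) →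
      MvPolynomial.aeval (fun x => g x.1 x.2) P = 0)
    {C : Matrix (Fin (2 * m)) (Fin (2 * m)) ℂ} {M A : Matrix (Fin (2 * m)) (Fin (2 * m)) ℚ} {q κ : ℂ} (hC : C.det ≠ 0)
    (hM : C * cq M = q • (NN ℂ (2 * m) * C)) (hκ : κ ≠ 0) (hA : C * cq A * Cᵀ = κ • SS ℂ (2 * m))
    {Fil H : ℕ → Submodule ℂ (Fin (2 * m) → ℂ)} (hFil : ∀ p, m ≤ p → Fil p = Fl β t C p) (hH : Polarised Fil A H) {r : ℕ}
    {x : Fin r → Matrix (Fin (2 * m)) (Fin (2 * m)) ℚ} (hbr : ∀ a b, x a * x b - x b * x a ∈ Submodule.span ℚ (Set.range x))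
    (hPm : ∀ Φ : Matrix (Fin (2 * m)) (Fin (2 * m)) ℂ, (∀ p < 2 * m, ∀ v ∈ H p, v ᵥ* Φ = (p : ℂ) • v) →
      Φ ∈ Submodule.span ℂ (Set.range fun a => cq (x a))) :
    ∃ (g G B Λ Φ : Matrix (Fin (2 * m)) (Fin (2 * m)) ℂ) (κ' c : ℂ),
      ID (Jm (2 * m) (QB β)) (DN β) q k g G B Λ Φ M A x κ' c := by
  set J := cm (Jm (2 * m) (QB β)) with hJ
  set g := Hf (Hc (2 * m) (QB β)) (((1 / (t : ℝ) : ℝ)) : ℂ) with hg
  set G := Cc β t C with hG
  set S := cm (J0 (2 * m)) with hS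
  have hJd : J.det ≠ 0 := Jc_det hQ
  have hJu : IsUnit J.det := isUnit_iff_ne_zero.2 hJd
  have hCu : IsUnit C.det := isUnit_iff_ne_zero.2 hC
  have hCTu : IsUnit Cᵀ.det := by rwa [Matrix.det_transpose]
  have hGd : G.det ≠ 0 := Cc_det hQ t hC
  have hGu : IsUnit G.det := isUnit_iff_ne_zero.2 hGd
  have hSS : S * S = -1 := by
    rw [hS, ← cm_mul, J0_sq ⟨m, by ring⟩, cm_neg, cm_one]
  have hgJ : gᵀ * J * g = J := Hf_form hQ ht
  have hA' : C * cq A * Cᵀ = κ • S := by rw [hA, SS_eq]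
  -- `A` in terms of `C`
  have hCSC : (Cᵀ * S * C) * cq A = -κ • (1 : Matrix (Fin (2 * m)) (Fin (2 * m)) ℂ) := by
    have e1 : (Cᵀ * S * C) * cq A * Cᵀ = -κ • Cᵀ := by
      calc (Cᵀ * S * C) * cq A * Cᵀ = Cᵀ * S * (C * cq A * Cᵀ) := by simp only [Matrix.mul_assoc]
        _ = κ • (Cᵀ * (S * S)) := by rw [hA', Matrix.mul_smul, Matrix.mul_assoc]
        _ = -κ • Cᵀ := by rw [hSS, Matrix.mul_neg, Matrix.mul_one, smul_neg, neg_smul]
    calc (Cᵀ * S * C) * cq A = (Cᵀ * S * C) * cq A * (Cᵀ * Cᵀ⁻¹) := by rw [Matrix.mul_nonsing_inv _ hCTu, Matrix.mul_one]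
      _ = (-κ • Cᵀ) * Cᵀ⁻¹ := by rw [← e1]; simp only [Matrix.mul_assoc]
      _ = _ := by rw [Matrix.smul_mul, Matrix.mul_nonsing_inv _ hCTu]
  have hpol : Gᵀ * J * G = ((-1 : ℂ) ^ m * 1) • (Cᵀ * S * C) := Cc_pol hQ t (by rw [one_smul])
  rw [mul_one] at hpol
  have hGA : G * cq A * Gᵀ = (-κ * (-1) ^ m) • J⁻¹ := by
    have e1 : (Gᵀ * J * G) * cq A = (-κ * (-1) ^ m) • (1 : Matrix (Fin (2 * m)) (Fin (2 * m)) ℂ) := by
      rw [hpol, Matrix.smul_mul, hCSC, smul_smul]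
      congr 1
      ring
    have e2 : J * G * cq A * Gᵀ = (-κ * (-1) ^ m) • (1 : Matrix (Fin (2 * m)) (Fin (2 * m)) ℂ) := by
      have hGTu : IsUnit Gᵀ.det := by rwa [Matrix.det_transpose]
      calc J * G * cq A * Gᵀ = Gᵀ⁻¹ * Gᵀ * (J * G * cq A * Gᵀ) := by rw [Matrix.nonsing_inv_mul _ hGTu, Matrix.one_mul]
        _ = Gᵀ⁻¹ * ((Gᵀ * J * G) * cq A) * Gᵀ := by simp only [Matrix.mul_assoc]
        _ = (-κ * (-1) ^ m) • (Gᵀ⁻¹ * Gᵀ) := by rw [e1, Matrix.mul_smul, Matrix.smul_mul, Matrix.mul_one]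
        _ = _ := by rw [Matrix.nonsing_inv_mul _ hGTu]
    calc G * cq A * Gᵀ = J⁻¹ * J * (G * cq A * Gᵀ) := by rw [Matrix.nonsing_inv_mul _ hJu, Matrix.one_mul]
      _ = J⁻¹ * (J * G * cq A * Gᵀ) := by simp only [Matrix.mul_assoc]
      _ = _ := by rw [e2, Matrix.mul_smul, Matrix.mul_one]
  have hk' : (-κ * (-1) ^ m) ≠ 0 := mul_ne_zero (neg_ne_zero.2 hκ) (pow_ne_zero _ (by norm_num))
  have hAt : Aᵀ = -A := by
    apply cq_inj
    rw [cq_neg, cq_tr]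
    have hSt : Sᵀ = -S := by
      rw [hS, ← SS_eq]
      exact SS_tr m
    have h1 : C * (cq A)ᵀ * Cᵀ = C * (-cq A) * Cᵀ := by
      have h2 := congrArg Matrix.transpose hA'
      rw [Matrix.transpose_mul, Matrix.transpose_mul, Matrix.transpose_transpose, Matrix.transpose_smul, hSt, smul_neg,
        ← hA'] at h2
      rw [Matrix.mul_neg, Matrix.neg_mul, ← h2, Matrix.mul_assoc]
    have h2 := congrArg (fun Z => C⁻¹ * Z * Cᵀ⁻¹) h1
    have h3 : ∀ Z : Matrix (Fin (2 * m)) (Fin (2 * m)) ℂ, C⁻¹ * (C * Z * Cᵀ) * Cᵀ⁻¹ = Z := by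
      intro Z
      calc C⁻¹ * (C * Z * Cᵀ) * Cᵀ⁻¹ = (C⁻¹ * C) * Z * (Cᵀ * Cᵀ⁻¹) := by simp only [Matrix.mul_assoc]
        _ = Z := by rw [Matrix.nonsing_inv_mul _ hCu, Matrix.mul_nonsing_inv _ hCTu, Matrix.one_mul, Matrix.mul_one]
    simp only [h3] at h2
    exact h2
  -- the matrix `P`
  set P := cq (DN β) * (g * G) with hP
  have hgJi : g * J⁻¹ * gᵀ = J⁻¹ := by
    have h1 : (J⁻¹ * gᵀ * J) * g = 1 := by
      rw [Matrix.mul_assoc, Matrix.mul_assoc, ← Matrix.mul_assoc gᵀ, hgJ, Matrix.nonsing_inv_mul _ hJu]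
    have h2 : g * (J⁻¹ * gᵀ * J) = 1 := mul_eq_one_comm.1 h1
    calc g * J⁻¹ * gᵀ = (g * (J⁻¹ * gᵀ * J)) * J⁻¹ := by
          simp only [Matrix.mul_assoc]
          rw [Matrix.mul_nonsing_inv _ hJu, Matrix.mul_one]
      _ = _ := by rw [h2, Matrix.one_mul]
  have hPA : P * cq A * Pᵀ = (κ • (1 : ℂ)) • S := by
    calc P * cq A * Pᵀ = cq (DN β) * (g * (G * cq A * Gᵀ) * gᵀ) * (cq (DN β))ᵀ := by
          rw [hP, Matrix.transpose_mul, Matrix.transpose_mul]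
          simp only [Matrix.mul_assoc]
      _ = (-κ * (-1) ^ m) • (cq (DN β) * J⁻¹ * (cq (DN β))ᵀ) := by
          rw [hGA, Matrix.mul_smul, Matrix.smul_mul, hgJi, Matrix.mul_smul, Matrix.smul_mul]
      _ = _ := by
          have h1 := DN_J hQ
          rw [cm_cq] at h1
          rw [h1, smul_smul]
          congr 1
          have e3 : ((-1 : ℂ)) ^ m * (-1) ^ m = 1 := by
            rw [← mul_pow]
            norm_num
          rw [smul_eq_mul]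
          linear_combination κ * e3
  have hPd : P.det ≠ 0 := by
    intro h0
    have h1 := congrArg Matrix.det hPA
    rw [Matrix.det_mul, Matrix.det_mul, h0, zero_mul, zero_mul, Matrix.det_smul] at h1
    have h2 : S.det ≠ 0 := by
      intro h3
      have h4 := congrArg Matrix.det hSS
      rw [Matrix.det_mul, h3, zero_mul] at h4
      have h5 : (-1 : Matrix (Fin (2 * m)) (Fin (2 * m)) ℂ).det ≠ 0 := by
        rw [Matrix.det_neg, Matrix.det_one, mul_one]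
        exact pow_ne_zero _ (by norm_num)
      exact h5 h4.symm
    refine mul_ne_zero (pow_ne_zero _ ?_) h2 h1.symm
    simpa using hκ
  have hProw : ∀ a : Fin (2 * m), (a : ℕ) < m → P a = perr β t a ᵥ* C := by
    intro a ha
    rw [perr_C hQ (by omega) ht C, ← hg, ← hG, ← DN_row β a, vecMul_vecMul]
    rfl
  obtain ⟨B, Λ, c, hc, hBA, hBs, hBH, hBL, hLl⟩ := Pool.Agent.Y31.MT.idx m hm Fil H A P hH hAt hPd (by
    intro a b hab
    rw [hPA, Matrix.smul_apply, hS, cm_apply]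
    unfold J0
    rw [Matrix.of_apply, if_neg (by omega)]
    simp) (by
    intro i hi
    rw [hFil _ (by omega)]
    unfold Fl
    congr 1
    ext v
    constructor
    · rintro ⟨l, hl, rfl⟩
      refine ⟨⟨l, by omega⟩, by show l < i; omega, ?_⟩
      exact (hProw ⟨l, by omega⟩ (by show l < m; omega)).symm
    · rintro ⟨a, ha, rfl⟩
      refine ⟨a, by omega, ?_⟩
      exact hProw a (by omega))
  have hBd : B.det ≠ 0 := by
    intro h0
    have h1 := congrArg Matrix.det hBA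
    rw [Matrix.det_mul, Matrix.det_mul, h0, zero_mul, zero_mul, Matrix.det_smul] at h1
    exact mul_ne_zero (pow_ne_zero _ hc) (SS_det m) h1.symm
  have hBu : IsUnit B.det := isUnit_iff_ne_zero.2 hBd
  set Dg : Matrix (Fin (2 * m)) (Fin (2 * m)) ℂ := Matrix.diagonal (fun i : Fin (2 * m) => ((2 * m - 1 - (i : ℕ) : ℕ) : ℂ)) with hDg
  have hBP : B * (B⁻¹ * Dg * B) = Dg * B := by
    rw [← Matrix.mul_assoc, ← Matrix.mul_assoc, Matrix.mul_nonsing_inv _ hBu, Matrix.one_mul]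
  refine ⟨g, G, B, Λ, B⁻¹ * Dg * B, _, c, hgJ, ?_, hk', hc, ?_, hGA, hBL, hLl, hBA, hBs, hBP, hbr, hPm _ ?_⟩
  · intro R hR h0 h hh
    have h1 := hgen ⊥ inferInstance (by rw [IntermediateField.finrank_bot]) (MvPolynomial.map (algebraMap ℚ (⊥ : IntermediateField ℚ ℂ)) R)
      ((Finset.sup_mono (MvPolynomial.support_map_subset _ _)).trans hR) (by
        rw [MvPolynomial.aeval_map_algebraMap]
        exact h0) h hh
    rwa [MvPolynomial.aeval_map_algebraMap] at h1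
  · have h1 := Cc_mon hQ t (C := C) (M := cq M) (s := q) (by rw [hM, NN_eq])
    rw [← NN_eq] at h1
    exact h1
  · intro p hp v hv
    set w := v ᵥ* B⁻¹ with hw
    have hvw : v = w ᵥ* B := by
      rw [hw, vecMul_vecMul, Matrix.nonsing_inv_mul _ hBu, vecMul_one]
    have hw0 : ∀ i : Fin (2 * m), (i : ℕ) ≠ 2 * m - 1 - p → w i = 0 := by
      intro i hi
      have h1 : v ⬝ᵥ (cq A *ᵥ B (Fin.rev i)) = 0 := by
        have hrev : ((Fin.rev i : Fin (2 * m)) : ℕ) = 2 * m - (i + 1) := Fin.val_rev i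
        have hi2 := i.2
        refine hH.orth p hp (2 * m - 1 - (Fin.rev i : Fin (2 * m))) (by omega) (by omega) v hv _ (hBH _)
      have h2 : v ⬝ᵥ (cq A *ᵥ B (Fin.rev i)) = (w ᵥ* (B * cq A * Bᵀ)) (Fin.rev i) := by
        rw [← vecMul_vecMul, ← vecMul_vecMul, ← hvw, Matrix.dotProduct_mulVec]
        rfl
      rw [h2, hBA] at h1
      have h3 : (w ᵥ* (c • SS ℂ (2 * m))) (Fin.rev i) = c * (w i * (-1) ^ (i : ℕ)) := by
        rw [Matrix.vecMul_smul, Pi.smul_apply, smul_eq_mul]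
        congr 1
        show ∑ j, w j * SS ℂ (2 * m) j (Fin.rev i) = _
        rw [Finset.sum_eq_single i]
        · unfold SS
          rw [Matrix.of_apply, if_pos (by rw [Fin.val_rev]; have := i.2; omega)]
        · intro j _ hj
          unfold SS
          rw [Matrix.of_apply, if_neg, mul_zero]
          intro h4
          apply hj
          rw [Fin.val_rev] at h4
          have := i.2
          have := j.2
          exact Fin.ext (by omega)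
        · intro h4
          exact absurd (Finset.mem_univ _) h4
      rw [h3] at h1
      have h5 := (mul_eq_zero.1 h1).resolve_left hc
      exact (mul_eq_zero.1 h5).resolve_right (pow_ne_zero _ (by norm_num))
    have h6 : v ᵥ* (B⁻¹ * Dg * B) = (w ᵥ* Dg) ᵥ* B := by
      rw [← vecMul_vecMul, ← vecMul_vecMul]
    rw [h6]
    have h7 : w ᵥ* Dg = (p : ℂ) • w := by
      funext i
      rw [hDg, Matrix.vecMul_diagonal, Pi.smul_apply, smul_eq_mul]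
      by_cases hi : (i : ℕ) = 2 * m - 1 - p
      · rw [hi, show 2 * m - 1 - (2 * m - 1 - p) = p by omega, mul_comm]
      · rw [hw0 i hi, zero_mul, mul_zero]
    rw [h7, Matrix.smul_vecMul, ← hvw]

/-- spanning families of a fixed length -/
lemma exists_family {n : ℕ} (V : Submodule ℚ (Matrix (Fin n) (Fin n) ℚ)) :
    ∃ x : Fin (n * n) → Matrix (Fin n) (Fin n) ℚ, Submodule.span ℚ (Set.range x) = V := by
  have hle : Module.finrank ℚ V ≤ n * n := by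
    refine (Submodule.finrank_le V).trans (le_of_eq ?_)
    rw [Module.finrank_matrix, Module.finrank_self, Fintype.card_fin, mul_one]
  set b := Module.finBasis ℚ V with hb
  refine ⟨fun i => if h : (i : ℕ) < Module.finrank ℚ V then (b ⟨i, h⟩ : Matrix (Fin n) (Fin n) ℚ) else 0, ?_⟩
  apply le_antisymm
  · rw [Submodule.span_le]
    rintro _ ⟨i, rfl⟩
    show (if h : (i : ℕ) < Module.finrank ℚ V then (b ⟨i, h⟩ : Matrix (Fin n) (Fin n) ℚ) else 0) ∈ V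
    split_ifs with h
    · exact (b ⟨i, h⟩).2
    · exact V.zero_mem
  · intro v hv
    have h1 : (⟨v, hv⟩ : V) ∈ Submodule.span ℚ (Set.range b) := by
      rw [b.span_eq]
      exact Submodule.mem_top
    have h2 : v ∈ (Submodule.span ℚ (Set.range b)).map V.subtype := ⟨_, h1, rfl⟩
    rw [Submodule.map_span] at h2
    refine Submodule.span_mono ?_ h2
    rintro _ ⟨_, ⟨i, rfl⟩, rfl⟩
    refine ⟨⟨i, lt_of_lt_of_le i.2 hle⟩, ?_⟩
    show (if h : (i : ℕ) < Module.finrank ℚ V then (b ⟨i, h⟩ : Matrix (Fin n) (Fin n) ℚ) else 0) = _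
    rw [dif_pos i.2]
    rfl

/-- **The main theorem.** -/
theorem main (hm : 4 ≤ m) (hβ : ∀ j, ∀ a : ℤ, β j ≠ a) : ∃ t0 : ℕ, 2 ≤ t0 ∧ ∀ t : ℕ, t0 ≤ t →
    ∀ (C : Matrix (Fin (2 * m)) (Fin (2 * m)) ℂ) (M A : Matrix (Fin (2 * m)) (Fin (2 * m)) ℚ) (q κ : ℂ), C.det ≠ 0 → q ≠ 0 →
    C * cq M = q • (NN ℂ (2 * m) * C) → κ ≠ 0 → C * cq A * Cᵀ = κ • SS ℂ (2 * m) →
    ∀ Fil H : ℕ → Submodule ℂ (Fin (2 * m) → ℂ), (∀ p, m ≤ p → Fil p = Fl β t C p) → Polarised Fil A H →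
    ∀ V : Submodule ℚ (Matrix (Fin (2 * m)) (Fin (2 * m)) ℚ), (∀ X ∈ V, ∀ Y ∈ V, X * Y - Y * X ∈ V) →
    (∀ Φ : Matrix (Fin (2 * m)) (Fin (2 * m)) ℂ, (∀ p < 2 * m, ∀ v ∈ H p, v ᵥ* Φ = (p : ℂ) • v) →
      Φ ∈ Submodule.span ℂ (cq '' (V : Set (Matrix (Fin (2 * m)) (Fin (2 * m)) ℚ)))) →
    ∀ X : Matrix (Fin (2 * m)) (Fin (2 * m)) ℚ, X * A + A * Xᵀ = 0 → X ∈ V := by
  have hβ' : ∀ j, ∀ l : ℕ, (l : ℚ) + β j ≠ 0 ∧ (l : ℚ) + -β j ≠ 0 := by
    intro j l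
    constructor
    · intro h
      apply hβ j (-(l : ℤ))
      push_cast
      linear_combination h
    · intro h
      apply hβ j (l : ℤ)
      push_cast
      linear_combination -h
  have hQ : QD (2 * m) (QB β) := QD_QB (by omega) hβ'
  by_contra hcon
  push Not at hcon
  choose T hT using fun k => one_fibre hQ (fun i j => sdc_hps hβ' hQ i j) 1 k
  have h1 : ∀ k : ℕ, ∃ (C : Matrix (Fin (2 * m)) (Fin (2 * m)) ℂ) (M A X : Matrix (Fin (2 * m)) (Fin (2 * m)) ℚ) (q : ℂ)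
      (x : Fin (2 * m * (2 * m)) → Matrix (Fin (2 * m)) (Fin (2 * m)) ℚ), q ≠ 0 ∧ X * A + A * Xᵀ = 0 ∧
      X ∉ Submodule.span ℚ (Set.range x) ∧ ∃ (g G B Λ Φ : Matrix (Fin (2 * m)) (Fin (2 * m)) ℂ) (κ' c : ℂ),
      ID (Jm (2 * m) (QB β)) (DN β) q k g G B Λ Φ M A x κ' c := by
    intro k
    obtain ⟨t, ht, C, M, A, q, κ, hC, hq, hM, hκ, hA, Fil, H, hFil, hH, V, hV, hΦ, X, hX, hXV⟩ := hcon (max (T k) 2) (le_max_right _ _)
    obtain ⟨x, hx⟩ := exists_family V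
    have ht2 : 2 ≤ t := (le_max_right _ _).trans ht
    refine ⟨C, M, A, X, q, x, hq, hX, by rwa [hx], index (by omega) hQ ht2 (hT k t ((le_max_left _ _).trans ht)) hC hM hκ hA hFil hH ?_ ?_⟩
    · intro a b
      rw [hx]
      have hxa : ∀ a, x a ∈ V := fun a => by
        rw [← hx]
        exact Submodule.subset_span ⟨a, rfl⟩
      exact hV _ (hxa a) _ (hxa b)
    · intro Φ hΦ'
      refine (Submodule.span_le.2 ?_) (hΦ Φ hΦ')
      rintro _ ⟨Y, hY, rfl⟩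
      refine cq_span ?_
      rw [hx]
      exact hY
  choose C M A X q x hq hX hXx g G B Λ Φ κ' c hID using h1
  have hJr : (NN ℂ (2 * m))ᵀ * cq (Jm (2 * m) (QB β)) = -(cq (Jm (2 * m) (QB β)) * NN ℂ (2 * m)) := by
    have h2 : (cm (Am (2 * m))).transpose * cm (Jm (2 * m) (QB β)) + cm (Jm (2 * m) (QB β)) * cm (Am (2 * m)) = 0 :=
      Pool.Agent.Y119.HY.Jc_rel
    rw [← NN_eq] at h2
    exact eq_neg_of_add_eq_zero_left h2
  obtain ⟨k, hk⟩ := ultra Pool.Agent.Y412.MT.lie1 Pool.Agent.Y961.MT.lie2 Pool.Agent.Y195.MT.lie3 Pool.Agent.Y155.MT.fin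
    Pool.Agent.Y155.MT.eb Pool.Agent.Y872.MT.gen hm hq (Jm_det hQ) (Jm_skew hQ) hJr hID hX
  exact hXx k hk

end

end Pool.Agent.Y113.MT
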