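import Pool.Agent.Y118.CM.One

/-!
# Relations between constants and the values of the hypergeometric functions at one point of a window
-/

set_option autoImplicit false
set_option maxHeartbeats 400000

open Matrix PowerSeries Pool.Agent.Y113 Pool.Agent.Y120.GF Pool.Agent.Y120.GH Pool.Agent.Y119.HY Pool.Agent.Y119.HZ
  Pool.Agent.Y118.CM

namespace Pool.Agent.Y113.MT

variable {n : ℕ} {Q : Polynomial ℚ}

/-- **All relations of bounded degree over number fields of bounded degree between constants and the entries of the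
holomorphic part at `1 / (t - G u)` hold on the symplectic group, for all `u` with few exceptions.** -/
theorem one_win (hQ : QD n Q) (hH : ∀ i j, SDc (Hp n Q i j)) : ∃ G0 : ℕ, ∀ G : ℕ, G0 ≤ G →
    ∀ (p : ℕ) (Ω : Fin p → ℂ) (q D d : ℕ), ∃ E : ℕ, ∀ H t : ℕ, (H + 2) ^ E ≤ t → (∀ u ≤ H, G * u + 2 ≤ t) ∧
    ∀ w : Fin q → ℂ, ∃ S : Finset ℕ,
      (S.card : Cardinal) ≤ Algebra.trdeg ℚ (IntermediateField.adjoin ℚ (Set.range Ω)) + q ∧
    ∀ u : ℕ, 1 ≤ u → u ≤ H → u ∉ S →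
    ∀ K : IntermediateField ℚ ℂ, FiniteDimensional ℚ K → Module.finrank ℚ K ≤ D →
    ∀ P : MvPolynomial ((Fin p ⊕ Fin q) ⊕ Fin n × Fin n) K, P.totalDegree ≤ d →
    MvPolynomial.aeval (Sum.elim (Sum.elim Ω w) fun x : Fin n × Fin n =>
      Hf (Hc n Q) (((1 / ((t - G * u : ℕ) : ℝ) : ℝ)) : ℂ) x.1 x.2) P = 0 →
    ∀ g : Matrix (Fin n) (Fin n) ℂ, g.transpose * cm (Jm n Q) * g = cm (Jm n Q) →
    MvPolynomial.aeval (Sum.elim (Sum.elim Ω w) fun x : Fin n × Fin n => g x.1 x.2) P = 0 := by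
  classical
  obtain ⟨D', b, hD, hb⟩ := exists_b n Q
  obtain ⟨q0, C, hG⟩ := gsys_Hp hQ hH hb
  have hG' := hG.reindex (ix n)
  have hT : Polynomial.X * T1 D' ≠ 0 := by
    refine mul_ne_zero Polynomial.X_ne_zero (mul_ne_zero (Polynomial.C_ne_zero.2 (by exact_mod_cast hD)) ?_)
    intro h0
    have := congrArg (Polynomial.eval 0) h0
    simp at this
  have hode : ∀ i : Fin (n * n), ps (Polynomial.X * T1 D') * d⁄dX ℚ (hf n Q i) =
      ∑ j, ps (A2 n D' b (ix n i) (ix n j)) * hf n Q j := by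
    intro i
    have h1 := ode_A2 hQ hb (ix n i)
    have h2 : ∑ j : Fin (n * n), ps (A2 n D' b (ix n i) (ix n j)) * hf n Q j =
        ∑ q, ps (A2 n D' b (ix n i) q) * Hp n Q q.1 q.2 :=
      Equiv.sum_comp (ix n) fun q => ps (A2 n D' b (ix n i) q) * Hp n Q q.1 q.2
    exact h1.trans h2.symm
  obtain ⟨G0, hwin⟩ := Pool.Agent.Y118.UL.winG (h := hf n Q) (A := fun a c => A2 n D' b (ix n a) (ix n c)) hT hode hG'
    (qu_hf hQ hH hb)
  refine ⟨G0, fun G hGG p Ω q D d => ?_⟩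
  obtain ⟨Ex, hE⟩ := hwin G hGG p Ω q 1 D d
  refine ⟨Ex + 1, fun H t ht => ?_⟩
  have hpos : 1 ≤ (H + 2) ^ Ex := Nat.one_le_pow _ _ (by omega)
  have ht' : (H + 2) ^ Ex + 1 ≤ t := by
    have h1 : (H + 2) ^ (Ex + 1) = (H + 2) ^ Ex * (H + 2) := pow_succ _ _
    nlinarith
  obtain ⟨hlt, -⟩ := hE H (t - 1) (by omega)
  have hlt2 : ∀ u ≤ H, G * u + 2 ≤ t := by
    intro u hu
    have := hlt u hu
    omega
  obtain ⟨-, hw⟩ := hE H t (by omega)
  refine ⟨hlt2, fun w => ?_⟩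
  obtain ⟨⟨S, hS, hmain⟩, -⟩ := hw w
  refine ⟨S, hS, fun u hu1 hu2 huS K hK hKD P hPd hP0 g hg => ?_⟩
  have hdet := Jc_det hQ
  have ht1 : 2 ≤ t - G * u := by
    have := hlt2 u hu2
    omega
  set t' := t - G * u with ht'
  have ht2 : (2 : ℝ) ≤ t' := by exact_mod_cast ht1
  have hform : (Hf (Hc n Q) (((1 / (t' : ℝ) : ℝ)) : ℂ)).transpose * cm (Jm n Q) * Hf (Hc n Q) (((1 / (t' : ℝ) : ℝ)) : ℂ) =
      cm (Jm n Q) := by
    have h1 := Yt_form hQ ht1
    have hN : cm (Am n) ^ n = 0 := Pool.Agent.Y119.HY.Ac_nil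
    have hNJ : (cm (Am n)).transpose * cm (Jm n Q) + cm (Jm n Q) * cm (Am n) = 0 := Pool.Agent.Y119.HY.Jc_rel
    have i2 := E_isom hN hNJ ((Real.log t' : ℝ) : ℂ)
    have h3 : Hf (Hc n Q) (((1 / (t' : ℝ) : ℝ)) : ℂ) = Yt n Q t' * E (cm (Am n)) ((Real.log t' : ℝ) : ℂ) := by
      unfold Yt
      have h4 : E (cm (Am n)) (-((Real.log t' : ℝ) : ℂ)) * E (cm (Am n)) ((Real.log t' : ℝ) : ℂ) = 1 := by
        have := E_mul_neg hN (-((Real.log t' : ℝ) : ℂ))
        rwa [neg_neg] at this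
      rw [Matrix.mul_assoc, h4, mul_one]
    rw [h3]
    exact isom_mul h1 i2
  obtain ⟨W, hW1, hW2, hW3⟩ := isom_inv hdet hform
  set e : Fin 1 × Fin (n * n) → Fin n × Fin n := fun a => ix n a.2 with he
  have hval : (fun a : Fin 1 × Fin (n * n) => ((ev ((t - G * (fun _ : Fin 1 => u) a.1 : ℕ) : ℝ) (hf n Q a.2) : ℝ) : ℂ)) =
      fun a => Hf (Hc n Q) (((1 / (t' : ℝ) : ℝ)) : ℂ) (e a).1 (e a).2 := by
    funext a
    show ((ev ((t - G * u : ℕ) : ℝ) (hf n Q a.2) : ℝ) : ℂ) = _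
    rw [← ht']
    exact ev_Hp _ _ _
  have hm := hmain (fun _ => u) (fun i j _ => Subsingleton.elim i j) (fun j => ⟨hu1, hu2, huS⟩)
    (Spt (cm (Jm n Q)) e) (sp_irr (Jc_skew hQ) hdet e) (by
      rintro y ⟨g', hg', rfl⟩ j R hR
      show MvPolynomial.eval₂ ((algebraMap ℚ ℂ).comp (Polynomial.evalRingHom (1 / ((t - G * u : ℕ) : ℚ))))
        (fun i => g' (e (j, i)).1 (e (j, i)).2) R = 0
      rw [← ht']
      have h3 := rel_inv hQ (R := R) hR (x := 1 / (t' : ℝ)) (by positivity) (by rw [div_lt_one (by linarith)]; linarith)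
        (isom_mul hW3 hg')
      rw [← Matrix.mul_assoc, hW1, one_mul, ← spec_eq] at h3
      exact h3) (by
      rw [hval]
      exact ⟨_, hform, rfl⟩) K hK hKD
    (MvPolynomial.rename (Sum.map id fun x : Fin n × Fin n => ((0 : Fin 1), (ix n).symm x)) P)
    ((MvPolynomial.totalDegree_rename_le _ _).trans hPd) (by
      rw [MvPolynomial.aeval_rename, ← hP0, hval]
      refine congrArg (fun z => MvPolynomial.aeval z P) (funext fun x => ?_)
      rcases x with x | x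
      · rfl
      · show Hf (Hc n Q) (((1 / (t' : ℝ) : ℝ)) : ℂ) (ix n ((ix n).symm x)).1 (ix n ((ix n).symm x)).2 = _
        rw [Equiv.apply_symm_apply]
        rfl) (fun a => g (e a).1 (e a).2) ⟨g, hg, rfl⟩
  rw [MvPolynomial.aeval_rename] at hm
  rw [← hm]
  refine congrArg (fun z => MvPolynomial.aeval z P) (funext fun x => ?_)
  rcases x with x | x
  · rfl
  · show _ = g (ix n ((ix n).symm x)).1 (ix n ((ix n).symm x)).2
    rw [Equiv.apply_symm_apply]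
    rfl

end Pool.Agent.Y113.MT
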