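import Pool.Agent.Y113.MT.Core3
import Pool.Agent.Y872.MT.Gen

/-!
# The core theorem for a constant base change
-/

set_option autoImplicit false
set_option maxHeartbeats 1000000

open Matrix

namespace Pool.Agent.Y113.MT

section
variable {F : Type} [Field F] {K : Subfield F} {σ : F →+* F} {m : ℕ}
  {J g G M A B Λ Δ Φ : Matrix (Fin (2 * m)) (Fin (2 * m)) F} {r : ℕ} {x : Fin r → Matrix (Fin (2 * m)) (Fin (2 * m)) F}
  {q κ c : F}

/-- **The core theorem**, with derivations which kill the base change. -/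
theorem core2 [CharZero F] (l1 : S_LIE1) (l2 : S_LIE2) (l3 : S_LIE3) (lF : S_FIN)
    (h : CD K σ J g G M A B Λ Δ Φ x q κ c)
    (hDer : ∀ v : Fin (2 * m) → F, ∃ D : Derivation ℤ F F, (∀ z ∈ K, D z = 0) ∧ g.map D = g * (vecMulVec v v * J) ∧
      ∃ a : F, G.map D * G⁻¹ = a • NN F (2 * m)) (hm : 2 ≤ m) {y : Matrix (Fin (2 * m)) (Fin (2 * m)) F}
    (hy : y * A + A * yᵀ = 0) : y ∈ Submodule.span F (Set.range x) := by
  by_contra hyn
  have hBu : IsUnit B.det := isUnit_iff_ne_zero.2 h.Bdet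
  have hEd := h.Edet
  have hEu : IsUnit (Λ * (Δ * g)).det := isUnit_iff_ne_zero.2 hEd
  -- the algebra is proper
  have hy1 : B * y * B⁻¹ ∈ spS F m := by
    rw [mem_spS]
    have h1 : SS F (2 * m) = c⁻¹ • (B * A * Bᵀ) := by rw [h.BA, smul_smul, inv_mul_cancel₀ h.c0, one_smul]
    have hBTu : IsUnit Bᵀ.det := by rwa [Matrix.det_transpose]
    have e1 : B * y * B⁻¹ * (B * A * Bᵀ) = B * (y * A) * Bᵀ := by
      have : B * y * B⁻¹ * (B * A * Bᵀ) = B * y * (B⁻¹ * B) * A * Bᵀ := by simp only [Matrix.mul_assoc]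
      rw [this, Matrix.nonsing_inv_mul _ hBu, mul_one]
      simp only [Matrix.mul_assoc]
    have e2 : B * A * Bᵀ * (B * y * B⁻¹)ᵀ = B * (A * yᵀ) * Bᵀ := by
      rw [Matrix.transpose_mul, Matrix.transpose_mul, Matrix.transpose_nonsing_inv]
      have : B * A * Bᵀ * ((Bᵀ)⁻¹ * (yᵀ * Bᵀ)) = B * A * (Bᵀ * (Bᵀ)⁻¹) * (yᵀ * Bᵀ) := by simp only [Matrix.mul_assoc]
      rw [this, Matrix.mul_nonsing_inv _ hBTu, mul_one]
      simp only [Matrix.mul_assoc]
    rw [h1, Matrix.mul_smul, Matrix.smul_mul, ← smul_add, e1, e2, ← add_mul, ← mul_add, hy, mul_zero, zero_mul, smul_zero]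
  have hy2 : B * y * B⁻¹ ∉ Lc B x := by
    intro h0
    apply hyn
    have h1 := mem_Mt.1 h0.1
    have e : B⁻¹ * (B * y * B⁻¹ * B) = y := by
      rw [Matrix.mul_assoc (B * y), Matrix.nonsing_inv_mul _ hBu, mul_one, ← Matrix.mul_assoc, Matrix.nonsing_inv_mul _ hBu,
        one_mul]
    rwa [e] at h1
  obtain ⟨p, hp, ξ, hξ, hξ2⟩ := xi_exists l1 l2 l3 h.inv (by omega : 1 ≤ m) (h.lh (by omega)) (mem_spS.1 hy1) hy2
  -- the functional
  set E := Λ * (Δ * g) with hE
  let ℓ : Matrix (Fin (2 * m)) (Fin (2 * m)) F →ₗ[F] (Fin p → F) :=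
    { toFun := fun Y j => Matrix.trace (Y * ((ξ j).map σ)ᵀ)
      map_add' := fun Y Y' => by
        funext j
        show Matrix.trace ((Y + Y') * _) = Matrix.trace _ + Matrix.trace _
        rw [add_mul, Matrix.trace_add]
      map_smul' := fun s Y => by
        funext j
        show Matrix.trace ((s • Y) * _) = s * Matrix.trace _
        rw [Matrix.smul_mul, Matrix.trace_smul, smul_eq_mul] }
  have hℓ : ∀ Y j, ℓ Y j = Matrix.trace (Y * ((ξ j).map σ)ᵀ) := fun _ _ => rfl
  set e := ℓ (E * (NN F (2 * m) * E⁻¹)) with he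
  have hdim : Module.finrank F (Submodule.span F {e}) ≤ 1 :=
    (finrank_span_le_card ({e} : Set (Fin p → F))).trans (by simp)
  -- squares
  have hsq : ∀ w : Fin (2 * m) → F, ℓ (vecMulVec w w * SS F (2 * m)) ∈ Submodule.span F {e} := by
    intro w
    set v := E⁻¹ *ᵥ w with hv
    have hwv : E *ᵥ v = w := by
      rw [hv, Matrix.mulVec_mulVec, Matrix.mul_nonsing_inv _ hEu, Matrix.one_mulVec]
    obtain ⟨D, hD, hg, a, ha⟩ := hDer v
    have h1 : ℓ (E * (vecMulVec v v * J + G.map D * G⁻¹) * E⁻¹) = 0 := by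
      funext j
      exact h.der_step (by omega) D hD v hg (ξ j) (hξ2 j).2.1 (hξ2 j).2.2
    have h2 : E * (vecMulVec v v * J + G.map D * G⁻¹) * E⁻¹ =
        E * (vecMulVec v v * J) * E⁻¹ + E * ((G.map D * G⁻¹) * E⁻¹) := by
      rw [Matrix.mul_add, Matrix.add_mul, Matrix.mul_assoc E (G.map D * G⁻¹)]
    rw [h2, hE, h.rk1' v, ← hE, hwv, map_add, map_neg, map_smul] at h1
    have h3 : ℓ (vecMulVec w w * SS F (2 * m)) = ((κ / c)⁻¹ * a) • e := by
      have h4 : ℓ (E * ((G.map D * G⁻¹) * E⁻¹)) = (κ / c) • ℓ (vecMulVec w w * SS F (2 * m)) := by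
        rw [← sub_eq_zero, ← h1]
        abel
      rw [ha, Matrix.smul_mul, Matrix.mul_smul, map_smul, ← he] at h4
      rw [mul_smul, h4, smul_smul, inv_mul_cancel₀ (div_ne_zero h.k0 h.c0), one_smul]
    rw [h3]
    exact Submodule.smul_mem _ _ (Submodule.mem_span_singleton_self _)
  have htop : Submodule.span F {e} = ⊤ := by
    rw [eq_top_iff]
    intro z _
    obtain ⟨a, ha⟩ := lF F σ h.defi (2 * m) p ξ hξ z
    have h1 : ∑ i, a i • ξ i ∈ spS F m := Submodule.sum_mem _ fun i _ => Submodule.smul_mem _ _ (hξ2 i).1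
    have h2 : z = ℓ (∑ i, a i • ξ i) := by
      funext j
      exact (ha j).symm
    rw [h2]
    have h3 : (Submodule.span F (Set.range fun w : Fin (2 * m) → F => vecMulVec w w * SS F (2 * m))) ≤
        (Submodule.span F {e}).comap ℓ := by
      rw [Submodule.span_le]
      rintro _ ⟨w, rfl⟩
      exact hsq w
    exact h3 (sp_span h1)
  rw [htop, finrank_top, Module.finrank_fin_fun] at hdim
  omega

end


/-- derivations with prescribed values at a generic point -/
theorem gen_all {F : Type} [Field F] [CharZero F] (K : Subfield F) {ι : Type} [Fintype ι] [DecidableEq ι] (g Y : ι → F)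
    (h : ∀ P : MvPolynomial ι K, MvPolynomial.aeval g P = 0 →
      ∑ x, Y x * MvPolynomial.aeval g (MvPolynomial.pderiv x P) = 0) :
    ∃ D : Derivation ℤ F F, (∀ c ∈ K, D c = 0) ∧ ∀ x, D (g x) = Y x := by
  obtain ⟨D, hD⟩ := Pool.Agent.Y872.MT.exD0 (Pool.Agent.Y872.MT.Ph K g) (Pool.Agent.Y872.MT.Th K g Y)
    (Pool.Agent.Y872.MT.Th_fst K _ _) (by
      intro P hP
      refine TrivSqZeroExt.ext ?_ ?_
      · rw [Pool.Agent.Y872.MT.Th_fst, hP, TrivSqZeroExt.fst_zero]
      · rw [Pool.Agent.Y872.MT.Th_snd, TrivSqZeroExt.snd_zero]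
        exact h P hP)
  refine ⟨D, fun c hc => ?_, fun x => ?_⟩
  · have h1 := hD (MvPolynomial.C ⟨c, hc⟩)
    rw [Pool.Agent.Y872.MT.Ph_C, Pool.Agent.Y872.MT.Th_C, TrivSqZeroExt.snd_inl] at h1
    exact h1
  · have h1 := hD (MvPolynomial.X x)
    rw [Pool.Agent.Y872.MT.Ph_X, Pool.Agent.Y872.MT.Th_X, TrivSqZeroExt.snd_add, TrivSqZeroExt.snd_inl,
      TrivSqZeroExt.snd_inr, zero_add] at h1
    exact h1

section
variable {F : Type} [Field F]

lemma NN_pow_apply {n : ℕ} (k : ℕ) (i j : Fin n) : (NN F n ^ k) i j = if (j : ℕ) = i + k then 1 else 0 := by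
  induction k generalizing i j with
  | zero =>
    rw [pow_zero, Matrix.one_apply]
    by_cases h : i = j
    · subst h
      simp
    · rw [if_neg h, if_neg]
      intro h1
      exact h (Fin.ext h1.symm)
  | succ k ih =>
    rw [pow_succ, Matrix.mul_apply]
    by_cases h : (j : ℕ) = i + (k + 1)
    · rw [if_pos h, Finset.sum_eq_single (⟨i + k, by have := j.2; omega⟩ : Fin n)]
      · rw [ih, if_pos rfl, one_mul]
        unfold NN
        rw [Matrix.of_apply, if_pos (by show (j : ℕ) = i + k + 1; omega)]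
      · intro b _ hb
        rw [ih, if_neg, zero_mul]
        intro h1
        exact hb (Fin.ext h1)
      · intro h1
        exact absurd (Finset.mem_univ _) h1
    · rw [if_neg h]
      refine Finset.sum_eq_zero fun b _ => ?_
      rw [ih]
      unfold NN
      rw [Matrix.of_apply]
      split_ifs with h1 h2
      · exact absurd (by omega) h
      · simp
      · simp
      · simp

lemma NN_nil (n : ℕ) : NN F n ^ n = 0 := by
  ext i j
  rw [NN_pow_apply, if_neg (by have := j.2; omega)]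
  rfl

/-- the exponential of `s N` -/
noncomputable def EF (n : ℕ) (s : F) : Matrix (Fin n) (Fin n) F := ∑ i ∈ Finset.range n, (s ^ i / (i.factorial : F)) • NN F n ^ i

lemma EF_der [CharZero F] {n : ℕ} (D : Derivation ℤ F F) (s : F) : (EF n s).map D = D s • (NN F n * EF n s) := by
  have h0 : ∀ i j : Fin n, ∀ k : ℕ, D ((NN F n ^ k) i j) = 0 := by
    intro i j k
    rw [NN_pow_apply]
    split_ifs
    · exact D.map_one_eq_zero
    · exact map_zero D
  have h1 : (EF n s).map D = ∑ i ∈ Finset.range n, (D (s ^ i / (i.factorial : F))) • NN F n ^ i := by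
    ext a b
    unfold EF
    rw [Matrix.map_apply, Matrix.sum_apply, map_sum, Matrix.sum_apply]
    refine Finset.sum_congr rfl fun i _ => ?_
    rw [Matrix.smul_apply, Matrix.smul_apply, smul_eq_mul, smul_eq_mul, Derivation.leibniz, h0, smul_zero, zero_add, smul_eq_mul,
      mul_comm]
  have h2 : ∀ i : ℕ, D (s ^ (i + 1) / ((i + 1).factorial : F)) = D s * (s ^ i / (i.factorial : F)) := by
    intro i
    have h3 : D (((i + 1).factorial : F)⁻¹) = 0 := by
      have h4 : D (((i + 1).factorial : F)) = 0 := D.map_natCast _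
      have hne : ((i + 1).factorial : F) ≠ 0 := by exact_mod_cast (i + 1).factorial_ne_zero
      have h5 := D.leibniz (((i + 1).factorial : F)) (((i + 1).factorial : F)⁻¹)
      rw [mul_inv_cancel₀ hne, D.map_one_eq_zero, h4, smul_zero, add_zero, smul_eq_mul] at h5
      exact (mul_eq_zero.1 h5.symm).resolve_left hne
    rw [div_eq_mul_inv, D.leibniz, h3, smul_zero, zero_add, smul_eq_mul, D.leibniz_pow]
    have hne : (i.factorial : F) ≠ 0 := by exact_mod_cast i.factorial_ne_zero
    have hne2 : ((i : F) + 1) ≠ 0 := by exact_mod_cast i.succ_ne_zero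
    rw [Nat.factorial_succ]
    simp only [nsmul_eq_mul, smul_eq_mul, Nat.add_sub_cancel]
    push_cast
    field_simp
  rw [h1]
  rcases n with _ | n
  · ext i
    exact i.elim0
  rw [Finset.sum_range_succ']
  have h6 : D (s ^ 0 / ((0 : ℕ).factorial : F)) = 0 := by
    rw [pow_zero, Nat.factorial_zero, Nat.cast_one, div_one, D.map_one_eq_zero]
  rw [h6, zero_smul, add_zero]
  simp only [h2]
  unfold EF
  rw [Finset.sum_range_succ, Matrix.mul_add, Matrix.mul_smul, ← pow_succ', NN_nil, smul_zero, add_zero, Finset.mul_sum, Finset.smul_sum]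
  refine Finset.sum_congr rfl fun i _ => ?_
  rw [Matrix.mul_smul, ← pow_succ', mul_smul]

end

end Pool.Agent.Y113.MT
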