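import Pool.Agent.Y113.MT.Ult2
import Pool.Agent.Y113.MT.Core4

/-!
# The transfer with constants
-/

set_option autoImplicit false
set_option maxHeartbeats 1000000

open Matrix Filter

namespace Pool.Agent.Y113.MT

/-- tangent vectors of the symplectic group, with constants -/
lemma tangent2 {n : ℕ} {ι : Type} [Fintype ι] [DecidableEq ι] {J : Matrix (Fin n) (Fin n) ℂ} (hJ : Jᵀ = -J)
    {g : Matrix (Fin n) (Fin n) ℂ} (hg : gᵀ * J * g = J) (a : ι → ℂ)
    (P : MvPolynomial (ι ⊕ Fin n × Fin n) ℚ)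
    (hP : ∀ h : Matrix (Fin n) (Fin n) ℂ, hᵀ * J * h = J →
      MvPolynomial.aeval (Sum.elim a fun z : Fin n × Fin n => h z.1 z.2) P = 0) (v : Fin n → ℂ) :
    ∑ z : ι ⊕ Fin n × Fin n, (Sum.elim (fun _ => 0) fun z : Fin n × Fin n => (g * (vecMulVec v v * J)) z.1 z.2) z *
      MvPolynomial.aeval (Sum.elim a fun z : Fin n × Fin n => g z.1 z.2) (MvPolynomial.pderiv z P) = 0 := by
  set Y := g * (vecMulVec v v * J) with hY
  set α : ι ⊕ Fin n × Fin n → ℂ := Sum.elim a fun z : Fin n × Fin n => g z.1 z.2 with hα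
  set b : ι ⊕ Fin n × Fin n → ℂ := Sum.elim (fun _ => 0) fun z : Fin n × Fin n => Y z.1 z.2 with hb
  have hline : ∀ s : ℂ, (fun z => α z + s * b z) =
      Sum.elim a fun z : Fin n × Fin n => (g * (1 + s • (vecMulVec v v * J))) z.1 z.2 := by
    intro s
    funext z
    rcases z with z | z
    · show a z + s * 0 = a z
      ring
    · show g z.1 z.2 + s * Y z.1 z.2 = (g * (1 + s • (vecMulVec v v * J))) z.1 z.2
      rw [mul_add, mul_one, Matrix.mul_smul, Matrix.add_apply, Matrix.smul_apply, smul_eq_mul]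
  have hev : ∀ (Q : MvPolynomial (ι ⊕ Fin n × Fin n) ℚ) (s : ℂ), Polynomial.eval s (MvPolynomial.aeval
        (fun z => Polynomial.C (α z) + Polynomial.X * Polynomial.C (b z)) Q) =
        MvPolynomial.aeval (fun z => α z + s * b z) Q := by
    intro Q s
    induction Q using MvPolynomial.induction_on with
    | C c =>
      rw [MvPolynomial.aeval_C, MvPolynomial.aeval_C]
      exact Polynomial.eval_C
    | add P Q h1 h2 => rw [map_add, map_add, Polynomial.eval_add, h1, h2]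
    | mul_X P i h1 =>
      rw [map_mul, map_mul, Polynomial.eval_mul, h1, MvPolynomial.aeval_X, MvPolynomial.aeval_X]
      congr 1
      rw [Polynomial.eval_add, Polynomial.eval_C, Polynomial.eval_mul, Polynomial.eval_X, Polynomial.eval_C]
  have h1 : MvPolynomial.aeval (fun z => Polynomial.C (α z) + Polynomial.X * Polynomial.C (b z)) P = 0 := by
    apply Polynomial.funext
    intro s
    rw [Polynomial.eval_zero, hev, hline, hP _ (sp_line hJ hg v s)]
  have h3 := chain α b P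
  rw [h1, map_zero] at h3
  have h4 := congrArg (Polynomial.eval 0) h3
  rw [Polynomial.eval_zero, Polynomial.eval_finsetSum] at h4
  rw [h4]
  refine Finset.sum_congr rfl fun z _ => ?_
  rw [Polynomial.eval_mul, Polynomial.eval_C, hev]
  congr 2
  congr 1
  funext z
  rw [zero_mul, add_zero]

/-- **Transfer of generic points, with constants.** -/
theorem generic2 {n : ℕ} {ι : Type} [Fintype ι] [DecidableEq ι] {J : Matrix (Fin n) (Fin n) ℂ} (hJ : Jᵀ = -J)
    {g : ℕ → Matrix (Fin n) (Fin n) ℂ} (hg : ∀ k, (g k)ᵀ * J * g k = J) (a : ℕ → ι → ℂ)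
    (hgen : ∀ k, ∀ P : MvPolynomial (ι ⊕ Fin n × Fin n) ℚ, P.totalDegree ≤ k →
      MvPolynomial.aeval (Sum.elim (a k) fun z : Fin n × Fin n => g k z.1 z.2) P = 0 →
      ∀ h : Matrix (Fin n) (Fin n) ℂ, hᵀ * J * h = J →
      MvPolynomial.aeval (Sum.elim (a k) fun z : Fin n × Fin n => h z.1 z.2) P = 0)
    (P : MvPolynomial (ι ⊕ Fin n × Fin n) UK)
    (hP : MvPolynomial.aeval (Sum.elim (fun i => rh fun k => a k i) fun z : Fin n × Fin n => gm g z.1 z.2) P = 0)
    (v : Fin n → UF) :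
    ∑ z : ι ⊕ Fin n × Fin n, (Sum.elim (fun _ => 0) fun z : Fin n × Fin n =>
      (gm g * (vecMulVec v v * gm fun _ => J)) z.1 z.2) z *
      MvPolynomial.aeval (Sum.elim (fun i => rh fun k => a k i) fun z : Fin n × Fin n => gm g z.1 z.2)
        (MvPolynomial.pderiv z P) = 0 := by
  obtain ⟨P, rfl⟩ := MvPolynomial.map_surjective rq rq_surj P
  choose w hw using fun i => rh_surj (v i)
  have e0 : (Sum.elim (fun i => rh fun k => a k i) fun z : Fin n × Fin n => gm g z.1 z.2) =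
      fun z : ι ⊕ Fin n × Fin n => rh fun k => (Sum.elim (a k) fun z : Fin n × Fin n => g k z.1 z.2) z := by
    funext z
    rcases z with z | z <;> rfl
  have e1 : ∀ Q : MvPolynomial (ι ⊕ Fin n × Fin n) (ℕ → ℚ),
      MvPolynomial.aeval (Sum.elim (fun i => rh fun k => a k i) fun z : Fin n × Fin n => gm g z.1 z.2)
      (MvPolynomial.map rq Q) = rh fun k => MvPolynomial.aeval (Sum.elim (a k) fun z : Fin n × Fin n => g k z.1 z.2)
      (MvPolynomial.map (Pi.evalRingHom (fun _ : ℕ => ℚ) k) Q) := by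
    intro Q
    rw [e0]
    exact aeval_rq Q fun k => Sum.elim (a k) fun z : Fin n × Fin n => g k z.1 z.2
  rw [e1, rh_zero] at hP
  have h1 : ∀ᶠ k in ((hyperfilter ℕ : Ultrafilter ℕ) : Filter ℕ), P.totalDegree ≤ k :=
    (eventually_ge_atTop P.totalDegree).filter_mono Nat.hyperfilter_le_atTop
  have e2 : (vecMulVec v v : Matrix (Fin n) (Fin n) UF) = gm fun k => vecMulVec (fun i => w i k) fun i => w i k := by
    ext i j
    rw [gm_apply, vecMulVec_apply, ← hw i, ← hw j, ← map_mul]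
    rfl
  rw [e2, ← gm_mul, ← gm_mul]
  have e3 : ∀ z : ι ⊕ Fin n × Fin n, MvPolynomial.pderiv z (MvPolynomial.map rq P) = MvPolynomial.map rq (MvPolynomial.pderiv z P) :=
    fun z => MvPolynomial.pderiv_map
  have e5 : ∀ z : ι ⊕ Fin n × Fin n, (Sum.elim (fun _ => (0 : UF)) fun z : Fin n × Fin n =>
      (gm fun k => g k * ((vecMulVec (fun i => w i k) fun i => w i k) * J)) z.1 z.2) z =
      rh fun k => (Sum.elim (fun _ => (0 : ℂ)) fun z : Fin n × Fin n =>
        (g k * ((vecMulVec (fun i => w i k) fun i => w i k) * J)) z.1 z.2) z := by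
    intro z
    rcases z with z | z
    · exact rh_c0.symm
    · rfl
  have e4 : ∀ z : ι ⊕ Fin n × Fin n, (Sum.elim (fun _ => (0 : UF)) fun z : Fin n × Fin n =>
      (gm fun k => g k * ((vecMulVec (fun i => w i k) fun i => w i k) * J)) z.1 z.2) z *
      MvPolynomial.aeval (Sum.elim (fun i => rh fun k => a k i) fun z : Fin n × Fin n => gm g z.1 z.2)
        (MvPolynomial.pderiv z (MvPolynomial.map rq P)) =
      rh fun k => (Sum.elim (fun _ => (0 : ℂ)) fun z : Fin n × Fin n =>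
        (g k * ((vecMulVec (fun i => w i k) fun i => w i k) * J)) z.1 z.2) z *
        MvPolynomial.aeval (Sum.elim (a k) fun z : Fin n × Fin n => g k z.1 z.2)
        (MvPolynomial.map (Pi.evalRingHom (fun _ : ℕ => ℚ) k) (MvPolynomial.pderiv z P)) := by
    intro z
    rw [e3, e1, e5, ← map_mul]
    rfl
  rw [Finset.sum_congr rfl fun z _ => e4 z, ← map_sum, rh_zero]
  filter_upwards [hP, h1] with k hk hk1
  have h2 := tangent2 hJ (hg k) (a k) (MvPolynomial.map (Pi.evalRingHom (fun _ : ℕ => ℚ) k) P)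
    (hgen k _ ((Finset.sup_mono (MvPolynomial.support_map_subset _ _)).trans hk1) hk) fun i => w i k
  rw [Finset.sum_apply]
  refine Eq.trans (Finset.sum_congr rfl fun z _ => ?_) h2
  rw [MvPolynomial.pderiv_map]

lemma gm_EF {n : ℕ} (s : ℕ → ℂ) : gm (fun k => EF n (s k)) = EF n (rh s) := by
  unfold EF
  rw [gm_sum]
  refine Finset.sum_congr rfl fun i _ => ?_
  rw [gm_smul]
  have e1 : rh (fun k => s k ^ i / (i.factorial : ℂ)) = rh s ^ i / (i.factorial : UF) := by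
    rw [eq_div_iff (by exact_mod_cast i.factorial_ne_zero), ← map_natCast rh, ← map_pow, ← map_mul]
    congr 1
    funext k
    show s k ^ i / (i.factorial : ℂ) * (i.factorial : ℂ) = s k ^ i
    rw [div_mul_cancel₀ _ (by exact_mod_cast i.factorial_ne_zero)]
  have e2 : gm (fun _ : ℕ => NN ℂ n ^ i) = NN UF n ^ i := by
    ext a b
    rw [gm_apply, NN_pow_apply]
    simp only [NN_pow_apply]
    split_ifs
    · exact rh_c1
    · exact rh_c0
  rw [e1, e2]

/-- the data over the ultraproduct -/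
theorem key_of {m r : ℕ} {J Δ : Matrix (Fin (2 * m)) (Fin (2 * m)) ℚ} {q : ℕ → ℂ} (hq : ∀ k, q k ≠ 0) (hJ : J.det ≠ 0)
    (hJt : Jᵀ = -J) (hJN : (NN ℂ (2 * m))ᵀ * cq J = -(cq J * NN ℂ (2 * m)))
    {g G B Λ Φ : ℕ → Matrix (Fin (2 * m)) (Fin (2 * m)) ℂ} {M A : ℕ → Matrix (Fin (2 * m)) (Fin (2 * m)) ℚ}
    {x : ℕ → Fin r → Matrix (Fin (2 * m)) (Fin (2 * m)) ℚ} {κ c : ℕ → ℂ}
    (h : ∀ k, ID J Δ (q k) k (g k) (G k) (B k) (Λ k) (Φ k) (M k) (A k) (x k) (κ k) (c k)) :
    CD UK sg (gm fun _ => cq J) (gm g) (gm G) (gm fun k => cq (M k)) (gm fun k => cq (A k)) (gm B) (gm Λ)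
      (gm fun _ => cq Δ) (gm Φ) (fun a => gm fun k => cq (x k a)) (rh q) (rh κ) (rh c) := by
  have hJc : (cq J).det ≠ 0 := by
    rw [cq_det]
    exact_mod_cast hJ
  refine ⟨sg_sg, sg_UK, sg_def, fun i j => gm_cq _ i j, fun i j => gm_cq _ i j, fun i j => gm_cq _ i j,
    fun i j => gm_cq _ i j, fun a i j => gm_cq _ i j, ?_, ?_, ?_, ?_, ?_, ?_, ?_, ?_, ?_, ?_, ?_, ?_, ?_, ?_, ?_, ?_⟩
  · rw [gm_det]
    exact rh_ne fun _ => hJc
  · rw [← gm_tr, ← gm_neg, ← cq_tr, hJt]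
    congr 1
    funext k
    rw [cq_neg]
  · rw [← gm_NN, ← gm_tr, ← gm_mul, ← gm_mul, ← gm_neg]
    congr 1
    funext k
    exact hJN
  · intro P hP v
    have hJc' : (cq J)ᵀ = -cq J := by rw [← cq_tr, hJt, cq_neg]
    exact generic hJc' (fun k => (h k).gJ) (fun k => (h k).gen) P hP v
  · exact rh_ne hq
  · exact rh_ne fun k => (h k).k0
  · exact rh_ne fun k => (h k).c0
  · rw [← gm_NN, ← gm_mul, ← gm_mul, ← gm_smul]
    congr 1
    funext k
    exact (h k).GM
  · rw [← gm_mul, ← gm_tr, ← gm_mul, ← gm_inv fun _ => hJc, ← gm_smul]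
    congr 1
    funext k
    exact (h k).GA
  · rw [← gm_mul, ← gm_mul, ← gm_mul]
    congr 1
    funext k
    exact (h k).BL
  · intro a b hab
    rw [gm_apply, rh_zero]
    exact Eventually.of_forall fun k => (h k).Ll a b hab
  · rw [← gm_mul, ← gm_tr, ← gm_mul, ← gm_SS, ← gm_smul]
    congr 1
    funext k
    exact (h k).BA
  · intro i j
    rw [gm_apply, sg_rh, gm_apply]
    congr 1
    funext k
    exact (h k).Bs i j
  · rw [← gm_mul]
    have e : Matrix.diagonal (fun i : Fin (2 * m) => ((2 * m - 1 - (i : ℕ) : ℕ) : UF)) =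
        gm fun _ => Matrix.diagonal (fun i : Fin (2 * m) => ((2 * m - 1 - (i : ℕ) : ℕ) : ℂ)) := by
      ext i j
      rw [gm_apply]
      by_cases hij : i = j
      · subst hij
        simp only [Matrix.diagonal_apply_eq]
        rw [← map_natCast rh]
        rfl
      · simp only [Matrix.diagonal_apply_ne _ hij]
        exact rh_c0.symm
    rw [e, ← gm_mul]
    congr 1
    funext k
    exact (h k).BP
  · intro a b
    rw [← gm_mul, ← gm_mul, ← gm_sub]
    refine gm_span fun k => ?_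
    rw [← cq_mul, ← cq_mul, ← cq_sub]
    exact cq_span ((h k).br a b)
  · exact gm_span fun k => (h k).Pm

/-- **The main theorem for sequences, with constants.** -/
theorem ultra2 (l1 : S_LIE1) (l2 : S_LIE2) (l3 : S_LIE3) (lF : S_FIN) {m r : ℕ} (hm : 2 ≤ m)
    {ι : Type} [Fintype ι] [DecidableEq ι] {a : ℕ → ι → ℂ}
    {J Δ D0 : Matrix (Fin (2 * m)) (Fin (2 * m)) ℚ} {q : ℕ → ℂ} (hq : ∀ k, q k ≠ 0) (hJ : J.det ≠ 0) (hJt : Jᵀ = -J)
    (hJN : (NN ℂ (2 * m))ᵀ * cq J = -(cq J * NN ℂ (2 * m)))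
    (hD0 : cq D0 * NN ℂ (2 * m) = NN ℂ (2 * m) * cq D0)
    {s : ℕ → ℂ} {C : ℕ → Matrix (Fin (2 * m)) (Fin (2 * m)) ℂ}
    (hC : ∀ D : Derivation ℤ UF UF, (∀ z ∈ UK, D z = 0) → (∀ i, D (rh fun k => a k i) = 0) → (gm C).map D = 0)
    {g G B Λ Φ : ℕ → Matrix (Fin (2 * m)) (Fin (2 * m)) ℂ} {M A : ℕ → Matrix (Fin (2 * m)) (Fin (2 * m)) ℚ}
    {x : ℕ → Fin r → Matrix (Fin (2 * m)) (Fin (2 * m)) ℚ} {κ c : ℕ → ℂ} {X : ℕ → Matrix (Fin (2 * m)) (Fin (2 * m)) ℚ}
    (h : ∀ k, ID J Δ (q k) k (g k) (G k) (B k) (Λ k) (Φ k) (M k) (A k) (x k) (κ k) (c k))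
    (hG : ∀ k, G k = cq D0 * EF (2 * m) (s k) * C k)
    (hgen : ∀ k, ∀ P : MvPolynomial (ι ⊕ Fin (2 * m) × Fin (2 * m)) ℚ, P.totalDegree ≤ k →
      MvPolynomial.aeval (Sum.elim (a k) fun z : Fin (2 * m) × Fin (2 * m) => g k z.1 z.2) P = 0 →
      ∀ h : Matrix (Fin (2 * m)) (Fin (2 * m)) ℂ, hᵀ * cq J * h = cq J →
      MvPolynomial.aeval (Sum.elim (a k) fun z : Fin (2 * m) × Fin (2 * m) => h z.1 z.2) P = 0)
    (hX : ∀ k, X k * A k + A k * (X k)ᵀ = 0) : ∃ k, X k ∈ Submodule.span ℚ (Set.range (x k)) := by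
  have key := key_of hq hJ hJt hJN h
  have hJc' : (cq J)ᵀ = -cq J := by rw [← cq_tr, hJt, cq_neg]
  have hGE : gm G = (gm fun _ => cq D0) * EF (2 * m) (rh s) * gm C := by
    rw [← gm_EF, ← gm_mul, ← gm_mul]
    congr 1
    funext k
    exact hG k
  have hDN : (gm fun _ => cq D0) * NN UF (2 * m) = NN UF (2 * m) * gm fun _ => cq D0 := by
    rw [← gm_NN, ← gm_mul, ← gm_mul, hD0]
  have h1 := core2 l1 l2 l3 lF key (by
    intro v
    obtain ⟨D, hD, hDx⟩ := gen_all UK (Sum.elim (fun i => rh fun k => a k i) fun z : Fin (2 * m) × Fin (2 * m) => gm g z.1 z.2)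
      (Sum.elim (fun _ => 0) fun z : Fin (2 * m) × Fin (2 * m) => (gm g * (vecMulVec v v * gm fun _ => cq J)) z.1 z.2)
      (fun P hP => generic2 hJc' (fun k => (h k).gJ) a hgen P hP v)
    refine ⟨D, hD, ?_, D (rh s), ?_⟩
    · ext i j
      exact hDx (Sum.inr (i, j))
    · have hCD := hC D hD fun i => hDx (Sum.inl i)
      have hDD : (gm fun _ => cq D0).map D = 0 := dmap_zero D fun i j => hD _ (gm_cq _ i j)
      have h2 : (gm G).map D = D (rh s) • (NN UF (2 * m) * gm G) := by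
        rw [hGE, dmap_mul, dmap_mul, hCD, hDD, EF_der, Matrix.mul_zero, Matrix.zero_mul, add_zero, zero_add, Matrix.mul_smul,
          Matrix.smul_mul]
        congr 1
        rw [← Matrix.mul_assoc (gm fun _ => cq D0), hDN]
        simp only [Matrix.mul_assoc]
      rw [h2, Matrix.smul_mul, Matrix.mul_assoc, Matrix.mul_nonsing_inv _ (isUnit_iff_ne_zero.2 key.Gdet), Matrix.mul_one]) hm
    (y := gm fun k => cq (X k)) (by
    rw [← gm_mul, ← gm_tr, ← gm_mul, ← gm_add, ← gm_zero]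
    congr 1
    funext k
    rw [← cq_mul, ← cq_tr, ← cq_mul, ← cq_add, hX, cq_zero])
  obtain ⟨k, hk⟩ := span_gm h1
  exact ⟨k, span_cq hk⟩

end Pool.Agent.Y113.MT
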