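import Pool.Agent.Y113.MT.Core
import Mathlib.Analysis.SpecialFunctions.Pow.Real
import Mathlib.Data.Set.Card

/-!
# Statements for part 6 of the project MT: counting tuples of fibres
-/

set_option autoImplicit false

open Matrix

namespace Pool.Agent.Y113.MT

/-- UNI: a polarised Hodge structure is determined by its Hodge filtration -/
def S_UNI : Prop := ∀ (m : ℕ) (Fil Fil' : ℕ → Submodule ℂ (Fin (2 * m) → ℂ)) (A : Matrix (Fin (2 * m)) (Fin (2 * m)) ℚ)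
  (H H' : ℕ → Submodule ℂ (Fin (2 * m) → ℂ)), Polarised Fil A H → Polarised Fil' A H' → (∀ p, m ≤ p → Fil p = Fil' p) →
  ∀ p < 2 * m, H p = H' p

/-- CTK: the number of tuples -/
def S_CTK : Prop := ∀ (k : ℕ) (δ K : ℝ), 0 ≤ K → ∃ K' : ℝ, ∀ (T : ℕ), 1 ≤ T → ∀ (P : ℕ → ℕ → Prop) (Q : ℕ → Prop),
  (∀ s, ({t : ℕ | t ≤ T ∧ P t s}.ncard : ℝ) ≤ K * (T : ℝ) ^ (1 - δ)) → (({t : ℕ | t ≤ T ∧ Q t}.ncard : ℝ) ≤ K * (T : ℝ) ^ (1 - δ)) →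
  ({τ : Fin k → ℕ | (∀ i, τ i ≤ T) ∧ ((∃ i j, i ≠ j ∧ P (τ i) (τ j)) ∨ ∃ i, Q (τ i))}.ncard : ℝ) ≤ K' * (T : ℝ) ^ ((k : ℝ) - δ)

end Pool.Agent.Y113.MT
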