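import Pool.Agent.Y113.MT.Stm
import Mathlib.Analysis.SpecialFunctions.Pow.Real
import Mathlib.Data.Set.Card

/-!
# Statements for part 3 of the project MT
-/

set_option autoImplicit false

open Matrix

namespace Pool.Agent.Y113.MT

/-- NF -/
def S_NF : Prop := ∀ (n : ℕ) (C : Matrix (Fin n) (Fin n) ℂ) (M : Matrix (Fin n) (Fin n) ℚ) (q : ℂ), C.det ≠ 0 → q ≠ 0 →
  C * cq M = q • (NN ℂ n * C) → ∃ R : Matrix (Fin n) (Fin n) ℚ, R.det ≠ 0 ∧ R * M = NN ℚ n * R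

/-- TD -/
def S_TD : Prop := ∀ (F : Type) [Field F] [CharZero F] (m : ℕ) (D : Derivation ℤ F F)
  (T B : Matrix (Fin (2 * m)) (Fin (2 * m)) F) (a : F), T * NN F (2 * m) = NN F (2 * m) * T →
  (∀ i j : Fin (2 * m), (i : ℕ) = 0 → (j : ℕ) = 0 → T i j = 1) → a ≠ 0 → T * B * Tᵀ = a • SS F (2 * m) → B.map D = 0 →
  (∀ i j : Fin (2 * m), (i : ℕ) = 0 → (j : ℕ) % 2 = 1 → D (T i j) = 0) → T.map D = 0

/-- CNT -/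
def S_CNT : Prop := ∀ G E c : ℕ, 1 ≤ G → ∃ δ K : ℝ, 0 < δ ∧ ∀ P : ℕ → Prop,
  (∀ H t : ℕ, (H + 2) ^ E ≤ t → {u : ℕ | 1 ≤ u ∧ u ≤ H ∧ P (t - G * u)}.ncard ≤ c) →
  ∀ T : ℕ, 1 ≤ T → ({t : ℕ | t ≤ T ∧ P t}.ncard : ℝ) ≤ K * (T : ℝ) ^ (1 - δ)

end Pool.Agent.Y113.MT
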