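import Pool.Agent.Y113.MT.ArbT
import Pool.Agent.Y113.MT.BStm
import Pool.Agent.Y113.MT.WStm

/-!
# Counting tuples of fibres
-/

set_option autoImplicit false
set_option maxHeartbeats 1000000

open Matrix PowerSeries Pool.Agent.Y119.HY Pool.Agent.Y119.HZ Pool.Agent.Y118.CM

namespace Pool.Agent.Y113.MT

section
variable {m : ℕ} {β : Fin m → ℚ}

/-- the bad fibres of a window -/
theorem bad_win (kw : S_KW) (nf : S_NF) (td : S_TD) (rb : S_RB) (wf : S_WF) (sim : S_SIM) (int : S_INT) (dim : S_DIM)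
    (hm : 2 ≤ m) (hβ : ∀ j, ∀ a : ℤ, β j ≠ a) :
    ∃ G0 : ℕ, ∀ G : ℕ, G0 ≤ G → ∃ E : ℕ, ∀ H t : ℕ, (H + 2) ^ E ≤ t →
      ∀ (C : Matrix (Fin (2 * m)) (Fin (2 * m)) ℂ) (M : Matrix (Fin (2 * m)) (Fin (2 * m)) ℚ) (q : ℂ), C.det ≠ 0 → q ≠ 0 →
      C * cq M = q • (NN ℂ (2 * m) * C) →
      ∀ (A : Matrix (Fin (2 * m)) (Fin (2 * m)) ℚ) (κ : ℂ), κ ≠ 0 → C * cq A * Cᵀ = κ • SS ℂ (2 * m) →
      ∀ (N : ℕ) (ΨW : Matrix (Fin N) (Fin N) ℂ), {u : ℕ | 1 ≤ u ∧ u ≤ H ∧ Bad β (t - G * u) C A ΨW}.ncard ≤ m + 2 + N ^ 2 := by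
  classical
  obtain ⟨G0, hG0⟩ := tup_lie kw nf td rb wf hm hβ
  refine ⟨G0, fun G hG => ?_⟩
  obtain ⟨E, hE⟩ := hG0 G hG
  refine ⟨E, fun H t ht => ?_⟩
  obtain ⟨hlt, h2⟩ := hE H t ht
  intro C M q hC hq hM A κ hκ hA N ΨW
  obtain ⟨S, hS, hS2⟩ := h2 C M q hC hq hM
  have hcard : ((Finset.Icc 1 H).filter fun u => u ∉ S ∧ Bad β (t - G * u) C A ΨW).card ≤ N ^ 2 := by
    set S' := (Finset.Icc 1 H).filter fun u => u ∉ S ∧ Bad β (t - G * u) C A ΨW with hS'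
    have hmem : ∀ i : Fin S'.card, 1 ≤ S'.orderEmbOfFin rfl i ∧ S'.orderEmbOfFin rfl i ≤ H ∧ S'.orderEmbOfFin rfl i ∉ S ∧
        Bad β (t - G * S'.orderEmbOfFin rfl i) C A ΨW := by
      intro i
      have h3 : S'.orderEmbOfFin rfl i ∈ S' := Finset.orderEmbOfFin_mem S' rfl i
      have h4 := Finset.mem_filter.1 h3
      have h5 := Finset.mem_Icc.1 h4.1
      exact ⟨h5.1, h5.2, h4.2.1, h4.2.2⟩
    choose Fil Hh hFil hHh Φ hΦ 𝔫 hbr hmm X hX hXn using fun i => (hmem i).2.2.2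
    obtain ⟨hAA, hl⟩ := hS2 S'.card (fun i => S'.orderEmbOfFin rfl i) (fun i j h => (S'.orderEmbOfFin rfl).injective h)
      (fun i => ⟨(hmem i).1, (hmem i).2.1, (hmem i).2.2.1⟩) (fun _ => A) (fun _ => κ) (fun _ => hκ) (fun _ => hA) Fil Hh hFil hHh
    rcases Nat.eq_zero_or_pos S'.card with h0 | h0
    · rw [h0]
      exact Nat.zero_le _
    · have h5 := bad_card sim int dim (hAA ⟨0, h0⟩).1 (hAA ⟨0, h0⟩).2 hl Φ ΨW hΦ 𝔫 hbr hmm X hX hXn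
      refine le_trans ?_ h5
      exact Nat.le_mul_of_pos_right _ (Nat.choose_pos (by omega))
  refine le_trans (Set.ncard_le_ncard (t := ((S ∪ (Finset.Icc 1 H).filter fun u => u ∉ S ∧ Bad β (t - G * u) C A ΨW : Finset ℕ) : Set ℕ)) ?_
    (Finset.finite_toSet _)) ?_
  · rintro u ⟨hu1, hu2, hu3⟩
    rw [Finset.mem_coe, Finset.mem_union, Finset.mem_filter, Finset.mem_Icc]
    by_cases hu : u ∈ S
    · exact Or.inl hu
    · exact Or.inr ⟨⟨hu1, hu2⟩, hu, hu3⟩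
  · rw [Set.ncard_coe_finset]
    exact le_trans (Finset.card_union_le _ _) (Nat.add_le_add hS hcard)

/-- the number of bad fibres -/
theorem bad_count (kw : S_KW) (nf : S_NF) (td : S_TD) (rb : S_RB) (wf : S_WF) (sim : S_SIM) (int : S_INT) (dim : S_DIM)
    (cn : S_CNT) (hm : 2 ≤ m) (hβ : ∀ j, ∀ a : ℤ, β j ≠ a) (N : ℕ) : ∃ δ K : ℝ, 0 < δ ∧ δ ≤ 1 ∧ 0 ≤ K ∧
      ∀ (C : Matrix (Fin (2 * m)) (Fin (2 * m)) ℂ) (M : Matrix (Fin (2 * m)) (Fin (2 * m)) ℚ) (q : ℂ), C.det ≠ 0 → q ≠ 0 →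
      C * cq M = q • (NN ℂ (2 * m) * C) →
      ∀ (A : Matrix (Fin (2 * m)) (Fin (2 * m)) ℚ) (κ : ℂ), κ ≠ 0 → C * cq A * Cᵀ = κ • SS ℂ (2 * m) →
      ∀ (ΨW : Matrix (Fin N) (Fin N) ℂ) (T : ℕ), 1 ≤ T →
      ({t : ℕ | t ≤ T ∧ Bad β t C A ΨW}.ncard : ℝ) ≤ K * (T : ℝ) ^ (1 - δ) := by
  obtain ⟨G0, hG0⟩ := bad_win kw nf td rb wf sim int dim hm hβ
  obtain ⟨E, hE⟩ := hG0 (G0 + 1) (by omega)
  obtain ⟨δ, K, hδ, hK⟩ := cn (G0 + 1) E (m + 2 + N ^ 2) (by omega)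
  refine ⟨min δ 1, |K|, lt_min hδ one_pos, min_le_right _ _, abs_nonneg _, fun C M q hC hq hM A κ hκ hA ΨW T hT => ?_⟩
  have h1 := hK (fun t => Bad β t C A ΨW) (fun H t ht => hE H t ht C M q hC hq hM A κ hκ hA N ΨW) T hT
  refine le_trans h1 (mul_le_mul (le_abs_self K) ?_ (Real.rpow_nonneg (Nat.cast_nonneg _) _) (abs_nonneg _))
  exact Real.rpow_le_rpow_of_exponent_le (by exact_mod_cast hT) (by linarith [min_le_left δ 1])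

end

end Pool.Agent.Y113.MT
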