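import Pool.Agent.Y113.MT.Cnt2

/-!
# Almost all tuples of fibres
-/

set_option autoImplicit false
set_option maxHeartbeats 1000000

open Matrix PowerSeries Pool.Agent.Y119.HY Pool.Agent.Y119.HZ Pool.Agent.Y118.CM

namespace Pool.Agent.Y113.MT

/-- all Hodge tensors are products -/
def TProp {m k N : ℕ} (A : Matrix (Fin (2 * m)) (Fin (2 * m)) ℚ) (Hh : Fin k → ℕ → Submodule ℂ (Fin (2 * m) → ℂ))
    (U : ℤ → Submodule ℂ (Fin N → ℂ)) : Prop :=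
  ∀ (r j : ℕ) (c : Fin r → Fin k) (P : ℤ) (T : (Fin r → Fin (2 * m)) → (Fin j → Fin N) → ℚ),
  (fun J K => ((T J K : ℚ) : ℂ)) ∈ Submodule.span ℂ {f : (Fin r → Fin (2 * m)) → (Fin j → Fin N) → ℂ |
    ∃ (p : Fin r → ℕ) (v : Fin r → Fin (2 * m) → ℂ) (q : Fin j → ℤ) (w : Fin j → Fin N → ℂ),
    (∀ a, p a < 2 * m ∧ v a ∈ Hh (c a) (p a)) ∧ (∀ b, w b ∈ U (q b)) ∧ ∑ a, (p a : ℤ) + ∑ b, q b = P ∧
    f = fun J K => (∏ a, v a (J a)) * ∏ b, w b (K b)} →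
  T ∈ Submodule.span ℚ {f : (Fin r → Fin (2 * m)) → (Fin j → Fin N) → ℚ |
    ∃ (s : ℕ) (e : Fin s × Fin 2 ≃ Fin r) (z : (Fin j → Fin N) → ℚ), (∀ l, c (e (l, 0)) = c (e (l, 1))) ∧
    (fun K => ((z K : ℚ) : ℂ)) ∈ TW U j (P - (s : ℤ) * (2 * (m : ℤ) - 1)) ∧
    f = fun J K => (∏ l, A⁻¹ (J (e (l, 0))) (J (e (l, 1)))) * z K}

section
variable {m : ℕ} {β : Fin m → ℚ}

/-- a Hodge operator in an adapted basis -/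
lemma B_op {B Φ : Matrix (Fin (2 * m)) (Fin (2 * m)) ℂ} {H : ℕ → Submodule ℂ (Fin (2 * m) → ℂ)}
    (hBH : ∀ i : Fin (2 * m), B i ∈ H (2 * m - 1 - i)) (hΦ : ∀ p < 2 * m, ∀ v ∈ H p, v ᵥ* Φ = (p : ℂ) • v) :
    B * Φ = Matrix.diagonal (fun i : Fin (2 * m) => ((2 * m - 1 - (i : ℕ) : ℕ) : ℂ)) * B := by
  ext a b
  have h1 := congrFun (hΦ (2 * m - 1 - a) (by have := a.2; omega) (B a) (hBH a)) b
  rw [Matrix.diagonal_mul]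
  exact h1

/-- the Hodge operator of a fibre is unique -/
lemma op_uniq (uni : S_UNI) (hm : 1 ≤ m) (hQ : QD (2 * m) (QB β)) {s : ℕ} (hs : 2 ≤ s)
    {C : Matrix (Fin (2 * m)) (Fin (2 * m)) ℂ} {A : Matrix (Fin (2 * m)) (Fin (2 * m)) ℚ} {κ : ℂ} (hC : C.det ≠ 0)
    (hκ : κ ≠ 0) (hA : C * cq A * Cᵀ = κ • SS ℂ (2 * m)) {Fil Fil' H H' : ℕ → Submodule ℂ (Fin (2 * m) → ℂ)}
    (hFil : ∀ p, m ≤ p → Fil p = Fl β s C p) (hH : Polarised Fil A H) (hFil' : ∀ p, m ≤ p → Fil' p = Fl β s C p)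
    (hH' : Polarised Fil' A H') {Φ Φ' : Matrix (Fin (2 * m)) (Fin (2 * m)) ℂ}
    (hΦ : ∀ p < 2 * m, ∀ v ∈ H p, v ᵥ* Φ = (p : ℂ) • v) (hΦ' : ∀ p < 2 * m, ∀ v ∈ H' p, v ᵥ* Φ' = (p : ℂ) • v) : Φ = Φ' := by
  obtain ⟨-, B, c, hc, hBd, -, hBH, -⟩ := adapted hm hQ hs hC hκ hA hFil hH
  have h1 := uni m Fil Fil' A H H' hH hH' (fun p hp => by rw [hFil p hp, hFil' p hp])
  have hu : IsUnit B.det := isUnit_iff_ne_zero.2 hBd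
  have h2 := B_op hBH hΦ
  have h3 := B_op (H := H') (fun i => by
    have h4 := hBH i
    rwa [h1 (2 * m - 1 - i) (by have := i.2; omega)] at h4) hΦ'
  calc Φ = B⁻¹ * (B * Φ) := by rw [← Matrix.mul_assoc, Matrix.nonsing_inv_mul _ hu, Matrix.one_mul]
    _ = B⁻¹ * (B * Φ') := by rw [h2, h3]
    _ = Φ' := by rw [← Matrix.mul_assoc, Matrix.nonsing_inv_mul _ hu, Matrix.one_mul]

/-- a tuple without bad pairs -/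
lemma tprop_of_good (rb : S_RB) (tn : S_TN) (fqc : S_FQC) (tyc : S_TYC) (tbc : S_TBC) (hm : 2 ≤ m) (hQ : QD (2 * m) (QB β))
    {k N : ℕ} {τ : Fin k → ℕ} (h2 : ∀ i, 2 ≤ τ i)
    {C : Matrix (Fin (2 * m)) (Fin (2 * m)) ℂ} {A : Matrix (Fin (2 * m)) (Fin (2 * m)) ℚ} {κ : ℂ} (hC : C.det ≠ 0)
    (hκ : κ ≠ 0) (hA : C * cq A * Cᵀ = κ • SS ℂ (2 * m)) {Fil Hh : Fin k → ℕ → Submodule ℂ (Fin (2 * m) → ℂ)}
    (hFil : ∀ i p, m ≤ p → Fil i p = Fl β (τ i) C p) (hHh : ∀ i, Polarised (Fil i) A (Hh i))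
    {U : ℤ → Submodule ℂ (Fin N → ℂ)} (hU : DirectSum.IsInternal U)
    (hP : ∀ i j, i ≠ j → ∀ Φ : Matrix (Fin (2 * m)) (Fin (2 * m)) ℂ, (∀ p < 2 * m, ∀ v ∈ Hh j p, v ᵥ* Φ = (p : ℂ) • v) →
      ¬ Bad β (τ i) C A Φ)
    (hW : ∀ i, ∀ ΦW : Matrix (Fin N) (Fin N) ℂ, (∀ p, ∀ z ∈ U p, z ᵥ* ΦW = (p : ℂ) • z) → ¬ Bad β (τ i) C A ΦW) :
    TProp A Hh U := by
  intro r j c P T hT
  choose hAt B cc hc hBd hBA hBH hHB using fun i : Fin k => adapted (by omega) hQ (h2 i) hC hκ hA (hFil i) (hHh i)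
  have hAd : ∀ _ : Fin k, A.det ≠ 0 := by
    intro i h0
    have h1 : (cq A).det = 0 := by rw [cq_det, h0, Rat.cast_zero]
    have h2 := congrArg Matrix.det (hBA i)
    rw [Matrix.det_mul, Matrix.det_mul, h1, mul_zero, zero_mul, Matrix.det_smul] at h2
    exact mul_ne_zero (pow_ne_zero _ (hc i)) (SS_det m) h2.symm
  refine tens_of_lie tn fqc tyc tbc hm (fun _ => A) (fun i => ⟨hAt i, hAd i⟩) Hh B cc hc hBd hBA hHB U hU ?_ r j c P T hT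
  intro Φ ΦW hΦ hΦW 𝔪 hbr hmm
  refine rb (Fin k) (2 * m) N (fun _ => A) hAt hAd 𝔪 hbr ?_ ?_
  · intro i j hij X hX
    let π : (Fin k → Matrix (Fin (2 * m)) (Fin (2 * m)) ℚ) × Matrix (Fin N) (Fin N) ℚ →ₗ[ℚ]
        Matrix (Fin (2 * m)) (Fin (2 * m)) ℚ × Matrix (Fin (2 * m)) (Fin (2 * m)) ℚ :=
      { toFun := fun Y => (Y.1 i, Y.1 j)
        map_add' := fun _ _ => rfl
        map_smul' := fun _ _ => rfl }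
    let πC : (Fin k → Matrix (Fin (2 * m)) (Fin (2 * m)) ℂ) × Matrix (Fin N) (Fin N) ℂ →ₗ[ℂ]
        Matrix (Fin (2 * m)) (Fin (2 * m)) ℂ × Matrix (Fin (2 * m)) (Fin (2 * m)) ℂ :=
      { toFun := fun Y => (Y.1 i, Y.1 j)
        map_add' := fun _ _ => rfl
        map_smul' := fun _ _ => rfl }
    by_contra hcon
    refine hP i j hij (Φ j) (hΦ j) ⟨Fil i, Hh i, hFil i, hHh i, Φ i, hΦ i, 𝔪.map π, ?_, ?_, X, hX, ?_⟩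
    · rintro _ ⟨Y, hY, rfl⟩ _ ⟨Y', hY', rfl⟩
      exact ⟨_, hbr Y hY Y' hY', rfl⟩
    · have h3 := Submodule.mem_map_of_mem (f := πC) hmm
      rw [Submodule.map_span] at h3
      refine Submodule.span_mono ?_ h3
      rintro _ ⟨_, ⟨Y, hY, rfl⟩, rfl⟩
      exact ⟨(Y.1 i, Y.1 j), ⟨Y, hY, rfl⟩, rfl⟩
    · rintro ⟨Y, hY, hYX⟩
      exact hcon ⟨Y, hY, congrArg Prod.fst hYX, congrArg Prod.snd hYX⟩
  · intro i X hX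
    let π : (Fin k → Matrix (Fin (2 * m)) (Fin (2 * m)) ℚ) × Matrix (Fin N) (Fin N) ℚ →ₗ[ℚ]
        Matrix (Fin (2 * m)) (Fin (2 * m)) ℚ × Matrix (Fin N) (Fin N) ℚ :=
      { toFun := fun Y => (Y.1 i, Y.2)
        map_add' := fun _ _ => rfl
        map_smul' := fun _ _ => rfl }
    let πC : (Fin k → Matrix (Fin (2 * m)) (Fin (2 * m)) ℂ) × Matrix (Fin N) (Fin N) ℂ →ₗ[ℂ]
        Matrix (Fin (2 * m)) (Fin (2 * m)) ℂ × Matrix (Fin N) (Fin N) ℂ :=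
      { toFun := fun Y => (Y.1 i, Y.2)
        map_add' := fun _ _ => rfl
        map_smul' := fun _ _ => rfl }
    by_contra hcon
    refine hW i ΦW hΦW ⟨Fil i, Hh i, hFil i, hHh i, Φ i, hΦ i, 𝔪.map π, ?_, ?_, X, hX, ?_⟩
    · rintro _ ⟨Y, hY, rfl⟩ _ ⟨Y', hY', rfl⟩
      exact ⟨_, hbr Y hY Y' hY', rfl⟩
    · have h3 := Submodule.mem_map_of_mem (f := πC) hmm
      rw [Submodule.map_span] at h3
      refine Submodule.span_mono ?_ h3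
      rintro _ ⟨_, ⟨Y, hY, rfl⟩, rfl⟩
      exact ⟨(Y.1 i, Y.2), ⟨Y, hY, rfl⟩, rfl⟩
    · rintro ⟨Y, hY, hYX⟩
      exact hcon ⟨Y, hY, congrArg Prod.fst hYX, congrArg Prod.snd hYX⟩

/-- the operator of a grading is unique -/
lemma W_uniq {N : ℕ} {U : ℤ → Submodule ℂ (Fin N → ℂ)} (hU : DirectSum.IsInternal U) {ΦW ΨW : Matrix (Fin N) (Fin N) ℂ}
    (hΦW : ∀ p, ∀ z ∈ U p, z ᵥ* ΦW = (p : ℂ) • z) (hΨW : ∀ p, ∀ z ∈ U p, z ᵥ* ΨW = (p : ℂ) • z) : ΦW = ΨW := by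
  let K : Submodule ℂ (Fin N → ℂ) :=
    { carrier := {z | z ᵥ* ΦW = z ᵥ* ΨW}
      add_mem' := fun {a b} ha hb => by
        show (a + b) ᵥ* ΦW = (a + b) ᵥ* ΨW
        rw [add_vecMul, add_vecMul, show a ᵥ* ΦW = a ᵥ* ΨW from ha, show b ᵥ* ΦW = b ᵥ* ΨW from hb]
      zero_mem' := by
        show (0 : Fin N → ℂ) ᵥ* ΦW = 0 ᵥ* ΨW
        rw [zero_vecMul, zero_vecMul]
      smul_mem' := fun c a ha => by
        show (c • a) ᵥ* ΦW = (c • a) ᵥ* ΨW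
        rw [smul_vecMul, smul_vecMul, show a ᵥ* ΦW = a ᵥ* ΨW from ha] }
  have hK : K = ⊤ := by
    rw [eq_top_iff, ← hU.submodule_iSup_eq_top]
    refine iSup_le fun p z hz => ?_
    show z ᵥ* ΦW = z ᵥ* ΨW
    rw [hΦW p z hz, hΨW p z hz]
  ext i j
  have h3 : (Pi.single i (1 : ℂ) : Fin N → ℂ) ∈ K := hK ▸ Submodule.mem_top
  have h4 := congrFun (show Pi.single i (1 : ℂ) ᵥ* ΦW = Pi.single i (1 : ℂ) ᵥ* ΨW from h3) j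
  rwa [single_one_vecMul, single_one_vecMul] at h4

/-- **Almost all tuples of fibres and an arbitrary Hodge structure.** -/
theorem tup_count (kw : S_KW) (nf : S_NF) (td : S_TD) (rb : S_RB) (wf : S_WF) (tn : S_TN) (fqc : S_FQC) (tyc : S_TYC)
    (tbc : S_TBC) (sim : S_SIM) (int : S_INT) (dim : S_DIM) (cn : S_CNT) (uni : S_UNI) (ctk : S_CTK)
    (hm : 2 ≤ m) (hβ : ∀ j, ∀ a : ℤ, β j ≠ a) (k N : ℕ) : ∃ δ K : ℝ, 0 < δ ∧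
      ∀ (C : Matrix (Fin (2 * m)) (Fin (2 * m)) ℂ) (M : Matrix (Fin (2 * m)) (Fin (2 * m)) ℚ) (q : ℂ), C.det ≠ 0 → q ≠ 0 →
      C * cq M = q • (NN ℂ (2 * m) * C) →
      ∀ (A : Matrix (Fin (2 * m)) (Fin (2 * m)) ℚ) (κ : ℂ), κ ≠ 0 → C * cq A * Cᵀ = κ • SS ℂ (2 * m) →
      ∀ (U : ℤ → Submodule ℂ (Fin N → ℂ)), DirectSum.IsInternal U → ∀ T : ℕ, 1 ≤ T →
      ({τ : Fin k → ℕ | (∀ i, τ i ≤ T) ∧ ∃ Fil Hh : Fin k → ℕ → Submodule ℂ (Fin (2 * m) → ℂ),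
        (∀ i p, m ≤ p → Fil i p = Fl β (τ i) C p) ∧ (∀ i, Polarised (Fil i) A (Hh i)) ∧ ¬ TProp A Hh U}.ncard : ℝ) ≤
        K * (T : ℝ) ^ ((k : ℝ) - δ) := by
  obtain ⟨hQ, -⟩ := hQ_of hm hβ
  obtain ⟨δ1, K1, hδ1, hδ1', hK1, h1⟩ := bad_count kw nf td rb wf sim int dim cn hm hβ (2 * m)
  obtain ⟨δ2, K2, hδ2, hδ2', hK2, h2⟩ := bad_count kw nf td rb wf sim int dim cn hm hβ N
  obtain ⟨K', hK'⟩ := ctk k (min δ1 δ2) (K1 + K2 + 2) (by linarith)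
  refine ⟨min δ1 δ2, K', lt_min hδ1 hδ2, fun C M q hC hq hM A κ hκ hA U hU T hT => ?_⟩
  obtain ⟨ΨW, hΨW⟩ := Pool.Agent.Y658.MT.op N U hU
  have hT' : (1 : ℝ) ≤ (T : ℝ) := by exact_mod_cast hT
  have hone : (1 : ℝ) ≤ (T : ℝ) ^ (1 - min δ1 δ2) := Real.one_le_rpow hT' (by linarith [min_le_left δ1 δ2])
  have hle1 : (T : ℝ) ^ (1 - δ1) ≤ (T : ℝ) ^ (1 - min δ1 δ2) :=
    Real.rpow_le_rpow_of_exponent_le hT' (by linarith [min_le_left δ1 δ2])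
  have hle2 : (T : ℝ) ^ (1 - δ2) ≤ (T : ℝ) ^ (1 - min δ1 δ2) :=
    Real.rpow_le_rpow_of_exponent_le hT' (by linarith [min_le_right δ1 δ2])
  have hpos : (0 : ℝ) ≤ (T : ℝ) ^ (1 - min δ1 δ2) := le_trans zero_le_one hone
  have h3 := hK' T hT (fun t s => 2 ≤ s ∧ ∃ Fil Hh : ℕ → Submodule ℂ (Fin (2 * m) → ℂ), (∀ p, m ≤ p → Fil p = Fl β s C p) ∧
      Polarised Fil A Hh ∧ ∃ Φ : Matrix (Fin (2 * m)) (Fin (2 * m)) ℂ, (∀ p < 2 * m, ∀ v ∈ Hh p, v ᵥ* Φ = (p : ℂ) • v) ∧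
      Bad β t C A Φ) (fun t => t ≤ 1 ∨ Bad β t C A ΨW) (fun s => by
    by_cases hne : ∃ t0, 2 ≤ s ∧ ∃ Fil Hh : ℕ → Submodule ℂ (Fin (2 * m) → ℂ), (∀ p, m ≤ p → Fil p = Fl β s C p) ∧
        Polarised Fil A Hh ∧ ∃ Φ : Matrix (Fin (2 * m)) (Fin (2 * m)) ℂ, (∀ p < 2 * m, ∀ v ∈ Hh p, v ᵥ* Φ = (p : ℂ) • v) ∧
        Bad β t0 C A Φ
    · obtain ⟨t0, hs, Fil0, H0, hFil0, hH0, Φ0, hΦ0, -⟩ := hne
      refine le_trans ?_ (le_trans (h1 C M q hC hq hM A κ hκ hA Φ0 T hT) ?_)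
      · have h4 : {t : ℕ | t ≤ T ∧ (2 ≤ s ∧ ∃ Fil Hh : ℕ → Submodule ℂ (Fin (2 * m) → ℂ), (∀ p, m ≤ p → Fil p = Fl β s C p) ∧
            Polarised Fil A Hh ∧ ∃ Φ : Matrix (Fin (2 * m)) (Fin (2 * m)) ℂ, (∀ p < 2 * m, ∀ v ∈ Hh p, v ᵥ* Φ = (p : ℂ) • v) ∧
            Bad β t C A Φ)} ⊆ {t : ℕ | t ≤ T ∧ Bad β t C A Φ0} := by
          rintro t ⟨ht, -, Fil, Hh, hFil, hHh, Φ, hΦ, hb⟩
          refine ⟨ht, ?_⟩
          rwa [op_uniq uni (by omega) hQ hs hC hκ hA hFil0 hH0 hFil hHh hΦ0 hΦ]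
        exact_mod_cast Set.ncard_le_ncard h4 ((Set.finite_le_nat T).subset fun t ht => ht.1)
      · refine mul_le_mul (by linarith) hle1 (Real.rpow_nonneg (Nat.cast_nonneg _) _) (by linarith)
    · have h4 : {t : ℕ | t ≤ T ∧ (2 ≤ s ∧ ∃ Fil Hh : ℕ → Submodule ℂ (Fin (2 * m) → ℂ), (∀ p, m ≤ p → Fil p = Fl β s C p) ∧
            Polarised Fil A Hh ∧ ∃ Φ : Matrix (Fin (2 * m)) (Fin (2 * m)) ℂ, (∀ p < 2 * m, ∀ v ∈ Hh p, v ᵥ* Φ = (p : ℂ) • v) ∧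
            Bad β t C A Φ)} = ∅ := by
        ext t
        simp only [Set.mem_setOf_eq, Set.mem_empty_iff_false, iff_false]
        rintro ⟨-, ht⟩
        exact hne ⟨t, ht⟩
      rw [h4, Set.ncard_empty, Nat.cast_zero]
      exact mul_nonneg (by linarith) hpos) (by
    have h4 : {t : ℕ | t ≤ T ∧ (t ≤ 1 ∨ Bad β t C A ΨW)} ⊆ (({0, 1} : Finset ℕ) : Set ℕ) ∪ {t : ℕ | t ≤ T ∧ Bad β t C A ΨW} := by
      rintro t ⟨ht, h5 | h5⟩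
      · left
        rw [Finset.mem_coe, Finset.mem_insert, Finset.mem_singleton]
        omega
      · exact Or.inr ⟨ht, h5⟩
    have h5 := Set.ncard_le_ncard h4 ((Finset.finite_toSet _).union ((Set.finite_le_nat T).subset fun t ht => ht.1))
    have h6 := le_trans h5 (Set.ncard_union_le _ _)
    rw [Set.ncard_coe_finset] at h6
    have h7 : ({0, 1} : Finset ℕ).card = 2 := rfl
    rw [h7] at h6
    have h8 : ({t : ℕ | t ≤ T ∧ (t ≤ 1 ∨ Bad β t C A ΨW)}.ncard : ℝ) ≤ 2 + ({t : ℕ | t ≤ T ∧ Bad β t C A ΨW}.ncard : ℝ) := by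
      exact_mod_cast h6
    have h9 := h2 C M q hC hq hM A κ hκ hA ΨW T hT
    have h10 : K2 * (T : ℝ) ^ (1 - δ2) ≤ K2 * (T : ℝ) ^ (1 - min δ1 δ2) := mul_le_mul_of_nonneg_left hle2 hK2
    have h11 : 0 ≤ K1 * (T : ℝ) ^ (1 - min δ1 δ2) := mul_nonneg hK1 hpos
    nlinarith [h8, h9, h10, h11, hone])
  refine le_trans ?_ h3
  have h4 : {τ : Fin k → ℕ | (∀ i, τ i ≤ T) ∧ ∃ Fil Hh : Fin k → ℕ → Submodule ℂ (Fin (2 * m) → ℂ),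
        (∀ i p, m ≤ p → Fil i p = Fl β (τ i) C p) ∧ (∀ i, Polarised (Fil i) A (Hh i)) ∧ ¬ TProp A Hh U} ⊆
      {τ : Fin k → ℕ | (∀ i, τ i ≤ T) ∧ ((∃ i j, i ≠ j ∧ (2 ≤ τ j ∧ ∃ Fil Hh : ℕ → Submodule ℂ (Fin (2 * m) → ℂ),
        (∀ p, m ≤ p → Fil p = Fl β (τ j) C p) ∧ Polarised Fil A Hh ∧ ∃ Φ : Matrix (Fin (2 * m)) (Fin (2 * m)) ℂ,
        (∀ p < 2 * m, ∀ v ∈ Hh p, v ᵥ* Φ = (p : ℂ) • v) ∧ Bad β (τ i) C A Φ)) ∨ ∃ i, (τ i ≤ 1 ∨ Bad β (τ i) C A ΨW))} := by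
    rintro τ ⟨hτ, Fil, Hh, hFil, hHh, hn⟩
    refine ⟨hτ, ?_⟩
    by_contra hcon
    rw [not_or] at hcon
    obtain ⟨hc1, hc2⟩ := hcon
    push_neg at hc2
    have h2τ : ∀ i, 2 ≤ τ i := fun i => by
      have := (hc2 i).1
      omega
    refine hn (tprop_of_good rb tn fqc tyc tbc hm hQ h2τ hC hκ hA hFil hHh hU ?_ ?_)
    · intro i j hij Φ hΦ hb
      exact hc1 ⟨i, j, hij, h2τ j, Fil j, Hh j, hFil j, hHh j, Φ, hΦ, hb⟩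
    · intro i ΦW hΦW hb
      rw [W_uniq hU hΦW hΨW] at hb
      exact (hc2 i).2 hb
  have h5 : {τ : Fin k → ℕ | (∀ i, τ i ≤ T) ∧ ((∃ i j, i ≠ j ∧ (2 ≤ τ j ∧ ∃ Fil Hh : ℕ → Submodule ℂ (Fin (2 * m) → ℂ),
        (∀ p, m ≤ p → Fil p = Fl β (τ j) C p) ∧ Polarised Fil A Hh ∧ ∃ Φ : Matrix (Fin (2 * m)) (Fin (2 * m)) ℂ,
        (∀ p < 2 * m, ∀ v ∈ Hh p, v ᵥ* Φ = (p : ℂ) • v) ∧ Bad β (τ i) C A Φ)) ∨ ∃ i, (τ i ≤ 1 ∨ Bad β (τ i) C A ΨW))}.Finite :=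
    (Set.finite_Iic (fun _ => T : Fin k → ℕ)).subset fun τ hτ => fun i => hτ.1 i
  exact_mod_cast Set.ncard_le_ncard h4 h5

end

end Pool.Agent.Y113.MT
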