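import Pool.Agent.Y113.MT.Bas

/-!
# The algebraic core of the project MT
-/

set_option autoImplicit false
set_option maxHeartbeats 1000000

open Matrix

namespace Pool.Agent.Y113.MT

/-- the data over the large field -/
structure CD {F : Type} [Field F] (K : Subfield F) (σ : F →+* F) {m : ℕ}
    (J g G M A B Λ Δ Φ : Matrix (Fin (2 * m)) (Fin (2 * m)) F) {r : ℕ} (x : Fin r → Matrix (Fin (2 * m)) (Fin (2 * m)) F)
    (q κ c : F) : Prop where
  inv : ∀ z, σ (σ z) = z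
  fix : ∀ z ∈ K, σ z = z
  defi : Definite σ
  Jk : ∀ i j, J i j ∈ K
  Mk : ∀ i j, M i j ∈ K
  Ak : ∀ i j, A i j ∈ K
  Dk : ∀ i j, Δ i j ∈ K
  xk : ∀ a i j, x a i j ∈ K
  Jdet : J.det ≠ 0
  Jt : Jᵀ = -J
  JN : (NN F (2 * m))ᵀ * J = -(J * NN F (2 * m))
  gen : ∀ P : MvPolynomial (Fin (2 * m) × Fin (2 * m)) K, MvPolynomial.aeval (fun z => g z.1 z.2) P = 0 →
    ∀ v : Fin (2 * m) → F, ∑ z : Fin (2 * m) × Fin (2 * m), (g * (vecMulVec v v * J)) z.1 z.2 *
      MvPolynomial.aeval (fun z => g z.1 z.2) (MvPolynomial.pderiv z P) = 0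
  q0 : q ≠ 0
  k0 : κ ≠ 0
  c0 : c ≠ 0
  GM : G * M = q • (NN F (2 * m) * G)
  GA : G * A * Gᵀ = κ • J⁻¹
  BL : B = Λ * (Δ * (g * G))
  Ll : ∀ a b, a < b → Λ a b = 0
  BA : B * A * Bᵀ = c • SS F (2 * m)
  Bs : ∀ i j, σ (B i j) = B (Fin.rev i) j
  BP : B * Φ = Matrix.diagonal (fun i : Fin (2 * m) => ((2 * m - 1 - (i : ℕ) : ℕ) : F)) * B
  br : ∀ a b, x a * x b - x b * x a ∈ Submodule.span F (Set.range x)
  Pm : Φ ∈ Submodule.span F (Set.range x)

section
variable {F : Type} [Field F] {K : Subfield F} {σ : F →+* F} {m : ℕ}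
  {J g G M A B Λ Δ Φ : Matrix (Fin (2 * m)) (Fin (2 * m)) F} {r : ℕ} {x : Fin r → Matrix (Fin (2 * m)) (Fin (2 * m)) F}
  {q κ c : F}

lemma CD.Bdet (h : CD K σ J g G M A B Λ Δ Φ x q κ c) : B.det ≠ 0 := by
  intro h0
  have h1 := congrArg Matrix.det h.BA
  rw [Matrix.det_mul, Matrix.det_mul, h0, zero_mul, zero_mul, Matrix.det_smul] at h1
  exact mul_ne_zero (pow_ne_zero _ h.c0) (SS_det m) h1.symm

lemma CD.BE (h : CD K σ J g G M A B Λ Δ Φ x q κ c) : B = Λ * (Δ * g) * G := by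
  rw [h.BL]
  simp only [Matrix.mul_assoc]

lemma CD.Edet (h : CD K σ J g G M A B Λ Δ Φ x q κ c) : (Λ * (Δ * g)).det ≠ 0 := by
  intro h0
  apply h.Bdet
  rw [h.BE, Matrix.det_mul, h0, zero_mul]

lemma CD.Gdet (h : CD K σ J g G M A B Λ Δ Φ x q κ c) : G.det ≠ 0 := by
  intro h0
  apply h.Bdet
  rw [h.BE, Matrix.det_mul, h0, mul_zero]

lemma CD.Ldet (h : CD K σ J g G M A B Λ Δ Φ x q κ c) : Λ.det ≠ 0 := by
  intro h0
  apply h.Bdet
  rw [h.BL, Matrix.det_mul, h0, zero_mul]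

/-- the elements of the span are closed under the bracket -/
lemma span_br (hbr : ∀ a b, x a * x b - x b * x a ∈ Submodule.span F (Set.range x)) {X Y : Matrix (Fin (2 * m)) (Fin (2 * m)) F}
    (hX : X ∈ Submodule.span F (Set.range x)) (hY : Y ∈ Submodule.span F (Set.range x)) :
    X * Y - Y * X ∈ Submodule.span F (Set.range x) := by
  induction hX using Submodule.span_induction with
  | mem X hX =>
    obtain ⟨a, rfl⟩ := hX
    induction hY using Submodule.span_induction with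
    | mem Y hY =>
      obtain ⟨b, rfl⟩ := hY
      exact hbr a b
    | zero => simp
    | add Y Y' _ _ h1 h2 =>
      have e : x a * (Y + Y') - (Y + Y') * x a = (x a * Y - Y * x a) + (x a * Y' - Y' * x a) := by
        rw [mul_add, add_mul]
        abel
      rw [e]
      exact Submodule.add_mem _ h1 h2
    | smul s Y _ h1 =>
      have e : x a * (s • Y) - (s • Y) * x a = s • (x a * Y - Y * x a) := by
        rw [Matrix.mul_smul, Matrix.smul_mul, smul_sub]
      rw [e]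
      exact Submodule.smul_mem _ _ h1
  | zero => simp
  | add X X' _ _ h1 h2 =>
    have e : (X + X') * Y - Y * (X + X') = (X * Y - Y * X) + (X' * Y - Y * X') := by
      rw [mul_add, add_mul]
      abel
    rw [e]
    exact Submodule.add_mem _ h1 h2
  | smul s X _ h1 =>
    have e : (s • X) * Y - Y * (s • X) = s • (X * Y - Y * X) := by
      rw [Matrix.mul_smul, Matrix.smul_mul, smul_sub]
    rw [e]
    exact Submodule.smul_mem _ _ h1

/-- derivations preserve the span -/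
lemma span_der (D : Derivation ℤ F F) (hD : ∀ z ∈ K, D z = 0) (hx : ∀ a i j, x a i j ∈ K)
    {X : Matrix (Fin (2 * m)) (Fin (2 * m)) F} (hX : X ∈ Submodule.span F (Set.range x)) :
    X.map D ∈ Submodule.span F (Set.range x) := by
  induction hX using Submodule.span_induction with
  | mem X hX =>
    obtain ⟨a, rfl⟩ := hX
    rw [dmap_zero D fun i j => hD _ (hx a i j)]
    exact Submodule.zero_mem _
  | zero =>
    rw [dmap_zero D fun i j => by rw [Matrix.zero_apply, map_zero]]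
    exact Submodule.zero_mem _
  | add X Y _ _ h1 h2 =>
    have e : (X + Y).map D = X.map D + Y.map D := by
      ext i j
      simp
    rw [e]
    exact Submodule.add_mem _ h1 h2
  | smul s X hX h1 =>
    rw [dmap_smul]
    exact Submodule.add_mem _ (Submodule.smul_mem _ _ hX) (Submodule.smul_mem _ _ h1)

/-- the conjugation preserves the span -/
lemma span_conj (hfix : ∀ z ∈ K, σ z = z) (hx : ∀ a i j, x a i j ∈ K)
    {X : Matrix (Fin (2 * m)) (Fin (2 * m)) F} (hX : X ∈ Submodule.span F (Set.range x)) :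
    X.map σ ∈ Submodule.span F (Set.range x) := by
  induction hX using Submodule.span_induction with
  | mem X hX =>
    obtain ⟨a, rfl⟩ := hX
    have e : (x a).map σ = x a := by
      ext i j
      exact hfix _ (hx a i j)
    rw [e]
    exact Submodule.subset_span ⟨a, rfl⟩
  | zero =>
    have e : (0 : Matrix (Fin (2 * m)) (Fin (2 * m)) F).map σ = 0 := by
      ext i j
      simp
    rw [e]
    exact Submodule.zero_mem _
  | add X Y _ _ h1 h2 =>
    have e : (X + Y).map σ = X.map σ + Y.map σ := by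
      ext i j
      simp
    rw [e]
    exact Submodule.add_mem _ h1 h2
  | smul s X hX h1 =>
    have e : (s • X).map σ = σ s • X.map σ := by
      ext i j
      simp
    rw [e]
    exact Submodule.smul_mem _ _ h1

/-- the algebra in the adapted basis -/
noncomputable def Mt (B : Matrix (Fin (2 * m)) (Fin (2 * m)) F) (x : Fin r → Matrix (Fin (2 * m)) (Fin (2 * m)) F) :
    Submodule F (Matrix (Fin (2 * m)) (Fin (2 * m)) F) :=
  (Submodule.span F (Set.range x)).comap ((LinearMap.mulLeft F B⁻¹).comp (LinearMap.mulRight F B))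

lemma mem_Mt {X : Matrix (Fin (2 * m)) (Fin (2 * m)) F} : X ∈ Mt B x ↔ B⁻¹ * (X * B) ∈ Submodule.span F (Set.range x) :=
  Iff.rfl

lemma conj_mem (hB : B.det ≠ 0) {X : Matrix (Fin (2 * m)) (Fin (2 * m)) F} (hX : X ∈ Submodule.span F (Set.range x)) :
    B * X * B⁻¹ ∈ Mt B x := by
  have hu : IsUnit B.det := isUnit_iff_ne_zero.2 hB
  rw [mem_Mt]
  have e : B⁻¹ * (B * X * B⁻¹ * B) = X := by
    rw [Matrix.mul_assoc (B * X), Matrix.nonsing_inv_mul _ hu, mul_one, ← Matrix.mul_assoc, Matrix.nonsing_inv_mul _ hu,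
      one_mul]
  rw [e]
  exact hX

lemma Mt_br (hB : B.det ≠ 0) (hbr : ∀ a b, x a * x b - x b * x a ∈ Submodule.span F (Set.range x))
    {X Y : Matrix (Fin (2 * m)) (Fin (2 * m)) F} (hX : X ∈ Mt B x) (hY : Y ∈ Mt B x) : X * Y - Y * X ∈ Mt B x := by
  have hu : IsUnit B.det := isUnit_iff_ne_zero.2 hB
  rw [mem_Mt] at hX hY ⊢
  have h := span_br hbr hX hY
  have e : ∀ X Y : Matrix (Fin (2 * m)) (Fin (2 * m)) F, B⁻¹ * (X * B) * (B⁻¹ * (Y * B)) = B⁻¹ * (X * Y * B) := by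
    intro X Y
    have e1 : B⁻¹ * (X * B) * (B⁻¹ * (Y * B)) = B⁻¹ * X * (B * B⁻¹) * (Y * B) := by simp only [Matrix.mul_assoc]
    rw [e1, Matrix.mul_nonsing_inv _ hu]
    simp only [Matrix.mul_assoc, one_mul]
  rw [e, e] at h
  rw [sub_mul, mul_sub]
  exact h

/-- the eigenvalue matrix -/
noncomputable def dl (F : Type) [Field F] (m : ℕ) : Matrix (Fin (2 * m)) (Fin (2 * m)) F :=
  Matrix.diagonal (fun i : Fin (2 * m) => ((2 * m - 1 - (i : ℕ) : ℕ) : F))

lemma CD.dl_mem (h : CD K σ J g G M A B Λ Δ Φ x q κ c) : dl F m ∈ Mt B x := by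
  have hu : IsUnit B.det := isUnit_iff_ne_zero.2 h.Bdet
  have e : dl F m = B * Φ * B⁻¹ := by
    rw [h.BP, Matrix.mul_assoc, Matrix.mul_nonsing_inv _ hu, mul_one]
    rfl
  rw [e]
  exact conj_mem h.Bdet h.Pm

lemma CD.Bsm (h : CD K σ J g G M A B Λ Δ Φ x q κ c) : B.map σ = B.submatrix Fin.rev id := by
  ext i j
  exact h.Bs i j

/-- the reversal of the coordinates -/
def Rv (F : Type) [Field F] (n : ℕ) : Matrix (Fin n) (Fin n) F := (1 : Matrix (Fin n) (Fin n) F).submatrix Fin.rev id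

lemma Rv_mul {n : ℕ} (X : Matrix (Fin n) (Fin n) F) : Rv F n * X = X.submatrix Fin.rev id := by
  ext i j
  rw [Matrix.mul_apply, Finset.sum_eq_single (Fin.rev i)]
  · rw [Rv, Matrix.submatrix_apply, id, Matrix.one_apply_eq, one_mul]
    rfl
  · intro b _ hb
    rw [Rv, Matrix.submatrix_apply, id, Matrix.one_apply_ne (Ne.symm hb), zero_mul]
  · intro h0
    exact absurd (Finset.mem_univ _) h0

lemma mul_Rv {n : ℕ} (X : Matrix (Fin n) (Fin n) F) : X * Rv F n = X.submatrix id Fin.rev := by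
  ext i j
  rw [Matrix.mul_apply, Finset.sum_eq_single (Fin.rev j)]
  · rw [Rv, Matrix.submatrix_apply, id, Fin.rev_rev, Matrix.one_apply_eq, mul_one]
    rfl
  · intro b _ hb
    rw [Rv, Matrix.submatrix_apply, id, Matrix.one_apply_ne, mul_zero]
    intro h0
    apply hb
    rw [← h0, Fin.rev_rev]
  · intro h0
    exact absurd (Finset.mem_univ _) h0

lemma Rv_sq {n : ℕ} : Rv F n * Rv F n = 1 := by
  rw [Rv_mul]
  ext i j
  simp [Rv, Matrix.one_apply]

lemma map_mulσ (X Y : Matrix (Fin (2 * m)) (Fin (2 * m)) F) : (X * Y).map σ = X.map σ * Y.map σ := Matrix.map_mul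

lemma map_oneσ : (1 : Matrix (Fin (2 * m)) (Fin (2 * m)) F).map σ = 1 := Matrix.map_one σ (map_zero σ) (map_one σ)

/-- the conjugate of an element of the algebra -/
lemma CD.conj_Mt (h : CD K σ J g G M A B Λ Δ Φ x q κ c) {X : Matrix (Fin (2 * m)) (Fin (2 * m)) F} (hX : X ∈ Mt B x) :
    Rv F (2 * m) * X.map σ * Rv F (2 * m) ∈ Mt B x := by
  have hu : IsUnit B.det := isUnit_iff_ne_zero.2 h.Bdet
  have hX2 := span_conj h.fix h.xk (mem_Mt.1 hX)
  have hBs : B.map σ = Rv F (2 * m) * B := by rw [Rv_mul, h.Bsm]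
  have h1 : B.map σ * (B⁻¹ * (X * B)).map σ = X.map σ * B.map σ := by
    rw [← map_mulσ, ← map_mulσ, ← Matrix.mul_assoc, Matrix.mul_nonsing_inv _ hu, one_mul]
  rw [mem_Mt]
  have e : B⁻¹ * (Rv F (2 * m) * X.map σ * Rv F (2 * m) * B) = (B⁻¹ * (X * B)).map σ := by
    have e1 : Rv F (2 * m) * X.map σ * Rv F (2 * m) * B = Rv F (2 * m) * (X.map σ * (Rv F (2 * m) * B)) := by
      simp only [Matrix.mul_assoc]
    rw [e1, ← hBs, ← h1, hBs]
    have e2 : Rv F (2 * m) * (Rv F (2 * m) * B * (B⁻¹ * (X * B)).map σ) = (Rv F (2 * m) * Rv F (2 * m)) * B *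
        (B⁻¹ * (X * B)).map σ := by simp only [Matrix.mul_assoc]
    rw [e2, Rv_sq, one_mul, ← Matrix.mul_assoc, Matrix.nonsing_inv_mul _ hu, one_mul]
  rw [e]
  exact hX2

lemma CD.one_mem [CharZero F] (h : CD K σ J g G M A B Λ Δ Φ x q κ c) (hm : 1 ≤ m) :
    (1 : Matrix (Fin (2 * m)) (Fin (2 * m)) F) ∈ Mt B x := by
  have h1 := h.dl_mem
  have h2 := h.conj_Mt h1
  have e : dl F m + Rv F (2 * m) * (dl F m).map σ * Rv F (2 * m) = ((2 * m - 1 : ℕ) : F) • (1 : Matrix _ _ F) := by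
    rw [Rv_mul, mul_Rv]
    ext i j
    rw [Matrix.add_apply, Matrix.submatrix_apply, Matrix.submatrix_apply, Matrix.map_apply, id, id, dl,
      Matrix.smul_apply]
    by_cases hij : i = j
    · subst hij
      rw [Matrix.diagonal_apply_eq, Matrix.diagonal_apply_eq, Matrix.one_apply_eq, smul_eq_mul, mul_one, map_natCast,
        ← Nat.cast_add]
      congr 1
      have := i.2
      rw [Fin.val_rev]
      omega
    · rw [Matrix.diagonal_apply_ne _ hij, Matrix.diagonal_apply_ne, Matrix.one_apply_ne hij, map_zero, smul_zero, add_zero]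
      exact fun h0 => hij (Fin.rev_injective h0)
  have h3 := Submodule.add_mem _ h1 h2
  rw [e] at h3
  have h4 : ((2 * m - 1 : ℕ) : F) ≠ 0 := by
    rw [Nat.cast_ne_zero]
    omega
  have h5 := Submodule.smul_mem _ (((2 * m - 1 : ℕ) : F)⁻¹) h3
  rwa [smul_smul, inv_mul_cancel₀ h4, one_smul] at h5

lemma dl_eq [CharZero F] : dl F m = gr F (2 * m) + ((((2 * m : ℕ) : F) - 1) / 2) • (1 : Matrix _ _ F) := by
  ext i j
  rw [dl, gr, Matrix.add_apply, Matrix.smul_apply]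
  by_cases hij : i = j
  · subst hij
    have := i.2
    rw [Matrix.diagonal_apply_eq, Matrix.diagonal_apply_eq, Matrix.one_apply_eq, smul_eq_mul, mul_one,
      Nat.cast_sub (by omega), Nat.cast_sub (by omega)]
    push_cast
    ring
  · rw [Matrix.diagonal_apply_ne _ hij, Matrix.diagonal_apply_ne _ hij, Matrix.one_apply_ne hij, smul_zero, add_zero]

lemma CD.gr_mem [CharZero F] (h : CD K σ J g G M A B Λ Δ Φ x q κ c) (hm : 1 ≤ m) : gr F (2 * m) ∈ Mt B x := by
  have e : gr F (2 * m) = dl F m - ((((2 * m : ℕ) : F) - 1) / 2) • (1 : Matrix _ _ F) := by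
    rw [dl_eq, add_sub_cancel_right]
  rw [e]
  exact Submodule.sub_mem _ h.dl_mem (Submodule.smul_mem _ _ (h.one_mem hm))

/-- the symplectic Lie algebra -/
def spS (F : Type) [Field F] (m : ℕ) : Submodule F (Matrix (Fin (2 * m)) (Fin (2 * m)) F) where
  carrier := {X | X * SS F (2 * m) + SS F (2 * m) * Xᵀ = 0}
  zero_mem' := by simp
  add_mem' := by
    intro X Y hX hY
    show (X + Y) * SS F (2 * m) + SS F (2 * m) * (X + Y)ᵀ = 0
    have hX' : X * SS F (2 * m) + SS F (2 * m) * Xᵀ = 0 := hX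
    have hY' : Y * SS F (2 * m) + SS F (2 * m) * Yᵀ = 0 := hY
    have e : (X + Y) * SS F (2 * m) + SS F (2 * m) * (X + Y)ᵀ =
        (X * SS F (2 * m) + SS F (2 * m) * Xᵀ) + (Y * SS F (2 * m) + SS F (2 * m) * Yᵀ) := by
      rw [Matrix.transpose_add, add_mul, mul_add]
      abel
    rw [e, hX', hY', add_zero]
  smul_mem' := by
    intro s X hX
    show (s • X) * SS F (2 * m) + SS F (2 * m) * (s • X)ᵀ = 0
    have hX' : X * SS F (2 * m) + SS F (2 * m) * Xᵀ = 0 := hX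
    rw [Matrix.transpose_smul, Matrix.smul_mul, Matrix.mul_smul, ← smul_add, hX', smul_zero]

lemma mem_spS {X : Matrix (Fin (2 * m)) (Fin (2 * m)) F} : X ∈ spS F m ↔ X * SS F (2 * m) + SS F (2 * m) * Xᵀ = 0 := Iff.rfl

lemma sp_entry {X : Matrix (Fin (2 * m)) (Fin (2 * m)) F} (hX : X ∈ spS F m) (a b : Fin (2 * m)) :
    X (Fin.rev b) (Fin.rev a) = -((-1) ^ ((a : ℕ) + b) * X a b) := by
  have h := congrFun (congrFun (mem_spS.1 hX) a) (Fin.rev b)
  rw [Matrix.add_apply, mul_SS, SS_mul, Fin.rev_rev, Matrix.transpose_apply, Matrix.zero_apply] at h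
  have h2 : (-1 : F) ^ (a : ℕ) * ((-1) ^ (a : ℕ) * X (Fin.rev b) (Fin.rev a)) = -((-1) ^ (a : ℕ) * (X a b * (-1) ^ (b : ℕ))) := by
    have h3 : (-1 : F) ^ (a : ℕ) * X (Fin.rev b) (Fin.rev a) = -(X a b * (-1) ^ (b : ℕ)) := by linear_combination h
    rw [h3]
    ring
  rw [← mul_assoc, neg_one_sq', one_mul] at h2
  rw [h2, pow_add]
  ring

lemma sp_of_entry {X : Matrix (Fin (2 * m)) (Fin (2 * m)) F}
    (hX : ∀ a b : Fin (2 * m), X (Fin.rev b) (Fin.rev a) = -((-1) ^ ((a : ℕ) + b) * X a b)) : X ∈ spS F m := by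
  rw [mem_spS]
  ext a b
  rw [Matrix.add_apply, mul_SS, SS_mul, Matrix.transpose_apply, Matrix.zero_apply]
  have h := hX a (Fin.rev b)
  rw [Fin.rev_rev] at h
  rw [h, pow_add]
  have h1 := neg_one_sq' (F := F) (a : ℕ)
  linear_combination -(-1) ^ ((Fin.rev b : Fin (2 * m)) : ℕ) * X a (Fin.rev b) * h1

lemma sp_br {X Y : Matrix (Fin (2 * m)) (Fin (2 * m)) F} (hX : X ∈ spS F m) (hY : Y ∈ spS F m) : X * Y - Y * X ∈ spS F m := by
  rw [mem_spS] at hX hY ⊢
  have hX' : SS F (2 * m) * Xᵀ = -(X * SS F (2 * m)) := by rw [← add_eq_zero_iff_eq_neg', hX]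
  have hY' : SS F (2 * m) * Yᵀ = -(Y * SS F (2 * m)) := by rw [← add_eq_zero_iff_eq_neg', hY]
  have e1 : SS F (2 * m) * (Yᵀ * Xᵀ) = Y * (X * SS F (2 * m)) := by
    rw [← Matrix.mul_assoc, hY', Matrix.neg_mul, Matrix.mul_assoc, hX', Matrix.mul_neg, neg_neg]
  have e2 : SS F (2 * m) * (Xᵀ * Yᵀ) = X * (Y * SS F (2 * m)) := by
    rw [← Matrix.mul_assoc, hX', Matrix.neg_mul, Matrix.mul_assoc, hY', Matrix.mul_neg, neg_neg]
  rw [Matrix.transpose_sub, Matrix.transpose_mul, Matrix.transpose_mul, sub_mul, mul_sub, e1, e2, Matrix.mul_assoc,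
    Matrix.mul_assoc]
  abel

lemma gr_sp [CharZero F] : gr F (2 * m) ∈ spS F m := by
  apply sp_of_entry
  intro a b
  rw [gr]
  by_cases hab : a = b
  · subst hab
    have := a.2
    rw [Matrix.diagonal_apply_eq, Matrix.diagonal_apply_eq, ← two_mul, pow_mul, neg_one_sq, one_pow, one_mul, Fin.val_rev,
      Nat.cast_sub (by omega)]
    push_cast
    ring
  · rw [Matrix.diagonal_apply_ne _ hab, Matrix.diagonal_apply_ne, mul_zero, neg_zero]
    exact fun h0 => hab (Fin.rev_injective h0).symm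

/-- the Lie algebra of the core -/
noncomputable def Lc (B : Matrix (Fin (2 * m)) (Fin (2 * m)) F) (x : Fin r → Matrix (Fin (2 * m)) (Fin (2 * m)) F) :
    Submodule F (Matrix (Fin (2 * m)) (Fin (2 * m)) F) := Mt B x ⊓ spS F m

lemma CD.lh [CharZero F] (h : CD K σ J g G M A B Λ Δ Φ x q κ c) (hm : 1 ≤ m) : LH m σ (Lc B x) := by
  have hbr : ∀ X ∈ Lc B x, ∀ Y ∈ Lc B x, X * Y - Y * X ∈ Lc B x := fun X hX Y hY =>
    ⟨Mt_br h.Bdet h.br hX.1 hY.1, sp_br hX.2 hY.2⟩
  have hgr : gr F (2 * m) ∈ Lc B x := ⟨h.gr_mem hm, gr_sp⟩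
  refine ⟨hbr, fun X hX => hX.2, fun X hX => ?_, hgr⟩
  -- the adjoint
  set Y := Rv F (2 * m) * X.map σ * Rv F (2 * m) with hY
  have hYe : ∀ a b, Y a b = σ (X (Fin.rev a) (Fin.rev b)) := by
    intro a b
    rw [hY, Rv_mul, mul_Rv]
    rfl
  have hYM : Y ∈ Mt B x := h.conj_Mt hX.1
  have hYS : Y ∈ spS F m := by
    apply sp_of_entry
    intro a b
    rw [hYe, hYe, sp_entry hX.2 (Fin.rev a) (Fin.rev b), map_neg, map_mul, map_pow, map_neg, map_one]
    have e : (-1 : F) ^ (((Fin.rev a : Fin (2 * m)) : ℕ) + ((Fin.rev b : Fin (2 * m)) : ℕ)) = (-1) ^ ((a : ℕ) + b) := by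
      rw [pow_add, neg_one_rev, neg_one_rev, pow_add]
      ring
    rw [e]
  have hYL : Y ∈ Lc B x := ⟨hYM, hYS⟩
  have h3 := graded (Lc B x) (fun Z hZ => hbr _ hgr _ hZ) (fun d => -(-1) ^ (d.natAbs)) hYL
  have e : (X.map σ)ᵀ = Matrix.of fun a b : Fin (2 * m) => -(-1 : F) ^ ((((b : ℕ) : ℤ) - ((a : ℕ) : ℤ)).natAbs) * Y a b := by
    ext a b
    rw [Matrix.transpose_apply, Matrix.map_apply, Matrix.of_apply, hYe]
    have h4 := sp_entry hX.2 (Fin.rev a) (Fin.rev b)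
    rw [Fin.rev_rev, Fin.rev_rev] at h4
    rw [h4, map_neg, map_mul, map_pow, map_neg, map_one, neg_mul]
    congr 2
    rw [pow_add, neg_one_rev, neg_one_rev, neg_mul_neg, ← pow_add]
    rcases le_total (a : ℕ) (b : ℕ) with hab | hab
    · have e1 : (((b : ℕ) : ℤ) - ((a : ℕ) : ℤ)).natAbs = b - a := by omega
      rw [e1, show (a : ℕ) + b = (b - a) + (a + a) by omega, pow_add _ ((b : ℕ) - a), pow_add, neg_one_sq', mul_one]
    · have e1 : (((b : ℕ) : ℤ) - ((a : ℕ) : ℤ)).natAbs = a - b := by omega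
      rw [e1, show (a : ℕ) + b = (a - b) + (b + b) by omega, pow_add _ ((a : ℕ) - b), pow_add, neg_one_sq', mul_one]
  rw [e]
  exact h3

end

end Pool.Agent.Y113.MT
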