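import Pool.Agent.Y113.MT.Core

/-!
# The algebraic core of the project MT, second part
-/

set_option autoImplicit false
set_option maxHeartbeats 1000000

open Matrix

namespace Pool.Agent.Y113.MT

section
variable {F : Type} [Field F] {K : Subfield F} {σ : F →+* F} {m : ℕ}
  {J g G M A B Λ Δ Φ : Matrix (Fin (2 * m)) (Fin (2 * m)) F} {r : ℕ} {x : Fin r → Matrix (Fin (2 * m)) (Fin (2 * m)) F}
  {q κ c : F}

lemma trace_eq {n : ℕ} (X ξ : Matrix (Fin n) (Fin n) F) : Matrix.trace (X * (ξ.map σ)ᵀ) = ∑ a, ∑ b, X a b * σ (ξ a b) := by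
  rw [Matrix.trace]
  refine Finset.sum_congr rfl fun a _ => ?_
  rw [Matrix.diag_apply, Matrix.mul_apply]
  rfl

/-- the relations for `W = D(G) G⁻¹` -/
lemma CD.W1 (h : CD K σ J g G M A B Λ Δ Φ x q κ c) (D : Derivation ℤ F F) (hD : ∀ z ∈ K, D z = 0) :
    (G.map D * G⁻¹) * NN F (2 * m) - NN F (2 * m) * (G.map D * G⁻¹) = (D q / q) • NN F (2 * m) := by
  have hu : IsUnit G.det := isUnit_iff_ne_zero.2 h.Gdet
  have hN : (NN F (2 * m)).map D = 0 := dmap_zero D fun i j => NN_d D i j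
  have h1 := congrArg (fun Y : Matrix (Fin (2 * m)) (Fin (2 * m)) F => Y.map D) h.GM
  simp only [dmap_mul, dmap_smul, dmap_zero D (fun i j => hD _ (h.Mk i j)), hN, mul_zero, add_zero, zero_mul,
    zero_add] at h1
  -- G.map D * M = D q • (N * G) + q • (N * G.map D)
  have h2 : G.map D * M = (G.map D * G⁻¹) * (q • (NN F (2 * m) * G)) := by
    rw [← h.GM, Matrix.mul_assoc, ← Matrix.mul_assoc G⁻¹, Matrix.nonsing_inv_mul _ hu, one_mul]
  rw [h2] at h1
  have h3 := congrArg (fun Y => Y * G⁻¹) h1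
  simp only [Matrix.mul_assoc, Matrix.add_mul, Matrix.smul_mul, Matrix.mul_smul, Matrix.mul_nonsing_inv _ hu, mul_one] at h3
  -- q • (D G * (G⁻¹ * N)) = D q • N + q • (N * (D G * G⁻¹))
  rw [Matrix.mul_assoc]
  have h4 : q • (G.map D * (G⁻¹ * NN F (2 * m)) - NN F (2 * m) * (G.map D * G⁻¹)) = D q • NN F (2 * m) := by
    rw [smul_sub, h3, add_sub_cancel_right]
  have h5 := congrArg (fun Y => q⁻¹ • Y) h4
  simp only [smul_smul, inv_mul_cancel₀ h.q0, one_smul] at h5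
  rw [h5, div_eq_mul_inv, mul_comm (D q)]

lemma CD.W2 (h : CD K σ J g G M A B Λ Δ Φ x q κ c) (D : Derivation ℤ F F) (hD : ∀ z ∈ K, D z = 0) :
    (G.map D * G⁻¹)ᵀ * J + J * (G.map D * G⁻¹) = (D κ / κ) • J := by
  have hu : IsUnit G.det := isUnit_iff_ne_zero.2 h.Gdet
  have hJu : IsUnit J.det := isUnit_iff_ne_zero.2 h.Jdet
  set W := G.map D * G⁻¹ with hW
  have hWG : G.map D = W * G := by
    rw [hW, Matrix.mul_assoc, Matrix.nonsing_inv_mul _ hu, mul_one]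
  have hJd : (J⁻¹).map D = 0 := dmap_inv D h.Jdet (dmap_zero D fun i j => hD _ (h.Jk i j))
  have h1 := congrArg (fun Y : Matrix (Fin (2 * m)) (Fin (2 * m)) F => Y.map D) h.GA
  simp only [dmap_mul, dmap_smul, dmap_zero D (fun i j => hD _ (h.Ak i j)), hJd, mul_zero, add_zero, smul_zero, dmap_tr,
    hWG, Matrix.transpose_mul] at h1
  have h2 : W * (G * A * Gᵀ) + (G * A * Gᵀ) * Wᵀ = D κ • J⁻¹ := by
    rw [← h1]
    simp only [Matrix.mul_assoc]
  rw [h.GA] at h2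
  have h3 := congrArg (fun Y => κ⁻¹ • (J * Y * J)) h2
  simp only [Matrix.mul_add, Matrix.add_mul, Matrix.smul_mul, Matrix.mul_smul, smul_add, smul_smul,
    inv_mul_cancel₀ h.k0, one_smul] at h3
  have e1 : J * (W * J⁻¹) * J = J * W := by
    rw [← Matrix.mul_assoc, Matrix.mul_assoc, Matrix.nonsing_inv_mul _ hJu, mul_one]
  have e2 : J * (J⁻¹ * Wᵀ) * J = Wᵀ * J := by
    rw [← Matrix.mul_assoc J, Matrix.mul_nonsing_inv _ hJu, one_mul]
  have e3 : J * J⁻¹ * J = J := by rw [Matrix.mul_nonsing_inv _ hJu, one_mul]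
  rw [e1, e2, e3] at h3
  rw [add_comm, h3, div_eq_mul_inv, mul_comm (D κ)]

/-- the form in the adapted basis -/
lemma CD.EJ (h : CD K σ J g G M A B Λ Δ Φ x q κ c) :
    (Λ * (Δ * g)) * J⁻¹ * (Λ * (Δ * g))ᵀ = (c / κ) • SS F (2 * m) := by
  have h1 := h.BA
  rw [h.BE, Matrix.transpose_mul] at h1
  have h2 : (Λ * (Δ * g)) * (G * A * Gᵀ) * (Λ * (Δ * g))ᵀ = c • SS F (2 * m) := by
    rw [← h1]
    simp only [Matrix.mul_assoc]
  rw [h.GA, Matrix.mul_smul, Matrix.smul_mul] at h2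
  have h3 := congrArg (fun Y => κ⁻¹ • Y) h2
  simp only [smul_smul, inv_mul_cancel₀ h.k0, one_smul] at h3
  rw [h3, div_eq_mul_inv, mul_comm c]

lemma gsp_aux {E J U : Matrix (Fin (2 * m)) (Fin (2 * m)) F} {s s0 : F} (hJ : J.det ≠ 0) (hE : E.det ≠ 0) (hs0 : s0 ≠ 0)
    (hEJ : E * J⁻¹ * Eᵀ = s0 • SS F (2 * m)) (hU : Uᵀ * J + J * U = s • J) :
    (E * U * E⁻¹) * SS F (2 * m) + SS F (2 * m) * (E * U * E⁻¹)ᵀ = s • SS F (2 * m) := by
  have hJu : IsUnit J.det := isUnit_iff_ne_zero.2 hJ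
  have hEu : IsUnit E.det := isUnit_iff_ne_zero.2 hE
  have hETu : IsUnit Eᵀ.det := by rwa [Matrix.det_transpose]
  have h1 : SS F (2 * m) = s0⁻¹ • (E * J⁻¹ * Eᵀ) := by
    rw [hEJ, smul_smul, inv_mul_cancel₀ hs0, one_smul]
  have h2 : U * J⁻¹ + J⁻¹ * Uᵀ = s • J⁻¹ := by
    have h3 := congrArg (fun Y => J⁻¹ * Y * J⁻¹) hU
    simp only [Matrix.mul_add, Matrix.add_mul, Matrix.mul_smul, Matrix.smul_mul] at h3
    have e1 : J⁻¹ * (Uᵀ * J) * J⁻¹ = J⁻¹ * Uᵀ := by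
      rw [Matrix.mul_assoc, Matrix.mul_assoc, Matrix.mul_nonsing_inv _ hJu, mul_one]
    have e2 : J⁻¹ * (J * U) * J⁻¹ = U * J⁻¹ := by
      rw [← Matrix.mul_assoc J⁻¹, Matrix.nonsing_inv_mul _ hJu, one_mul]
    have e3 : J⁻¹ * J * J⁻¹ = J⁻¹ := by rw [Matrix.nonsing_inv_mul _ hJu, one_mul]
    rw [e1, e2, e3] at h3
    rw [add_comm, h3]
  have e1 : E * U * E⁻¹ * (E * J⁻¹ * Eᵀ) = E * (U * J⁻¹) * Eᵀ := by
    have : E * U * E⁻¹ * (E * J⁻¹ * Eᵀ) = E * U * (E⁻¹ * E) * J⁻¹ * Eᵀ := by simp only [Matrix.mul_assoc]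
    rw [this, Matrix.nonsing_inv_mul _ hEu, mul_one]
    simp only [Matrix.mul_assoc]
  have e2 : E * J⁻¹ * Eᵀ * (E * U * E⁻¹)ᵀ = E * (J⁻¹ * Uᵀ) * Eᵀ := by
    rw [Matrix.transpose_mul, Matrix.transpose_mul, Matrix.transpose_nonsing_inv]
    have : E * J⁻¹ * Eᵀ * ((Eᵀ)⁻¹ * (Uᵀ * Eᵀ)) = E * J⁻¹ * (Eᵀ * (Eᵀ)⁻¹) * (Uᵀ * Eᵀ) := by simp only [Matrix.mul_assoc]
    rw [this, Matrix.mul_nonsing_inv _ hETu, mul_one]
    simp only [Matrix.mul_assoc]
  rw [h1, Matrix.mul_smul, Matrix.smul_mul, ← smul_add, e1, e2, ← add_mul, ← mul_add, h2, Matrix.mul_smul,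
    Matrix.smul_mul, smul_comm s]

/-- similitudes in the adapted basis -/
lemma CD.gsp (h : CD K σ J g G M A B Λ Δ Φ x q κ c) {U : Matrix (Fin (2 * m)) (Fin (2 * m)) F} {s : F}
    (hU : Uᵀ * J + J * U = s • J) :
    ((Λ * (Δ * g)) * U * (Λ * (Δ * g))⁻¹) * SS F (2 * m) + SS F (2 * m) * ((Λ * (Δ * g)) * U * (Λ * (Δ * g))⁻¹)ᵀ =
      s • SS F (2 * m) := gsp_aux h.Jdet h.Edet (div_ne_zero h.c0 h.k0) h.EJ hU

/-- rank one elements -/
lemma CD.rk1 (h : CD K σ J g G M A B Λ Δ Φ x q κ c) (v : Fin (2 * m) → F) :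
    (vecMulVec v v * J)ᵀ * J + J * (vecMulVec v v * J) = 0 := by
  have e : (vecMulVec v v)ᵀ = vecMulVec v v := by
    ext i j
    simp only [Matrix.transpose_apply, vecMulVec_apply, mul_comm]
  rw [Matrix.transpose_mul, e, h.Jt, Matrix.neg_mul, Matrix.neg_mul, Matrix.mul_assoc, neg_add_cancel]

lemma lower_inv {X : Matrix (Fin (2 * m)) (Fin (2 * m)) F} (hdet : X.det ≠ 0) (hX : ∀ a b, a < b → X a b = 0) :
    ∀ a b, a < b → X⁻¹ a b = 0 := by
  have hX' : X.BlockTriangular OrderDual.toDual := fun a b hab => hX a b hab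
  have : Invertible X := Matrix.invertibleOfIsUnitDet X (isUnit_iff_ne_zero.2 hdet)
  have h2 := Matrix.blockTriangular_inv_of_blockTriangular hX'
  exact fun a b hab => h2 hab

/-- **the main step** -/
theorem CD.der_step [CharZero F] (h : CD K σ J g G M A B Λ Δ Φ x q κ c) (hm : 1 ≤ m) (D : Derivation ℤ F F)
    (hD : ∀ z ∈ K, D z = 0) (v : Fin (2 * m) → F) (hg : g.map D = g * (vecMulVec v v * J))
    (ξ : Matrix (Fin (2 * m)) (Fin (2 * m)) F) (hξ : ∀ a b, b ≤ a → ξ a b = 0)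
    (hξL : ∀ X ∈ Lc B x, Matrix.trace (X * (ξ.map σ)ᵀ) = 0) :
    Matrix.trace (((Λ * (Δ * g)) * (vecMulVec v v * J + G.map D * G⁻¹) * (Λ * (Δ * g))⁻¹) * (ξ.map σ)ᵀ) = 0 := by
  have hBu : IsUnit B.det := isUnit_iff_ne_zero.2 h.Bdet
  have hGu : IsUnit G.det := isUnit_iff_ne_zero.2 h.Gdet
  have hLu : IsUnit Λ.det := isUnit_iff_ne_zero.2 h.Ldet
  set W := G.map D * G⁻¹ with hW
  set Z := vecMulVec v v * J with hZ
  set E := Λ * (Δ * g) with hE
  have hEu : IsUnit E.det := isUnit_iff_ne_zero.2 h.Edet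
  set UB := B.map D * B⁻¹ with hUB
  have hWG : G.map D = W * G := by rw [hW, Matrix.mul_assoc, Matrix.nonsing_inv_mul _ hGu, mul_one]
  have hUBB : B.map D = UB * B := by rw [hUB, Matrix.mul_assoc, Matrix.nonsing_inv_mul _ hBu, mul_one]
  have hBE : B = E * G := h.BE
  -- first formula for `UB`
  have h1 : UB = Λ.map D * Λ⁻¹ + E * (Z + W) * E⁻¹ := by
    have h2 : B.map D = Λ.map D * (Δ * (g * G)) + E * (Z + W) * G := by
      rw [h.BL, dmap_mul, dmap_mul, dmap_mul, dmap_zero D (fun i j => hD _ (h.Dk i j)), zero_mul, zero_add, hg, hWG, hE]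
      simp only [Matrix.mul_add, Matrix.add_mul, Matrix.mul_assoc]
    have h3 : Δ * (g * G) = Λ⁻¹ * B := by
      nth_rewrite 1 [h.BL]
      rw [← Matrix.mul_assoc Λ⁻¹, Matrix.nonsing_inv_mul _ hLu, one_mul]
    have h4 : G = E⁻¹ * B := by
      rw [hBE, ← Matrix.mul_assoc, Matrix.nonsing_inv_mul _ hEu, one_mul]
    have h5 : G * B⁻¹ = E⁻¹ := by
      nth_rewrite 1 [h4]
      rw [Matrix.mul_assoc, Matrix.mul_nonsing_inv _ hBu, mul_one]
    rw [hUB, h2, add_mul, h3, Matrix.mul_assoc, Matrix.mul_assoc, Matrix.mul_nonsing_inv _ hBu, mul_one,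
      Matrix.mul_assoc (E * (Z + W)), h5]
  -- second formula
  have hPd := span_der D hD h.xk h.Pm
  have hdl : (dl F m).map D = 0 := by
    refine dmap_zero D fun i j => ?_
    rw [dl]
    by_cases hij : i = j
    · subst hij
      rw [Matrix.diagonal_apply_eq, Derivation.map_natCast]
    · rw [Matrix.diagonal_apply_ne _ hij, map_zero]
  have hBP : B * Φ = dl F m * B := h.BP
  have h6 : UB * dl F m - dl F m * UB = -(B * Φ.map D * B⁻¹) := by
    have h7 := congrArg (fun Y : Matrix (Fin (2 * m)) (Fin (2 * m)) F => Y.map D) hBP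
    simp only [dmap_mul, hdl, zero_mul, zero_add, hUBB] at h7
    -- UB * B * Φ + B * Φ.map D = dl * (UB * B)
    rw [Matrix.mul_assoc UB, hBP] at h7
    have h8 := congrArg (fun Y => Y * B⁻¹) h7
    simp only [Matrix.add_mul] at h8
    have e1 : UB * (dl F m * B) * B⁻¹ = UB * dl F m := by
      rw [← Matrix.mul_assoc, Matrix.mul_assoc, Matrix.mul_nonsing_inv _ hBu, mul_one]
    have e2 : dl F m * (UB * B) * B⁻¹ = dl F m * UB := by
      rw [← Matrix.mul_assoc, Matrix.mul_assoc, Matrix.mul_nonsing_inv _ hBu, mul_one]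
    rw [e1, e2] at h8
    rw [← h8]
    abel
  have h7 : UB * dl F m - dl F m * UB ∈ Mt B x := by
    rw [h6]
    exact Submodule.neg_mem _ (conj_mem h.Bdet hPd)
  have hentry : ∀ a b : Fin (2 * m), (UB * dl F m - dl F m * UB) a b =
      (((((a : ℕ) : ℤ) - ((b : ℕ) : ℤ) : ℤ)) : F) * UB a b := by
    intro a b
    have hk : ∀ k : Fin (2 * m), ((2 * m - 1 - (k : ℕ) : ℕ) : F) = ((2 * m - 1 : ℕ) : F) - (k : ℕ) := by
      intro k
      have := k.2
      rw [Nat.cast_sub (by omega)]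
    rw [Matrix.sub_apply, dl, Matrix.diagonal_mul, Matrix.mul_diagonal, hk, hk]
    push_cast
    ring
  have h8 := graded (Mt B x) (fun X hX => Mt_br h.Bdet h.br (h.gr_mem hm) hX)
    (fun d => if 0 < d then -((d : F)⁻¹) else 0) h7
  set UP : Matrix (Fin (2 * m)) (Fin (2 * m)) F := Matrix.of fun a b => if a < b then UB a b else 0 with hUP
  have h9 : UP ∈ Mt B x := by
    have e : UP = Matrix.of fun a b : Fin (2 * m) => (fun d : ℤ => if 0 < d then -((d : F)⁻¹) else 0)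
        (((b : ℕ) : ℤ) - ((a : ℕ) : ℤ)) * (UB * dl F m - dl F m * UB) a b := by
      ext a b
      rw [hUP, Matrix.of_apply, Matrix.of_apply, hentry]
      by_cases hab : a < b
      · have hab' : (a : ℕ) < b := hab
        have h0 : 0 < ((b : ℕ) : ℤ) - ((a : ℕ) : ℤ) := by omega
        have h0' : ((((b : ℕ) : ℤ) - ((a : ℕ) : ℤ) : ℤ) : F) ≠ 0 := by
          rw [Int.cast_ne_zero]
          omega
        rw [if_pos hab]
        simp only [if_pos h0]
        have e2 : (((((a : ℕ) : ℤ) - ((b : ℕ) : ℤ) : ℤ)) : F) = -((((b : ℕ) : ℤ) - ((a : ℕ) : ℤ) : ℤ) : F) := by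
          push_cast
          ring
        rw [e2, ← mul_assoc, neg_mul_neg, inv_mul_cancel₀ h0', one_mul]
      · have hab' : ¬ ((a : ℕ) < b) := hab
        have h0 : ¬ (0 < ((b : ℕ) : ℤ) - ((a : ℕ) : ℤ)) := by omega
        rw [if_neg hab]
        simp only [if_neg h0, zero_mul]
    rw [e]
    exact h8
  -- the upper part of `Y = E (Z + W) E⁻¹`
  set Y := E * (Z + W) * E⁻¹ with hY
  have hYU : ∀ a b, a < b → UB a b = Y a b := by
    intro a b hab
    rw [h1, Matrix.add_apply]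
    have : (Λ.map D * Λ⁻¹) a b = 0 := by
      rw [Matrix.mul_apply]
      refine Finset.sum_eq_zero fun k _ => ?_
      rcases lt_or_ge a k with hk | hk
      · rw [Matrix.map_apply, h.Ll a k hk, map_zero, zero_mul]
      · rw [lower_inv h.Ldet h.Ll k b (lt_of_le_of_lt hk hab), mul_zero]
    rw [this, zero_add]
  have hgs : ∃ s : F, Y * SS F (2 * m) + SS F (2 * m) * Yᵀ = s • SS F (2 * m) := by
    refine ⟨D κ / κ, h.gsp ?_⟩
    have e1 := h.rk1 v
    have e2 := h.W2 D hD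
    rw [Matrix.transpose_add, add_mul, mul_add]
    calc Zᵀ * J + Wᵀ * J + (J * Z + J * W) = (Zᵀ * J + J * Z) + (Wᵀ * J + J * W) := by abel
      _ = _ := by rw [e1, e2, zero_add]
  obtain ⟨s, hs⟩ := hgs
  have hUPs : UP ∈ spS F m := by
    apply sp_of_entry
    intro a b
    rw [hUP, Matrix.of_apply, Matrix.of_apply]
    by_cases hab : a < b
    · have hab2 : Fin.rev b < Fin.rev a := Fin.rev_lt_rev.2 hab
      rw [if_pos hab, if_pos hab2, hYU _ _ hab, hYU _ _ hab2]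
      have h10 := congrFun (congrFun hs a) (Fin.rev b)
      rw [Matrix.add_apply, mul_SS, SS_mul, Fin.rev_rev, Matrix.transpose_apply, Matrix.smul_apply, SS_ne, smul_zero] at h10
      · have h11 : (-1 : F) ^ (a : ℕ) * ((-1) ^ (a : ℕ) * Y (Fin.rev b) (Fin.rev a)) =
            -((-1) ^ (a : ℕ) * (Y a b * (-1) ^ (b : ℕ))) := by
          have h3 : (-1 : F) ^ (a : ℕ) * Y (Fin.rev b) (Fin.rev a) = -(Y a b * (-1) ^ (b : ℕ)) := by linear_combination h10
          rw [h3]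
          ring
        rw [← mul_assoc, neg_one_sq', one_mul] at h11
        rw [h11, pow_add]
        ring
      · intro h0
        exact absurd (Fin.rev_injective h0) (ne_of_gt hab)
    · have hab2 : ¬ (Fin.rev b < Fin.rev a) := fun h0 => hab (Fin.rev_lt_rev.1 h0)
      rw [if_neg hab, if_neg hab2, mul_zero, neg_zero]
  have h12 := hξL UP ⟨h9, hUPs⟩
  rw [trace_eq] at h12 ⊢
  rw [← h12]
  refine Finset.sum_congr rfl fun a _ => Finset.sum_congr rfl fun b _ => ?_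
  by_cases hab : a < b
  · rw [hUP, Matrix.of_apply, if_pos hab, hYU _ _ hab]
  · rw [hξ a b (not_lt.1 hab), map_zero, mul_zero, mul_zero]

end

end Pool.Agent.Y113.MT
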