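import Pool.Agent.Y113.MT.Core2
import Mathlib.LinearAlgebra.FiniteDimensional.Lemmas

/-!
# The core theorem of the project MT
-/

set_option autoImplicit false
set_option maxHeartbeats 1000000

open Matrix

namespace Pool.Agent.Y113.MT

section
variable {F : Type} [Field F] {K : Subfield F} {σ : F →+* F} {m : ℕ}
  {J g G M A B Λ Δ Φ : Matrix (Fin (2 * m)) (Fin (2 * m)) F} {r : ℕ} {x : Fin r → Matrix (Fin (2 * m)) (Fin (2 * m)) F}
  {q κ c : F}

lemma xi_exists [CharZero F] (h1 : S_LIE1) (h2 : S_LIE2) (h3 : S_LIE3) (hσ : ∀ z, σ (σ z) = z) (hm : 1 ≤ m)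
    {L : Submodule F (Matrix (Fin (2 * m)) (Fin (2 * m)) F)} (hL : LH m σ L) {y : Matrix (Fin (2 * m)) (Fin (2 * m)) F}
    (hy : y * SS F (2 * m) + SS F (2 * m) * yᵀ = 0) (hyL : y ∉ L) : ∃ p, 2 * m - 2 ≤ p ∧ Xi m σ L p := by
  by_cases hI : Irr L
  · by_cases hE : EE F (2 * m) ∈ L
    · exact absurd (h1 F σ m hm L hL hI hE y hy) hyL
    · exact ⟨2 * m - 1, by omega, h2 F σ m hm hσ L hL hI hE⟩
  · exact ⟨2 * m - 2, le_rfl, h3 F σ m hm L hL hI⟩

/-- the space of the possible `W` -/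
def Vw (F : Type) [Field F] {m : ℕ} (J : Matrix (Fin (2 * m)) (Fin (2 * m)) F) :
    Submodule F (Matrix (Fin (2 * m)) (Fin (2 * m)) F) where
  carrier := {W | (∃ a : F, W * NN F (2 * m) - NN F (2 * m) * W = a • NN F (2 * m)) ∧ ∃ c : F, Wᵀ * J + J * W = c • J}
  zero_mem' := ⟨⟨0, by simp⟩, 0, by simp⟩
  add_mem' := by
    rintro X Y ⟨⟨a, ha⟩, b, hb⟩ ⟨⟨a', ha'⟩, b', hb'⟩
    refine ⟨⟨a + a', ?_⟩, b + b', ?_⟩
    · rw [add_smul, ← ha, ← ha', add_mul, mul_add]
      abel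
    · rw [add_smul, ← hb, ← hb', Matrix.transpose_add, add_mul, mul_add]
      abel
  smul_mem' := by
    rintro s X ⟨⟨a, ha⟩, b, hb⟩
    refine ⟨⟨s * a, ?_⟩, s * b, ?_⟩
    · rw [mul_smul, ← ha, Matrix.smul_mul, Matrix.mul_smul, smul_sub]
    · rw [mul_smul, ← hb, Matrix.transpose_smul, Matrix.smul_mul, Matrix.mul_smul, smul_add]

/-- the symplectic Lie algebra is spanned by squares -/
lemma sp_span [CharZero F] {X : Matrix (Fin (2 * m)) (Fin (2 * m)) F} (hX : X ∈ spS F m) :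
    X ∈ Submodule.span F (Set.range fun w : Fin (2 * m) → F => vecMulVec w w * SS F (2 * m)) := by
  classical
  set S := X * SS F (2 * m) with hS
  have hSt : Sᵀ = S := by
    have h1 := mem_spS.1 hX
    rw [hS, Matrix.transpose_mul, SS_tr, Matrix.neg_mul]
    exact (eq_neg_of_add_eq_zero_left h1).symm
  have hXS : X = -(S * SS F (2 * m)) := by
    rw [hS, Matrix.mul_assoc, SS_sq, Matrix.mul_neg, mul_one, neg_neg]
  have e2 : S = (1 / 2 : F) • ∑ a, ∑ b, S a b • (vecMulVec (Pi.single a 1 + Pi.single b 1) (Pi.single a 1 + Pi.single b 1) -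
      vecMulVec (Pi.single a 1) (Pi.single a 1) - vecMulVec (Pi.single b 1) (Pi.single b 1) : Matrix _ _ F) := by
    have e3 : ∀ a b : Fin (2 * m), (vecMulVec (Pi.single a 1 + Pi.single b 1) (Pi.single a 1 + Pi.single b 1) -
      vecMulVec (Pi.single a 1) (Pi.single a 1) - vecMulVec (Pi.single b 1) (Pi.single b 1) : Matrix (Fin (2 * m)) (Fin (2 * m)) F) =
      vecMulVec (Pi.single a 1) (Pi.single b 1) + vecMulVec (Pi.single b 1) (Pi.single a 1) := by
      intro a b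
      ext i j
      simp only [Matrix.sub_apply, Matrix.add_apply, vecMulVec_apply, Pi.add_apply]
      ring
    simp only [e3]
    ext i j
    rw [Matrix.smul_apply, Matrix.sum_apply]
    simp only [Matrix.sum_apply, Matrix.smul_apply, Matrix.add_apply, vecMulVec_apply, Pi.single_apply, smul_eq_mul]
    have e4 : ∑ a : Fin (2 * m), ∑ b : Fin (2 * m), S a b * ((if i = a then (1 : F) else 0) * (if j = b then (1 : F) else 0) +
        (if i = b then (1 : F) else 0) * (if j = a then (1 : F) else 0)) = S i j + S j i := by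
      simp only [mul_add, Finset.sum_add_distrib, mul_ite, mul_one, mul_zero, Finset.sum_ite_eq, Finset.mem_univ, if_true]
      simp
    rw [e4]
    have e5 : S j i = S i j := by
      have := congrFun (congrFun hSt i) j
      rwa [Matrix.transpose_apply] at this
    rw [e5]
    ring
  rw [hXS, e2, Matrix.smul_mul, ← smul_neg]
  refine Submodule.smul_mem _ _ (Submodule.neg_mem _ ?_)
  rw [Finset.sum_mul]
  refine Submodule.sum_mem _ fun a _ => ?_
  rw [Finset.sum_mul]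
  refine Submodule.sum_mem _ fun b _ => ?_
  rw [Matrix.smul_mul]
  refine Submodule.smul_mem _ _ ?_
  rw [sub_mul, sub_mul]
  exact Submodule.sub_mem _ (Submodule.sub_mem _ (Submodule.subset_span ⟨_, rfl⟩) (Submodule.subset_span ⟨_, rfl⟩))
    (Submodule.subset_span ⟨_, rfl⟩)

/-- rank one elements in the adapted basis -/
lemma CD.rk1' (h : CD K σ J g G M A B Λ Δ Φ x q κ c) (v : Fin (2 * m) → F) :
    (Λ * (Δ * g)) * (vecMulVec v v * J) * (Λ * (Δ * g))⁻¹ =
      -((κ / c) • (vecMulVec ((Λ * (Δ * g)) *ᵥ v) ((Λ * (Δ * g)) *ᵥ v) * SS F (2 * m))) := by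
  have hJu : IsUnit J.det := isUnit_iff_ne_zero.2 h.Jdet
  have hEJ := h.EJ
  have hEd := h.Edet
  generalize Λ * (Δ * g) = E at hEJ hEd
  have hEu : IsUnit E.det := isUnit_iff_ne_zero.2 hEd
  have h1 : J * E⁻¹ = -((κ / c) • (Eᵀ * SS F (2 * m))) := by
    -- from `E J⁻¹ Eᵀ = (c/κ) SS`
    have h2 : J * E⁻¹ * (E * J⁻¹ * Eᵀ) * SS F (2 * m) = Eᵀ * SS F (2 * m) := by
      have : J * E⁻¹ * (E * J⁻¹ * Eᵀ) = J * (E⁻¹ * E) * J⁻¹ * Eᵀ := by simp only [Matrix.mul_assoc]
      rw [this, Matrix.nonsing_inv_mul _ hEu, mul_one, Matrix.mul_nonsing_inv _ hJu, one_mul]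
    rw [hEJ, Matrix.mul_smul, Matrix.smul_mul, Matrix.mul_assoc, SS_sq, Matrix.mul_neg, mul_one] at h2
    have h3 : κ / c * (c / κ) = 1 := by
      have := h.c0
      have := h.k0
      field_simp
    rw [← h2, smul_smul, h3, one_smul, neg_neg]
  rw [Matrix.mul_assoc, Matrix.mul_assoc, h1, Matrix.mul_neg, Matrix.mul_neg, Matrix.mul_smul, Matrix.mul_smul,
    ← Matrix.mul_assoc (vecMulVec v v), ← Matrix.mul_assoc E]
  congr 3
  rw [← Matrix.mul_assoc, Matrix.mul_vecMulVec, Matrix.vecMulVec_mul, Matrix.vecMul_transpose]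

/-- **The core theorem.** -/
theorem core [CharZero F] (l1 : S_LIE1) (l2 : S_LIE2) (l3 : S_LIE3) (lF : S_FIN) (lE : S_EB) (lG : S_GEN)
    (h : CD K σ J g G M A B Λ Δ Φ x q κ c) (hm : 4 ≤ m) {y : Matrix (Fin (2 * m)) (Fin (2 * m)) F}
    (hy : y * A + A * yᵀ = 0) : y ∈ Submodule.span F (Set.range x) := by
  by_contra hyn
  have hBu : IsUnit B.det := isUnit_iff_ne_zero.2 h.Bdet
  have hEd := h.Edet
  have hEu : IsUnit (Λ * (Δ * g)).det := isUnit_iff_ne_zero.2 hEd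
  -- the algebra is proper
  have hy1 : B * y * B⁻¹ ∈ spS F m := by
    rw [mem_spS]
    have h1 : SS F (2 * m) = c⁻¹ • (B * A * Bᵀ) := by rw [h.BA, smul_smul, inv_mul_cancel₀ h.c0, one_smul]
    have hBTu : IsUnit Bᵀ.det := by rwa [Matrix.det_transpose]
    have e1 : B * y * B⁻¹ * (B * A * Bᵀ) = B * (y * A) * Bᵀ := by
      have : B * y * B⁻¹ * (B * A * Bᵀ) = B * y * (B⁻¹ * B) * A * Bᵀ := by simp only [Matrix.mul_assoc]
      rw [this, Matrix.nonsing_inv_mul _ hBu, mul_one]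
      simp only [Matrix.mul_assoc]
    have e2 : B * A * Bᵀ * (B * y * B⁻¹)ᵀ = B * (A * yᵀ) * Bᵀ := by
      rw [Matrix.transpose_mul, Matrix.transpose_mul, Matrix.transpose_nonsing_inv]
      have : B * A * Bᵀ * ((Bᵀ)⁻¹ * (yᵀ * Bᵀ)) = B * A * (Bᵀ * (Bᵀ)⁻¹) * (yᵀ * Bᵀ) := by simp only [Matrix.mul_assoc]
      rw [this, Matrix.mul_nonsing_inv _ hBTu, mul_one]
      simp only [Matrix.mul_assoc]
    rw [h1, Matrix.mul_smul, Matrix.smul_mul, ← smul_add, e1, e2, ← add_mul, ← mul_add, hy, mul_zero, zero_mul, smul_zero]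
  have hy2 : B * y * B⁻¹ ∉ Lc B x := by
    intro h0
    apply hyn
    have h1 := mem_Mt.1 h0.1
    have e : B⁻¹ * (B * y * B⁻¹ * B) = y := by
      rw [Matrix.mul_assoc (B * y), Matrix.nonsing_inv_mul _ hBu, mul_one, ← Matrix.mul_assoc, Matrix.nonsing_inv_mul _ hBu,
        one_mul]
    rwa [e] at h1
  obtain ⟨p, hp, ξ, hξ, hξ2⟩ := xi_exists l1 l2 l3 h.inv (by omega : 1 ≤ m) (h.lh (by omega)) (mem_spS.1 hy1) hy2
  -- the functional
  set E := Λ * (Δ * g) with hE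
  let ℓ : Matrix (Fin (2 * m)) (Fin (2 * m)) F →ₗ[F] (Fin p → F) :=
    { toFun := fun Y j => Matrix.trace (Y * ((ξ j).map σ)ᵀ)
      map_add' := fun Y Y' => by
        funext j
        show Matrix.trace ((Y + Y') * _) = Matrix.trace _ + Matrix.trace _
        rw [add_mul, Matrix.trace_add]
      map_smul' := fun s Y => by
        funext j
        show Matrix.trace ((s • Y) * _) = s * Matrix.trace _
        rw [Matrix.smul_mul, Matrix.trace_smul, smul_eq_mul] }
  have hℓ : ∀ Y j, ℓ Y j = Matrix.trace (Y * ((ξ j).map σ)ᵀ) := fun _ _ => rfl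
  let ψ : Vw F J →ₗ[F] (Fin p → F) :=
    ℓ ∘ₗ (LinearMap.mulLeft F E) ∘ₗ (LinearMap.mulRight F E⁻¹) ∘ₗ (Vw F J).subtype
  have hψ : ∀ W : Vw F J, ψ W = ℓ (E * ((W : Matrix (Fin (2 * m)) (Fin (2 * m)) F) * E⁻¹)) := fun _ => rfl
  -- the kernel is not trivial
  have hone : (1 : Matrix (Fin (2 * m)) (Fin (2 * m)) F) ∈ Vw F J := by
    refine ⟨⟨0, by rw [one_mul, mul_one, sub_self, zero_smul]⟩, 2, ?_⟩
    rw [Matrix.transpose_one, one_mul, mul_one, two_smul]
  have hker : ψ ⟨1, hone⟩ = 0 := by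
    rw [hψ]
    funext j
    rw [hℓ]
    show Matrix.trace (E * (1 * E⁻¹) * _) = 0
    rw [one_mul, Matrix.mul_nonsing_inv _ hEu, one_mul, Matrix.trace]
    refine Finset.sum_eq_zero fun a _ => ?_
    rw [Matrix.diag_apply, Matrix.transpose_apply, Matrix.map_apply, (hξ2 j).2.1 a a le_rfl, map_zero]
  have hdim : Module.finrank F (LinearMap.range ψ) ≤ m + 1 := by
    have h1 := LinearMap.finrank_range_add_finrank_ker ψ
    have h2 := lE F m (by omega) J h.Jdet h.JN (Vw F J) fun W hW => hW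
    have h3 : 0 < Module.finrank F (LinearMap.ker ψ) := by
      have hnt : Nontrivial (LinearMap.ker ψ) := by
       refine ⟨⟨⟨⟨1, hone⟩, hker⟩, 0, fun h0 => ?_⟩⟩
       have h4 := congrArg (fun z : LinearMap.ker ψ => ((z : Vw F J) : Matrix (Fin (2 * m)) (Fin (2 * m)) F)) h0
       have h5 := congrFun (congrFun h4 ⟨0, by omega⟩) ⟨0, by omega⟩
       simp at h5
      exact Module.finrank_pos (R := F) (M := LinearMap.ker ψ)
    omega
  -- squares
  have hsq : ∀ w : Fin (2 * m) → F, ℓ (vecMulVec w w * SS F (2 * m)) ∈ LinearMap.range ψ := by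
    intro w
    set v := E⁻¹ *ᵥ w with hv
    have hwv : E *ᵥ v = w := by
      rw [hv, Matrix.mulVec_mulVec, Matrix.mul_nonsing_inv _ hEu, Matrix.one_mulVec]
    obtain ⟨D, hD, hDg⟩ := lG F K (2 * m) g (g * (vecMulVec v v * J)) fun P hP => h.gen P hP v
    have hg : g.map D = g * (vecMulVec v v * J) := by
      ext i j
      exact hDg i j
    have hW : G.map D * G⁻¹ ∈ Vw F J := ⟨⟨_, h.W1 D hD⟩, _, h.W2 D hD⟩
    have h1 : ℓ (E * (vecMulVec v v * J + G.map D * G⁻¹) * E⁻¹) = 0 := by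
      funext j
      exact h.der_step (by omega) D hD v hg (ξ j) (hξ2 j).2.1 (hξ2 j).2.2
    have h2 : E * (vecMulVec v v * J + G.map D * G⁻¹) * E⁻¹ =
        E * (vecMulVec v v * J) * E⁻¹ + E * ((G.map D * G⁻¹) * E⁻¹) := by
      rw [Matrix.mul_add, Matrix.add_mul, Matrix.mul_assoc E (G.map D * G⁻¹)]
    rw [h2, hE, h.rk1' v, ← hE, hwv, map_add, map_neg, map_smul] at h1
    have h3 : ℓ (vecMulVec w w * SS F (2 * m)) = (κ / c)⁻¹ • ψ ⟨_, hW⟩ := by
      rw [hψ]
      have h4 : ℓ (E * ((G.map D * G⁻¹) * E⁻¹)) = (κ / c) • ℓ (vecMulVec w w * SS F (2 * m)) := by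
        rw [← sub_eq_zero, ← h1]
        abel
      show _ = (κ / c)⁻¹ • ℓ (E * ((G.map D * G⁻¹) * E⁻¹))
      rw [h4, smul_smul, inv_mul_cancel₀ (div_ne_zero h.k0 h.c0), one_smul]
    rw [h3]
    exact Submodule.smul_mem _ _ ⟨_, rfl⟩
  have htop : LinearMap.range ψ = ⊤ := by
    rw [eq_top_iff]
    intro z _
    obtain ⟨a, ha⟩ := lF F σ h.defi (2 * m) p ξ hξ z
    have h1 : ∑ i, a i • ξ i ∈ spS F m := Submodule.sum_mem _ fun i _ => Submodule.smul_mem _ _ (hξ2 i).1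
    have h2 : z = ℓ (∑ i, a i • ξ i) := by
      funext j
      exact (ha j).symm
    rw [h2]
    have h3 : (Submodule.span F (Set.range fun w : Fin (2 * m) → F => vecMulVec w w * SS F (2 * m))) ≤
        (LinearMap.range ψ).comap ℓ := by
      rw [Submodule.span_le]
      rintro _ ⟨w, rfl⟩
      exact hsq w
    exact h3 (sp_span h1)
  rw [htop, finrank_top, Module.finrank_fin_fun] at hdim
  omega

end

end Pool.Agent.Y113.MT
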