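import Pool.Agent.Y113.MT.Asm
import Pool.Agent.Y113.MT.HStm

/-!
# Hodge classes on the products `Z × X^r`: assembly
-/

set_option autoImplicit false
set_option maxHeartbeats 1000000

open Matrix

namespace Pool.Agent.Y113.MT

section
variable {F : Type} [Field F] {n N r : ℕ}

lemma act_apply (X : Matrix (Fin n) (Fin n) F) (T : (Fin r → Fin n) → Fin N → F) (J : Fin r → Fin n) (i : Fin N) :
    act X T J i = ∑ a, ∑ j, X j (J a) * T (Function.update J a j) i := by
  unfold act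
  rw [Finset.sum_apply]
  refine Finset.sum_congr rfl fun a _ => ?_
  rw [Finset.sum_apply]
  rfl

lemma act_addX (X X' : Matrix (Fin n) (Fin n) F) (T : (Fin r → Fin n) → Fin N → F) : act (X + X') T = act X T + act X' T := by
  funext J i
  rw [Pi.add_apply, Pi.add_apply, act_apply, act_apply, act_apply, ← Finset.sum_add_distrib]
  refine Finset.sum_congr rfl fun a _ => ?_
  rw [← Finset.sum_add_distrib]
  refine Finset.sum_congr rfl fun j _ => ?_
  rw [Matrix.add_apply, add_mul]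

lemma act_smulX (c : F) (X : Matrix (Fin n) (Fin n) F) (T : (Fin r → Fin n) → Fin N → F) : act (c • X) T = c • act X T := by
  funext J i
  rw [Pi.smul_apply, Pi.smul_apply, act_apply, act_apply, smul_eq_mul, Finset.mul_sum]
  refine Finset.sum_congr rfl fun a _ => ?_
  rw [Finset.mul_sum]
  refine Finset.sum_congr rfl fun j _ => ?_
  rw [Matrix.smul_apply, smul_eq_mul, mul_assoc]

lemma act_zeroX (T : (Fin r → Fin n) → Fin N → F) : act 0 T = 0 := by
  have h := act_smulX (0 : F) (0 : Matrix (Fin n) (Fin n) F) T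
  rwa [zero_smul, zero_smul] at h

lemma act_addT (X : Matrix (Fin n) (Fin n) F) (T T' : (Fin r → Fin n) → Fin N → F) : act X (T + T') = act X T + act X T' := by
  funext J i
  rw [Pi.add_apply, Pi.add_apply, act_apply, act_apply, act_apply, ← Finset.sum_add_distrib]
  refine Finset.sum_congr rfl fun a _ => ?_
  rw [← Finset.sum_add_distrib]
  refine Finset.sum_congr rfl fun j _ => ?_
  rw [Pi.add_apply, Pi.add_apply, mul_add]

lemma act_smulT (c : F) (X : Matrix (Fin n) (Fin n) F) (T : (Fin r → Fin n) → Fin N → F) : act X (c • T) = c • act X T := by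
  funext J i
  rw [Pi.smul_apply, Pi.smul_apply, act_apply, act_apply, smul_eq_mul, Finset.mul_sum]
  refine Finset.sum_congr rfl fun a _ => ?_
  rw [Finset.mul_sum]
  refine Finset.sum_congr rfl fun j _ => ?_
  rw [Pi.smul_apply, Pi.smul_apply, smul_eq_mul]
  ring

lemma act_subT (X : Matrix (Fin n) (Fin n) F) (T T' : (Fin r → Fin n) → Fin N → F) : act X (T - T') = act X T - act X T' := by
  rw [sub_eq_add_neg, ← neg_one_smul F T', act_addT, act_smulT, neg_one_smul, ← sub_eq_add_neg]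

lemma acv_apply (Y : Matrix (Fin N) (Fin N) F) (T : (Fin r → Fin n) → Fin N → F) (J : Fin r → Fin n) (i : Fin N) :
    acv Y T J i = ∑ k, T J k * Y k i := rfl

lemma acv_addY (Y Y' : Matrix (Fin N) (Fin N) F) (T : (Fin r → Fin n) → Fin N → F) : acv (Y + Y') T = acv Y T + acv Y' T := by
  funext J i
  rw [Pi.add_apply, Pi.add_apply, acv_apply, acv_apply, acv_apply, ← Finset.sum_add_distrib]
  refine Finset.sum_congr rfl fun a _ => ?_
  rw [Matrix.add_apply, mul_add]

lemma acv_smulY (c : F) (Y : Matrix (Fin N) (Fin N) F) (T : (Fin r → Fin n) → Fin N → F) : acv (c • Y) T = c • acv Y T := by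
  funext J i
  rw [Pi.smul_apply, Pi.smul_apply, acv_apply, acv_apply, smul_eq_mul, Finset.mul_sum]
  refine Finset.sum_congr rfl fun a _ => ?_
  rw [Matrix.smul_apply, smul_eq_mul]
  ring

lemma acv_addT (Y : Matrix (Fin N) (Fin N) F) (T T' : (Fin r → Fin n) → Fin N → F) : acv Y (T + T') = acv Y T + acv Y T' := by
  funext J
  exact Matrix.add_vecMul _ _ _

lemma acv_smulT (c : F) (Y : Matrix (Fin N) (Fin N) F) (T : (Fin r → Fin n) → Fin N → F) : acv Y (c • T) = c • acv Y T := by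
  funext J
  show (c • T J) ᵥ* Y = c • (T J ᵥ* Y)
  rw [Matrix.smul_vecMul]

lemma acv_subT (Y : Matrix (Fin N) (Fin N) F) (T T' : (Fin r → Fin n) → Fin N → F) : acv Y (T - T') = acv Y T - acv Y T' := by
  rw [sub_eq_add_neg, ← neg_one_smul F T', acv_addT, acv_smulT, neg_one_smul, ← sub_eq_add_neg]

lemma acv_acv (Y Y' : Matrix (Fin N) (Fin N) F) (T : (Fin r → Fin n) → Fin N → F) : acv Y' (acv Y T) = acv (Y * Y') T := by
  funext J
  exact vecMul_vecMul _ _ _

lemma act_acv (X : Matrix (Fin n) (Fin n) F) (Y : Matrix (Fin N) (Fin N) F) (T : (Fin r → Fin n) → Fin N → F) :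
    act X (acv Y T) = acv Y (act X T) := by
  funext J i
  rw [act_apply, acv_apply]
  simp only [act_apply, acv_apply, Finset.mul_sum, Finset.sum_mul]
  rw [Finset.sum_comm]
  have h : ∀ a : Fin r, (∑ j, ∑ k, X j (J a) * (T (Function.update J a j) k * Y k i)) =
      ∑ k, ∑ j, X j (J a) * T (Function.update J a j) k * Y k i := by
    intro a
    rw [Finset.sum_comm]
    refine Finset.sum_congr rfl fun k _ => Finset.sum_congr rfl fun j _ => ?_
    ring
  rw [Finset.sum_comm]
  simp only [h]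
  rw [Finset.sum_comm]

lemma tr_acv (R : Matrix (Fin n) (Fin n) F) (Y : Matrix (Fin N) (Fin N) F) (T : (Fin r → Fin n) → Fin N → F) :
    tr R (acv Y T) = acv Y (tr R T) := by
  funext J
  unfold tr acv
  rw [Matrix.sum_vecMul]
  refine Finset.sum_congr rfl fun I _ => ?_
  rw [Matrix.smul_vecMul]

lemma tr_add (R : Matrix (Fin n) (Fin n) F) (T T' : (Fin r → Fin n) → Fin N → F) : tr R (T + T') = tr R T + tr R T' := by
  funext J
  rw [Pi.add_apply]
  unfold tr
  rw [← Finset.sum_add_distrib]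
  refine Finset.sum_congr rfl fun I _ => ?_
  rw [Pi.add_apply, smul_add]

lemma tr_smul (c : F) (R : Matrix (Fin n) (Fin n) F) (T : (Fin r → Fin n) → Fin N → F) : tr R (c • T) = c • tr R T := by
  funext J
  rw [Pi.smul_apply]
  unfold tr
  rw [Finset.smul_sum]
  refine Finset.sum_congr rfl fun I _ => ?_
  rw [Pi.smul_apply, smul_comm]

lemma tr_sub (R : Matrix (Fin n) (Fin n) F) (T T' : (Fin r → Fin n) → Fin N → F) : tr R (T - T') = tr R T - tr R T' := by
  rw [sub_eq_add_neg, ← neg_one_smul F T', tr_add, tr_smul, neg_one_smul, ← sub_eq_add_neg]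

lemma tr_zero (R : Matrix (Fin n) (Fin n) F) : tr R (0 : (Fin r → Fin n) → Fin N → F) = 0 := by
  have h := tr_smul (0 : F) R (0 : (Fin r → Fin n) → Fin N → F)
  rwa [zero_smul, zero_smul] at h

variable {N0 : ℕ}

/-- the coefficients of the linear system for the stabiliser -/
def lin (ρ : Matrix (Fin N0) (Fin N0) F →ₗ[F] Matrix (Fin N) (Fin N) F) (T : (Fin r → Fin n) → Fin N → F)
    (k : (Fin r → Fin n) × Fin N) : (Fin n × Fin n) ⊕ ((Fin N0 × Fin N0) ⊕ Unit) → F
  | Sum.inl x => ∑ a, if k.1 a = x.2 then T (Function.update k.1 a x.1) k.2 else 0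
  | Sum.inr (Sum.inl x) => acv (ρ (Matrix.single x.1 x.2 1)) T k.1 k.2
  | Sum.inr (Sum.inr _) => -T k.1 k.2

lemma lin_sum (ρ : Matrix (Fin N0) (Fin N0) F →ₗ[F] Matrix (Fin N) (Fin N) F) (T : (Fin r → Fin n) → Fin N → F)
    (k : (Fin r → Fin n) × Fin N) (x : (Fin n × Fin n) ⊕ ((Fin N0 × Fin N0) ⊕ Unit) → F) :
    ∑ i, lin ρ T k i * x i = act (Matrix.of fun j l => x (Sum.inl (j, l))) T k.1 k.2 +
      acv (ρ (Matrix.of fun j l => x (Sum.inr (Sum.inl (j, l))))) T k.1 k.2 - x (Sum.inr (Sum.inr ())) * T k.1 k.2 := by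
  rw [Fintype.sum_sum_type, Fintype.sum_sum_type, Fintype.sum_prod_type, Fintype.sum_prod_type, act_apply, add_sub_assoc]
  congr 1
  · simp only [lin, Matrix.of_apply, Finset.sum_mul, ite_mul, zero_mul]
    have h : ∀ j : Fin n, (∑ l, ∑ a, if k.1 a = l then T (Function.update k.1 a j) k.2 * x (Sum.inl (j, l)) else 0) =
        ∑ a, x (Sum.inl (j, k.1 a)) * T (Function.update k.1 a j) k.2 := by
      intro j
      rw [Finset.sum_comm]
      refine Finset.sum_congr rfl fun a _ => ?_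
      rw [Finset.sum_ite_eq, if_pos (Finset.mem_univ _), mul_comm]
    simp only [h]
    rw [Finset.sum_comm]
  · rw [sub_eq_add_neg]
    congr 1
    · have h1 : (Matrix.of fun j l => x (Sum.inr (Sum.inl (j, l))) : Matrix (Fin N0) (Fin N0) F) =
          ∑ j, ∑ l, x (Sum.inr (Sum.inl (j, l))) • Matrix.single j l (1 : F) := by
        conv_lhs => rw [Matrix.matrix_eq_sum_single (Matrix.of fun j l => x (Sum.inr (Sum.inl (j, l))))]
        refine Finset.sum_congr rfl fun j _ => Finset.sum_congr rfl fun l _ => ?_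
        rw [Matrix.smul_single, smul_eq_mul, mul_one, Matrix.of_apply]
      let μ : Matrix (Fin N0) (Fin N0) F →ₗ[F] F :=
        { toFun := fun Y => acv (ρ Y) T k.1 k.2
          map_add' := fun Y Y' => by
            rw [map_add, acv_addY]
            rfl
          map_smul' := fun c Y => by
            rw [map_smul, acv_smulY]
            rfl }
      have h2 : ∀ Y, acv (ρ Y) T k.1 k.2 = μ Y := fun _ => rfl
      rw [h2, h1, map_sum]
      refine Finset.sum_congr rfl fun j _ => ?_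
      rw [map_sum]
      refine Finset.sum_congr rfl fun l _ => ?_
      rw [map_smul, smul_eq_mul, mul_comm]
      rfl
    · simp only [lin, Finset.univ_unique, Finset.sum_singleton]
      rw [neg_mul, mul_comm]

/-- the Lie algebra of the stabiliser of the line of a tensor, projected to the factor `V` -/
def stab (ρ : Matrix (Fin N0) (Fin N0) F →ₗ[F] Matrix (Fin N) (Fin N) F) (T : (Fin r → Fin n) → Fin N → F) :
    Submodule F (Matrix (Fin n) (Fin n) F) where
  carrier := {X | ∃ (Y : Matrix (Fin N0) (Fin N0) F) (s : F), act X T = s • T - acv (ρ Y) T}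
  add_mem' := by
    rintro X X' ⟨Y, s, h⟩ ⟨Y', s', h'⟩
    refine ⟨Y + Y', s + s', ?_⟩
    rw [act_addX, h, h', map_add, acv_addY, add_smul]
    abel
  zero_mem' := by
    refine ⟨0, 0, ?_⟩
    have h : acv (0 : Matrix (Fin N) (Fin N) F) T = 0 := by
      have h1 := acv_smulY (0 : F) (0 : Matrix (Fin N) (Fin N) F) T
      rwa [zero_smul, zero_smul] at h1
    rw [act_zeroX, map_zero, h, zero_smul, sub_zero]
  smul_mem' := by
    rintro c X ⟨Y, s, h⟩
    refine ⟨c • Y, c * s, ?_⟩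
    rw [act_smulX, h, map_smul, acv_smulY, smul_sub, mul_smul]

lemma mem_stab {ρ : Matrix (Fin N0) (Fin N0) F →ₗ[F] Matrix (Fin N) (Fin N) F} {T : (Fin r → Fin n) → Fin N → F}
    {X : Matrix (Fin n) (Fin n) F} :
    X ∈ stab ρ T ↔ ∃ (Y : Matrix (Fin N0) (Fin N0) F) (s : F), act X T = s • T - acv (ρ Y) T := Iff.rfl

lemma stab_br (hTR : S_TR) {ρ : Matrix (Fin N0) (Fin N0) F →ₗ[F] Matrix (Fin N) (Fin N) F}
    (hρ : ∀ Y Y', ρ (Y * Y' - Y' * Y) = ρ Y * ρ Y' - ρ Y' * ρ Y) {T : (Fin r → Fin n) → Fin N → F}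
    {X X' : Matrix (Fin n) (Fin n) F} (hX : X ∈ stab ρ T) (hX' : X' ∈ stab ρ T) : X * X' - X' * X ∈ stab ρ T := by
  obtain ⟨Y, s, h⟩ := hX
  obtain ⟨Y', s', h'⟩ := hX'
  refine ⟨Y * Y' - Y' * Y, 0, ?_⟩
  rw [(hTR F n N r).1, hρ, h, h', act_subT, act_subT, act_smulT, act_smulT, act_acv, act_acv, h, h', acv_subT, acv_subT, acv_smulT,
    acv_smulT, acv_acv, acv_acv, sub_eq_add_neg (ρ Y * ρ Y'), ← neg_one_smul F (ρ Y' * ρ Y), acv_addY, acv_smulY, neg_one_smul]
  simp only [smul_sub, smul_smul, zero_smul]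
  rw [mul_comm s' s]
  abel

end

/-- the complexification of a rational tensor -/
def tc {n N r : ℕ} (T : (Fin r → Fin n) → Fin N → ℚ) : (Fin r → Fin n) → Fin N → ℂ := fun J i => ((T J i : ℚ) : ℂ)

section
variable {n N N0 r : ℕ}

lemma tc_act (X : Matrix (Fin n) (Fin n) ℚ) (T : (Fin r → Fin n) → Fin N → ℚ) : tc (act X T) = act (cq X) (tc T) := by
  funext J i
  rw [act_apply]
  unfold tc
  rw [act_apply]
  push_cast
  rfl

lemma tc_acv (Y : Matrix (Fin N) (Fin N) ℚ) (T : (Fin r → Fin n) → Fin N → ℚ) : tc (acv Y T) = acv (cq Y) (tc T) := by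
  funext J i
  rw [acv_apply]
  unfold tc
  rw [acv_apply]
  push_cast
  rfl

lemma tc_inj {T T' : (Fin r → Fin n) → Fin N → ℚ} (h : tc T = tc T') : T = T' := by
  funext J i
  have h1 := congrFun (congrFun h J) i
  unfold tc at h1
  exact_mod_cast h1

lemma cq_single (a b : Fin n) : cq (Matrix.single a b (1 : ℚ)) = Matrix.single a b 1 := by
  ext i j
  rw [cq_apply, Matrix.single_apply, Matrix.single_apply]
  split_ifs <;> simp

lemma tc_lin {ρ : Matrix (Fin N0) (Fin N0) ℚ →ₗ[ℚ] Matrix (Fin N) (Fin N) ℚ}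
    {ρC : Matrix (Fin N0) (Fin N0) ℂ →ₗ[ℂ] Matrix (Fin N) (Fin N) ℂ} (hc : ∀ Y, ρC (cq Y) = cq (ρ Y))
    (T : (Fin r → Fin n) → Fin N → ℚ) (k : (Fin r → Fin n) × Fin N)
    (i : (Fin n × Fin n) ⊕ ((Fin N0 × Fin N0) ⊕ Unit)) : ((lin ρ T k i : ℚ) : ℂ) = lin ρC (tc T) k i := by
  rcases i with x | x | x
  · unfold lin tc
    push_cast
    refine Finset.sum_congr rfl fun a _ => ?_
    split_ifs <;> simp
  · unfold lin
    simp only
    rw [← cq_single, hc, ← tc_acv]
    rfl
  · unfold lin tc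
    push_cast
    rfl

/-- complex elements of the stabiliser are combinations of rational ones -/
lemma stab_des (hD : S_DES) {ρ : Matrix (Fin N0) (Fin N0) ℚ →ₗ[ℚ] Matrix (Fin N) (Fin N) ℚ}
    {ρC : Matrix (Fin N0) (Fin N0) ℂ →ₗ[ℂ] Matrix (Fin N) (Fin N) ℂ} (hc : ∀ Y, ρC (cq Y) = cq (ρ Y))
    {T : (Fin r → Fin n) → Fin N → ℚ} {X : Matrix (Fin n) (Fin n) ℂ} (hX : X ∈ stab ρC (tc T)) :
    X ∈ Submodule.span ℂ (cq '' (stab ρ T : Set (Matrix (Fin n) (Fin n) ℚ))) := by
  obtain ⟨Y, s, h⟩ := hX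
  set x : (Fin n × Fin n) ⊕ ((Fin N0 × Fin N0) ⊕ Unit) → ℂ := Sum.elim (fun p => X p.1 p.2) (Sum.elim (fun p => Y p.1 p.2) fun _ => s)
    with hx
  have h1 := hD _ ((Fin r → Fin n) × Fin N) (fun k => lin ρ T k) x (by
    intro k
    simp only [tc_lin hc]
    rw [lin_sum]
    have e1 : (Matrix.of fun j l => x (Sum.inl (j, l))) = X := rfl
    have e2 : (Matrix.of fun j l => x (Sum.inr (Sum.inl (j, l)))) = Y := rfl
    have e3 : x (Sum.inr (Sum.inr ())) = s := rfl
    rw [e1, e2, e3, h, Pi.sub_apply, Pi.sub_apply, Pi.smul_apply, Pi.smul_apply, smul_eq_mul]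
    ring)
  let φ : ((Fin n × Fin n) ⊕ ((Fin N0 × Fin N0) ⊕ Unit) → ℂ) →ₗ[ℂ] Matrix (Fin n) (Fin n) ℂ :=
    { toFun := fun y => Matrix.of fun j l => y (Sum.inl (j, l))
      map_add' := fun _ _ => rfl
      map_smul' := fun _ _ => rfl }
  have h2 : φ x ∈ Submodule.map φ (Submodule.span ℂ _) := Submodule.mem_map_of_mem h1
  rw [Submodule.map_span] at h2
  refine Submodule.span_mono ?_ h2
  rintro _ ⟨y, ⟨z, hz, rfl⟩, rfl⟩
  refine ⟨Matrix.of fun j l => z (Sum.inl (j, l)), ⟨Matrix.of fun j l => z (Sum.inr (Sum.inl (j, l))), z (Sum.inr (Sum.inr ())), ?_⟩, rfl⟩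
  funext J i
  have h3 := hz (J, i)
  rw [lin_sum] at h3
  rw [Pi.sub_apply, Pi.sub_apply, Pi.smul_apply, Pi.smul_apply, smul_eq_mul]
  linear_combination h3

/-- complex elements of the symplectic Lie algebra are combinations of rational ones -/
lemma sp_des (hD : S_DES) {A : Matrix (Fin n) (Fin n) ℚ} {X : Matrix (Fin n) (Fin n) ℂ} (hX : X * cq A + cq A * Xᵀ = 0) :
    X ∈ Submodule.span ℂ (cq '' {X' : Matrix (Fin n) (Fin n) ℚ | X' * A + A * X'ᵀ = 0}) := by
  have key : ∀ (F : Type) [Field F] (A X : Matrix (Fin n) (Fin n) F) (k : Fin n × Fin n),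
      ∑ i : Fin n × Fin n, ((if i.1 = k.1 then A i.2 k.2 else 0) + if i.1 = k.2 then A k.1 i.2 else 0) * X i.1 i.2 =
        (X * A + A * Xᵀ) k.1 k.2 := by
    intro F _ A X k
    rw [Fintype.sum_prod_type, Matrix.add_apply, Matrix.mul_apply, Matrix.mul_apply]
    simp only [add_mul, ite_mul, zero_mul, Finset.sum_add_distrib]
    congr 1
    · rw [Finset.sum_comm]
      refine Finset.sum_congr rfl fun l _ => ?_
      rw [Finset.sum_ite_eq', if_pos (Finset.mem_univ _), mul_comm]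
    · rw [Finset.sum_comm]
      refine Finset.sum_congr rfl fun l _ => ?_
      rw [Finset.sum_ite_eq', if_pos (Finset.mem_univ _), Matrix.transpose_apply]
  have h1 := hD (Fin n × Fin n) (Fin n × Fin n)
    (fun k i => (if i.1 = k.1 then A i.2 k.2 else 0) + if i.1 = k.2 then A k.1 i.2 else 0) (fun i => X i.1 i.2) (by
    intro k
    have h2 := key ℂ (cq A) X k
    rw [hX, Matrix.zero_apply] at h2
    rw [← h2]
    refine Finset.sum_congr rfl fun i _ => ?_
    congr 1
    push_cast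
    congr 1
    · split_ifs <;> simp [cq_apply]
    · split_ifs <;> simp [cq_apply])
  let φ : (Fin n × Fin n → ℂ) →ₗ[ℂ] Matrix (Fin n) (Fin n) ℂ :=
    { toFun := fun y => Matrix.of fun j l => y (j, l)
      map_add' := fun _ _ => rfl
      map_smul' := fun _ _ => rfl }
  have h2 : φ (fun i => X i.1 i.2) ∈ Submodule.map φ (Submodule.span ℂ _) := Submodule.mem_map_of_mem h1
  rw [Submodule.map_span] at h2
  refine Submodule.span_mono ?_ h2
  rintro _ ⟨y, ⟨z, hz, rfl⟩, rfl⟩
  refine ⟨Matrix.of fun j l => z (j, l), ?_, rfl⟩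
  show _ = _
  ext a b
  have h3 := hz (a, b)
  have h4 := key ℚ A (Matrix.of fun j l => z (j, l)) (a, b)
  rw [← h4]
  exact h3

end

end Pool.Agent.Y113.MT
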