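import Pool.Agent.Y113.MT.HAsm

/-!
# Hodge classes on the products `Z × X^r`: the main theorem
-/

set_option autoImplicit false
set_option maxHeartbeats 1000000

open Matrix PowerSeries Pool.Agent.Y119.HY Pool.Agent.Y119.HZ Pool.Agent.Y118.CM

namespace Pool.Agent.Y113.MT

section
variable {m : ℕ} {β : Fin m → ℚ}

/-- **The adapted basis.** -/
theorem adapted (hm : 1 ≤ m) (hQ : QD (2 * m) (QB β)) {t : ℕ} (ht : 2 ≤ t)
    {C : Matrix (Fin (2 * m)) (Fin (2 * m)) ℂ} {A : Matrix (Fin (2 * m)) (Fin (2 * m)) ℚ} {κ : ℂ} (hC : C.det ≠ 0)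
    (hκ : κ ≠ 0) (hA : C * cq A * Cᵀ = κ • SS ℂ (2 * m))
    {Fil H : ℕ → Submodule ℂ (Fin (2 * m) → ℂ)} (hFil : ∀ p, m ≤ p → Fil p = Fl β t C p) (hH : Polarised Fil A H) :
    Aᵀ = -A ∧ ∃ (B : Matrix (Fin (2 * m)) (Fin (2 * m)) ℂ) (c : ℂ), c ≠ 0 ∧ B.det ≠ 0 ∧ B * cq A * Bᵀ = c • SS ℂ (2 * m) ∧
      (∀ i : Fin (2 * m), B i ∈ H (2 * m - 1 - i)) ∧
      ∀ p < 2 * m, ∀ v ∈ H p, ∀ i : Fin (2 * m), (i : ℕ) ≠ 2 * m - 1 - p → (v ᵥ* B⁻¹) i = 0 := by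
  set J := cm (Jm (2 * m) (QB β)) with hJ
  set g := Hf (Hc (2 * m) (QB β)) (((1 / (t : ℝ) : ℝ)) : ℂ) with hg
  set G := Cc β t C with hG
  set S := cm (J0 (2 * m)) with hS
  have hJd : J.det ≠ 0 := Jc_det hQ
  have hJu : IsUnit J.det := isUnit_iff_ne_zero.2 hJd
  have hCu : IsUnit C.det := isUnit_iff_ne_zero.2 hC
  have hCTu : IsUnit Cᵀ.det := by rwa [Matrix.det_transpose]
  have hGd : G.det ≠ 0 := Cc_det hQ t hC
  have hGu : IsUnit G.det := isUnit_iff_ne_zero.2 hGd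
  have hSS : S * S = -1 := by
    rw [hS, ← cm_mul, J0_sq ⟨m, by ring⟩, cm_neg, cm_one]
  have hgJ : gᵀ * J * g = J := Hf_form hQ ht
  have hA' : C * cq A * Cᵀ = κ • S := by rw [hA, SS_eq]
  -- `A` in terms of `C`
  have hCSC : (Cᵀ * S * C) * cq A = -κ • (1 : Matrix (Fin (2 * m)) (Fin (2 * m)) ℂ) := by
    have e1 : (Cᵀ * S * C) * cq A * Cᵀ = -κ • Cᵀ := by
      calc (Cᵀ * S * C) * cq A * Cᵀ = Cᵀ * S * (C * cq A * Cᵀ) := by simp only [Matrix.mul_assoc]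
        _ = κ • (Cᵀ * (S * S)) := by rw [hA', Matrix.mul_smul, Matrix.mul_assoc]
        _ = -κ • Cᵀ := by rw [hSS, Matrix.mul_neg, Matrix.mul_one, smul_neg, neg_smul]
    calc (Cᵀ * S * C) * cq A = (Cᵀ * S * C) * cq A * (Cᵀ * Cᵀ⁻¹) := by rw [Matrix.mul_nonsing_inv _ hCTu, Matrix.mul_one]
      _ = (-κ • Cᵀ) * Cᵀ⁻¹ := by rw [← e1]; simp only [Matrix.mul_assoc]
      _ = _ := by rw [Matrix.smul_mul, Matrix.mul_nonsing_inv _ hCTu]
  have hpol : Gᵀ * J * G = ((-1 : ℂ) ^ m * 1) • (Cᵀ * S * C) := Cc_pol hQ t (by rw [one_smul])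
  rw [mul_one] at hpol
  have hGA : G * cq A * Gᵀ = (-κ * (-1) ^ m) • J⁻¹ := by
    have e1 : (Gᵀ * J * G) * cq A = (-κ * (-1) ^ m) • (1 : Matrix (Fin (2 * m)) (Fin (2 * m)) ℂ) := by
      rw [hpol, Matrix.smul_mul, hCSC, smul_smul]
      congr 1
      ring
    have e2 : J * G * cq A * Gᵀ = (-κ * (-1) ^ m) • (1 : Matrix (Fin (2 * m)) (Fin (2 * m)) ℂ) := by
      have hGTu : IsUnit Gᵀ.det := by rwa [Matrix.det_transpose]
      calc J * G * cq A * Gᵀ = Gᵀ⁻¹ * Gᵀ * (J * G * cq A * Gᵀ) := by rw [Matrix.nonsing_inv_mul _ hGTu, Matrix.one_mul]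
        _ = Gᵀ⁻¹ * ((Gᵀ * J * G) * cq A) * Gᵀ := by simp only [Matrix.mul_assoc]
        _ = (-κ * (-1) ^ m) • (Gᵀ⁻¹ * Gᵀ) := by rw [e1, Matrix.mul_smul, Matrix.smul_mul, Matrix.mul_one]
        _ = _ := by rw [Matrix.nonsing_inv_mul _ hGTu]
    calc G * cq A * Gᵀ = J⁻¹ * J * (G * cq A * Gᵀ) := by rw [Matrix.nonsing_inv_mul _ hJu, Matrix.one_mul]
      _ = J⁻¹ * (J * G * cq A * Gᵀ) := by simp only [Matrix.mul_assoc]
      _ = _ := by rw [e2, Matrix.mul_smul, Matrix.mul_one]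
  have hk' : (-κ * (-1) ^ m) ≠ 0 := mul_ne_zero (neg_ne_zero.2 hκ) (pow_ne_zero _ (by norm_num))
  have hAt : Aᵀ = -A := by
    apply cq_inj
    rw [cq_neg, cq_tr]
    have hSt : Sᵀ = -S := by
      rw [hS, ← SS_eq]
      exact SS_tr m
    have h1 : C * (cq A)ᵀ * Cᵀ = C * (-cq A) * Cᵀ := by
      have h2 := congrArg Matrix.transpose hA'
      rw [Matrix.transpose_mul, Matrix.transpose_mul, Matrix.transpose_transpose, Matrix.transpose_smul, hSt, smul_neg,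
        ← hA'] at h2
      rw [Matrix.mul_neg, Matrix.neg_mul, ← h2, Matrix.mul_assoc]
    have h2 := congrArg (fun Z => C⁻¹ * Z * Cᵀ⁻¹) h1
    have h3 : ∀ Z : Matrix (Fin (2 * m)) (Fin (2 * m)) ℂ, C⁻¹ * (C * Z * Cᵀ) * Cᵀ⁻¹ = Z := by
      intro Z
      calc C⁻¹ * (C * Z * Cᵀ) * Cᵀ⁻¹ = (C⁻¹ * C) * Z * (Cᵀ * Cᵀ⁻¹) := by simp only [Matrix.mul_assoc]
        _ = Z := by rw [Matrix.nonsing_inv_mul _ hCu, Matrix.mul_nonsing_inv _ hCTu, Matrix.one_mul, Matrix.mul_one]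
    simp only [h3] at h2
    exact h2
  -- the matrix `P`
  set P := cq (DN β) * (g * G) with hP
  have hgJi : g * J⁻¹ * gᵀ = J⁻¹ := by
    have h1 : (J⁻¹ * gᵀ * J) * g = 1 := by
      rw [Matrix.mul_assoc, Matrix.mul_assoc, ← Matrix.mul_assoc gᵀ, hgJ, Matrix.nonsing_inv_mul _ hJu]
    have h2 : g * (J⁻¹ * gᵀ * J) = 1 := mul_eq_one_comm.1 h1
    calc g * J⁻¹ * gᵀ = (g * (J⁻¹ * gᵀ * J)) * J⁻¹ := by
          simp only [Matrix.mul_assoc]
          rw [Matrix.mul_nonsing_inv _ hJu, Matrix.mul_one]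
      _ = _ := by rw [h2, Matrix.one_mul]
  have hPA : P * cq A * Pᵀ = (κ • (1 : ℂ)) • S := by
    calc P * cq A * Pᵀ = cq (DN β) * (g * (G * cq A * Gᵀ) * gᵀ) * (cq (DN β))ᵀ := by
          rw [hP, Matrix.transpose_mul, Matrix.transpose_mul]
          simp only [Matrix.mul_assoc]
      _ = (-κ * (-1) ^ m) • (cq (DN β) * J⁻¹ * (cq (DN β))ᵀ) := by
          rw [hGA, Matrix.mul_smul, Matrix.smul_mul, hgJi, Matrix.mul_smul, Matrix.smul_mul]
      _ = _ := by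
          have h1 := DN_J hQ
          rw [cm_cq] at h1
          rw [h1, smul_smul]
          congr 1
          have e3 : ((-1 : ℂ)) ^ m * (-1) ^ m = 1 := by
            rw [← mul_pow]
            norm_num
          rw [smul_eq_mul]
          linear_combination κ * e3
  have hPd : P.det ≠ 0 := by
    intro h0
    have h1 := congrArg Matrix.det hPA
    rw [Matrix.det_mul, Matrix.det_mul, h0, zero_mul, zero_mul, Matrix.det_smul] at h1
    have h2 : S.det ≠ 0 := by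
      intro h3
      have h4 := congrArg Matrix.det hSS
      rw [Matrix.det_mul, h3, zero_mul] at h4
      have h5 : (-1 : Matrix (Fin (2 * m)) (Fin (2 * m)) ℂ).det ≠ 0 := by
        rw [Matrix.det_neg, Matrix.det_one, mul_one]
        exact pow_ne_zero _ (by norm_num)
      exact h5 h4.symm
    refine mul_ne_zero (pow_ne_zero _ ?_) h2 h1.symm
    simpa using hκ
  have hProw : ∀ a : Fin (2 * m), (a : ℕ) < m → P a = perr β t a ᵥ* C := by
    intro a ha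
    rw [perr_C hQ (by omega) ht C, ← hg, ← hG, ← DN_row β a, vecMul_vecMul]
    rfl
  obtain ⟨B, Λ, c, hc, hBA, hBs, hBH, hBL, hLl⟩ := Pool.Agent.Y31.MT.idx m hm Fil H A P hH hAt hPd (by
    intro a b hab
    rw [hPA, Matrix.smul_apply, hS, cm_apply]
    unfold J0
    rw [Matrix.of_apply, if_neg (by omega)]
    simp) (by
    intro i hi
    rw [hFil _ (by omega)]
    unfold Fl
    congr 1
    ext v
    constructor
    · rintro ⟨l, hl, rfl⟩
      refine ⟨⟨l, by omega⟩, by show l < i; omega, ?_⟩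
      exact (hProw ⟨l, by omega⟩ (by show l < m; omega)).symm
    · rintro ⟨a, ha, rfl⟩
      refine ⟨a, by omega, ?_⟩
      exact hProw a (by omega))
  have hBd : B.det ≠ 0 := by
    intro h0
    have h1 := congrArg Matrix.det hBA
    rw [Matrix.det_mul, Matrix.det_mul, h0, zero_mul, zero_mul, Matrix.det_smul] at h1
    exact mul_ne_zero (pow_ne_zero _ hc) (SS_det m) h1.symm
  have hBu : IsUnit B.det := isUnit_iff_ne_zero.2 hBd
  refine ⟨hAt, B, c, hc, hBd, hBA, hBH, ?_⟩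
  intro p hp v hv
  set w := v ᵥ* B⁻¹ with hw
  have hvw : v = w ᵥ* B := by
    rw [hw, vecMul_vecMul, Matrix.nonsing_inv_mul _ hBu, vecMul_one]
  have hw0 : ∀ i : Fin (2 * m), (i : ℕ) ≠ 2 * m - 1 - p → w i = 0 := by
    intro i hi
    have h1 : v ⬝ᵥ (cq A *ᵥ B (Fin.rev i)) = 0 := by
      have hrev : ((Fin.rev i : Fin (2 * m)) : ℕ) = 2 * m - (i + 1) := Fin.val_rev i
      have hi2 := i.2
      refine hH.orth p hp (2 * m - 1 - (Fin.rev i : Fin (2 * m))) (by omega) (by omega) v hv _ (hBH _)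
    have h2 : v ⬝ᵥ (cq A *ᵥ B (Fin.rev i)) = (w ᵥ* (B * cq A * Bᵀ)) (Fin.rev i) := by
      rw [← vecMul_vecMul, ← vecMul_vecMul, ← hvw, Matrix.dotProduct_mulVec]
      rfl
    rw [h2, hBA] at h1
    have h3 : (w ᵥ* (c • SS ℂ (2 * m))) (Fin.rev i) = c * (w i * (-1) ^ (i : ℕ)) := by
      rw [Matrix.vecMul_smul, Pi.smul_apply, smul_eq_mul]
      congr 1
      show ∑ j, w j * SS ℂ (2 * m) j (Fin.rev i) = _
      rw [Finset.sum_eq_single i]
      · unfold SS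
        rw [Matrix.of_apply, if_pos (by rw [Fin.val_rev]; have := i.2; omega)]
      · intro j _ hj
        unfold SS
        rw [Matrix.of_apply, if_neg, mul_zero]
        intro h4
        apply hj
        rw [Fin.val_rev] at h4
        have := i.2
        have := j.2
        exact Fin.ext (by omega)
      · intro h4
        exact absurd (Finset.mem_univ _) h4
    rw [h3] at h1
    have h5 := (mul_eq_zero.1 h1).resolve_left hc
    exact (mul_eq_zero.1 h5).resolve_right (pow_ne_zero _ (by norm_num))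
  exact hw0

end

/-- eigenspaces for different eigenvalues are independent -/
lemma eig_disj {N : ℕ} {Φ : Matrix (Fin N) (Fin N) ℂ} {U : ℤ → Submodule ℂ (Fin N → ℂ)}
    (hΦ : ∀ p, ∀ z ∈ U p, z ᵥ* Φ = (p : ℂ) • z) {u : ℤ} {x : Fin N → ℂ} (h1 : x ∈ U u)
    (h2 : x ∈ ⨆ p : {p : ℤ // p ≠ u}, U p) : x = 0 := by
  let f : Module.End ℂ (Fin N → ℂ) := Matrix.vecMulLinear Φ
  have hf : ∀ z, f z = z ᵥ* Φ := fun _ => rfl
  have hle : ∀ p, U p ≤ f.eigenspace (p : ℂ) := by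
    intro p z hz
    rw [Module.End.mem_eigenspace_iff, hf]
    exact hΦ p z hz
  have hind := f.eigenspaces_iSupIndep
  have h3 := hind (u : ℂ)
  rw [Submodule.disjoint_def] at h3
  refine h3 x (hle u h1) ?_
  refine (iSup_le ?_ : (⨆ p : {p : ℤ // p ≠ u}, U p) ≤ _) h2
  rintro ⟨p, hp⟩
  refine (hle p).trans ?_
  exact le_iSup₂_of_le (p : ℂ) (by exact_mod_cast hp) le_rfl

/-- **The algebraic core of the second part.** -/
theorem hodge_core (hTR : S_TR) (hIDL : S_IDL) (hD : S_DES) (hF : S_FFTQ) (hTB : S_TB) (hTY : S_TYPE) {m : ℕ}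
    (hm : 1 ≤ m) {A : Matrix (Fin (2 * m)) (Fin (2 * m)) ℚ} {B : Matrix (Fin (2 * m)) (Fin (2 * m)) ℂ} {c : ℂ}
    {H : ℕ → Submodule ℂ (Fin (2 * m) → ℂ)} (hAt : Aᵀ = -A) (hc : c ≠ 0) (hBd : B.det ≠ 0)
    (hBA : B * cq A * Bᵀ = c • SS ℂ (2 * m)) (hBH : ∀ i : Fin (2 * m), B i ∈ H (2 * m - 1 - i))
    (hHB : ∀ p < 2 * m, ∀ v ∈ H p, ∀ i : Fin (2 * m), (i : ℕ) ≠ 2 * m - 1 - p → (v ᵥ* B⁻¹) i = 0)
    (hMT : ∀ V : Submodule ℚ (Matrix (Fin (2 * m)) (Fin (2 * m)) ℚ), (∀ X ∈ V, ∀ Y ∈ V, X * Y - Y * X ∈ V) →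
      (∀ Φ : Matrix (Fin (2 * m)) (Fin (2 * m)) ℂ, (∀ p < 2 * m, ∀ v ∈ H p, v ᵥ* Φ = (p : ℂ) • v) →
        Φ ∈ Submodule.span ℂ (cq '' (V : Set (Matrix (Fin (2 * m)) (Fin (2 * m)) ℚ)))) →
      ∀ X : Matrix (Fin (2 * m)) (Fin (2 * m)) ℚ, X * A + A * Xᵀ = 0 → X ∈ V)
    {N N0 r : ℕ} {ρ : Matrix (Fin N0) (Fin N0) ℚ →ₗ[ℚ] Matrix (Fin N) (Fin N) ℚ}
    {ρC : Matrix (Fin N0) (Fin N0) ℂ →ₗ[ℂ] Matrix (Fin N) (Fin N) ℂ} (hρc : ∀ Y, ρC (cq Y) = cq (ρ Y))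
    (hρ : ∀ Y Y', ρ (Y * Y' - Y' * Y) = ρ Y * ρ Y' - ρ Y' * ρ Y) {U : ℤ → Submodule ℂ (Fin N → ℂ)}
    {ΦW : Matrix (Fin N0) (Fin N0) ℂ} (hΦW : ∀ p, ∀ z ∈ U p, z ᵥ* ρC ΦW = (p : ℂ) • z)
    (hW : ∀ (Y : Matrix (Fin N0) (Fin N0) ℂ) (u : ℤ), ∀ z ∈ U u, z ᵥ* ρC Y ∈
      ⨆ p : {p : ℤ // p ≠ u - (2 * (m : ℤ) - 1)}, U p) {P : ℤ} {T : (Fin r → Fin (2 * m)) → Fin N → ℚ}
    (hT : tc T ∈ Submodule.span ℂ {f : (Fin r → Fin (2 * m)) → Fin N → ℂ | ∃ (p0 : ℤ) (z : Fin N → ℂ) (p : Fin r → ℕ)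
      (v : Fin r → Fin (2 * m) → ℂ), z ∈ U p0 ∧ (∀ a, p a < 2 * m ∧ v a ∈ H (p a)) ∧ p0 + ∑ a, (p a : ℤ) = P ∧
      f = fun J i => (∏ a, v a (J a)) * z i}) :
    T ∈ Submodule.span ℚ {f : (Fin r → Fin (2 * m)) → Fin N → ℚ | ∃ (s : ℕ) (e : Fin s × Fin 2 ≃ Fin r) (w : Fin N → ℚ),
      (fun i => ((w i : ℚ) : ℂ)) ∈ U (P - (s : ℤ) * (2 * (m : ℤ) - 1)) ∧
      f = fun J i => (∏ l, A⁻¹ (J (e (l, 0))) (J (e (l, 1)))) * w i} := by
  obtain ⟨t1, t2, t3, t4⟩ := hTR ℂ (2 * m) N r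
  have hBu : IsUnit B.det := isUnit_iff_ne_zero.2 hBd
  have hBTu : IsUnit Bᵀ.det := by rwa [Matrix.det_transpose]
  have hBB : B * B⁻¹ = 1 := Matrix.mul_nonsing_inv _ hBu
  have hBB' : B⁻¹ * B = 1 := Matrix.nonsing_inv_mul _ hBu
  set TB := tr B⁻¹ (tc T) with hTBd
  have hTBT : tc T = tr B TB := by
    rw [hTBd, t3, hBB', t4]
  have htype := hTB m N r B H U P (tc T) hHB hT
  rw [← hTBd] at htype
  -- the Hodge operators
  have hΦV : ∀ Φ : Matrix (Fin (2 * m)) (Fin (2 * m)) ℂ, (∀ p < 2 * m, ∀ v ∈ H p, v ᵥ* Φ = (p : ℂ) • v) → Φ ∈ stab ρC (tc T) := by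
    intro Φ hΦ
    set Dg : Matrix (Fin (2 * m)) (Fin (2 * m)) ℂ := Matrix.diagonal (fun i : Fin (2 * m) => ((2 * m - 1 - (i : ℕ) : ℕ) : ℂ)) with hDg
    have hDB : Dg * B = B * Φ := by
      ext i j
      have h1 := congrFun (hΦ (2 * m - 1 - i) (by have := i.2; omega) (B i) (hBH i)) j
      rw [hDg, Matrix.diagonal_mul]
      exact h1.symm
    refine ⟨ΦW, (P : ℂ), ?_⟩
    have h1 : act Φ (tc T) = tr B (act Dg TB) := by
      rw [hTBT]
      exact t2 Φ Dg B TB hDB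
    have h2 : act Dg TB = (P : ℂ) • TB - acv (ρC ΦW) TB := by
      funext I
      have e1 : act Dg TB I = (∑ a, ((2 * m - 1 - (I a : ℕ) : ℕ) : ℂ)) • TB I := by
        unfold act
        rw [Finset.sum_smul]
        refine Finset.sum_congr rfl fun a _ => ?_
        rw [Finset.sum_eq_single (I a)]
        · rw [hDg, Matrix.diagonal_apply_eq, Function.update_eq_self]
        · intro j _ hj
          rw [hDg, Matrix.diagonal_apply_ne _ hj, zero_smul]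
        · intro h
          exact absurd (Finset.mem_univ _) h
      have e2 : acv (ρC ΦW) TB I = (((P - ∑ a, ((2 * m - 1 - (I a : ℕ) : ℕ) : ℤ) : ℤ)) : ℂ) • TB I := hΦW _ _ (htype I)
      rw [Pi.sub_apply, Pi.smul_apply, e1, e2, ← sub_smul]
      congr 1
      push_cast
      ring
    rw [h1, h2, tr_sub, tr_smul, tr_acv, ← hTBT]
  -- the rational symplectic Lie algebra
  have hsp : ∀ X : Matrix (Fin (2 * m)) (Fin (2 * m)) ℚ, X * A + A * Xᵀ = 0 → X ∈ stab ρ T :=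
    hMT (stab ρ T) (fun X hX Y hY => stab_br hTR hρ hX hY) fun Φ hΦ => stab_des hD hρc (hΦV Φ hΦ)
  have hspC : ∀ X : Matrix (Fin (2 * m)) (Fin (2 * m)) ℂ, X * cq A + cq A * Xᵀ = 0 → X ∈ stab ρC (tc T) := by
    intro X hX
    refine (Submodule.span_le.2 ?_) (sp_des hD hX)
    rintro _ ⟨X', hX', rfl⟩
    obtain ⟨Y, s, h⟩ := hsp X' hX'
    refine ⟨cq Y, (s : ℂ), ?_⟩
    rw [← tc_act, h, hρc, ← tc_acv]
    funext J i
    unfold tc
    rw [Pi.sub_apply, Pi.sub_apply, Pi.sub_apply, Pi.sub_apply, Pi.smul_apply, Pi.smul_apply, Pi.smul_apply, Pi.smul_apply,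
      smul_eq_mul, smul_eq_mul]
    push_cast
    rfl
  have hspB : ∀ X : Matrix (Fin (2 * m)) (Fin (2 * m)) ℂ, X * SS ℂ (2 * m) + SS ℂ (2 * m) * Xᵀ = 0 → X ∈ stab ρC TB := by
    intro X hX
    have hA0 : cq A = c • (B⁻¹ * SS ℂ (2 * m) * Bᵀ⁻¹) := by
      calc cq A = (B⁻¹ * B) * cq A * (Bᵀ * Bᵀ⁻¹) := by
            rw [hBB', Matrix.mul_nonsing_inv _ hBTu, Matrix.one_mul, Matrix.mul_one]
        _ = B⁻¹ * (B * cq A * Bᵀ) * Bᵀ⁻¹ := by simp only [Matrix.mul_assoc]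
        _ = _ := by rw [hBA, Matrix.mul_smul, Matrix.smul_mul]
    have h1 : (B⁻¹ * X * B) * cq A + cq A * (B⁻¹ * X * B)ᵀ = 0 := by
      have e1 : (B⁻¹ * X * B) * cq A = c • (B⁻¹ * (X * SS ℂ (2 * m)) * Bᵀ⁻¹) := by
        rw [hA0, Matrix.mul_smul]
        congr 1
        calc B⁻¹ * X * B * (B⁻¹ * SS ℂ (2 * m) * Bᵀ⁻¹) = B⁻¹ * X * (B * B⁻¹) * SS ℂ (2 * m) * Bᵀ⁻¹ := by
              simp only [Matrix.mul_assoc]
          _ = _ := by
              rw [hBB, Matrix.mul_one]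
              simp only [Matrix.mul_assoc]
      have e2 : cq A * (B⁻¹ * X * B)ᵀ = c • (B⁻¹ * (SS ℂ (2 * m) * Xᵀ) * Bᵀ⁻¹) := by
        rw [hA0, Matrix.smul_mul]
        congr 1
        rw [Matrix.transpose_mul, Matrix.transpose_mul, Matrix.transpose_nonsing_inv]
        calc B⁻¹ * SS ℂ (2 * m) * Bᵀ⁻¹ * (Bᵀ * (Xᵀ * Bᵀ⁻¹)) = B⁻¹ * SS ℂ (2 * m) * (Bᵀ⁻¹ * Bᵀ) * Xᵀ * Bᵀ⁻¹ := by
              simp only [Matrix.mul_assoc]
          _ = _ := by
              rw [Matrix.nonsing_inv_mul _ hBTu, Matrix.mul_one]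
              simp only [Matrix.mul_assoc]
      rw [e1, e2, ← smul_add, ← Matrix.add_mul, ← Matrix.mul_add, hX, Matrix.mul_zero, Matrix.zero_mul, smul_zero]
    obtain ⟨Y, s, h⟩ := hspC _ h1
    refine ⟨Y, s, ?_⟩
    rw [hTBd, t2 X (B⁻¹ * X * B) B⁻¹ (tc T) (by rw [Matrix.mul_assoc, hBB, Matrix.mul_one]), h, tr_sub, tr_smul, tr_acv]
  -- the annihilator
  let L : Submodule ℂ (Matrix (Fin (2 * m)) (Fin (2 * m)) ℂ) :=
    { carrier := {X | X * SS ℂ (2 * m) + SS ℂ (2 * m) * Xᵀ = 0 ∧ act X TB = 0}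
      add_mem' := by
        rintro X Y ⟨h1, h2⟩ ⟨h3, h4⟩
        refine ⟨?_, by rw [act_addX, h2, h4, add_zero]⟩
        rw [Matrix.add_mul, Matrix.transpose_add, Matrix.mul_add]
        have : X * SS ℂ (2 * m) + Y * SS ℂ (2 * m) + (SS ℂ (2 * m) * Xᵀ + SS ℂ (2 * m) * Yᵀ) =
            (X * SS ℂ (2 * m) + SS ℂ (2 * m) * Xᵀ) + (Y * SS ℂ (2 * m) + SS ℂ (2 * m) * Yᵀ) := by abel
        rw [this, h1, h3, add_zero]
      zero_mem' := ⟨by simp, act_zeroX TB⟩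
      smul_mem' := by
        rintro a X ⟨h1, h2⟩
        refine ⟨?_, by rw [act_smulX, h2, smul_zero]⟩
        rw [Matrix.smul_mul, Matrix.transpose_smul, Matrix.mul_smul, ← smul_add, h1, smul_zero] }
  have hLid : ∀ X : Matrix (Fin (2 * m)) (Fin (2 * m)) ℂ, X * SS ℂ (2 * m) + SS ℂ (2 * m) * Xᵀ = 0 → ∀ Y ∈ L,
      X * Y - Y * X ∈ L := by
    rintro X hX Y ⟨hY, hY0⟩
    constructor
    · have e1 : X * SS ℂ (2 * m) = -(SS ℂ (2 * m) * Xᵀ) := eq_neg_of_add_eq_zero_left hX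
      have e2 : Y * SS ℂ (2 * m) = -(SS ℂ (2 * m) * Yᵀ) := eq_neg_of_add_eq_zero_left hY
      have e3 : X * Y * SS ℂ (2 * m) = SS ℂ (2 * m) * (Xᵀ * Yᵀ) := by
        rw [Matrix.mul_assoc, e2, Matrix.mul_neg, ← Matrix.mul_assoc, e1, Matrix.neg_mul, neg_neg, Matrix.mul_assoc]
      have e4 : Y * X * SS ℂ (2 * m) = SS ℂ (2 * m) * (Yᵀ * Xᵀ) := by
        rw [Matrix.mul_assoc, e1, Matrix.mul_neg, ← Matrix.mul_assoc, e2, Matrix.neg_mul, neg_neg, Matrix.mul_assoc]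
      rw [Matrix.sub_mul, e3, e4, Matrix.transpose_sub, Matrix.transpose_mul, Matrix.transpose_mul, Matrix.mul_sub]
      abel
    · obtain ⟨Z, s, h⟩ := hspB X hX
      rw [t1, hY0, h, act_subT, act_smulT, act_acv, hY0]
      have e5 : act X (0 : (Fin r → Fin (2 * m)) → Fin N → ℂ) = 0 := by
        have h5 := act_smulT (0 : ℂ) X (0 : (Fin r → Fin (2 * m)) → Fin N → ℂ)
        rwa [zero_smul, zero_smul] at h5
      have e6 : acv (ρC Z) (0 : (Fin r → Fin (2 * m)) → Fin N → ℂ) = 0 := by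
        have h5 := acv_smulT (0 : ℂ) (ρC Z) (0 : (Fin r → Fin (2 * m)) → Fin N → ℂ)
        rwa [zero_smul, zero_smul] at h5
      rw [e5, e6, smul_zero, sub_zero, sub_zero]
  have hEEsp : EE ℂ (2 * m) * SS ℂ (2 * m) + SS ℂ (2 * m) * (EE ℂ (2 * m))ᵀ = 0 := by
    ext i j
    rw [Matrix.add_apply, Matrix.zero_apply, mul_SS, SS_mul, Matrix.transpose_apply]
    unfold EE
    rw [Matrix.of_apply, Matrix.of_apply, Fin.val_rev, Fin.val_rev]
    have hi := i.2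
    have hj := j.2
    by_cases h1 : (i : ℕ) = 0
    · by_cases h2 : (j : ℕ) = 0
      · rw [if_pos ⟨h1, by omega⟩, if_pos ⟨h2, by omega⟩, h1, h2, one_mul, mul_one, pow_zero,
          show 2 * m - (0 + 1) = 2 * (m - 1) + 1 by omega, pow_succ, pow_mul]
        norm_num
      · rw [if_neg (by omega), if_neg (by omega)]
        simp
    · rw [if_neg (by omega), if_neg (by omega)]
      simp
  have hEE : EE ℂ (2 * m) ∈ L := by
    refine ⟨hEEsp, ?_⟩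
    obtain ⟨Y, s, h⟩ := hspB _ hEEsp
    funext I
    set u := P - ∑ a, ((2 * m - 1 - (I a : ℕ) : ℕ) : ℤ) with hu
    have hleft : act (EE ℂ (2 * m)) TB I ∈ U (u - (2 * (m : ℤ) - 1)) := by
      show (∑ a, ∑ j, EE ℂ (2 * m) j (I a) • TB (Function.update I a j)) ∈ _
      refine Submodule.sum_mem _ fun a _ => Submodule.sum_mem _ fun j _ => ?_
      by_cases hj : (j : ℕ) = 0 ∧ ((I a : Fin (2 * m)) : ℕ) + 1 = 2 * m
      · have h2 := htype (Function.update I a j)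
        have h3 : P - ∑ b, ((2 * m - 1 - (Function.update I a j b : ℕ) : ℕ) : ℤ) = u - (2 * (m : ℤ) - 1) := by
          rw [hu]
          have e1 : ∑ b, ((2 * m - 1 - (Function.update I a j b : ℕ) : ℕ) : ℤ) =
              ((2 * m - 1 : ℕ) : ℤ) + ∑ b ∈ Finset.univ.erase a, ((2 * m - 1 - (I b : ℕ) : ℕ) : ℤ) := by
            rw [← Finset.add_sum_erase _ _ (Finset.mem_univ a), Function.update_self, hj.1]
            congr 1
            refine Finset.sum_congr rfl fun b hb => ?_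
            rw [Function.update_of_ne (Finset.ne_of_mem_erase hb)]
          have e2 : ∑ b, ((2 * m - 1 - (I b : ℕ) : ℕ) : ℤ) = ∑ b ∈ Finset.univ.erase a, ((2 * m - 1 - (I b : ℕ) : ℕ) : ℤ) := by
            rw [← Finset.add_sum_erase _ _ (Finset.mem_univ a), show 2 * m - 1 - ((I a : Fin (2 * m)) : ℕ) = 0 by omega]
            simp
          rw [e1, e2]
          push_cast [show 1 ≤ 2 * m by omega]
          ring
        rw [h3] at h2
        exact Submodule.smul_mem _ _ h2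
      · unfold EE
        rw [Matrix.of_apply, if_neg hj, zero_smul]
        exact Submodule.zero_mem _
    have hright : act (EE ℂ (2 * m)) TB I ∈ ⨆ p : {p : ℤ // p ≠ u - (2 * (m : ℤ) - 1)}, U p := by
      rw [h, Pi.sub_apply, Pi.smul_apply]
      refine Submodule.sub_mem _ (Submodule.smul_mem _ _ ?_) (hW Y u _ (htype I))
      exact Submodule.mem_iSup_of_mem (⟨u, by omega⟩ : {p : ℤ // p ≠ u - (2 * (m : ℤ) - 1)}) (htype I)
    exact eig_disj hΦW hleft hright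
  have hall : ∀ X : Matrix (Fin (2 * m)) (Fin (2 * m)) ℂ, X * SS ℂ (2 * m) + SS ℂ (2 * m) * Xᵀ = 0 → act X TB = 0 :=
    fun X hX => (hIDL ℂ m hm L hLid hEE X hX).2
  have hrat : ∀ X : Matrix (Fin (2 * m)) (Fin (2 * m)) ℚ, X * A + A * Xᵀ = 0 → act X T = 0 := by
    intro X hX
    apply tc_inj
    rw [tc_act, hTBT, t2 (cq X) (B * cq X * B⁻¹) B TB (by rw [Matrix.mul_assoc, hBB', Matrix.mul_one]), hall, tr_zero]
    · funext J i
      unfold tc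
      simp
    · have h1 : cq X * cq A + cq A * (cq X)ᵀ = 0 := by
        rw [← cq_tr, ← cq_mul, ← cq_mul, ← cq_add, hX, cq_zero]
      have h2 : SS ℂ (2 * m) = c⁻¹ • (B * cq A * Bᵀ) := by
        rw [hBA, smul_smul, inv_mul_cancel₀ hc, one_smul]
      rw [h2, Matrix.mul_smul, Matrix.smul_mul, ← smul_add, Matrix.transpose_mul, Matrix.transpose_mul, Matrix.transpose_nonsing_inv]
      have e1 : B * cq X * B⁻¹ * (B * cq A * Bᵀ) = B * (cq X * cq A) * Bᵀ := by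
        calc B * cq X * B⁻¹ * (B * cq A * Bᵀ) = B * cq X * (B⁻¹ * B) * cq A * Bᵀ := by simp only [Matrix.mul_assoc]
          _ = _ := by
            rw [hBB', Matrix.mul_one]
            simp only [Matrix.mul_assoc]
      have e2 : B * cq A * Bᵀ * (Bᵀ⁻¹ * ((cq X)ᵀ * Bᵀ)) = B * (cq A * (cq X)ᵀ) * Bᵀ := by
        calc B * cq A * Bᵀ * (Bᵀ⁻¹ * ((cq X)ᵀ * Bᵀ)) = B * cq A * (Bᵀ * Bᵀ⁻¹) * (cq X)ᵀ * Bᵀ := by simp only [Matrix.mul_assoc]
          _ = _ := by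
            rw [Matrix.mul_nonsing_inv _ hBTu, Matrix.mul_one]
            simp only [Matrix.mul_assoc]
      rw [e1, e2, ← Matrix.add_mul, ← Matrix.mul_add, h1, Matrix.mul_zero, Matrix.zero_mul, smul_zero]
  have hAd : A.det ≠ 0 := by
    intro h0
    have h1 : (cq A).det = 0 := by rw [cq_det, h0, Rat.cast_zero]
    have h2 := congrArg Matrix.det hBA
    rw [Matrix.det_mul, Matrix.det_mul, h1, mul_zero, zero_mul, Matrix.det_smul] at h2
    exact mul_ne_zero (pow_ne_zero _ hc) (SS_det m) h2.symm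
  exact hTY m N r A B c U P T hm hc hBA htype (hF (2 * m) N r A hAd hAt T hrat)

end Pool.Agent.Y113.MT
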