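import Pool.Agent.Y113.MT.HAsm2

/-!
# Hodge classes on the products `Z × X^r`: tensor powers
-/

set_option autoImplicit false
set_option maxHeartbeats 1000000

open Matrix

namespace Pool.Agent.Y113.MT

section
variable {F : Type} [Field F] {k j : ℕ}

/-- the action of a matrix on the tensors of degree `j` -/
def actz (X : Matrix (Fin k) (Fin k) F) : ((Fin j → Fin k) → F) →ₗ[F] ((Fin j → Fin k) → F) where
  toFun z := fun K => ∑ b, ∑ l, X l (K b) * z (Function.update K b l)
  map_add' z z' := by
    funext K
    rw [Pi.add_apply, ← Finset.sum_add_distrib]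
    refine Finset.sum_congr rfl fun b _ => ?_
    rw [← Finset.sum_add_distrib]
    refine Finset.sum_congr rfl fun l _ => ?_
    rw [Pi.add_apply, mul_add]
  map_smul' c z := by
    funext K
    rw [Pi.smul_apply, smul_eq_mul, Finset.mul_sum]
    refine Finset.sum_congr rfl fun b _ => ?_
    rw [Finset.mul_sum]
    refine Finset.sum_congr rfl fun l _ => ?_
    rw [Pi.smul_apply, smul_eq_mul, RingHom.id_apply]
    ring

lemma actz_apply (X : Matrix (Fin k) (Fin k) F) (z : (Fin j → Fin k) → F) (K : Fin j → Fin k) :
    actz X z K = ∑ b, ∑ l, X l (K b) * z (Function.update K b l) := rfl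

lemma actz_act (X : Matrix (Fin k) (Fin k) F) (z : (Fin j → Fin k) → F) (K : Fin j → Fin k) :
    act X (fun (K : Fin j → Fin k) (_ : Fin 1) => z K) K 0 = actz X z K := by
  rw [act_apply, actz_apply]

lemma actz_br (hTR : S_TR) (X Y : Matrix (Fin k) (Fin k) F) (z : (Fin j → Fin k) → F) :
    actz (X * Y - Y * X) z = actz Y (actz X z) - actz X (actz Y z) := by
  funext K
  have h1 : ∀ X : Matrix (Fin k) (Fin k) F, act X (fun (K : Fin j → Fin k) (_ : Fin 1) => z K) =
      fun (K : Fin j → Fin k) (_ : Fin 1) => actz X z K := by
    intro X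
    funext K i
    rw [Subsingleton.elim i 0, actz_act]
  have h := congrFun (congrFun ((hTR F k 1 j).1 X Y fun K _ => z K) K) 0
  rw [actz_act, Pi.sub_apply, Pi.sub_apply, h1, h1, actz_act, actz_act] at h
  exact h

lemma actz_addX (X X' : Matrix (Fin k) (Fin k) F) (z : (Fin j → Fin k) → F) : actz (X + X') z = actz X z + actz X' z := by
  funext K
  rw [Pi.add_apply, actz_apply, actz_apply, actz_apply, ← Finset.sum_add_distrib]
  refine Finset.sum_congr rfl fun b _ => ?_
  rw [← Finset.sum_add_distrib]
  refine Finset.sum_congr rfl fun l _ => ?_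
  rw [Matrix.add_apply, add_mul]

lemma actz_smulX (c : F) (X : Matrix (Fin k) (Fin k) F) (z : (Fin j → Fin k) → F) : actz (c • X) z = c • actz X z := by
  funext K
  rw [Pi.smul_apply, actz_apply, actz_apply, smul_eq_mul, Finset.mul_sum]
  refine Finset.sum_congr rfl fun b _ => ?_
  rw [Finset.mul_sum]
  refine Finset.sum_congr rfl fun l _ => ?_
  rw [Matrix.smul_apply, smul_eq_mul, mul_assoc]

/-- the enumeration of the basis of the tensors of degree `j` -/
noncomputable def en (k j : ℕ) : (Fin j → Fin k) ≃ Fin (Fintype.card (Fin j → Fin k)) := Fintype.equivFin _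

/-- the coordinates of tensors of degree `j` -/
noncomputable def LL (F : Type) [Field F] (k j : ℕ) :
    ((Fin j → Fin k) → F) ≃ₗ[F] (Fin (Fintype.card (Fin j → Fin k)) → F) := LinearEquiv.funCongrLeft F F (en k j).symm

lemma LL_apply (z : (Fin j → Fin k) → F) (i : Fin (Fintype.card (Fin j → Fin k))) : LL F k j z i = z ((en k j).symm i) := rfl

/-- the matrices of the operators `actz X` -/
noncomputable def rho (F : Type) [Field F] (k j : ℕ) : Matrix (Fin k) (Fin k) F →ₗ[F]
    Matrix (Fin (Fintype.card (Fin j → Fin k))) (Fin (Fintype.card (Fin j → Fin k))) F where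
  toFun X := Matrix.of fun i' i => actz X (Pi.single ((en k j).symm i') 1) ((en k j).symm i)
  map_add' X X' := by
    ext i' i
    rw [Matrix.add_apply, Matrix.of_apply, Matrix.of_apply, Matrix.of_apply, actz_addX]
    rfl
  map_smul' c X := by
    ext i' i
    rw [Matrix.smul_apply, Matrix.of_apply, Matrix.of_apply, actz_smulX]
    rfl

lemma rho_apply (X : Matrix (Fin k) (Fin k) F) (i' i : Fin (Fintype.card (Fin j → Fin k))) :
    rho F k j X i' i = actz X (Pi.single ((en k j).symm i') 1) ((en k j).symm i) := rfl

lemma LL_rho (X : Matrix (Fin k) (Fin k) F) (z : (Fin j → Fin k) → F) : LL F k j z ᵥ* rho F k j X = LL F k j (actz X z) := by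
  have h1 : z = ∑ i', (LL F k j z i') • (Pi.single ((en k j).symm i') 1 : (Fin j → Fin k) → F) := by
    funext K
    rw [Finset.sum_apply, Finset.sum_eq_single (en k j K)]
    · rw [Pi.smul_apply, Equiv.symm_apply_apply, Pi.single_eq_same, smul_eq_mul, mul_one, LL_apply, Equiv.symm_apply_apply]
    · intro i' _ hi'
      rw [Pi.smul_apply, Pi.single_apply, if_neg, smul_zero]
      intro h
      apply hi'
      rw [h, Equiv.apply_symm_apply]
    · intro h
      exact absurd (Finset.mem_univ _) h
  funext i
  rw [LL_apply]
  conv_rhs => rw [h1]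
  rw [map_sum, Finset.sum_apply]
  show ∑ i', LL F k j z i' * rho F k j X i' i = _
  refine Finset.sum_congr rfl fun i' _ => ?_
  rw [map_smul, Pi.smul_apply, smul_eq_mul, rho_apply]

lemma rho_br (hTR : S_TR) (X Y : Matrix (Fin k) (Fin k) F) :
    rho F k j (X * Y - Y * X) = rho F k j X * rho F k j Y - rho F k j Y * rho F k j X := by
  have h : ∀ z : Fin (Fintype.card (Fin j → Fin k)) → F, z ᵥ* rho F k j (X * Y - Y * X) =
      z ᵥ* (rho F k j X * rho F k j Y - rho F k j Y * rho F k j X) := by
    intro z
    obtain ⟨z, rfl⟩ := (LL F k j).surjective z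
    rw [LL_rho, actz_br hTR, Matrix.vecMul_sub, ← vecMul_vecMul, ← vecMul_vecMul, LL_rho, LL_rho, LL_rho, LL_rho, map_sub]
  ext i' i
  have h1 := congrFun (h (Pi.single i' 1)) i
  rwa [Matrix.single_one_vecMul, Matrix.single_one_vecMul] at h1

end

section
variable {k j : ℕ}

lemma rho_cq (X : Matrix (Fin k) (Fin k) ℚ) : rho ℂ k j (cq X) = cq (rho ℚ k j X) := by
  ext i' i
  rw [cq_apply, rho_apply, rho_apply, actz_apply, actz_apply]
  push_cast
  refine Finset.sum_congr rfl fun b _ => Finset.sum_congr rfl fun l _ => ?_
  rw [cq_apply]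
  congr 1
  rw [Pi.single_apply, Pi.single_apply]
  split_ifs <;> simp

/-- the tensors of degree `j` and type `p` -/
def TW (U : ℤ → Submodule ℂ (Fin k → ℂ)) (j : ℕ) (p : ℤ) : Submodule ℂ ((Fin j → Fin k) → ℂ) :=
  Submodule.span ℂ {z | ∃ (q : Fin j → ℤ) (w : Fin j → Fin k → ℂ), (∀ b, w b ∈ U (q b)) ∧ ∑ b, q b = p ∧
    z = fun K => ∏ b, w b (K b)}

lemma actz_pure (X : Matrix (Fin k) (Fin k) ℂ) (w : Fin j → Fin k → ℂ) :
    actz X (fun K => ∏ b, w b (K b)) = ∑ b, fun K : Fin j → Fin k => ∏ b', Function.update w b (w b ᵥ* X) b' (K b') := by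
  funext K
  rw [actz_apply, Finset.sum_apply]
  refine Finset.sum_congr rfl fun b _ => ?_
  rw [← Finset.mul_prod_erase _ _ (Finset.mem_univ b), Function.update_self]
  show _ = (∑ l, w b l * X l (K b)) * _
  rw [Finset.sum_mul]
  refine Finset.sum_congr rfl fun l _ => ?_
  rw [← Finset.mul_prod_erase _ _ (Finset.mem_univ b), Function.update_self, ← mul_assoc, mul_comm (X l (K b))]
  congr 1
  refine Finset.prod_congr rfl fun b' hb' => ?_
  rw [Function.update_of_ne (Finset.ne_of_mem_erase hb'), Function.update_of_ne (Finset.ne_of_mem_erase hb')]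

lemma TW_eig {U : ℤ → Submodule ℂ (Fin k → ℂ)} {Φ : Matrix (Fin k) (Fin k) ℂ} (hΦ : ∀ p, ∀ z ∈ U p, z ᵥ* Φ = (p : ℂ) • z)
    {p : ℤ} {z : (Fin j → Fin k) → ℂ} (hz : z ∈ TW U j p) : actz Φ z = (p : ℂ) • z := by
  unfold TW at hz
  induction hz using Submodule.span_induction with
  | mem z hz =>
    obtain ⟨q, w, hw, rfl, rfl⟩ := hz
    rw [actz_pure]
    push_cast
    rw [Finset.sum_smul]
    refine Finset.sum_congr rfl fun b _ => ?_
    funext K
    rw [Pi.smul_apply, smul_eq_mul, ← Finset.mul_prod_erase _ _ (Finset.mem_univ b), Function.update_self, hΦ _ _ (hw b),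
      Pi.smul_apply, smul_eq_mul, mul_assoc, ← Finset.mul_prod_erase Finset.univ (fun b => w b (K b)) (Finset.mem_univ b)]
    congr 2
    refine Finset.prod_congr rfl fun b' hb' => ?_
    rw [Function.update_of_ne (Finset.ne_of_mem_erase hb')]
  | zero => rw [map_zero, smul_zero]
  | add x y _ _ h1 h2 => rw [map_add, h1, h2, smul_add]
  | smul c x _ h => rw [map_smul, h, smul_comm]

lemma TW_width {U : ℤ → Submodule ℂ (Fin k → ℂ)} (hU : (⨆ p, U p) = ⊤) {d : ℤ} (hW : ∀ p : ℤ, U p ≠ ⊥ → U (p - d) = ⊥)
    (Y : Matrix (Fin k) (Fin k) ℂ) {u : ℤ} {z : (Fin j → Fin k) → ℂ} (hz : z ∈ TW U j u) :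
    actz Y z ∈ ⨆ p : {p : ℤ // p ≠ u - d}, TW U j p := by
  unfold TW at hz
  induction hz using Submodule.span_induction with
  | mem z hz =>
    obtain ⟨q, w, hw, hq, rfl⟩ := hz
    rw [actz_pure]
    refine Submodule.sum_mem _ fun b _ => ?_
    by_cases hwb : w b = 0
    · have h0 : (fun K : Fin j → Fin k => ∏ b', Function.update w b (w b ᵥ* Y) b' (K b')) = 0 := by
        funext K
        rw [Pi.zero_apply]
        refine Finset.prod_eq_zero (Finset.mem_univ b) ?_
        rw [Function.update_self, hwb, Matrix.zero_vecMul]
        rfl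
      rw [h0]
      exact Submodule.zero_mem _
    · have hUb : U (q b) ≠ ⊥ := by
        intro h
        have h1 := hw b
        rw [h] at h1
        exact hwb ((Submodule.mem_bot ℂ).1 h1)
      have key : ∀ y ∈ (⨆ p, U p), (fun K : Fin j → Fin k => ∏ b', Function.update w b y b' (K b')) ∈
          ⨆ p : {p : ℤ // p ≠ u - d}, TW U j p := by
        intro y hy
        induction hy using Submodule.iSup_induction' with
        | mem p y hy =>
          by_cases hy0 : y = 0
          · have h0 : (fun K : Fin j → Fin k => ∏ b', Function.update w b y b' (K b')) = 0 := by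
              funext K
              rw [Pi.zero_apply]
              refine Finset.prod_eq_zero (Finset.mem_univ b) ?_
              rw [Function.update_self, hy0]
              rfl
            rw [h0]
            exact Submodule.zero_mem _
          · have hp : p ≠ q b - d := by
              rintro rfl
              have h1 := hW _ hUb
              rw [h1] at hy
              exact hy0 ((Submodule.mem_bot ℂ).1 hy)
            refine Submodule.mem_iSup_of_mem (⟨u - q b + p, by omega⟩ : {p : ℤ // p ≠ u - d}) ?_
            refine Submodule.subset_span ⟨Function.update q b p, Function.update w b y, fun b' => ?_, ?_, rfl⟩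
            · by_cases hb : b' = b
              · subst hb
                rw [Function.update_self, Function.update_self]
                exact hy
              · rw [Function.update_of_ne hb, Function.update_of_ne hb]
                exact hw b'
            · rw [← Finset.add_sum_erase _ _ (Finset.mem_univ b), Function.update_self, ← hq,
                ← Finset.add_sum_erase Finset.univ q (Finset.mem_univ b)]
              have : ∑ x ∈ Finset.univ.erase b, Function.update q b p x = ∑ x ∈ Finset.univ.erase b, q x :=
                Finset.sum_congr rfl fun b' hb' => Function.update_of_ne (Finset.ne_of_mem_erase hb') _ _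
              rw [this]
              ring
        | zero =>
          have h0 : (fun K : Fin j → Fin k => ∏ b', Function.update w b 0 b' (K b')) = 0 := by
            funext K
            rw [Pi.zero_apply]
            refine Finset.prod_eq_zero (Finset.mem_univ b) ?_
            rw [Function.update_self]
            rfl
          rw [h0]
          exact Submodule.zero_mem _
        | add x y _ _ h1 h2 =>
          have h0 : (fun K : Fin j → Fin k => ∏ b', Function.update w b (x + y) b' (K b')) =
              (fun K : Fin j → Fin k => ∏ b', Function.update w b x b' (K b')) +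
              fun K : Fin j → Fin k => ∏ b', Function.update w b y b' (K b') := by
            funext K
            rw [Pi.add_apply, ← Finset.mul_prod_erase _ _ (Finset.mem_univ b), ← Finset.mul_prod_erase _ _ (Finset.mem_univ b),
              ← Finset.mul_prod_erase _ _ (Finset.mem_univ b), Function.update_self, Function.update_self, Function.update_self,
              Pi.add_apply, add_mul]
            congr 2
            · refine Finset.prod_congr rfl fun b' hb' => ?_
              rw [Function.update_of_ne (Finset.ne_of_mem_erase hb'), Function.update_of_ne (Finset.ne_of_mem_erase hb')]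
            · refine Finset.prod_congr rfl fun b' hb' => ?_
              rw [Function.update_of_ne (Finset.ne_of_mem_erase hb'), Function.update_of_ne (Finset.ne_of_mem_erase hb')]
          rw [h0]
          exact Submodule.add_mem _ h1 h2
      exact key _ (by rw [hU]; exact Submodule.mem_top)
  | zero =>
    rw [map_zero]
    exact Submodule.zero_mem _
  | add x y _ _ h1 h2 =>
    rw [map_add]
    exact Submodule.add_mem _ h1 h2
  | smul c x _ h =>
    rw [map_smul]
    exact Submodule.smul_mem _ _ h

end

end Pool.Agent.Y113.MT
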