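import Pool.Agent.Y113.MT.Core4
import Pool.Agent.Y113.MT.HStm
import Pool.Agent.Y780.MT.Idl

/-!
# The core theorem for two fibres
-/

set_option autoImplicit false
set_option maxHeartbeats 1000000

open Matrix

namespace Pool.Agent.Y113.MT

section
variable {F : Type} [Field F] {n r : ℕ} {x y : Fin r → Matrix (Fin n) (Fin n) F}

/-- the joint span of two families of matrices -/
def JS (x y : Fin r → Matrix (Fin n) (Fin n) F) : Submodule F (Matrix (Fin n) (Fin n) F × Matrix (Fin n) (Fin n) F) :=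
  Submodule.span F (Set.range fun a => (x a, y a))

lemma mem_JS {X Y : Matrix (Fin n) (Fin n) F} :
    (X, Y) ∈ JS x y ↔ ∃ c : Fin r → F, ∑ a, c a • x a = X ∧ ∑ a, c a • y a = Y := by
  unfold JS
  rw [Submodule.mem_span_range_iff_exists_fun]
  constructor
  · rintro ⟨c, hc⟩
    refine ⟨c, ?_, ?_⟩
    · have h := congrArg Prod.fst hc
      rw [Prod.fst_sum] at h
      exact h
    · have h := congrArg Prod.snd hc
      rw [Prod.snd_sum] at h
      exact h
  · rintro ⟨c, h1, h2⟩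
    refine ⟨c, ?_⟩
    ext1
    · rw [Prod.fst_sum]
      exact h1
    · rw [Prod.snd_sum]
      exact h2

lemma js_fst {X Y : Matrix (Fin n) (Fin n) F} (h : (X, Y) ∈ JS x y) : X ∈ Submodule.span F (Set.range x) := by
  obtain ⟨c, h1, -⟩ := mem_JS.1 h
  rw [Submodule.mem_span_range_iff_exists_fun]
  exact ⟨c, h1⟩

lemma js_snd {X Y : Matrix (Fin n) (Fin n) F} (h : (X, Y) ∈ JS x y) : Y ∈ Submodule.span F (Set.range y) := by
  obtain ⟨c, -, h1⟩ := mem_JS.1 h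
  rw [Submodule.mem_span_range_iff_exists_fun]
  exact ⟨c, h1⟩

/-- the elements of the joint span are closed under the bracket -/
lemma js_br (hbr : ∀ a b, (x a * x b - x b * x a, y a * y b - y b * y a) ∈ JS x y) {X Y : Matrix (Fin n) (Fin n) F × Matrix (Fin n) (Fin n) F}
    (hX : X ∈ JS x y) (hY : Y ∈ JS x y) : (X.1 * Y.1 - Y.1 * X.1, X.2 * Y.2 - Y.2 * X.2) ∈ JS x y := by
  unfold JS at hX hY
  induction hX using Submodule.span_induction with
  | mem X hX =>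
    obtain ⟨a, rfl⟩ := hX
    induction hY using Submodule.span_induction with
    | mem Y hY =>
      obtain ⟨b, rfl⟩ := hY
      exact hbr a b
    | zero =>
      have e : ((x a * 0 - 0 * x a, y a * 0 - 0 * y a) : Matrix (Fin n) (Fin n) F × Matrix (Fin n) (Fin n) F) = 0 := by
        simp
      show ((x a * 0 - 0 * x a, y a * 0 - 0 * y a) : Matrix (Fin n) (Fin n) F × Matrix (Fin n) (Fin n) F) ∈ JS x y
      rw [e]
      exact Submodule.zero_mem _
    | add Y Y' _ _ h1 h2 =>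
      have e : ((x a * (Y + Y').1 - (Y + Y').1 * x a, y a * (Y + Y').2 - (Y + Y').2 * y a) :
          Matrix (Fin n) (Fin n) F × Matrix (Fin n) (Fin n) F) =
          (x a * Y.1 - Y.1 * x a, y a * Y.2 - Y.2 * y a) + (x a * Y'.1 - Y'.1 * x a, y a * Y'.2 - Y'.2 * y a) := by
        ext1
        · show x a * (Y.1 + Y'.1) - (Y.1 + Y'.1) * x a = (x a * Y.1 - Y.1 * x a) + (x a * Y'.1 - Y'.1 * x a)
          rw [mul_add, add_mul]
          abel
        · show y a * (Y.2 + Y'.2) - (Y.2 + Y'.2) * y a = (y a * Y.2 - Y.2 * y a) + (y a * Y'.2 - Y'.2 * y a)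
          rw [mul_add, add_mul]
          abel
      show (x a * (Y + Y').1 - (Y + Y').1 * x a, y a * (Y + Y').2 - (Y + Y').2 * y a) ∈ _
      rw [e]
      exact Submodule.add_mem _ h1 h2
    | smul s Y _ h1 =>
      have e : ((x a * (s • Y).1 - (s • Y).1 * x a, y a * (s • Y).2 - (s • Y).2 * y a) :
          Matrix (Fin n) (Fin n) F × Matrix (Fin n) (Fin n) F) =
          s • (x a * Y.1 - Y.1 * x a, y a * Y.2 - Y.2 * y a) := by
        ext1
        · show x a * (s • Y.1) - (s • Y.1) * x a = s • (x a * Y.1 - Y.1 * x a)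
          rw [Matrix.mul_smul, Matrix.smul_mul, smul_sub]
        · show y a * (s • Y.2) - (s • Y.2) * y a = s • (y a * Y.2 - Y.2 * y a)
          rw [Matrix.mul_smul, Matrix.smul_mul, smul_sub]
      show (x a * (s • Y).1 - (s • Y).1 * x a, y a * (s • Y).2 - (s • Y).2 * y a) ∈ _
      rw [e]
      exact Submodule.smul_mem _ _ h1
  | zero =>
    have e : ((0 * Y.1 - Y.1 * 0, 0 * Y.2 - Y.2 * 0) : Matrix (Fin n) (Fin n) F × Matrix (Fin n) (Fin n) F) = 0 := by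
      simp
    show ((0 * Y.1 - Y.1 * 0, 0 * Y.2 - Y.2 * 0) : Matrix (Fin n) (Fin n) F × Matrix (Fin n) (Fin n) F) ∈ JS x y
    rw [e]
    exact Submodule.zero_mem _
  | add X X' _ _ h1 h2 =>
    have e : (((X + X').1 * Y.1 - Y.1 * (X + X').1, (X + X').2 * Y.2 - Y.2 * (X + X').2) :
        Matrix (Fin n) (Fin n) F × Matrix (Fin n) (Fin n) F) =
        (X.1 * Y.1 - Y.1 * X.1, X.2 * Y.2 - Y.2 * X.2) + (X'.1 * Y.1 - Y.1 * X'.1, X'.2 * Y.2 - Y.2 * X'.2) := by
      ext1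
      · show (X.1 + X'.1) * Y.1 - Y.1 * (X.1 + X'.1) = (X.1 * Y.1 - Y.1 * X.1) + (X'.1 * Y.1 - Y.1 * X'.1)
        rw [mul_add, add_mul]
        abel
      · show (X.2 + X'.2) * Y.2 - Y.2 * (X.2 + X'.2) = (X.2 * Y.2 - Y.2 * X.2) + (X'.2 * Y.2 - Y.2 * X'.2)
        rw [mul_add, add_mul]
        abel
    rw [e]
    exact Submodule.add_mem _ h1 h2
  | smul s X _ h1 =>
    have e : (((s • X).1 * Y.1 - Y.1 * (s • X).1, (s • X).2 * Y.2 - Y.2 * (s • X).2) :
        Matrix (Fin n) (Fin n) F × Matrix (Fin n) (Fin n) F) =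
        s • (X.1 * Y.1 - Y.1 * X.1, X.2 * Y.2 - Y.2 * X.2) := by
      ext1
      · show (s • X.1) * Y.1 - Y.1 * (s • X.1) = s • (X.1 * Y.1 - Y.1 * X.1)
        rw [Matrix.mul_smul, Matrix.smul_mul, smul_sub]
      · show (s • X.2) * Y.2 - Y.2 * (s • X.2) = s • (X.2 * Y.2 - Y.2 * X.2)
        rw [Matrix.mul_smul, Matrix.smul_mul, smul_sub]
    rw [e]
    exact Submodule.smul_mem _ _ h1

/-- derivations preserve the joint span -/
lemma js_der (D : Derivation ℤ F F) (hx : ∀ a i j, D (x a i j) = 0) (hy : ∀ a i j, D (y a i j) = 0)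
    {X Y : Matrix (Fin n) (Fin n) F} (h : (X, Y) ∈ JS x y) : (X.map D, Y.map D) ∈ JS x y := by
  obtain ⟨c, h1, h2⟩ := mem_JS.1 h
  have e : ∀ z : Fin r → Matrix (Fin n) (Fin n) F, (∀ a i j, D (z a i j) = 0) →
      ∑ a, D (c a) • z a = (∑ a, c a • z a).map D := by
    intro z hz
    ext i j
    rw [Matrix.map_apply, Matrix.sum_apply, Matrix.sum_apply, map_sum]
    refine Finset.sum_congr rfl fun a _ => ?_
    rw [Matrix.smul_apply, Matrix.smul_apply, smul_eq_mul, smul_eq_mul, Derivation.leibniz, hz, smul_zero, zero_add, smul_eq_mul,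
      mul_comm]
  exact mem_JS.2 ⟨fun a => D (c a), by rw [e x hx, h1], by rw [e y hy, h2]⟩

end

section
variable {F : Type} [Field F] {K : Subfield F} {σ : F →+* F} {m : ℕ}
  {J g G M A B Λ Δ Φ : Matrix (Fin (2 * m)) (Fin (2 * m)) F} {r : ℕ} {x : Fin r → Matrix (Fin (2 * m)) (Fin (2 * m)) F}
  {q κ c : F}

/-- the logarithmic derivative of the adapted basis -/
lemma CD.UBeq (h : CD K σ J g G M A B Λ Δ Φ x q κ c) (D : Derivation ℤ F F) (hD : ∀ z ∈ K, D z = 0)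
    {Z : Matrix (Fin (2 * m)) (Fin (2 * m)) F} (hg : g.map D = g * Z) (hG : G.map D = 0) :
    B.map D * B⁻¹ = Λ.map D * Λ⁻¹ + (Λ * (Δ * g)) * Z * (Λ * (Δ * g))⁻¹ := by
  have hBu : IsUnit B.det := isUnit_iff_ne_zero.2 h.Bdet
  have hLu : IsUnit Λ.det := isUnit_iff_ne_zero.2 h.Ldet
  set E := Λ * (Δ * g) with hE
  have hEu : IsUnit E.det := isUnit_iff_ne_zero.2 h.Edet
  have hBE : B = E * G := h.BE
  have h2 : B.map D = Λ.map D * (Δ * (g * G)) + E * Z * G := by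
    rw [h.BL, dmap_mul, dmap_mul, dmap_mul, dmap_zero D (fun i j => hD _ (h.Dk i j)), zero_mul, zero_add, hg, hG, hE]
    simp only [Matrix.mul_add, Matrix.mul_assoc, Matrix.mul_zero, add_zero]
  have h3 : Δ * (g * G) = Λ⁻¹ * B := by
    nth_rewrite 1 [h.BL]
    rw [← Matrix.mul_assoc Λ⁻¹, Matrix.nonsing_inv_mul _ hLu, one_mul]
  have h4 : G = E⁻¹ * B := by
    rw [hBE, ← Matrix.mul_assoc, Matrix.nonsing_inv_mul _ hEu, one_mul]
  have h5 : G * B⁻¹ = E⁻¹ := by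
    nth_rewrite 1 [h4]
    rw [Matrix.mul_assoc, Matrix.mul_nonsing_inv _ hBu, mul_one]
  rw [h2, add_mul, h3, Matrix.mul_assoc, Matrix.mul_assoc, Matrix.mul_nonsing_inv _ hBu, mul_one,
    Matrix.mul_assoc (E * Z), h5]

/-- the derivative of the Hodge operator -/
lemma CD.Phider (h : CD K σ J g G M A B Λ Δ Φ x q κ c) (D : Derivation ℤ F F) :
    B⁻¹ * ((dl F m * (B.map D * B⁻¹) - (B.map D * B⁻¹) * dl F m)) * B = Φ.map D := by
  have hBu : IsUnit B.det := isUnit_iff_ne_zero.2 h.Bdet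
  set UB := B.map D * B⁻¹ with hUB
  have hUBB : B.map D = UB * B := by rw [hUB, Matrix.mul_assoc, Matrix.nonsing_inv_mul _ hBu, mul_one]
  have hdl : (dl F m).map D = 0 := by
    refine dmap_zero D fun i j => ?_
    rw [dl]
    by_cases hij : i = j
    · subst hij
      rw [Matrix.diagonal_apply_eq, Derivation.map_natCast]
    · rw [Matrix.diagonal_apply_ne _ hij, map_zero]
  have hBP : B * Φ = dl F m * B := h.BP
  have h7 := congrArg (fun Y : Matrix (Fin (2 * m)) (Fin (2 * m)) F => Y.map D) hBP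
  simp only [dmap_mul, hdl, zero_mul, zero_add, hUBB] at h7
  rw [Matrix.mul_assoc UB, hBP] at h7
  -- h7 : UB * (dl * B) + B * Φ.map D = dl * (UB * B)
  have h8 : B * Φ.map D = (dl F m * UB - UB * dl F m) * B := by
    have h9 : B * Φ.map D = dl F m * (UB * B) - UB * (dl F m * B) := by
      rw [← h7]
      abel
    rw [h9, Matrix.sub_mul, Matrix.mul_assoc (dl F m) UB B, Matrix.mul_assoc UB (dl F m) B]
  rw [Matrix.mul_assoc, ← h8, ← Matrix.mul_assoc, Matrix.nonsing_inv_mul _ hBu, one_mul]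

lemma dl_entry (X : Matrix (Fin (2 * m)) (Fin (2 * m)) F) (a b : Fin (2 * m)) : (dl F m * X - X * dl F m) a b =
      (((((b : ℕ) : ℤ) - ((a : ℕ) : ℤ) : ℤ)) : F) * X a b := by
  have hk : ∀ k : Fin (2 * m), ((2 * m - 1 - (k : ℕ) : ℕ) : F) = ((2 * m - 1 : ℕ) : F) - (k : ℕ) := by
    intro k
    have := k.2
    rw [Nat.cast_sub (by omega)]
  rw [Matrix.sub_apply, dl, Matrix.diagonal_mul, Matrix.mul_diagonal, hk, hk]
  push_cast
  ring

/-- the first upper right entry of the logarithmic derivative of a lower triangular matrix -/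
lemma low_entry {X : Matrix (Fin (2 * m)) (Fin (2 * m)) F} (D : Derivation ℤ F F) (hX : X.det ≠ 0)
    (h : ∀ a b, a < b → X a b = 0) (a b : Fin (2 * m)) (hab : a < b) : (X.map D * X⁻¹) a b = 0 := by
  rw [Matrix.mul_apply]
  refine Finset.sum_eq_zero fun k _ => ?_
  rcases lt_or_ge a k with hk | hk
  · rw [Matrix.map_apply, h a k hk, map_zero, zero_mul]
  · rw [lower_inv hX h k b (lt_of_le_of_lt hk hab), mul_zero]

end

section
variable {F : Type} [Field F] [CharZero F] {K : Subfield F} {σ : F →+* F} {m : ℕ}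
  {J Δ g G M A B Λ Φ g' G' M' A' B' Λ' Φ' : Matrix (Fin (2 * m)) (Fin (2 * m)) F} {r : ℕ}
  {x y : Fin r → Matrix (Fin (2 * m)) (Fin (2 * m)) F} {q κ c q' κ' c' : F}

/-- **The core theorem for two fibres.** -/
theorem pair_core (hm : 1 ≤ m)
    (h : CD K σ J g G M A B Λ Δ Φ x q κ c) (h' : CD K σ J g' G' M' A' B' Λ' Δ Φ' y q' κ' c')
    (hbr : ∀ a b, (x a * x b - x b * x a, y a * y b - y b * y a) ∈ JS x y) (hP : (Φ, Φ') ∈ JS x y)
    (hsp : ∀ X : Matrix (Fin (2 * m)) (Fin (2 * m)) F, X * A + A * Xᵀ = 0 → X ∈ Submodule.span F (Set.range x))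
    (hDer : ∀ v : Fin (2 * m) → F, ∃ D : Derivation ℤ F F, (∀ z ∈ K, D z = 0) ∧ g.map D = g * (vecMulVec v v * J) ∧
      G.map D = 0 ∧ g'.map D = 0 ∧ G'.map D = 0) {X : Matrix (Fin (2 * m)) (Fin (2 * m)) F} (hX : X * A + A * Xᵀ = 0) :
    (X, 0) ∈ JS x y := by
  have hBu : IsUnit B.det := isUnit_iff_ne_zero.2 h.Bdet
  have hBu' : IsUnit B'.det := isUnit_iff_ne_zero.2 h'.Bdet
  have hBTu : IsUnit Bᵀ.det := by rwa [Matrix.det_transpose]
  set IL : Matrix (Fin (2 * m)) (Fin (2 * m)) F → Matrix (Fin (2 * m)) (Fin (2 * m)) F → Prop :=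
    fun X Y => (B⁻¹ * X * B, B'⁻¹ * Y * B') ∈ JS x y with hIL
  have cj : ∀ {B : Matrix (Fin (2 * m)) (Fin (2 * m)) F}, IsUnit B.det → ∀ X Y : Matrix (Fin (2 * m)) (Fin (2 * m)) F,
      (B⁻¹ * X * B) * (B⁻¹ * Y * B) - (B⁻¹ * Y * B) * (B⁻¹ * X * B) = B⁻¹ * (X * Y - Y * X) * B := by
    intro B hu X Y
    have e : ∀ X Y : Matrix (Fin (2 * m)) (Fin (2 * m)) F, (B⁻¹ * X * B) * (B⁻¹ * Y * B) = B⁻¹ * (X * Y) * B := by
      intro X Y
      calc (B⁻¹ * X * B) * (B⁻¹ * Y * B) = B⁻¹ * X * (B * B⁻¹) * Y * B := by simp only [Matrix.mul_assoc]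
        _ = _ := by
          rw [Matrix.mul_nonsing_inv _ hu, mul_one]
          simp only [Matrix.mul_assoc]
    rw [e, e, Matrix.mul_sub, Matrix.sub_mul]
  have ilbr : ∀ X Y X' Y', IL X Y → IL X' Y' → IL (X * X' - X' * X) (Y * Y' - Y' * Y) := by
    intro X Y X' Y' h1 h2
    have h3 := js_br hbr h1 h2
    simp only [cj hBu, cj hBu'] at h3
    exact h3
  have ilsmul : ∀ (s : F) X Y, IL X Y → IL (s • X) (s • Y) := by
    intro s X Y h1
    have h3 := Submodule.smul_mem _ s h1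
    show (B⁻¹ * (s • X) * B, B'⁻¹ * (s • Y) * B') ∈ JS x y
    rw [Matrix.mul_smul, Matrix.smul_mul, Matrix.mul_smul, Matrix.smul_mul]
    exact h3
  have ilsub : ∀ X Y X' Y', IL X Y → IL X' Y' → IL (X - X') (Y - Y') := by
    intro X Y X' Y' h1 h2
    have h3 := Submodule.sub_mem _ h1 h2
    show (B⁻¹ * (X - X') * B, B'⁻¹ * (Y - Y') * B') ∈ JS x y
    rw [Matrix.mul_sub, Matrix.sub_mul, Matrix.mul_sub, Matrix.sub_mul]
    exact h3
  have ildl : IL (dl F m) (dl F m) := by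
    have e : ∀ {B Φ : Matrix (Fin (2 * m)) (Fin (2 * m)) F}, IsUnit B.det → B * Φ = dl F m * B → B⁻¹ * dl F m * B = Φ := by
      intro B Φ hu hBP
      rw [Matrix.mul_assoc, ← hBP, ← Matrix.mul_assoc, Matrix.nonsing_inv_mul _ hu, one_mul]
    show (B⁻¹ * dl F m * B, B'⁻¹ * dl F m * B') ∈ JS x y
    rw [e hBu h.BP, e hBu' h'.BP]
    exact hP
  -- the grading
  have grad : ∀ (s : Finset ℤ) X Y, IL X Y → IL
      (Matrix.of fun a b : Fin (2 * m) => (∏ k ∈ s, ((((((b : ℕ) : ℤ) - ((a : ℕ) : ℤ) : ℤ)) : F) - (k : F))) * X a b)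
      (Matrix.of fun a b : Fin (2 * m) => (∏ k ∈ s, ((((((b : ℕ) : ℤ) - ((a : ℕ) : ℤ) : ℤ)) : F) - (k : F))) * Y a b) := by
    intro s X Y h0
    induction s using Finset.induction_on with
    | empty =>
      have e : ∀ X : Matrix (Fin (2 * m)) (Fin (2 * m)) F, (Matrix.of fun a b : Fin (2 * m) => (∏ k ∈ (∅ : Finset ℤ),
          ((((((b : ℕ) : ℤ) - ((a : ℕ) : ℤ) : ℤ)) : F) - (k : F))) * X a b) = X := by
        intro X
        ext a b
        rw [Matrix.of_apply, Finset.prod_empty, one_mul]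
      rw [e, e]
      exact h0
    | insert k s hk ih =>
      have h1 := ilsub _ _ _ _ (ilbr _ _ _ _ ildl ih) (ilsmul (k : F) _ _ ih)
      have e : ∀ X : Matrix (Fin (2 * m)) (Fin (2 * m)) F, (dl F m * (Matrix.of fun a b : Fin (2 * m) => (∏ k ∈ s,
          ((((((b : ℕ) : ℤ) - ((a : ℕ) : ℤ) : ℤ)) : F) - (k : F))) * X a b) - (Matrix.of fun a b : Fin (2 * m) => (∏ k ∈ s,
          ((((((b : ℕ) : ℤ) - ((a : ℕ) : ℤ) : ℤ)) : F) - (k : F))) * X a b) * dl F m) - (k : F) •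
          (Matrix.of fun a b : Fin (2 * m) => (∏ k ∈ s, ((((((b : ℕ) : ℤ) - ((a : ℕ) : ℤ) : ℤ)) : F) - (k : F))) * X a b) =
          (Matrix.of fun a b : Fin (2 * m) => (∏ k ∈ insert k s,
          ((((((b : ℕ) : ℤ) - ((a : ℕ) : ℤ) : ℤ)) : F) - (k : F))) * X a b) := by
        intro X
        ext a b
        rw [Matrix.sub_apply, dl_entry, Matrix.smul_apply, Matrix.of_apply, Matrix.of_apply, Finset.prod_insert hk, smul_eq_mul]
        ring
      rw [e, e] at h1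
      exact h1
  -- the upper right corner
  set o : Fin (2 * m) := ⟨0, by omega⟩ with ho
  set l : Fin (2 * m) := ⟨2 * m - 1, by omega⟩ with hl
  have hol : o < l := by
    show (0 : ℕ) < 2 * m - 1
    omega
  set s : Finset ℤ := Finset.Ico (1 - 2 * (m : ℤ)) (2 * (m : ℤ) - 1) with hs
  set π : F := ∏ k ∈ s, (((2 * (m : ℤ) - 1 : ℤ) : F) - (k : F)) with hπ
  have hπ0 : π ≠ 0 := by
    refine Finset.prod_ne_zero_iff.2 fun k hk => ?_
    rw [← Int.cast_sub, Int.cast_ne_zero]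
    rw [hs, Finset.mem_Ico] at hk
    omega
  have corner : ∀ X : Matrix (Fin (2 * m)) (Fin (2 * m)) F, (Matrix.of fun a b : Fin (2 * m) => (∏ k ∈ s,
      ((((((b : ℕ) : ℤ) - ((a : ℕ) : ℤ) : ℤ)) : F) - (k : F))) * X a b) = (π * X o l) • EE F (2 * m) := by
    intro X
    ext a b
    rw [Matrix.of_apply, Matrix.smul_apply, smul_eq_mul]
    unfold EE
    rw [Matrix.of_apply]
    have ha := a.2
    have hb := b.2
    by_cases hab : (a : ℕ) = 0 ∧ (b : ℕ) + 1 = 2 * m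
    · rw [if_pos hab, mul_one]
      have ea : a = o := Fin.ext hab.1
      have eb : b = l := Fin.ext (by show (b : ℕ) = 2 * m - 1; omega)
      subst ea eb
      congr 1
      rw [hπ]
      refine Finset.prod_congr rfl fun k _ => ?_
      congr 2
      show (((2 * m - 1 : ℕ) : ℤ) - ((0 : ℕ) : ℤ)) = 2 * (m : ℤ) - 1
      omega
    · rw [if_neg hab, mul_zero]
      have h0 : (∏ k ∈ s, ((((((b : ℕ) : ℤ) - ((a : ℕ) : ℤ) : ℤ)) : F) - (k : F))) = 0 := by
        refine Finset.prod_eq_zero (i := ((b : ℕ) : ℤ) - ((a : ℕ) : ℤ)) ?_ (sub_self _)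
        rw [hs, Finset.mem_Ico]
        omega
      rw [h0, zero_mul]
  -- the derivation
  set E := Λ * (Δ * g) with hE
  have hEu : IsUnit E.det := isUnit_iff_ne_zero.2 h.Edet
  set v : Fin (2 * m) → F := E⁻¹ *ᵥ Pi.single o 1 with hv
  have hEv : E *ᵥ v = Pi.single o 1 := by
    rw [hv, Matrix.mulVec_mulVec, Matrix.mul_nonsing_inv _ hEu, Matrix.one_mulVec]
  obtain ⟨D, hD, hg, hG, hg', hG'⟩ := hDer v
  have hder := js_der D (fun a i j => hD _ (h.xk a i j)) (fun a i j => hD _ (h'.xk a i j)) hP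
  rw [← h.Phider D, ← h'.Phider D] at hder
  have hU1 := h.UBeq D hD hg hG
  have hU2 := h'.UBeq D hD (Z := 0) (by rw [hg', Matrix.mul_zero]) hG'
  have hil : IL (dl F m * (B.map D * B⁻¹) - (B.map D * B⁻¹) * dl F m)
      (dl F m * (B'.map D * B'⁻¹) - (B'.map D * B'⁻¹) * dl F m) := hder
  have h1 := grad s _ _ hil
  rw [corner, corner, dl_entry, dl_entry] at h1
  have hc2 : (B'.map D * B'⁻¹) o l = 0 := by
    rw [hU2, Matrix.mul_zero, Matrix.zero_mul, add_zero]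
    exact low_entry D h'.Ldet h'.Ll o l hol
  have hc1 : (B.map D * B⁻¹) o l = -(κ / c) := by
    rw [hU1, Matrix.add_apply, low_entry D h.Ldet h.Ll o l hol, zero_add, ← hE, h.rk1' v, ← hE, hEv, Matrix.neg_apply,
      Matrix.smul_apply, smul_eq_mul]
    have e : (vecMulVec (Pi.single o 1) (Pi.single o 1) * SS F (2 * m) : Matrix (Fin (2 * m)) (Fin (2 * m)) F) o l = 1 := by
      rw [mul_SS, vecMulVec_apply, Pi.single_eq_same, one_mul]
      have e1 : Fin.rev l = o := by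
        apply Fin.ext
        rw [Fin.val_rev]
        show 2 * m - (2 * m - 1 + 1) = 0
        omega
      rw [e1, Pi.single_eq_same, one_mul]
      exact pow_zero _
    rw [e, mul_one]
  rw [hc1, hc2, mul_zero, mul_zero, zero_smul] at h1
  set z : F := π * ((((((l : ℕ) : ℤ) - ((o : ℕ) : ℤ) : ℤ)) : F) * -(κ / c)) with hz
  have hz0 : z ≠ 0 := by
    refine mul_ne_zero hπ0 (mul_ne_zero ?_ (neg_ne_zero.2 (div_ne_zero h.k0 h.c0)))
    rw [Int.cast_ne_zero]
    show (((2 * m - 1 : ℕ) : ℤ) - ((0 : ℕ) : ℤ)) ≠ 0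
    omega
  have hEE : IL (EE F (2 * m)) 0 := by
    have h2 := ilsmul z⁻¹ _ _ h1
    rwa [smul_smul, inv_mul_cancel₀ hz0, one_smul, smul_zero] at h2
  -- the ideal
  let L : Submodule F (Matrix (Fin (2 * m)) (Fin (2 * m)) F) :=
    { carrier := {X | IL X 0}
      add_mem' := by
        intro X Y h1 h2
        have h3 := ilsub _ _ _ _ h1 (ilsmul (-1) _ _ h2)
        have e : X - (-1 : F) • Y = X + Y := by rw [neg_one_smul, sub_neg_eq_add]
        rw [e, smul_zero, sub_zero] at h3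
        exact h3
      zero_mem' := by
        show (B⁻¹ * 0 * B, B'⁻¹ * 0 * B') ∈ JS x y
        rw [Matrix.mul_zero, Matrix.zero_mul, Matrix.mul_zero, Matrix.zero_mul]
        exact Submodule.zero_mem _
      smul_mem' := by
        intro a X h1
        have h2 := ilsmul a _ _ h1
        rwa [smul_zero] at h2 }
  have hconj : ∀ X : Matrix (Fin (2 * m)) (Fin (2 * m)) F, X * SS F (2 * m) + SS F (2 * m) * Xᵀ = 0 →
      (B⁻¹ * X * B) * A + A * (B⁻¹ * X * B)ᵀ = 0 := by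
    intro X hX
    have hA0 : A = c • (B⁻¹ * SS F (2 * m) * Bᵀ⁻¹) := by
      calc A = (B⁻¹ * B) * A * (Bᵀ * Bᵀ⁻¹) := by
            rw [Matrix.nonsing_inv_mul _ hBu, Matrix.mul_nonsing_inv _ hBTu, Matrix.one_mul, Matrix.mul_one]
        _ = B⁻¹ * (B * A * Bᵀ) * Bᵀ⁻¹ := by simp only [Matrix.mul_assoc]
        _ = _ := by rw [h.BA, Matrix.mul_smul, Matrix.smul_mul]
    have e1 : (B⁻¹ * X * B) * A = c • (B⁻¹ * (X * SS F (2 * m)) * Bᵀ⁻¹) := by
      nth_rewrite 1 [hA0]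
      rw [Matrix.mul_smul]
      congr 1
      calc B⁻¹ * X * B * (B⁻¹ * SS F (2 * m) * Bᵀ⁻¹) = B⁻¹ * X * (B * B⁻¹) * SS F (2 * m) * Bᵀ⁻¹ := by
            simp only [Matrix.mul_assoc]
        _ = _ := by
            rw [Matrix.mul_nonsing_inv _ hBu, Matrix.mul_one]
            simp only [Matrix.mul_assoc]
    have e2 : A * (B⁻¹ * X * B)ᵀ = c • (B⁻¹ * (SS F (2 * m) * Xᵀ) * Bᵀ⁻¹) := by
      nth_rewrite 1 [hA0]
      rw [Matrix.smul_mul]
      congr 1
      rw [Matrix.transpose_mul, Matrix.transpose_mul, Matrix.transpose_nonsing_inv]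
      calc B⁻¹ * SS F (2 * m) * Bᵀ⁻¹ * (Bᵀ * (Xᵀ * Bᵀ⁻¹)) = B⁻¹ * SS F (2 * m) * (Bᵀ⁻¹ * Bᵀ) * Xᵀ * Bᵀ⁻¹ := by
            simp only [Matrix.mul_assoc]
        _ = _ := by
            rw [Matrix.nonsing_inv_mul _ hBTu, Matrix.mul_one]
            simp only [Matrix.mul_assoc]
    rw [e1, e2, ← smul_add, ← Matrix.add_mul, ← Matrix.mul_add, hX, Matrix.mul_zero, Matrix.zero_mul, smul_zero]
  have hid : ∀ X : Matrix (Fin (2 * m)) (Fin (2 * m)) F, X * SS F (2 * m) + SS F (2 * m) * Xᵀ = 0 → ∀ Y ∈ L, X * Y - Y * X ∈ L := by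
    intro X hX Y hY
    have h2 := hsp _ (hconj X hX)
    rw [Submodule.mem_span_range_iff_exists_fun] at h2
    obtain ⟨d, hd⟩ := h2
    have h3 : (B⁻¹ * X * B, ∑ a, d a • y a) ∈ JS x y := mem_JS.2 ⟨d, hd, rfl⟩
    have h4 : IL X (B' * (∑ a, d a • y a) * B'⁻¹) := by
      show (B⁻¹ * X * B, B'⁻¹ * (B' * (∑ a, d a • y a) * B'⁻¹) * B') ∈ JS x y
      have e : B'⁻¹ * (B' * (∑ a, d a • y a) * B'⁻¹) * B' = ∑ a, d a • y a := by
        calc B'⁻¹ * (B' * (∑ a, d a • y a) * B'⁻¹) * B' = (B'⁻¹ * B') * (∑ a, d a • y a) * (B'⁻¹ * B') := by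
              simp only [Matrix.mul_assoc]
          _ = _ := by rw [Matrix.nonsing_inv_mul _ hBu', Matrix.one_mul, Matrix.mul_one]
      rw [e]
      exact h3
    have h5 := ilbr _ _ _ _ h4 hY
    rw [Matrix.mul_zero, Matrix.zero_mul, sub_zero] at h5
    exact h5
  have hall := Pool.Agent.Y780.MT.idl F m hm L hid hEE
  -- back
  have hXs : (B * X * B⁻¹) * SS F (2 * m) + SS F (2 * m) * (B * X * B⁻¹)ᵀ = 0 := by
    have h1 : SS F (2 * m) = c⁻¹ • (B * A * Bᵀ) := by rw [h.BA, smul_smul, inv_mul_cancel₀ h.c0, one_smul]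
    have e1 : B * X * B⁻¹ * (B * A * Bᵀ) = B * (X * A) * Bᵀ := by
      have : B * X * B⁻¹ * (B * A * Bᵀ) = B * X * (B⁻¹ * B) * A * Bᵀ := by simp only [Matrix.mul_assoc]
      rw [this, Matrix.nonsing_inv_mul _ hBu, mul_one]
      simp only [Matrix.mul_assoc]
    have e2 : B * A * Bᵀ * (B * X * B⁻¹)ᵀ = B * (A * Xᵀ) * Bᵀ := by
      rw [Matrix.transpose_mul, Matrix.transpose_mul, Matrix.transpose_nonsing_inv]
      have : B * A * Bᵀ * ((Bᵀ)⁻¹ * (Xᵀ * Bᵀ)) = B * A * (Bᵀ * (Bᵀ)⁻¹) * (Xᵀ * Bᵀ) := by simp only [Matrix.mul_assoc]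
      rw [this, Matrix.mul_nonsing_inv _ hBTu, mul_one]
      simp only [Matrix.mul_assoc]
    rw [h1, Matrix.mul_smul, Matrix.smul_mul, ← smul_add, e1, e2, ← add_mul, ← mul_add, hX, mul_zero, zero_mul, smul_zero]
  have h6 := hall _ hXs
  have h7 : (B⁻¹ * (B * X * B⁻¹) * B, B'⁻¹ * 0 * B') ∈ JS x y := h6
  have e : B⁻¹ * (B * X * B⁻¹) * B = X := by
    calc B⁻¹ * (B * X * B⁻¹) * B = (B⁻¹ * B) * X * (B⁻¹ * B) := by simp only [Matrix.mul_assoc]
      _ = _ := by rw [Matrix.nonsing_inv_mul _ hBu, Matrix.one_mul, Matrix.mul_one]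
  rw [e, Matrix.mul_zero, Matrix.zero_mul] at h7
  exact h7

end

end Pool.Agent.Y113.MT
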