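import Pool.Agent.Y113.MT.Tr2
import Pool.Agent.Y113.MT.Pr1

/-!
# The transfer for two fibres
-/

set_option autoImplicit false
set_option maxHeartbeats 1000000

open Matrix Filter

namespace Pool.Agent.Y113.MT

section
variable {n r : ℕ}

lemma gm_JS {Y Y' : ℕ → Matrix (Fin n) (Fin n) ℂ} {Z Z' : ℕ → Fin r → Matrix (Fin n) (Fin n) ℂ}
    (h : ∀ k, (Y k, Y' k) ∈ JS (Z k) (Z' k)) :
    (gm Y, gm Y') ∈ JS (fun a => gm fun k => Z k a) (fun a => gm fun k => Z' k a) := by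
  choose c hc hc' using fun k => mem_JS.1 (h k)
  have e : ∀ (W : ℕ → Matrix (Fin n) (Fin n) ℂ) (V : ℕ → Fin r → Matrix (Fin n) (Fin n) ℂ), (∀ k, ∑ a, c k a • V k a = W k) →
      ∑ a, (rh fun k => c k a) • (gm fun k => V k a) = gm W := by
    intro W V hV
    have h2 : W = fun k => ∑ a, c k a • V k a := funext fun k => (hV k).symm
    rw [h2, gm_sum]
    refine Finset.sum_congr rfl fun a _ => ?_
    rw [gm_smul]
  exact mem_JS.2 ⟨fun a => rh fun k => c k a, e Y Z hc, e Y' Z' hc'⟩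

lemma JS_gm {Y Y' : ℕ → Matrix (Fin n) (Fin n) ℂ} {Z Z' : ℕ → Fin r → Matrix (Fin n) (Fin n) ℂ}
    (h : (gm Y, gm Y') ∈ JS (fun a => gm fun k => Z k a) (fun a => gm fun k => Z' k a)) :
    ∃ k, (Y k, Y' k) ∈ JS (Z k) (Z' k) := by
  obtain ⟨c, h1, h2⟩ := mem_JS.1 h
  choose f hf using fun a => rh_surj (c a)
  have e : ∀ (W : ℕ → Matrix (Fin n) (Fin n) ℂ) (V : ℕ → Fin r → Matrix (Fin n) (Fin n) ℂ),
      ∑ a, c a • (gm fun k => V k a) = gm W → gm (fun k => ∑ a, f a k • V k a) = gm W := by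
    intro W V hV
    rw [gm_sum, ← hV]
    refine Finset.sum_congr rfl fun a _ => ?_
    rw [gm_smul, hf]
  obtain ⟨k, hk, hk'⟩ := ((gm_eq.1 (e Y Z h1)).and (gm_eq.1 (e Y' Z' h2))).exists
  exact ⟨k, mem_JS.2 ⟨fun a => f a k, hk, hk'⟩⟩

/-- a rational retraction -/
lemma retr : ∃ φ : ℂ →ₗ[ℚ] ℚ, ∀ x : ℚ, φ (x : ℂ) = x := by
  obtain ⟨φ, hφ⟩ := LinearMap.exists_leftInverse_of_injective (Algebra.linearMap ℚ ℂ)
    (LinearMap.ker_eq_bot.2 (algebraMap ℚ ℂ).injective)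
  exact ⟨φ, fun x => LinearMap.congr_fun hφ x⟩

lemma JS_cq {x y : Fin r → Matrix (Fin n) (Fin n) ℚ} {X Y : Matrix (Fin n) (Fin n) ℚ}
    (h : (cq X, cq Y) ∈ JS (fun a => cq (x a)) (fun a => cq (y a))) : (X, Y) ∈ JS x y := by
  obtain ⟨c, h1, h2⟩ := mem_JS.1 h
  obtain ⟨φ, hφ⟩ := retr
  have e : ∀ (W : Matrix (Fin n) (Fin n) ℚ) (z : Fin r → Matrix (Fin n) (Fin n) ℚ), ∑ a, c a • cq (z a) = cq W →
      ∑ a, φ (c a) • z a = W := by
    intro W z hz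
    ext i j
    have h3 := congrArg φ (congrFun (congrFun hz i) j)
    rw [cq_apply, hφ, Matrix.sum_apply, map_sum] at h3
    rw [← h3, Matrix.sum_apply]
    refine Finset.sum_congr rfl fun a _ => ?_
    rw [Matrix.smul_apply, Matrix.smul_apply, cq_apply, smul_eq_mul, smul_eq_mul]
    have h4 : c a * ((z a i j : ℚ) : ℂ) = (z a i j : ℚ) • c a := by
      rw [Rat.smul_def, mul_comm]
    rw [h4, map_smul, smul_eq_mul, mul_comm]
  exact mem_JS.2 ⟨fun a => φ (c a), e X x h1, e Y y h2⟩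

lemma cq_JS {x y : Fin r → Matrix (Fin n) (Fin n) ℚ} {X Y : Matrix (Fin n) (Fin n) ℚ}
    (h : (X, Y) ∈ JS x y) : (cq X, cq Y) ∈ JS (fun a => cq (x a)) (fun a => cq (y a)) := by
  obtain ⟨c, h1, h2⟩ := mem_JS.1 h
  have e : ∀ (W : Matrix (Fin n) (Fin n) ℚ) (z : Fin r → Matrix (Fin n) (Fin n) ℚ), ∑ a, c a • z a = W →
      ∑ a, (c a : ℂ) • cq (z a) = cq W := by
    intro W z hz
    rw [← hz]
    ext i j
    rw [cq_apply, Matrix.sum_apply, Matrix.sum_apply]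
    push_cast
    refine Finset.sum_congr rfl fun a _ => ?_
    rw [Matrix.smul_apply, Matrix.smul_apply, cq_apply, smul_eq_mul, smul_eq_mul]
    push_cast
    rfl
  exact mem_JS.2 ⟨fun a => (c a : ℂ), e X x h1, e Y y h2⟩

end

/-- **The theorem for sequences of pairs of fibres.** -/
theorem ultra_pair (l1 : S_LIE1) (l2 : S_LIE2) (l3 : S_LIE3) (lF : S_FIN) {m r : ℕ} (hm : 2 ≤ m)
    {ι : Type} [Fintype ι] [DecidableEq ι] {a : ℕ → ι → ℂ}
    {J Δ D0 : Matrix (Fin (2 * m)) (Fin (2 * m)) ℚ} {q q' : ℕ → ℂ} (hq : ∀ k, q k ≠ 0) (hq' : ∀ k, q' k ≠ 0) (hJ : J.det ≠ 0)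
    (hJt : Jᵀ = -J) (hJN : (NN ℂ (2 * m))ᵀ * cq J = -(cq J * NN ℂ (2 * m)))
    {s s' : ℕ → ℂ} {C C' : ℕ → Matrix (Fin (2 * m)) (Fin (2 * m)) ℂ}
    (hC : ∀ D : Derivation ℤ UF UF, (∀ z ∈ UK, D z = 0) → (∀ i, D (rh fun k => a k i) = 0) → (gm C).map D = 0)
    (hC' : ∀ D : Derivation ℤ UF UF, (∀ z ∈ UK, D z = 0) → (∀ i, D (rh fun k => a k i) = 0) → (gm C').map D = 0)
    {g G B Λ Φ g' G' B' Λ' Φ' : ℕ → Matrix (Fin (2 * m)) (Fin (2 * m)) ℂ}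
    {M A M' A' : ℕ → Matrix (Fin (2 * m)) (Fin (2 * m)) ℚ}
    {x y : ℕ → Fin r → Matrix (Fin (2 * m)) (Fin (2 * m)) ℚ} {κ c κ' c' : ℕ → ℂ}
    {X : ℕ → Matrix (Fin (2 * m)) (Fin (2 * m)) ℚ}
    (h : ∀ k, ID J Δ (q k) k (g k) (G k) (B k) (Λ k) (Φ k) (M k) (A k) (x k) (κ k) (c k))
    (h' : ∀ k, ID J Δ (q' k) k (g' k) (G' k) (B' k) (Λ' k) (Φ' k) (M' k) (A' k) (y k) (κ' k) (c' k))
    (hG : ∀ k, G k = cq D0 * EF (2 * m) (-s k) * C k) (hG' : ∀ k, G' k = cq D0 * EF (2 * m) (-s' k) * C' k)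
    (hgen : ∀ k, ∀ P : MvPolynomial ((ι ⊕ (Fin 2 ⊕ Fin (2 * m) × Fin (2 * m))) ⊕ Fin (2 * m) × Fin (2 * m)) ℚ, P.totalDegree ≤ k →
      MvPolynomial.aeval (Sum.elim (Sum.elim (a k) (Sum.elim ![s k, s' k] fun z : Fin (2 * m) × Fin (2 * m) => g' k z.1 z.2))
        fun z : Fin (2 * m) × Fin (2 * m) => g k z.1 z.2) P = 0 →
      ∀ h : Matrix (Fin (2 * m)) (Fin (2 * m)) ℂ, hᵀ * cq J * h = cq J →
      MvPolynomial.aeval (Sum.elim (Sum.elim (a k) (Sum.elim ![s k, s' k] fun z : Fin (2 * m) × Fin (2 * m) => g' k z.1 z.2))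
        fun z : Fin (2 * m) × Fin (2 * m) => h z.1 z.2) P = 0)
    (hbr : ∀ k a b, (x k a * x k b - x k b * x k a, y k a * y k b - y k b * y k a) ∈ JS (x k) (y k))
    (hP : ∀ k, (Φ k, Φ' k) ∈ JS (fun a => cq (x k a)) (fun a => cq (y k a)))
    (hX : ∀ k, X k * A k + A k * (X k)ᵀ = 0) : ∃ k, (X k, 0) ∈ JS (x k) (y k) := by
  have key := key_of hq hJ hJt hJN h
  have key' := key_of hq' hJ hJt hJN h'
  have hJc' : (cq J)ᵀ = -cq J := by rw [← cq_tr, hJt, cq_neg]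
  have hGE : ∀ {G C : ℕ → Matrix (Fin (2 * m)) (Fin (2 * m)) ℂ} {s : ℕ → ℂ}, (∀ k, G k = cq D0 * EF (2 * m) (-s k) * C k) →
      gm G = (gm fun _ => cq D0) * EF (2 * m) (rh fun k => -s k) * gm C := by
    intro G C s hG
    rw [← gm_EF, ← gm_mul, ← gm_mul]
    congr 1
    funext k
    exact hG k
  have hGD : ∀ {G C : ℕ → Matrix (Fin (2 * m)) (Fin (2 * m)) ℂ} {s : ℕ → ℂ}, (∀ k, G k = cq D0 * EF (2 * m) (-s k) * C k) →
      ∀ D : Derivation ℤ UF UF, (∀ z ∈ UK, D z = 0) → (gm C).map D = 0 → D (rh s) = 0 → (gm G).map D = 0 := by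
    intro G C s hG D hD hCD hs
    have hDD : (gm fun _ => cq D0).map D = 0 := dmap_zero D fun i j => hD _ (gm_cq _ i j)
    have hs' : D (rh fun k => -s k) = 0 := by
      have e : (fun k => -s k) = -s := rfl
      rw [e, map_neg, map_neg, hs, neg_zero]
    rw [hGE hG, dmap_mul, dmap_mul, hCD, hDD, EF_der, hs', Matrix.mul_zero, Matrix.zero_mul, add_zero, zero_add, zero_smul,
      Matrix.mul_zero, Matrix.zero_mul]
  have hDer : ∀ v : Fin (2 * m) → UF, ∃ D : Derivation ℤ UF UF, (∀ z ∈ UK, D z = 0) ∧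
      (gm g).map D = gm g * (vecMulVec v v * gm fun _ => cq J) ∧ (gm G).map D = 0 ∧ (gm g').map D = 0 ∧ (gm G').map D = 0 := by
    intro v
    obtain ⟨D, hD, hDx⟩ := gen_all UK (Sum.elim (fun i => rh fun k => (Sum.elim (a k) (Sum.elim ![s k, s' k]
        fun z : Fin (2 * m) × Fin (2 * m) => g' k z.1 z.2)) i) fun z : Fin (2 * m) × Fin (2 * m) => gm g z.1 z.2)
      (Sum.elim (fun _ => 0) fun z : Fin (2 * m) × Fin (2 * m) => (gm g * (vecMulVec v v * gm fun _ => cq J)) z.1 z.2)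
      (fun P hP => generic2 hJc' (fun k => (h k).gJ) (fun k => Sum.elim (a k) (Sum.elim ![s k, s' k]
        fun z : Fin (2 * m) × Fin (2 * m) => g' k z.1 z.2)) hgen P hP v)
    have hDa : ∀ i, D (rh fun k => a k i) = 0 := fun i => hDx (Sum.inl (Sum.inl i))
    have hDs : D (rh s) = 0 := hDx (Sum.inl (Sum.inr (Sum.inl 0)))
    have hDs' : D (rh s') = 0 := hDx (Sum.inl (Sum.inr (Sum.inl 1)))
    refine ⟨D, hD, ?_, hGD hG D hD (hC D hD hDa) hDs, ?_, hGD hG' D hD (hC' D hD hDa) hDs'⟩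
    · ext i j
      exact hDx (Sum.inr (i, j))
    · refine dmap_zero D fun i j => ?_
      exact hDx (Sum.inl (Sum.inr (Sum.inr (i, j))))
  have h1 := pair_core (by omega) key key' (by
    intro a b
    have h2 := gm_JS (Z := fun k a => cq (x k a)) (Z' := fun k a => cq (y k a)) fun k => cq_JS (hbr k a b)
    simp only [cq_sub, cq_mul] at h2
    rw [gm_sub, gm_sub, gm_mul, gm_mul, gm_mul, gm_mul] at h2
    exact h2) (gm_JS hP) (fun X hX => core2 l1 l2 l3 lF key (by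
      intro v
      obtain ⟨D, hD, hg, hGD0, -⟩ := hDer v
      exact ⟨D, hD, hg, 0, by rw [hGD0, Matrix.zero_mul, zero_smul]⟩) hm hX) hDer
    (X := gm fun k => cq (X k)) (by
    rw [← gm_mul, ← gm_tr, ← gm_mul, ← gm_add, ← gm_zero]
    congr 1
    funext k
    rw [← cq_mul, ← cq_tr, ← cq_mul, ← cq_add, hX, cq_zero])
  have h2 : (gm (fun k => cq (X k)), gm fun _ => cq 0) ∈ JS (fun a => gm fun k => cq (x k a)) (fun a => gm fun k => cq (y k a)) := by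
    have e : (gm fun _ => cq (0 : Matrix (Fin (2 * m)) (Fin (2 * m)) ℚ)) = 0 := by
      rw [← gm_zero]
      congr 1
      funext k
      rw [cq_zero]
    rw [e]
    exact h1
  obtain ⟨k, hk⟩ := JS_gm (Z := fun k a => cq (x k a)) (Z' := fun k a => cq (y k a)) h2
  exact ⟨k, JS_cq hk⟩

end Pool.Agent.Y113.MT
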