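import Pool.Agent.Y113.MT.Win2
import Pool.Agent.Y113.MT.Pr2
import Pool.Agent.Y113.MT.PStm

/-!
# The assembly for pairs of fibres in windows
-/

set_option autoImplicit false
set_option maxHeartbeats 1000000

open Matrix PowerSeries Pool.Agent.Y119.HY Pool.Agent.Y119.HZ Pool.Agent.Y118.CM

namespace Pool.Agent.Y113.MT

section
variable {m : ℕ} {β : Fin m → ℚ}

/-- **The data at one point.** -/
theorem index3 (hm : 1 ≤ m) (hQ : QD (2 * m) (QB β)) {k t : ℕ} (ht : 2 ≤ t)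
    (hgen : ∀ P : MvPolynomial (Fin (2 * m) × Fin (2 * m)) ℚ, P.totalDegree ≤ k →
      MvPolynomial.aeval (fun x : Fin (2 * m) × Fin (2 * m) => Hf (Hc (2 * m) (QB β)) (((1 / (t : ℝ) : ℝ)) : ℂ) x.1 x.2) P = 0 →
      ∀ g : Matrix (Fin (2 * m)) (Fin (2 * m)) ℂ, g.transpose * cm (Jm (2 * m) (QB β)) * g = cm (Jm (2 * m) (QB β)) →
      MvPolynomial.aeval (fun x : Fin (2 * m) × Fin (2 * m) => g x.1 x.2) P = 0)
    {C : Matrix (Fin (2 * m)) (Fin (2 * m)) ℂ} {M A : Matrix (Fin (2 * m)) (Fin (2 * m)) ℚ} {q κ : ℂ} (hC : C.det ≠ 0)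
    (hM : C * cq M = q • (NN ℂ (2 * m) * C)) (hκ : κ ≠ 0) (hA : C * cq A * Cᵀ = κ • SS ℂ (2 * m))
    {Fil H : ℕ → Submodule ℂ (Fin (2 * m) → ℂ)} (hFil : ∀ p, m ≤ p → Fil p = Fl β t C p) (hH : Polarised Fil A H) :
    ∃ (B Λ Φ : Matrix (Fin (2 * m)) (Fin (2 * m)) ℂ) (κ' c : ℂ), (∀ p < 2 * m, ∀ v ∈ H p, v ᵥ* Φ = (p : ℂ) • v) ∧
      ∀ (r : ℕ) (x : Fin r → Matrix (Fin (2 * m)) (Fin (2 * m)) ℚ),
      (∀ a b, x a * x b - x b * x a ∈ Submodule.span ℚ (Set.range x)) →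
      Φ ∈ Submodule.span ℂ (Set.range fun a => cq (x a)) →
      ID (Jm (2 * m) (QB β)) (DN β) q k (Hf (Hc (2 * m) (QB β)) (((1 / (t : ℝ) : ℝ)) : ℂ)) (Cc β t C) B Λ Φ M A x κ' c := by
  set J := cm (Jm (2 * m) (QB β)) with hJ
  set g := Hf (Hc (2 * m) (QB β)) (((1 / (t : ℝ) : ℝ)) : ℂ) with hg
  set G := Cc β t C with hG
  set S := cm (J0 (2 * m)) with hS
  have hJd : J.det ≠ 0 := Jc_det hQ
  have hJu : IsUnit J.det := isUnit_iff_ne_zero.2 hJd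
  have hCu : IsUnit C.det := isUnit_iff_ne_zero.2 hC
  have hCTu : IsUnit Cᵀ.det := by rwa [Matrix.det_transpose]
  have hGd : G.det ≠ 0 := Cc_det hQ t hC
  have hGu : IsUnit G.det := isUnit_iff_ne_zero.2 hGd
  have hSS : S * S = -1 := by
    rw [hS, ← cm_mul, J0_sq ⟨m, by ring⟩, cm_neg, cm_one]
  have hgJ : gᵀ * J * g = J := Hf_form hQ ht
  have hA' : C * cq A * Cᵀ = κ • S := by rw [hA, SS_eq]
  -- `A` in terms of `C`
  have hCSC : (Cᵀ * S * C) * cq A = -κ • (1 : Matrix (Fin (2 * m)) (Fin (2 * m)) ℂ) := by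
    have e1 : (Cᵀ * S * C) * cq A * Cᵀ = -κ • Cᵀ := by
      calc (Cᵀ * S * C) * cq A * Cᵀ = Cᵀ * S * (C * cq A * Cᵀ) := by simp only [Matrix.mul_assoc]
        _ = κ • (Cᵀ * (S * S)) := by rw [hA', Matrix.mul_smul, Matrix.mul_assoc]
        _ = -κ • Cᵀ := by rw [hSS, Matrix.mul_neg, Matrix.mul_one, smul_neg, neg_smul]
    calc (Cᵀ * S * C) * cq A = (Cᵀ * S * C) * cq A * (Cᵀ * Cᵀ⁻¹) := by rw [Matrix.mul_nonsing_inv _ hCTu, Matrix.mul_one]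
      _ = (-κ • Cᵀ) * Cᵀ⁻¹ := by rw [← e1]; simp only [Matrix.mul_assoc]
      _ = _ := by rw [Matrix.smul_mul, Matrix.mul_nonsing_inv _ hCTu]
  have hpol : Gᵀ * J * G = ((-1 : ℂ) ^ m * 1) • (Cᵀ * S * C) := Cc_pol hQ t (by rw [one_smul])
  rw [mul_one] at hpol
  have hGA : G * cq A * Gᵀ = (-κ * (-1) ^ m) • J⁻¹ := by
    have e1 : (Gᵀ * J * G) * cq A = (-κ * (-1) ^ m) • (1 : Matrix (Fin (2 * m)) (Fin (2 * m)) ℂ) := by
      rw [hpol, Matrix.smul_mul, hCSC, smul_smul]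
      congr 1
      ring
    have e2 : J * G * cq A * Gᵀ = (-κ * (-1) ^ m) • (1 : Matrix (Fin (2 * m)) (Fin (2 * m)) ℂ) := by
      have hGTu : IsUnit Gᵀ.det := by rwa [Matrix.det_transpose]
      calc J * G * cq A * Gᵀ = Gᵀ⁻¹ * Gᵀ * (J * G * cq A * Gᵀ) := by rw [Matrix.nonsing_inv_mul _ hGTu, Matrix.one_mul]
        _ = Gᵀ⁻¹ * ((Gᵀ * J * G) * cq A) * Gᵀ := by simp only [Matrix.mul_assoc]
        _ = (-κ * (-1) ^ m) • (Gᵀ⁻¹ * Gᵀ) := by rw [e1, Matrix.mul_smul, Matrix.smul_mul, Matrix.mul_one]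
        _ = _ := by rw [Matrix.nonsing_inv_mul _ hGTu]
    calc G * cq A * Gᵀ = J⁻¹ * J * (G * cq A * Gᵀ) := by rw [Matrix.nonsing_inv_mul _ hJu, Matrix.one_mul]
      _ = J⁻¹ * (J * G * cq A * Gᵀ) := by simp only [Matrix.mul_assoc]
      _ = _ := by rw [e2, Matrix.mul_smul, Matrix.mul_one]
  have hk' : (-κ * (-1) ^ m) ≠ 0 := mul_ne_zero (neg_ne_zero.2 hκ) (pow_ne_zero _ (by norm_num))
  have hAt : Aᵀ = -A := by
    apply cq_inj
    rw [cq_neg, cq_tr]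
    have hSt : Sᵀ = -S := by
      rw [hS, ← SS_eq]
      exact SS_tr m
    have h1 : C * (cq A)ᵀ * Cᵀ = C * (-cq A) * Cᵀ := by
      have h2 := congrArg Matrix.transpose hA'
      rw [Matrix.transpose_mul, Matrix.transpose_mul, Matrix.transpose_transpose, Matrix.transpose_smul, hSt, smul_neg,
        ← hA'] at h2
      rw [Matrix.mul_neg, Matrix.neg_mul, ← h2, Matrix.mul_assoc]
    have h2 := congrArg (fun Z => C⁻¹ * Z * Cᵀ⁻¹) h1
    have h3 : ∀ Z : Matrix (Fin (2 * m)) (Fin (2 * m)) ℂ, C⁻¹ * (C * Z * Cᵀ) * Cᵀ⁻¹ = Z := by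
      intro Z
      calc C⁻¹ * (C * Z * Cᵀ) * Cᵀ⁻¹ = (C⁻¹ * C) * Z * (Cᵀ * Cᵀ⁻¹) := by simp only [Matrix.mul_assoc]
        _ = Z := by rw [Matrix.nonsing_inv_mul _ hCu, Matrix.mul_nonsing_inv _ hCTu, Matrix.one_mul, Matrix.mul_one]
    simp only [h3] at h2
    exact h2
  -- the matrix `P`
  set P := cq (DN β) * (g * G) with hP
  have hgJi : g * J⁻¹ * gᵀ = J⁻¹ := by
    have h1 : (J⁻¹ * gᵀ * J) * g = 1 := by
      rw [Matrix.mul_assoc, Matrix.mul_assoc, ← Matrix.mul_assoc gᵀ, hgJ, Matrix.nonsing_inv_mul _ hJu]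
    have h2 : g * (J⁻¹ * gᵀ * J) = 1 := mul_eq_one_comm.1 h1
    calc g * J⁻¹ * gᵀ = (g * (J⁻¹ * gᵀ * J)) * J⁻¹ := by
          simp only [Matrix.mul_assoc]
          rw [Matrix.mul_nonsing_inv _ hJu, Matrix.mul_one]
      _ = _ := by rw [h2, Matrix.one_mul]
  have hPA : P * cq A * Pᵀ = (κ • (1 : ℂ)) • S := by
    calc P * cq A * Pᵀ = cq (DN β) * (g * (G * cq A * Gᵀ) * gᵀ) * (cq (DN β))ᵀ := by
          rw [hP, Matrix.transpose_mul, Matrix.transpose_mul]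
          simp only [Matrix.mul_assoc]
      _ = (-κ * (-1) ^ m) • (cq (DN β) * J⁻¹ * (cq (DN β))ᵀ) := by
          rw [hGA, Matrix.mul_smul, Matrix.smul_mul, hgJi, Matrix.mul_smul, Matrix.smul_mul]
      _ = _ := by
          have h1 := DN_J hQ
          rw [cm_cq] at h1
          rw [h1, smul_smul]
          congr 1
          have e3 : ((-1 : ℂ)) ^ m * (-1) ^ m = 1 := by
            rw [← mul_pow]
            norm_num
          rw [smul_eq_mul]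
          linear_combination κ * e3
  have hPd : P.det ≠ 0 := by
    intro h0
    have h1 := congrArg Matrix.det hPA
    rw [Matrix.det_mul, Matrix.det_mul, h0, zero_mul, zero_mul, Matrix.det_smul] at h1
    have h2 : S.det ≠ 0 := by
      intro h3
      have h4 := congrArg Matrix.det hSS
      rw [Matrix.det_mul, h3, zero_mul] at h4
      have h5 : (-1 : Matrix (Fin (2 * m)) (Fin (2 * m)) ℂ).det ≠ 0 := by
        rw [Matrix.det_neg, Matrix.det_one, mul_one]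
        exact pow_ne_zero _ (by norm_num)
      exact h5 h4.symm
    refine mul_ne_zero (pow_ne_zero _ ?_) h2 h1.symm
    simpa using hκ
  have hProw : ∀ a : Fin (2 * m), (a : ℕ) < m → P a = perr β t a ᵥ* C := by
    intro a ha
    rw [perr_C hQ (by omega) ht C, ← hg, ← hG, ← DN_row β a, vecMul_vecMul]
    rfl
  obtain ⟨B, Λ, c, hc, hBA, hBs, hBH, hBL, hLl⟩ := Pool.Agent.Y31.MT.idx m hm Fil H A P hH hAt hPd (by
    intro a b hab
    rw [hPA, Matrix.smul_apply, hS, cm_apply]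
    unfold J0
    rw [Matrix.of_apply, if_neg (by omega)]
    simp) (by
    intro i hi
    rw [hFil _ (by omega)]
    unfold Fl
    congr 1
    ext v
    constructor
    · rintro ⟨l, hl, rfl⟩
      refine ⟨⟨l, by omega⟩, by show l < i; omega, ?_⟩
      exact (hProw ⟨l, by omega⟩ (by show l < m; omega)).symm
    · rintro ⟨a, ha, rfl⟩
      refine ⟨a, by omega, ?_⟩
      exact hProw a (by omega))
  have hBd : B.det ≠ 0 := by
    intro h0
    have h1 := congrArg Matrix.det hBA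
    rw [Matrix.det_mul, Matrix.det_mul, h0, zero_mul, zero_mul, Matrix.det_smul] at h1
    exact mul_ne_zero (pow_ne_zero _ hc) (SS_det m) h1.symm
  have hBu : IsUnit B.det := isUnit_iff_ne_zero.2 hBd
  set Dg : Matrix (Fin (2 * m)) (Fin (2 * m)) ℂ := Matrix.diagonal (fun i : Fin (2 * m) => ((2 * m - 1 - (i : ℕ) : ℕ) : ℂ)) with hDg
  have hBP : B * (B⁻¹ * Dg * B) = Dg * B := by
    rw [← Matrix.mul_assoc, ← Matrix.mul_assoc, Matrix.mul_nonsing_inv _ hBu, Matrix.one_mul]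
  have hGM : G * cq M = q • (NN ℂ (2 * m) * G) := by
    have h1 := Cc_mon hQ t (C := C) (M := cq M) (s := q) (by rw [hM, NN_eq])
    rw [← NN_eq] at h1
    exact h1
  refine ⟨B, Λ, B⁻¹ * Dg * B, _, c, ?_, fun r x hbr hPm =>
    ⟨hgJ, hgen, hk', hc, hGM, hGA, hBL, hLl, hBA, hBs, hBP, hbr, hPm⟩⟩
  intro p hp v hv
  set w := v ᵥ* B⁻¹ with hw
  have hvw : v = w ᵥ* B := by
    rw [hw, vecMul_vecMul, Matrix.nonsing_inv_mul _ hBu, vecMul_one]
  have hw0 : ∀ i : Fin (2 * m), (i : ℕ) ≠ 2 * m - 1 - p → w i = 0 := by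
    intro i hi
    have h1 : v ⬝ᵥ (cq A *ᵥ B (Fin.rev i)) = 0 := by
      have hrev : ((Fin.rev i : Fin (2 * m)) : ℕ) = 2 * m - (i + 1) := Fin.val_rev i
      have hi2 := i.2
      refine hH.orth p hp (2 * m - 1 - (Fin.rev i : Fin (2 * m))) (by omega) (by omega) v hv _ (hBH _)
    have h2 : v ⬝ᵥ (cq A *ᵥ B (Fin.rev i)) = (w ᵥ* (B * cq A * Bᵀ)) (Fin.rev i) := by
      rw [← vecMul_vecMul, ← vecMul_vecMul, ← hvw, Matrix.dotProduct_mulVec]
      rfl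
    rw [h2, hBA] at h1
    have h3 : (w ᵥ* (c • SS ℂ (2 * m))) (Fin.rev i) = c * (w i * (-1) ^ (i : ℕ)) := by
      rw [Matrix.vecMul_smul, Pi.smul_apply, smul_eq_mul]
      congr 1
      show ∑ j, w j * SS ℂ (2 * m) j (Fin.rev i) = _
      rw [Finset.sum_eq_single i]
      · unfold SS
        rw [Matrix.of_apply, if_pos (by rw [Fin.val_rev]; have := i.2; omega)]
      · intro j _ hj
        unfold SS
        rw [Matrix.of_apply, if_neg, mul_zero]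
        intro h4
        apply hj
        rw [Fin.val_rev] at h4
        have := i.2
        have := j.2
        exact Fin.ext (by omega)
      · intro h4
        exact absurd (Finset.mem_univ _) h4
    rw [h3] at h1
    have h5 := (mul_eq_zero.1 h1).resolve_left hc
    exact (mul_eq_zero.1 h5).resolve_right (pow_ne_zero _ (by norm_num))
  have h6 : v ᵥ* (B⁻¹ * Dg * B) = (w ᵥ* Dg) ᵥ* B := by
    rw [← vecMul_vecMul, ← vecMul_vecMul]
  rw [h6]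
  have h7 : w ᵥ* Dg = (p : ℂ) • w := by
    funext i
    rw [hDg, Matrix.vecMul_diagonal, Pi.smul_apply, smul_eq_mul]
    by_cases hi : (i : ℕ) = 2 * m - 1 - p
    · rw [hi, show 2 * m - 1 - (2 * m - 1 - p) = p by omega, mul_comm]
    · rw [hw0 i hi, zero_mul, mul_zero]
  rw [h7, Matrix.smul_vecMul, ← hvw]



/-- spanning families of a fixed length for pairs -/
lemma exists_family2 {n : ℕ} (V : Submodule ℚ (Matrix (Fin n) (Fin n) ℚ × Matrix (Fin n) (Fin n) ℚ)) :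
    ∃ x y : Fin (n * n + n * n) → Matrix (Fin n) (Fin n) ℚ, JS x y = V := by
  have hle : Module.finrank ℚ V ≤ n * n + n * n := by
    refine (Submodule.finrank_le V).trans (le_of_eq ?_)
    rw [Module.finrank_prod, Module.finrank_matrix, Module.finrank_self, Fintype.card_fin, mul_one]
  set b := Module.finBasis ℚ V with hb
  refine ⟨fun i => if h : (i : ℕ) < Module.finrank ℚ V then (b ⟨i, h⟩ : Matrix (Fin n) (Fin n) ℚ × Matrix (Fin n) (Fin n) ℚ).1 else 0,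
    fun i => if h : (i : ℕ) < Module.finrank ℚ V then (b ⟨i, h⟩ : Matrix (Fin n) (Fin n) ℚ × Matrix (Fin n) (Fin n) ℚ).2 else 0, ?_⟩
  apply le_antisymm
  · unfold JS
    rw [Submodule.span_le]
    rintro _ ⟨i, rfl⟩
    by_cases h : (i : ℕ) < Module.finrank ℚ V
    · simp only [dif_pos h]
      exact (b ⟨i, h⟩).2
    · simp only [dif_neg h]
      exact V.zero_mem
  · intro v hv
    have h1 : (⟨v, hv⟩ : V) ∈ Submodule.span ℚ (Set.range b) := by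
      rw [b.span_eq]
      exact Submodule.mem_top
    have h2 : v ∈ (Submodule.span ℚ (Set.range b)).map V.subtype := ⟨_, h1, rfl⟩
    rw [Submodule.map_span] at h2
    refine Submodule.span_mono ?_ h2
    rintro _ ⟨_, ⟨i, rfl⟩, rfl⟩
    refine ⟨⟨i, lt_of_lt_of_le i.2 hle⟩, ?_⟩
    have h3 : ((⟨(i : ℕ), lt_of_lt_of_le i.2 hle⟩ : Fin (n * n + n * n)) : ℕ) < Module.finrank ℚ V := i.2
    simp only [dif_pos h3]
    rfl

/-- the conclusion for the pair of the points `1 / t`, `1 / t'` -/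
def Conc2 (β : Fin m → ℚ) (t t' : ℕ) (C : Matrix (Fin (2 * m)) (Fin (2 * m)) ℂ) (A A' : Matrix (Fin (2 * m)) (Fin (2 * m)) ℚ) : Prop :=
  ∀ Fil H Fil' H' : ℕ → Submodule ℂ (Fin (2 * m) → ℂ), (∀ p, m ≤ p → Fil p = Fl β t C p) → Polarised Fil A H →
    (∀ p, m ≤ p → Fil' p = Fl β t' C p) → Polarised Fil' A' H' →
    ∀ V : Submodule ℚ (Matrix (Fin (2 * m)) (Fin (2 * m)) ℚ × Matrix (Fin (2 * m)) (Fin (2 * m)) ℚ),
    (∀ X ∈ V, ∀ Y ∈ V, (X.1 * Y.1 - Y.1 * X.1, X.2 * Y.2 - Y.2 * X.2) ∈ V) →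
    (∀ Φ Φ' : Matrix (Fin (2 * m)) (Fin (2 * m)) ℂ, (∀ p < 2 * m, ∀ v ∈ H p, v ᵥ* Φ = (p : ℂ) • v) →
      (∀ p < 2 * m, ∀ v ∈ H' p, v ᵥ* Φ' = (p : ℂ) • v) →
      (Φ, Φ') ∈ Submodule.span ℂ ((fun X : Matrix (Fin (2 * m)) (Fin (2 * m)) ℚ × Matrix (Fin (2 * m)) (Fin (2 * m)) ℚ =>
        (cq X.1, cq X.2)) '' (V : Set _))) →
    ∀ X : Matrix (Fin (2 * m)) (Fin (2 * m)) ℚ, X * A + A * Xᵀ = 0 → (X, 0) ∈ V

/-- all relations of degree at most `d` between the constants, the logarithms and the values at two points hold identically -/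
def Trf (m : ℕ) (β : Fin m → ℚ) (d : ℕ) (w : Fin (m + 1) → ℂ) (t t' : ℕ) : Prop :=
  ∀ P : MvPolynomial ((Fin 0 ⊕ Fin (m + 1)) ⊕ Fin 2 × Option (Fin (2 * m) × Fin (2 * m))) ℚ, P.totalDegree ≤ d →
    MvPolynomial.aeval (Sum.elim (Sum.elim Fin.elim0 w) fun a : Fin 2 × Option (Fin (2 * m) × Fin (2 * m)) =>
      a.2.elim (![((Real.log (t : ℝ) : ℝ) : ℂ), ((Real.log (t' : ℝ) : ℝ) : ℂ)] a.1)
        fun z => ![Hf (Hc (2 * m) (QB β)) (((1 / (t : ℝ) : ℝ)) : ℂ), Hf (Hc (2 * m) (QB β)) (((1 / (t' : ℝ) : ℝ)) : ℂ)] a.1 z.1 z.2) P = 0 →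
    ∀ h h' : Matrix (Fin (2 * m)) (Fin (2 * m)) ℂ, hᵀ * cm (Jm (2 * m) (QB β)) * h = cm (Jm (2 * m) (QB β)) →
    h'ᵀ * cm (Jm (2 * m) (QB β)) * h' = cm (Jm (2 * m) (QB β)) →
    MvPolynomial.aeval (Sum.elim (Sum.elim Fin.elim0 w) fun a : Fin 2 × Option (Fin (2 * m) × Fin (2 * m)) =>
      a.2.elim (![((Real.log (t : ℝ) : ℝ) : ℂ), ((Real.log (t' : ℝ) : ℝ) : ℂ)] a.1) fun z => ![h, h'] a.1 z.1 z.2) P = 0

lemma Trf.gen {k : ℕ} {w : Fin (m + 1) → ℂ} {t t' : ℕ} (tr : Trf m β k w t t') (hQ : QD (2 * m) (QB β)) (ht' : 2 ≤ t') :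
    ∀ P : MvPolynomial (((Fin 0 ⊕ Fin (m + 1)) ⊕ (Fin 2 ⊕ Fin (2 * m) × Fin (2 * m))) ⊕ Fin (2 * m) × Fin (2 * m)) ℚ,
        P.totalDegree ≤ k →
        MvPolynomial.aeval (Sum.elim (Sum.elim (Sum.elim Fin.elim0 w) (Sum.elim
          ![((Real.log (t : ℝ) : ℝ) : ℂ), ((Real.log (t' : ℝ) : ℝ) : ℂ)]
          fun z : Fin (2 * m) × Fin (2 * m) => Hf (Hc (2 * m) (QB β)) (((1 / (t' : ℝ) : ℝ)) : ℂ) z.1 z.2))
          fun z : Fin (2 * m) × Fin (2 * m) => Hf (Hc (2 * m) (QB β)) (((1 / (t : ℝ) : ℝ)) : ℂ) z.1 z.2) P = 0 →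
        ∀ h : Matrix (Fin (2 * m)) (Fin (2 * m)) ℂ, hᵀ * cq (Jm (2 * m) (QB β)) * h = cq (Jm (2 * m) (QB β)) →
        MvPolynomial.aeval (Sum.elim (Sum.elim (Sum.elim Fin.elim0 w) (Sum.elim
          ![((Real.log (t : ℝ) : ℝ) : ℂ), ((Real.log (t' : ℝ) : ℝ) : ℂ)]
          fun z : Fin (2 * m) × Fin (2 * m) => Hf (Hc (2 * m) (QB β)) (((1 / (t' : ℝ) : ℝ)) : ℂ) z.1 z.2))
          fun z : Fin (2 * m) × Fin (2 * m) => h z.1 z.2) P = 0 := by
  intro P hP h0 h hh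
  set s : ℂ := ((Real.log (t : ℝ) : ℝ) : ℂ) with hs
  set s' : ℂ := ((Real.log (t' : ℝ) : ℝ) : ℂ) with hs'
  set g' := Hf (Hc (2 * m) (QB β)) (((1 / (t' : ℝ) : ℝ)) : ℂ) with hg'
  have hgJ' : g'ᵀ * cm (Jm (2 * m) (QB β)) * g' = cm (Jm (2 * m) (QB β)) := Hf_form hQ ht'
  let ρ : (((Fin 0 ⊕ Fin (m + 1)) ⊕ (Fin 2 ⊕ Fin (2 * m) × Fin (2 * m))) ⊕ Fin (2 * m) × Fin (2 * m)) →
      (Fin 0 ⊕ Fin (m + 1)) ⊕ Fin 2 × Option (Fin (2 * m) × Fin (2 * m)) :=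
    Sum.elim (Sum.elim Sum.inl (Sum.elim (fun j => Sum.inr (j, none)) fun z => Sum.inr (1, some z)))
      fun z => Sum.inr (0, some z)
  have hρ : ∀ h : Matrix (Fin (2 * m)) (Fin (2 * m)) ℂ, (Sum.elim (Sum.elim Fin.elim0 w)
      fun a : Fin 2 × Option (Fin (2 * m) × Fin (2 * m)) => a.2.elim (![s, s'] a.1) fun z => ![h, g'] a.1 z.1 z.2) ∘ ρ =
      Sum.elim (Sum.elim (Sum.elim Fin.elim0 w) (Sum.elim ![s, s']
      fun z : Fin (2 * m) × Fin (2 * m) => g' z.1 z.2)) fun z : Fin (2 * m) × Fin (2 * m) => h z.1 z.2 := by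
    intro h
    funext a
    rcases a with (a | a | a) | a <;> rfl
  have h2 := tr (MvPolynomial.rename ρ P) ((MvPolynomial.totalDegree_rename_le _ _).trans hP) (by
    rw [MvPolynomial.aeval_rename, hρ]
    exact h0) h g' hh hgJ'
  rw [MvPolynomial.aeval_rename, hρ] at h2
  exact h2

/-- the relations at the first point, with constants -/
lemma Trf.one {k : ℕ} {w : Fin (m + 1) → ℂ} {t t' : ℕ} (tr : Trf m β k w t t') (hQ : QD (2 * m) (QB β)) (ht' : 2 ≤ t') :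
    ∀ P : MvPolynomial ((Fin 0 ⊕ Fin (m + 1)) ⊕ Fin (2 * m) × Fin (2 * m)) ℚ, P.totalDegree ≤ k →
        MvPolynomial.aeval (Sum.elim (Sum.elim Fin.elim0 w)
          fun z : Fin (2 * m) × Fin (2 * m) => Hf (Hc (2 * m) (QB β)) (((1 / (t : ℝ) : ℝ)) : ℂ) z.1 z.2) P = 0 →
        ∀ h : Matrix (Fin (2 * m)) (Fin (2 * m)) ℂ, hᵀ * cq (Jm (2 * m) (QB β)) * h = cq (Jm (2 * m) (QB β)) →
        MvPolynomial.aeval (Sum.elim (Sum.elim Fin.elim0 w) fun z : Fin (2 * m) × Fin (2 * m) => h z.1 z.2) P = 0 := by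
  intro P hP h0 h hh
  have hgJ' := Hf_form hQ ht'
  let ρ : ((Fin 0 ⊕ Fin (m + 1)) ⊕ Fin (2 * m) × Fin (2 * m)) →
      (Fin 0 ⊕ Fin (m + 1)) ⊕ Fin 2 × Option (Fin (2 * m) × Fin (2 * m)) := Sum.map id fun z => (0, some z)
  have h2 := tr (MvPolynomial.rename ρ P) ((MvPolynomial.totalDegree_rename_le _ _).trans hP) (by
    rw [MvPolynomial.aeval_rename, ← h0]
    refine congrArg (fun f => MvPolynomial.aeval f P) (funext fun a => ?_)
    rcases a with a | a <;> rfl) h _ hh hgJ'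
  rw [MvPolynomial.aeval_rename] at h2
  rw [← h2]
  refine congrArg (fun f => MvPolynomial.aeval f P) (funext fun a => ?_)
  rcases a with a | a <;> rfl

/-- the relations at the first point -/
lemma Trf.fst {k : ℕ} {w : Fin (m + 1) → ℂ} {t t' : ℕ} (tr : Trf m β k w t t') (hQ : QD (2 * m) (QB β)) (ht' : 2 ≤ t') :
    ∀ P : MvPolynomial (Fin (2 * m) × Fin (2 * m)) ℚ, P.totalDegree ≤ k →
        MvPolynomial.aeval (fun z : Fin (2 * m) × Fin (2 * m) => Hf (Hc (2 * m) (QB β)) (((1 / (t : ℝ) : ℝ)) : ℂ) z.1 z.2) P = 0 →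
        ∀ h : Matrix (Fin (2 * m)) (Fin (2 * m)) ℂ, h.transpose * cm (Jm (2 * m) (QB β)) * h = cm (Jm (2 * m) (QB β)) →
        MvPolynomial.aeval (fun z : Fin (2 * m) × Fin (2 * m) => h z.1 z.2) P = 0 := by
  intro P hP h0 h hh
  have h2 := tr (MvPolynomial.rename (fun z => Sum.inr (0, some z)) P) ((MvPolynomial.totalDegree_rename_le _ _).trans hP) (by
    rw [MvPolynomial.aeval_rename]
    exact h0) h _ hh (Hf_form hQ ht')
  rw [MvPolynomial.aeval_rename] at h2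
  exact h2

/-- the relations at the second point -/
lemma Trf.snd {k : ℕ} {w : Fin (m + 1) → ℂ} {t t' : ℕ} (tr : Trf m β k w t t') (hQ : QD (2 * m) (QB β)) (ht : 2 ≤ t) :
    ∀ P : MvPolynomial (Fin (2 * m) × Fin (2 * m)) ℚ, P.totalDegree ≤ k →
        MvPolynomial.aeval (fun z : Fin (2 * m) × Fin (2 * m) => Hf (Hc (2 * m) (QB β)) (((1 / (t' : ℝ) : ℝ)) : ℂ) z.1 z.2) P = 0 →
        ∀ h : Matrix (Fin (2 * m)) (Fin (2 * m)) ℂ, h.transpose * cm (Jm (2 * m) (QB β)) * h = cm (Jm (2 * m) (QB β)) →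
        MvPolynomial.aeval (fun z : Fin (2 * m) × Fin (2 * m) => h z.1 z.2) P = 0 := by
  intro P hP h0 h hh
  have h2 := tr (MvPolynomial.rename (fun z => Sum.inr (1, some z)) P) ((MvPolynomial.totalDegree_rename_le _ _).trans hP) (by
    rw [MvPolynomial.aeval_rename]
    exact h0) _ h (Hf_form hQ ht) hh
  rw [MvPolynomial.aeval_rename] at h2
  exact h2

lemma hQ_of (hm : 2 ≤ m) (hβ : ∀ j, ∀ a : ℤ, β j ≠ a) : QD (2 * m) (QB β) ∧ ∀ i j, Pool.Agent.Y113.SDc (Hp (2 * m) (QB β) i j) := by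
  have hβ' : ∀ j, ∀ l : ℕ, (l : ℚ) + β j ≠ 0 ∧ (l : ℚ) + -β j ≠ 0 := by
    intro j l
    constructor
    · intro h
      apply hβ j (-(l : ℤ))
      push_cast
      linear_combination h
    · intro h
      apply hβ j (l : ℤ)
      push_cast
      linear_combination -h
  have hQ : QD (2 * m) (QB β) := QD_QB (by omega) hβ'
  exact ⟨hQ, fun i j => sdc_hps hβ' hQ i j⟩

lemma hJr_of : (NN ℂ (2 * m))ᵀ * cq (Jm (2 * m) (QB β)) = -(cq (Jm (2 * m) (QB β)) * NN ℂ (2 * m)) := by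
  have h2 : (cm (Am (2 * m))).transpose * cm (Jm (2 * m) (QB β)) + cm (Jm (2 * m) (QB β)) * cm (Am (2 * m)) = 0 :=
    Pool.Agent.Y119.HY.Jc_rel
  rw [← NN_eq] at h2
  exact eq_neg_of_add_eq_zero_left h2

lemma hCcE (t : ℕ) (C : Matrix (Fin (2 * m)) (Fin (2 * m)) ℂ) : Cc β t C =
    cq (DN β)⁻¹ * EF (2 * m) (-((Real.log (t : ℝ) : ℝ) : ℂ)) * C := by
  show cm (DN β)⁻¹ * E (cm (Am (2 * m))) (-((Real.log t : ℝ) : ℂ)) * C = _
  rw [cm_cq]
  congr 2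
  unfold E EF
  rw [NN_eq]

/-- **One fibre, compactness form.** -/
theorem comp_one (td : S_TD) (hm : 2 ≤ m) (hβ : ∀ j, ∀ a : ℤ, β j ≠ a) : ∃ d : ℕ, ∀ (t t' : ℕ) (w : Fin (m + 1) → ℂ), 2 ≤ t →
    2 ≤ t' → Trf m β d w t t' → ∀ (C : Matrix (Fin (2 * m)) (Fin (2 * m)) ℂ) (M A : Matrix (Fin (2 * m)) (Fin (2 * m)) ℚ) (q κ : ℂ),
    Nrm m (Sum.elim Fin.elim0 w) q C → C.det ≠ 0 → q ≠ 0 → C * cq M = q • (NN ℂ (2 * m) * C) → κ ≠ 0 →
    C * cq A * Cᵀ = κ • SS ℂ (2 * m) → Conc β t C A := by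
  obtain ⟨hQ, -⟩ := hQ_of hm hβ
  by_contra hcon
  unfold Conc at hcon
  push Not at hcon
  choose t t' w ht ht' htr C M A q κ hN hC hq hM hκ hA Fil Hh hFil hHh V hV hΦ X hX hXV using hcon
  choose x hx using fun k => exists_family (V k)
  have hxa : ∀ k a, x k a ∈ V k := fun k a => by
    rw [← hx]
    exact Submodule.subset_span ⟨a, rfl⟩
  choose B Λ Φ κ₁ c₁ hΦe hID using fun k => index3 (by omega) hQ (ht k) ((htr k).fst hQ (ht' k)) (hC k) (hM k) (hκ k) (hA k)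
    (hFil k) (hHh k)
  have hP : ∀ k, Φ k ∈ Submodule.span ℂ (Set.range fun a => cq (x k a)) := by
    intro k
    refine (Submodule.span_le.2 ?_) (hΦ k (Φ k) (hΦe k))
    rintro _ ⟨Y, hY, rfl⟩
    refine cq_span ?_
    rw [hx]
    exact hY
  obtain ⟨k, hk⟩ := ultra2 Pool.Agent.Y412.MT.lie1 Pool.Agent.Y961.MT.lie2 Pool.Agent.Y195.MT.lie3 Pool.Agent.Y155.MT.fin hm
    (a := fun k => Sum.elim Fin.elim0 (w k)) (D0 := (DN β)⁻¹) hq (Jm_det hQ) (Jm_skew hQ) hJr_of (by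
      rw [NN_eq]
      exact (DN_comm hQ : Commute (cm (DN β)⁻¹) (cm (Am (2 * m)))))
    (s := fun k => -((Real.log (t k : ℝ) : ℝ) : ℂ)) (C := C) (fun D hD hDa => nrm_kill td hN hκ hA D hD hDa)
    (fun k => hID k _ (x k) (fun a b => by
      rw [hx]
      exact hV k _ (hxa k a) _ (hxa k b)) (hP k)) (fun k => hCcE _ _) (fun k => (htr k).one hQ (ht' k)) hX
  apply hXV k
  rwa [hx] at hk

/-- **Two fibres, compactness form.** -/
theorem comp_two (td : S_TD) (hm : 2 ≤ m) (hβ : ∀ j, ∀ a : ℤ, β j ≠ a) : ∃ d : ℕ, ∀ (t t' : ℕ) (w : Fin (m + 1) → ℂ), 2 ≤ t →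
    2 ≤ t' → Trf m β d w t t' → ∀ (C : Matrix (Fin (2 * m)) (Fin (2 * m)) ℂ) (M A A' : Matrix (Fin (2 * m)) (Fin (2 * m)) ℚ)
    (q κ κ' : ℂ), Nrm m (Sum.elim Fin.elim0 w) q C → C.det ≠ 0 → q ≠ 0 → C * cq M = q • (NN ℂ (2 * m) * C) → κ ≠ 0 →
    C * cq A * Cᵀ = κ • SS ℂ (2 * m) → κ' ≠ 0 → C * cq A' * Cᵀ = κ' • SS ℂ (2 * m) → Conc2 β t t' C A A' := by
  obtain ⟨hQ, -⟩ := hQ_of hm hβ
  by_contra hcon
  unfold Conc2 at hcon
  push Not at hcon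
  choose t t' w ht ht' htr C M A A' q κ κ₂ hN hC hq hM hκ hA hκ₂ hA' Fil Hh Fil' Hh' hFil hHh hFil' hHh' V hV hΦ X hX hXV using hcon
  choose x y hxy using fun k => exists_family2 (V k)
  have hmem : ∀ k a, (x k a, y k a) ∈ V k := fun k a => by
    rw [← hxy]
    exact Submodule.subset_span ⟨a, rfl⟩
  choose B Λ Φ κ₁ c₁ hΦe hID using fun k => index3 (by omega) hQ (ht k) ((htr k).fst hQ (ht' k)) (hC k) (hM k) (hκ k) (hA k)
    (hFil k) (hHh k)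
  choose B' Λ' Φ' κ₁' c₁' hΦe' hID' using fun k => index3 (by omega) hQ (ht' k) ((htr k).snd hQ (ht k)) (hC k) (hM k) (hκ₂ k)
    (hA' k) (hFil' k) (hHh' k)
  have hbr : ∀ k a b, (x k a * x k b - x k b * x k a, y k a * y k b - y k b * y k a) ∈ JS (x k) (y k) := by
    intro k a b
    rw [hxy]
    exact hV k _ (hmem k a) _ (hmem k b)
  have hPJ : ∀ k, (Φ k, Φ' k) ∈ JS (fun a => cq (x k a)) (fun a => cq (y k a)) := by
    intro k
    refine (Submodule.span_le.2 ?_) (hΦ k (Φ k) (Φ' k) (hΦe k) (hΦe' k))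
    rintro _ ⟨Y, hY, rfl⟩
    have hY' : (Y.1, Y.2) ∈ JS (x k) (y k) := by
      rw [hxy]
      exact hY
    exact cq_JS hY'
  have hkill := fun D hD hDa => nrm_kill td hN hκ hA D hD hDa
  obtain ⟨k, hk⟩ := ultra_pair Pool.Agent.Y412.MT.lie1 Pool.Agent.Y961.MT.lie2 Pool.Agent.Y195.MT.lie3 Pool.Agent.Y155.MT.fin hm
    (a := fun k => Sum.elim Fin.elim0 (w k)) (D0 := (DN β)⁻¹) hq hq (Jm_det hQ) (Jm_skew hQ) hJr_of
    (s := fun k => ((Real.log (t k : ℝ) : ℝ) : ℂ)) (s' := fun k => ((Real.log (t' k : ℝ) : ℝ) : ℂ)) (C := C) (C' := C)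
    hkill hkill (fun k => hID k _ (x k) (fun a b => js_fst (hbr k a b)) (js_fst (hPJ k)))
    (fun k => hID' k _ (y k) (fun a b => js_snd (hbr k a b)) (js_snd (hPJ k))) (fun k => hCcE _ _) (fun k => hCcE _ _)
    (fun k => (htr k).gen hQ (ht' k)) hbr hPJ hX
  apply hXV k
  rwa [hxy] at hk

lemma Trf.mono {d d' : ℕ} (h : d ≤ d') {w : Fin (m + 1) → ℂ} {t t' : ℕ} (tr : Trf m β d' w t t') : Trf m β d w t t' :=
  fun P hP => tr P (hP.trans h)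

/-- **The windows theorem for pairs.** -/
theorem pair_unif (kw : S_KW) (nf : S_NF) (td : S_TD) (hm : 2 ≤ m) (hβ : ∀ j, ∀ a : ℤ, β j ≠ a) : ∃ G0 : ℕ, ∀ G : ℕ, G0 ≤ G →
    ∃ E : ℕ, ∀ H t : ℕ, (H + 2) ^ E ≤ t → (∀ u ≤ H, G * u + 2 ≤ t) ∧
      ∀ (C : Matrix (Fin (2 * m)) (Fin (2 * m)) ℂ) (M : Matrix (Fin (2 * m)) (Fin (2 * m)) ℚ) (q : ℂ), C.det ≠ 0 → q ≠ 0 →
      C * cq M = q • (NN ℂ (2 * m) * C) → ∃ S : Finset ℕ, S.card ≤ m + 2 ∧
      ∀ u : ℕ, 1 ≤ u → u ≤ H → u ∉ S → (∀ (A : Matrix (Fin (2 * m)) (Fin (2 * m)) ℚ) (κ : ℂ), κ ≠ 0 →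
        C * cq A * Cᵀ = κ • SS ℂ (2 * m) → Conc β (t - G * u) C A) ∧ ∀ u' : ℕ, 1 ≤ u' → u' ≤ H → u' ∉ S → u ≠ u' →
        ∀ (A A' : Matrix (Fin (2 * m)) (Fin (2 * m)) ℚ) (κ κ' : ℂ), κ ≠ 0 → C * cq A * Cᵀ = κ • SS ℂ (2 * m) →
        κ' ≠ 0 → C * cq A' * Cᵀ = κ' • SS ℂ (2 * m) → Conc2 β (t - G * u) (t - G * u') C A A' := by
  obtain ⟨hQ, hH⟩ := hQ_of hm hβ
  obtain ⟨d1, hd1⟩ := comp_one (β := β) td hm hβ
  obtain ⟨d2, hd2⟩ := comp_two (β := β) td hm hβ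
  obtain ⟨G0, hG0⟩ := kw (2 * m) (QB β) hQ hH
  refine ⟨G0, fun G hG => ?_⟩
  obtain ⟨E, hE⟩ := hG0 G hG 0 Fin.elim0 (m + 1) 2 (max d1 d2)
  refine ⟨2 * E, fun H t ht => ?_⟩
  have ht1 : (H + 1 + 2) ^ E ≤ t := by
    refine le_trans ?_ ht
    rw [pow_mul]
    exact Nat.pow_le_pow_left (by nlinarith) _
  obtain ⟨hlt, hw⟩ := hE (H + 1) t ht1
  refine ⟨fun u hu => hlt u (by omega), fun C0 M q hC0 hq hM0 => ?_⟩
  obtain ⟨l, w, hl, hN⟩ := nrm_exists nf (by omega) hC0 hq hM0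
  obtain ⟨S, hS, hS2⟩ := hw w
  have hS' : S.card ≤ m + 2 := by
    have h3 : IntermediateField.adjoin ℚ (Set.range (Fin.elim0 : Fin 0 → ℂ)) = ⊥ := by
      rw [IntermediateField.adjoin_eq_bot_iff]
      rintro _ ⟨i, -⟩
      exact i.elim0
    have h4 : @Algebra.trdeg ℚ (⊥ : IntermediateField ℚ ℂ) _ _ (IntermediateField.algebra' _) = 0 := trdeg_eq_zero
    have key : ∀ K : IntermediateField ℚ ℂ, K = ⊥ → ∀ inst : Algebra ℚ K, @Algebra.trdeg ℚ K _ _ inst = 0 := by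
      rintro K rfl inst
      have e : inst = IntermediateField.algebra' _ := Subsingleton.elim _ _
      rw [e]
      exact h4
    rw [key _ h3, zero_add] at hS
    exact_mod_cast hS
  have tr : ∀ u u' : ℕ, 1 ≤ u → u ≤ H + 1 → u ∉ S → 1 ≤ u' → u' ≤ H + 1 → u' ∉ S → u ≠ u' →
      Trf m β (max d1 d2) w (t - G * u) (t - G * u') := by
    intro u u' hu1 hu2 huS hu1' hu2' huS' huu P hP h0 h h' hh hh'
    refine hS2 ![u, u'] ?_ ?_ P hP ?_ ![h, h'] ?_ ![_, _]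
    · intro i j hij
      fin_cases i <;> fin_cases j
      · rfl
      · exact absurd hij huu
      · exact absurd hij.symm huu
      · rfl
    · intro j
      fin_cases j
      · exact ⟨hu1, hu2, huS⟩
      · exact ⟨hu1', hu2', huS'⟩
    · rw [← h0]
      refine congrArg (fun f => MvPolynomial.aeval f P) (funext fun a => ?_)
      rcases a with a | ⟨j, _ | z⟩
      · rfl
      · fin_cases j <;> rfl
      · fin_cases j <;> rfl
    · intro j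
      fin_cases j
      · exact hh
      · exact hh'
  set C : Matrix (Fin (2 * m)) (Fin (2 * m)) ℂ := l • C0 with hCdef
  have hC : C.det ≠ 0 := by
    rw [hCdef, Matrix.det_smul]
    exact mul_ne_zero (pow_ne_zero _ hl) hC0
  have hM : C * cq M = q • (NN ℂ (2 * m) * C) := by
    rw [hCdef, Matrix.smul_mul, hM0, Matrix.mul_smul, smul_comm]
  have hAl : ∀ {A : Matrix (Fin (2 * m)) (Fin (2 * m)) ℚ} {κ : ℂ}, C0 * cq A * C0ᵀ = κ • SS ℂ (2 * m) →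
      C * cq A * Cᵀ = (l * l * κ) • SS ℂ (2 * m) := by
    intro A κ hA0
    rw [hCdef, Matrix.transpose_smul, Matrix.smul_mul, Matrix.smul_mul, Matrix.mul_smul, hA0, smul_smul, smul_smul]
  have hll : ∀ {κ : ℂ}, κ ≠ 0 → l * l * κ ≠ 0 := fun hκ => mul_ne_zero (mul_ne_zero hl hl) hκ
  have h2t : ∀ u ≤ H + 1, 2 ≤ t - G * u := fun u hu => by
    have := hlt u hu
    omega
  by_cases hHm : H ≤ m + 2
  · refine ⟨Finset.Icc 1 H, by rw [Nat.card_Icc]; omega, fun u hu1 hu2 huS => ?_⟩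
    exact absurd (Finset.mem_Icc.2 ⟨hu1, hu2⟩) huS
  · refine ⟨S, hS', fun u hu1 hu2 huS => ⟨fun A κ hκ hA => ?_, fun u' hu1' hu2' huS' huu A A' κ κ' hκ hA hκ' hA' => ?_⟩⟩
    · -- another point of the window
      obtain ⟨u', hu'⟩ : ∃ u' ∈ Finset.Icc 1 (H + 1), u' ∉ insert u S := by
        refine Finset.exists_mem_notMem_of_card_lt_card ?_
        rw [Nat.card_Icc]
        have := Finset.card_insert_le u S
        omega
      rw [Finset.mem_Icc, Finset.mem_insert, not_or] at hu'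
      refine Conc_smul hl (hd1 _ _ w (h2t u (by omega)) (h2t u' hu'.1.2)
        (Trf.mono (le_max_left _ _) (tr u u' hu1 (by omega) huS hu'.1.1 hu'.1.2 hu'.2.2 fun h => hu'.2.1 h.symm)) C M A q (l * l * κ)
        hN hC hq hM (hll hκ) (hAl hA))
    · have h5 := hd2 _ _ w (h2t u (by omega)) (h2t u' (by omega))
        (Trf.mono (le_max_right _ _) (tr u u' hu1 (by omega) huS hu1' (by omega) huS' huu)) C M A A' q (l * l * κ) (l * l * κ')
        hN hC hq hM (hll hκ) (hAl hA) (hll hκ') (hAl hA')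
      intro Fil Hh Fil' Hh' hFil hHh hFil'
      exact h5 Fil Hh Fil' Hh' (fun p hp => by rw [hFil p hp, hCdef, Fl_smul hl]) hHh
        (fun p hp => by rw [hFil' p hp, hCdef, Fl_smul hl])

end

end Pool.Agent.Y113.MT
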