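import Pool.Agent.Y113.MT.Pr3
import Pool.Agent.Y113.MT.HAsm2

/-!
# The theorem for tuples of fibres
-/

set_option autoImplicit false
set_option maxHeartbeats 1000000

open Matrix PowerSeries Pool.Agent.Y119.HY Pool.Agent.Y119.HZ Pool.Agent.Y118.CM

namespace Pool.Agent.Y113.MT

section
variable {m : ℕ} {β : Fin m → ℚ}

/-- **The windows theorem for tuples.** -/
theorem tup_lie (kw : S_KW) (nf : S_NF) (td : S_TD) (rb : S_RB) (wf : S_WF) (hm : 2 ≤ m) (hβ : ∀ j, ∀ a : ℤ, β j ≠ a) :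
    ∃ G0 : ℕ, ∀ G : ℕ, G0 ≤ G → ∃ E : ℕ, ∀ H t : ℕ, (H + 2) ^ E ≤ t → (∀ u ≤ H, G * u + 2 ≤ t) ∧
      ∀ (C : Matrix (Fin (2 * m)) (Fin (2 * m)) ℂ) (M : Matrix (Fin (2 * m)) (Fin (2 * m)) ℚ) (q : ℂ), C.det ≠ 0 → q ≠ 0 →
      C * cq M = q • (NN ℂ (2 * m) * C) → ∃ S : Finset ℕ, S.card ≤ m + 2 ∧
      ∀ (k : ℕ) (u : Fin k → ℕ), Function.Injective u → (∀ i, 1 ≤ u i ∧ u i ≤ H ∧ u i ∉ S) →
      ∀ (A : Fin k → Matrix (Fin (2 * m)) (Fin (2 * m)) ℚ) (κ : Fin k → ℂ), (∀ i, κ i ≠ 0) →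
      (∀ i, C * cq (A i) * Cᵀ = κ i • SS ℂ (2 * m)) → ∀ Fil Hh : Fin k → ℕ → Submodule ℂ (Fin (2 * m) → ℂ),
      (∀ i p, m ≤ p → Fil i p = Fl β (t - G * u i) C p) → (∀ i, Polarised (Fil i) (A i) (Hh i)) →
      (∀ i, (A i)ᵀ = -A i ∧ (A i).det ≠ 0) ∧
      ∀ (N : ℕ) (U : ℤ → Submodule ℂ (Fin N → ℂ)), DirectSum.IsInternal U → (∀ p : ℤ, U p ≠ ⊥ → U (p - (2 * (m : ℤ) - 1)) = ⊥) →
      ∀ (Φ : Fin k → Matrix (Fin (2 * m)) (Fin (2 * m)) ℂ) (ΦW : Matrix (Fin N) (Fin N) ℂ),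
      (∀ i, ∀ p < 2 * m, ∀ v ∈ Hh i p, v ᵥ* Φ i = (p : ℂ) • v) → (∀ p, ∀ z ∈ U p, z ᵥ* ΦW = (p : ℂ) • z) →
      ∀ 𝔪 : Submodule ℚ ((Fin k → Matrix (Fin (2 * m)) (Fin (2 * m)) ℚ) × Matrix (Fin N) (Fin N) ℚ),
      (∀ X ∈ 𝔪, ∀ Y ∈ 𝔪, ((fun i => X.1 i * Y.1 i - Y.1 i * X.1 i), X.2 * Y.2 - Y.2 * X.2) ∈ 𝔪) →
      (Φ, ΦW) ∈ Submodule.span ℂ ((fun X : (Fin k → Matrix (Fin (2 * m)) (Fin (2 * m)) ℚ) × Matrix (Fin N) (Fin N) ℚ =>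
        (fun i => cq (X.1 i), cq X.2)) '' (𝔪 : Set _)) →
      ∀ X : Fin k → Matrix (Fin (2 * m)) (Fin (2 * m)) ℚ, (∀ i, X i * A i + A i * (X i)ᵀ = 0) → (X, 0) ∈ 𝔪 := by
  obtain ⟨hQ, -⟩ := hQ_of hm hβ
  obtain ⟨G0, hG0⟩ := pair_unif kw nf td hm hβ
  refine ⟨G0, fun G hG => ?_⟩
  obtain ⟨E, hE⟩ := hG0 G hG
  refine ⟨E, fun H t ht => ?_⟩
  obtain ⟨hlt, h2⟩ := hE H t ht
  refine ⟨hlt, fun C M q hC hq hM => ?_⟩
  obtain ⟨S, hS, hS2⟩ := h2 C M q hC hq hM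
  refine ⟨S, hS, fun k u hu huS A κ hκ hA Fil Hh hFil hHh => ?_⟩
  have h2t : ∀ i, 2 ≤ t - G * u i := fun i => by
    have := hlt (u i) (huS i).2.1
    omega
  choose hAt B c hc hBd hBA hBH hHB using fun i => adapted (by omega) hQ (h2t i) hC (hκ i) (hA i) (hFil i) (hHh i)
  have hAd : ∀ i, (A i).det ≠ 0 := by
    intro i h0
    have h1 : (cq (A i)).det = 0 := by rw [cq_det, h0, Rat.cast_zero]
    have h2 := congrArg Matrix.det (hBA i)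
    rw [Matrix.det_mul, Matrix.det_mul, h1, mul_zero, zero_mul, Matrix.det_smul] at h2
    exact mul_ne_zero (pow_ne_zero _ (hc i)) (SS_det m) h2.symm
  refine ⟨fun i => ⟨hAt i, hAd i⟩, fun N U hU hW Φ ΦW hΦ hΦW 𝔪 hbr hmem => ?_⟩
  have hBΦ : ∀ i (Φ' : Matrix (Fin (2 * m)) (Fin (2 * m)) ℂ), (∀ p < 2 * m, ∀ v ∈ Hh i p, v ᵥ* Φ' = (p : ℂ) • v) →
      B i * Φ' = Matrix.diagonal (fun i : Fin (2 * m) => ((2 * m - 1 - (i : ℕ) : ℕ) : ℂ)) * B i := by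
    intro i Φ' h
    ext a b
    have h1 := congrFun (h (2 * m - 1 - a) (by have := a.2; omega) (B i a) (hBH i a)) b
    rw [Matrix.diagonal_mul]
    exact h1
  have huniq : ∀ i (Φ' : Matrix (Fin (2 * m)) (Fin (2 * m)) ℂ), (∀ p < 2 * m, ∀ v ∈ Hh i p, v ᵥ* Φ' = (p : ℂ) • v) → Φ' = Φ i := by
    intro i Φ' h
    have h1 : B i * Φ' = B i * Φ i := by rw [hBΦ i Φ' h, hBΦ i (Φ i) (hΦ i)]
    have hu : IsUnit (B i).det := isUnit_iff_ne_zero.2 (hBd i)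
    calc Φ' = (B i)⁻¹ * (B i * Φ') := by rw [← Matrix.mul_assoc, Matrix.nonsing_inv_mul _ hu, Matrix.one_mul]
      _ = (B i)⁻¹ * (B i * Φ i) := by rw [h1]
      _ = Φ i := by rw [← Matrix.mul_assoc, Matrix.nonsing_inv_mul _ hu, Matrix.one_mul]
  -- one fibre
  have hone : ∀ i, ∀ X : Matrix (Fin (2 * m)) (Fin (2 * m)) ℚ, X * A i + A i * Xᵀ = 0 → ∃ Y ∈ 𝔪, Y.1 i = X := by
    intro i X hX
    let π : (Fin k → Matrix (Fin (2 * m)) (Fin (2 * m)) ℚ) × Matrix (Fin N) (Fin N) ℚ →ₗ[ℚ] Matrix (Fin (2 * m)) (Fin (2 * m)) ℚ :=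
      { toFun := fun Y => Y.1 i
        map_add' := fun _ _ => rfl
        map_smul' := fun _ _ => rfl }
    let πC : (Fin k → Matrix (Fin (2 * m)) (Fin (2 * m)) ℂ) × Matrix (Fin N) (Fin N) ℂ →ₗ[ℂ] Matrix (Fin (2 * m)) (Fin (2 * m)) ℂ :=
      { toFun := fun Y => Y.1 i
        map_add' := fun _ _ => rfl
        map_smul' := fun _ _ => rfl }
    have h1 := (hS2 (u i) (huS i).1 (huS i).2.1 (huS i).2.2).1 (A i) (κ i) (hκ i) (hA i) (Fil i) (Hh i) (hFil i) (hHh i) (𝔪.map π)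
      (by
        rintro _ ⟨Y, hY, rfl⟩ _ ⟨Y', hY', rfl⟩
        exact ⟨_, hbr Y hY Y' hY', rfl⟩) (by
        intro Φ' hΦ'
        rw [huniq i Φ' hΦ']
        have h2 := Submodule.mem_map_of_mem (f := πC) hmem
        rw [Submodule.map_span] at h2
        refine Submodule.span_mono ?_ h2
        rintro _ ⟨_, ⟨Y, hY, rfl⟩, rfl⟩
        exact ⟨Y.1 i, ⟨Y, hY, rfl⟩, rfl⟩) X hX
    obtain ⟨Y, hY, hYX⟩ := h1
    exact ⟨Y, hY, hYX⟩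
  refine rb (Fin k) (2 * m) N A hAt hAd 𝔪 hbr ?_ ?_
  · intro i j hij X hX
    let π : (Fin k → Matrix (Fin (2 * m)) (Fin (2 * m)) ℚ) × Matrix (Fin N) (Fin N) ℚ →ₗ[ℚ]
        Matrix (Fin (2 * m)) (Fin (2 * m)) ℚ × Matrix (Fin (2 * m)) (Fin (2 * m)) ℚ :=
      { toFun := fun Y => (Y.1 i, Y.1 j)
        map_add' := fun _ _ => rfl
        map_smul' := fun _ _ => rfl }
    let πC : (Fin k → Matrix (Fin (2 * m)) (Fin (2 * m)) ℂ) × Matrix (Fin N) (Fin N) ℂ →ₗ[ℂ]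
        Matrix (Fin (2 * m)) (Fin (2 * m)) ℂ × Matrix (Fin (2 * m)) (Fin (2 * m)) ℂ :=
      { toFun := fun Y => (Y.1 i, Y.1 j)
        map_add' := fun _ _ => rfl
        map_smul' := fun _ _ => rfl }
    have h1 := (hS2 (u i) (huS i).1 (huS i).2.1 (huS i).2.2).2 (u j) (huS j).1 (huS j).2.1 (huS j).2.2 (fun h => hij (hu h))
      (A i) (A j) (κ i) (κ j) (hκ i) (hA i) (hκ j) (hA j) (Fil i) (Hh i) (Fil j) (Hh j) (hFil i) (hHh i) (hFil j) (hHh j) (𝔪.map π)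
      (by
        rintro _ ⟨Y, hY, rfl⟩ _ ⟨Y', hY', rfl⟩
        exact ⟨_, hbr Y hY Y' hY', rfl⟩) (by
        intro Φ' Φ'' hΦ' hΦ''
        rw [huniq i Φ' hΦ', huniq j Φ'' hΦ'']
        have h2 := Submodule.mem_map_of_mem (f := πC) hmem
        rw [Submodule.map_span] at h2
        refine Submodule.span_mono ?_ h2
        rintro _ ⟨_, ⟨Y, hY, rfl⟩, rfl⟩
        exact ⟨(Y.1 i, Y.1 j), ⟨Y, hY, rfl⟩, rfl⟩) X hX
    obtain ⟨Y, hY, hYX⟩ := h1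
    exact ⟨Y, hY, congrArg Prod.fst hYX, congrArg Prod.snd hYX⟩
  · intro i X hX
    let π : (Fin k → Matrix (Fin (2 * m)) (Fin (2 * m)) ℚ) × Matrix (Fin N) (Fin N) ℚ →ₗ[ℚ]
        Matrix (Fin (2 * m)) (Fin (2 * m)) ℚ × Matrix (Fin N) (Fin N) ℚ :=
      { toFun := fun Y => (Y.1 i, Y.2)
        map_add' := fun _ _ => rfl
        map_smul' := fun _ _ => rfl }
    let πC : (Fin k → Matrix (Fin (2 * m)) (Fin (2 * m)) ℂ) × Matrix (Fin N) (Fin N) ℂ →ₗ[ℂ]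
        Matrix (Fin (2 * m)) (Fin (2 * m)) ℂ × Matrix (Fin N) (Fin N) ℂ :=
      { toFun := fun Y => (Y.1 i, Y.2)
        map_add' := fun _ _ => rfl
        map_smul' := fun _ _ => rfl }
    have h1 := wf m N (by omega) (A i) (B i) (c i) U (hc i) (hBA i) hU hW (𝔪.map π)
      (by
        rintro _ ⟨Y, hY, rfl⟩ _ ⟨Y', hY', rfl⟩
        exact ⟨_, hbr Y hY Y' hY', rfl⟩) (by
        intro X hX
        obtain ⟨Y, hY, hYX⟩ := hone i X hX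
        exact ⟨Y.2, Y, hY, by
          show (Y.1 i, Y.2) = (X, Y.2)
          rw [hYX]⟩) (Φ i) ΦW (hBΦ i (Φ i) (hΦ i)) hΦW (by
        have h2 := Submodule.mem_map_of_mem (f := πC) hmem
        rw [Submodule.map_span] at h2
        refine Submodule.span_mono ?_ h2
        rintro _ ⟨_, ⟨Y, hY, rfl⟩, rfl⟩
        exact ⟨(Y.1 i, Y.2), ⟨Y, hY, rfl⟩, rfl⟩) X hX
    obtain ⟨Y, hY, hYX⟩ := h1
    exact ⟨Y, hY, congrArg Prod.fst hYX, congrArg Prod.snd hYX⟩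

end

end Pool.Agent.Y113.MT
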