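import Pool.Agent.Y113.MT.Core3
import Mathlib.Order.Filter.FilterProduct
import Mathlib.Algebra.MvPolynomial.Monad

/-!
# The ultraproduct of the complex numbers
-/

set_option autoImplicit false
set_option maxHeartbeats 1000000

open Matrix Filter

namespace Pool.Agent.Y113.MT

/-- the ultrapower of `ℂ` -/
abbrev UF : Type := Germ ((hyperfilter ℕ : Ultrafilter ℕ) : Filter ℕ) ℂ

/-- the class of a sequence -/
noncomputable def rh : (ℕ → ℂ) →+* UF := Germ.coeRingHom ((hyperfilter ℕ : Ultrafilter ℕ) : Filter ℕ)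

lemma rh_eq {f g : ℕ → ℂ} : rh f = rh g ↔ ∀ᶠ k in ((hyperfilter ℕ : Ultrafilter ℕ) : Filter ℕ), f k = g k := Germ.coe_eq

lemma rh_zero {f : ℕ → ℂ} : rh f = 0 ↔ ∀ᶠ k in ((hyperfilter ℕ : Ultrafilter ℕ) : Filter ℕ), f k = 0 := by
  rw [← map_zero rh, rh_eq]
  rfl

lemma rh_surj : Function.Surjective rh := fun x => Germ.inductionOn x fun f => ⟨f, rfl⟩

lemma rh_ne {f : ℕ → ℂ} (h : ∀ k, f k ≠ 0) : rh f ≠ 0 := by
  intro h0
  obtain ⟨k, hk⟩ := (rh_zero.1 h0).exists
  exact h k hk

instance : CharZero UF := by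
  constructor
  intro a b h
  have h1 : rh (fun _ => (a : ℂ)) = rh fun _ => (b : ℂ) := by
    have e : ∀ c : ℕ, rh (fun _ => (c : ℂ)) = (c : UF) := by
      intro c
      rw [← map_natCast rh c]
      rfl
    rw [e, e, h]
  obtain ⟨k, hk⟩ := (rh_eq.1 h1).exists
  exact_mod_cast hk

/-- complex conjugation -/
noncomputable def sg : UF →+* UF where
  toFun := Germ.map (starRingEnd ℂ)
  map_one' := by
    show Germ.map (starRingEnd ℂ) (rh 1) = rh 1
    refine rh_eq.2 (Eventually.of_forall fun k => ?_)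
    show starRingEnd ℂ ((1 : ℕ → ℂ) k) = _
    simp
  map_mul' := by
    intro x y
    obtain ⟨f, rfl⟩ := rh_surj x
    obtain ⟨g, rfl⟩ := rh_surj y
    refine rh_eq.2 (Eventually.of_forall fun k => ?_)
    show starRingEnd ℂ (f k * g k) = starRingEnd ℂ (f k) * starRingEnd ℂ (g k)
    rw [map_mul]
  map_zero' := by
    show Germ.map (starRingEnd ℂ) (rh 0) = rh 0
    refine rh_eq.2 (Eventually.of_forall fun k => ?_)
    show starRingEnd ℂ ((0 : ℕ → ℂ) k) = _
    simp
  map_add' := by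
    intro x y
    obtain ⟨f, rfl⟩ := rh_surj x
    obtain ⟨g, rfl⟩ := rh_surj y
    refine rh_eq.2 (Eventually.of_forall fun k => ?_)
    show starRingEnd ℂ (f k + g k) = starRingEnd ℂ (f k) + starRingEnd ℂ (g k)
    rw [map_add]

lemma sg_rh (f : ℕ → ℂ) : sg (rh f) = rh fun k => starRingEnd ℂ (f k) := rfl

lemma sg_sg (x : UF) : sg (sg x) = x := by
  obtain ⟨f, rfl⟩ := rh_surj x
  rw [sg_rh, sg_rh]
  simp

/-- the ultrapower of `ℚ` -/
noncomputable def UK : Subfield UF where
  carrier := {x | ∃ f : ℕ → ℚ, x = rh fun k => ((f k : ℚ) : ℂ)}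
  mul_mem' := by
    rintro _ _ ⟨f, rfl⟩ ⟨g, rfl⟩
    refine ⟨fun k => f k * g k, ?_⟩
    rw [← map_mul]
    congr 1
    funext k
    show ((f k : ℚ) : ℂ) * ((g k : ℚ) : ℂ) = _
    push_cast
    ring
  one_mem' := ⟨fun _ => 1, by
    rw [← map_one rh]
    congr 1
    funext k
    simp⟩
  add_mem' := by
    rintro _ _ ⟨f, rfl⟩ ⟨g, rfl⟩
    refine ⟨fun k => f k + g k, ?_⟩
    rw [← map_add]
    congr 1
    funext k
    show ((f k : ℚ) : ℂ) + ((g k : ℚ) : ℂ) = _
    push_cast
    ring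
  zero_mem' := ⟨fun _ => 0, by
    rw [← map_zero rh]
    congr 1
    funext k
    simp⟩
  neg_mem' := by
    rintro _ ⟨f, rfl⟩
    refine ⟨fun k => -f k, ?_⟩
    rw [← map_neg]
    congr 1
    funext k
    show -((f k : ℚ) : ℂ) = _
    push_cast
    ring
  inv_mem' := by
    rintro _ ⟨f, rfl⟩
    refine ⟨fun k => (f k)⁻¹, ?_⟩
    show Germ.map _ _ = _
    refine rh_eq.2 (Eventually.of_forall fun k => ?_)
    show (((f k : ℚ) : ℂ))⁻¹ = (((f k)⁻¹ : ℚ) : ℂ)
    push_cast
    rfl

lemma mem_UK (f : ℕ → ℚ) : (rh fun k => ((f k : ℚ) : ℂ)) ∈ UK := ⟨f, rfl⟩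

lemma sg_UK (x : UF) (hx : x ∈ UK) : sg x = x := by
  obtain ⟨f, rfl⟩ := hx
  rw [sg_rh]
  congr 1
  funext k
  simp

lemma sg_def : Definite sg := by
  intro ι _ x h
  choose f hf using fun i => rh_surj (x i)
  have h1 : rh (fun k => ∑ i, f i k * starRingEnd ℂ (f i k)) = 0 := by
    rw [← h]
    have e : (fun k => ∑ i, f i k * starRingEnd ℂ (f i k)) = ∑ i, (f i) * (fun k => starRingEnd ℂ (f i k)) := by
      funext k
      rw [Finset.sum_apply]
      rfl
    rw [e, map_sum]
    refine Finset.sum_congr rfl fun i _ => ?_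
    rw [map_mul, ← sg_rh, hf]
  rw [rh_zero] at h1
  intro i
  rw [← hf i, rh_zero]
  filter_upwards [h1] with k hk
  have h2 : ∑ i, (Complex.normSq (f i k)) = 0 := by
    have : ((∑ i, (Complex.normSq (f i k)) : ℝ) : ℂ) = 0 := by
      rw [← hk]
      push_cast
      refine Finset.sum_congr rfl fun i _ => ?_
      rw [Complex.mul_conj]
    exact_mod_cast this
  have h3 := (Finset.sum_eq_zero_iff_of_nonneg (fun i _ => Complex.normSq_nonneg (f i k))).1 h2 i (Finset.mem_univ i)
  exact Complex.normSq_eq_zero.1 h3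

section
variable {n : ℕ}

/-- the class of a sequence of matrices -/
noncomputable def gm (X : ℕ → Matrix (Fin n) (Fin n) ℂ) : Matrix (Fin n) (Fin n) UF := Matrix.of fun i j => rh fun k => X k i j

lemma gm_apply (X : ℕ → Matrix (Fin n) (Fin n) ℂ) (i j : Fin n) : gm X i j = rh fun k => X k i j := rfl

lemma gm_surj (X : Matrix (Fin n) (Fin n) UF) : ∃ Y : ℕ → Matrix (Fin n) (Fin n) ℂ, X = gm Y := by
  choose f hf using fun i : Fin n => fun j : Fin n => rh_surj (X i j)
  refine ⟨fun k => Matrix.of fun i j => f i j k, ?_⟩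
  ext i j
  rw [gm_apply, ← hf]
  rfl

lemma gm_mul (X Y : ℕ → Matrix (Fin n) (Fin n) ℂ) : gm (fun k => X k * Y k) = gm X * gm Y := by
  ext i j
  rw [Matrix.mul_apply, gm_apply]
  simp only [gm_apply, ← map_mul, ← map_sum]
  congr 1
  funext k
  rw [Matrix.mul_apply, Finset.sum_apply]
  rfl

lemma gm_add (X Y : ℕ → Matrix (Fin n) (Fin n) ℂ) : gm (fun k => X k + Y k) = gm X + gm Y := by
  ext i j
  rw [Matrix.add_apply, gm_apply, gm_apply, gm_apply, ← map_add]
  rfl

lemma gm_sub (X Y : ℕ → Matrix (Fin n) (Fin n) ℂ) : gm (fun k => X k - Y k) = gm X - gm Y := by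
  ext i j
  rw [Matrix.sub_apply, gm_apply, gm_apply, gm_apply, ← map_sub]
  rfl

lemma gm_smul (c : ℕ → ℂ) (X : ℕ → Matrix (Fin n) (Fin n) ℂ) : gm (fun k => c k • X k) = rh c • gm X := by
  ext i j
  rw [Matrix.smul_apply, gm_apply, gm_apply, smul_eq_mul, ← map_mul]
  rfl

lemma gm_tr (X : ℕ → Matrix (Fin n) (Fin n) ℂ) : gm (fun k => (X k)ᵀ) = (gm X)ᵀ := rfl

lemma gm_neg (X : ℕ → Matrix (Fin n) (Fin n) ℂ) : gm (fun k => -X k) = -gm X := by
  ext i j
  rw [Matrix.neg_apply, gm_apply, gm_apply, ← map_neg]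
  rfl

lemma rh_c0 : rh (fun _ => (0 : ℂ)) = 0 := map_zero rh

lemma rh_c1 : rh (fun _ => (1 : ℂ)) = 1 := map_one rh

lemma gm_zero : gm (fun _ => (0 : Matrix (Fin n) (Fin n) ℂ)) = 0 := by
  ext i j
  rw [gm_apply]
  exact rh_c0

lemma gm_one : gm (fun _ => (1 : Matrix (Fin n) (Fin n) ℂ)) = 1 := by
  ext i j
  rw [gm_apply]
  by_cases h : i = j
  · subst h
    simp only [Matrix.one_apply_eq]
    exact rh_c1
  · simp only [Matrix.one_apply_ne h]
    exact rh_c0

lemma gm_NN : gm (fun _ => NN ℂ n) = NN UF n := by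
  ext i j
  rw [gm_apply]
  unfold NN
  simp only [Matrix.of_apply]
  by_cases h : (j : ℕ) = i + 1
  · simp only [if_pos h]
    exact rh_c1
  · simp only [if_neg h]
    exact rh_c0

lemma gm_SS : gm (fun _ => SS ℂ n) = SS UF n := by
  ext i j
  rw [gm_apply]
  unfold SS
  simp only [Matrix.of_apply]
  by_cases h : (i : ℕ) + j + 1 = n
  · simp only [if_pos h]
    have e : (fun _ : ℕ => (-1 : ℂ) ^ (i : ℕ)) = (-1) ^ (i : ℕ) := by
      funext k
      simp
    rw [e, map_pow, map_neg, map_one]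
  · simp only [if_neg h]
    exact rh_c0

lemma gm_sum {ι : Type} (s : Finset ι) (X : ι → ℕ → Matrix (Fin n) (Fin n) ℂ) : gm (fun k => ∑ a ∈ s, X a k) = ∑ a ∈ s, gm (X a) := by
  classical
  induction s using Finset.induction_on with
  | empty =>
    simp only [Finset.sum_empty]
    exact gm_zero
  | insert a s ha ih =>
    rw [Finset.sum_insert ha, ← ih, ← gm_add]
    congr 1
    funext k
    rw [Finset.sum_insert ha]

lemma gm_eq {X Y : ℕ → Matrix (Fin n) (Fin n) ℂ} :
    gm X = gm Y ↔ ∀ᶠ k in ((hyperfilter ℕ : Ultrafilter ℕ) : Filter ℕ), X k = Y k := by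
  constructor
  · intro h
    have h1 : ∀ i j, ∀ᶠ k in ((hyperfilter ℕ : Ultrafilter ℕ) : Filter ℕ), X k i j = Y k i j := fun i j =>
      rh_eq.1 (congrFun (congrFun h i) j)
    have h2 : ∀ᶠ k in ((hyperfilter ℕ : Ultrafilter ℕ) : Filter ℕ), ∀ i j, X k i j = Y k i j := by
      rw [eventually_all]
      intro i
      rw [eventually_all]
      exact h1 i
    filter_upwards [h2] with k hk
    ext i j
    exact hk i j
  · intro h
    ext i j
    rw [gm_apply, gm_apply, rh_eq]
    filter_upwards [h] with k hk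
    rw [hk]

lemma gm_det (X : ℕ → Matrix (Fin n) (Fin n) ℂ) : (gm X).det = rh fun k => (X k).det := by
  have h1 : gm X = (Matrix.of fun i j => (fun k => X k i j : ℕ → ℂ) : Matrix (Fin n) (Fin n) (ℕ → ℂ)).map rh := rfl
  rw [h1, ← RingHom.mapMatrix_apply, ← RingHom.map_det]
  congr 1
  funext k
  have h2 := (Pi.evalRingHom (fun _ : ℕ => ℂ) k).map_det (Matrix.of fun i j => (fun k => X k i j : ℕ → ℂ) :
    Matrix (Fin n) (Fin n) (ℕ → ℂ))
  rw [show ((Matrix.of fun i j => (fun k => X k i j : ℕ → ℂ) : Matrix (Fin n) (Fin n) (ℕ → ℂ)).det) k =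
    (Pi.evalRingHom (fun _ : ℕ => ℂ) k) ((Matrix.of fun i j => (fun k => X k i j : ℕ → ℂ) :
      Matrix (Fin n) (Fin n) (ℕ → ℂ)).det) from rfl, h2]
  rfl

lemma gm_inv {X : ℕ → Matrix (Fin n) (Fin n) ℂ} (h : ∀ k, (X k).det ≠ 0) : gm (fun k => (X k)⁻¹) = (gm X)⁻¹ := by
  symm
  apply Matrix.inv_eq_right_inv
  rw [← gm_mul, ← gm_one]
  congr 1
  funext k
  exact Matrix.mul_nonsing_inv _ (isUnit_iff_ne_zero.2 (h k))

lemma gm_cq (X : ℕ → Matrix (Fin n) (Fin n) ℚ) (i j : Fin n) : gm (fun k => cq (X k)) i j ∈ UK := mem_UK fun k => X k i j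

end

/-- sequences of rational numbers -/
noncomputable def rq : (ℕ → ℚ) →+* UK where
  toFun f := ⟨rh fun k => ((f k : ℚ) : ℂ), mem_UK f⟩
  map_one' := by
    apply Subtype.ext
    show rh (fun k => (((1 : ℕ → ℚ) k : ℚ) : ℂ)) = 1
    rw [← map_one rh]
    congr 1
    funext k
    simp
  map_mul' f g := by
    apply Subtype.ext
    show rh (fun k => (((f * g) k : ℚ) : ℂ)) = rh (fun k => ((f k : ℚ) : ℂ)) * rh (fun k => ((g k : ℚ) : ℂ))
    rw [← map_mul]
    congr 1
    funext k
    simp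
  map_zero' := by
    apply Subtype.ext
    show rh (fun k => (((0 : ℕ → ℚ) k : ℚ) : ℂ)) = 0
    rw [← map_zero rh]
    congr 1
    funext k
    simp
  map_add' f g := by
    apply Subtype.ext
    show rh (fun k => (((f + g) k : ℚ) : ℂ)) = rh (fun k => ((f k : ℚ) : ℂ)) + rh (fun k => ((g k : ℚ) : ℂ))
    rw [← map_add]
    congr 1
    funext k
    simp

lemma rq_surj : Function.Surjective rq := by
  rintro ⟨_, f, rfl⟩
  exact ⟨f, rfl⟩

lemma rq_coe (f : ℕ → ℚ) : ((rq f : UK) : UF) = rh fun k => ((f k : ℚ) : ℂ) := rfl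

lemma aeval_rq {s : Type} (P : MvPolynomial s (ℕ → ℚ)) (h : ℕ → s → ℂ) :
    MvPolynomial.aeval (fun z => rh fun k => h k z) (MvPolynomial.map rq P) =
      rh fun k => MvPolynomial.aeval (h k) (MvPolynomial.map (Pi.evalRingHom (fun _ : ℕ => ℚ) k) P) := by
  induction P using MvPolynomial.induction_on with
  | C a =>
    rw [MvPolynomial.map_C, MvPolynomial.aeval_C]
    simp only [MvPolynomial.map_C, MvPolynomial.aeval_C]
    rfl
  | add P Q h1 h2 =>
    rw [map_add, map_add, h1, h2, ← map_add]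
    congr 1
    funext k
    rw [map_add, map_add]
    rfl
  | mul_X P i h1 =>
    rw [map_mul, map_mul, h1, MvPolynomial.map_X, MvPolynomial.aeval_X, ← map_mul]
    congr 1
    funext k
    rw [map_mul, map_mul, MvPolynomial.map_X, MvPolynomial.aeval_X]
    rfl

/-- the chain rule along a line -/
lemma chain {s : Type} [Fintype s] [DecidableEq s] (a b : s → ℂ) (P : MvPolynomial s ℚ) :
    Polynomial.derivative (MvPolynomial.aeval (fun z => Polynomial.C (a z) + Polynomial.X * Polynomial.C (b z)) P) =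
      ∑ z, Polynomial.C (b z) * MvPolynomial.aeval (fun z => Polynomial.C (a z) + Polynomial.X * Polynomial.C (b z))
        (MvPolynomial.pderiv z P) := by
  induction P using MvPolynomial.induction_on with
  | C c =>
    simp only [MvPolynomial.pderiv_C, map_zero, mul_zero, Finset.sum_const_zero]
    rw [MvPolynomial.aeval_C]
    exact Polynomial.derivative_C
  | add P Q h1 h2 =>
    rw [map_add, Polynomial.derivative_add, h1, h2, ← Finset.sum_add_distrib]
    refine Finset.sum_congr rfl fun z _ => ?_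
    rw [map_add, map_add, mul_add]
  | mul_X P i h1 =>
    rw [map_mul, Polynomial.derivative_mul, h1, MvPolynomial.aeval_X]
    have h2 : ∀ z, MvPolynomial.pderiv z (P * MvPolynomial.X i) = MvPolynomial.pderiv z P * MvPolynomial.X i +
        P * (if i = z then 1 else 0) := by
      intro z
      rw [Derivation.leibniz, MvPolynomial.pderiv_X, smul_eq_mul, smul_eq_mul, Pi.single_apply]
      ring
    have h3 : Polynomial.derivative (Polynomial.C (a i) + Polynomial.X * Polynomial.C (b i)) = Polynomial.C (b i) := by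
      simp
    rw [h3]
    set W := Polynomial.C (a i) + Polynomial.X * Polynomial.C (b i) with hW
    have h4 : ∀ z, Polynomial.C (b z) * MvPolynomial.aeval (fun z => Polynomial.C (a z) + Polynomial.X * Polynomial.C (b z))
        (MvPolynomial.pderiv z (P * MvPolynomial.X i)) = Polynomial.C (b z) *
        MvPolynomial.aeval (fun z => Polynomial.C (a z) + Polynomial.X * Polynomial.C (b z)) (MvPolynomial.pderiv z P) * W +
        (if i = z then MvPolynomial.aeval (fun z => Polynomial.C (a z) + Polynomial.X * Polynomial.C (b z)) P * Polynomial.C (b z)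
          else 0) := by
      intro z
      rw [h2, map_add, map_mul, map_mul, MvPolynomial.aeval_X, ← hW]
      by_cases hz : i = z
      · rw [if_pos hz, if_pos hz, map_one]
        ring
      · rw [if_neg hz, if_neg hz, map_zero]
        ring
    rw [Finset.sum_congr rfl fun z _ => h4 z, Finset.sum_add_distrib, ← Finset.sum_mul, Finset.sum_ite_eq]
    simp

lemma sp_line {n : ℕ} {J : Matrix (Fin n) (Fin n) ℂ} (hJ : Jᵀ = -J) {g : Matrix (Fin n) (Fin n) ℂ} (hg : gᵀ * J * g = J)
    (v : Fin n → ℂ) (s : ℂ) : (g * (1 + s • (vecMulVec v v * J)))ᵀ * J * (g * (1 + s • (vecMulVec v v * J))) = J := by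
  have hv : v ⬝ᵥ (J *ᵥ v) = 0 := by
    have h1 : v ⬝ᵥ (J *ᵥ v) = -(v ⬝ᵥ (J *ᵥ v)) := by
      conv_lhs => rw [Matrix.dotProduct_mulVec, ← Matrix.mulVec_transpose, hJ, Matrix.neg_mulVec, neg_dotProduct,
        dotProduct_comm]
    have h2 : (2 : ℂ) * (v ⬝ᵥ (J *ᵥ v)) = 0 := by linear_combination h1
    simpa using h2
  set V := vecMulVec v v with hV
  have hVt : Vᵀ = V := by
    ext i j
    rw [Matrix.transpose_apply, hV, vecMulVec_apply, vecMulVec_apply, mul_comm]
  have h0 : V * J * V = 0 := by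
    rw [hV, Matrix.mul_assoc, Matrix.mul_vecMulVec, Matrix.vecMulVec_mul_vecMulVec, hv]
    simp
  have e1 : (g * (1 + s • (V * J)))ᵀ = (1 - s • (J * V)) * gᵀ := by
    rw [Matrix.transpose_mul, Matrix.transpose_add, Matrix.transpose_one, Matrix.transpose_smul, Matrix.transpose_mul, hJ, hVt,
      Matrix.neg_mul, smul_neg, sub_eq_add_neg]
  rw [e1]
  calc (1 - s • (J * V)) * gᵀ * J * (g * (1 + s • (V * J))) = (1 - s • (J * V)) * (gᵀ * J * g) * (1 + s • (V * J)) := by
        simp only [Matrix.mul_assoc]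
    _ = (1 - s • (J * V)) * J * (1 + s • (V * J)) := by rw [hg]
    _ = J - (s * s) • (J * (V * J * V) * J) := by
        rw [Matrix.sub_mul, Matrix.one_mul, Matrix.mul_add, Matrix.mul_one, Matrix.sub_mul, Matrix.smul_mul,
          Matrix.mul_smul, Matrix.smul_mul, Matrix.mul_smul, smul_smul]
        simp only [Matrix.mul_assoc]
        abel
    _ = J := by rw [h0, Matrix.mul_zero, Matrix.zero_mul, smul_zero, sub_zero]

/-- tangent vectors of the symplectic group -/
lemma tangent {n : ℕ} {J : Matrix (Fin n) (Fin n) ℂ} (hJ : Jᵀ = -J) {g : Matrix (Fin n) (Fin n) ℂ} (hg : gᵀ * J * g = J)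
    (P : MvPolynomial (Fin n × Fin n) ℚ)
    (hP : ∀ h : Matrix (Fin n) (Fin n) ℂ, hᵀ * J * h = J → MvPolynomial.aeval (fun z => h z.1 z.2) P = 0) (v : Fin n → ℂ) :
    ∑ z : Fin n × Fin n, (g * (vecMulVec v v * J)) z.1 z.2 * MvPolynomial.aeval (fun z => g z.1 z.2) (MvPolynomial.pderiv z P) = 0 := by
  set Y := g * (vecMulVec v v * J) with hY
  have h1 : MvPolynomial.aeval (fun z : Fin n × Fin n => Polynomial.C (g z.1 z.2) + Polynomial.X * Polynomial.C (Y z.1 z.2)) P = 0 := by
    apply Polynomial.funext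
    intro s
    rw [Polynomial.eval_zero, ← hP (g * (1 + s • (vecMulVec v v * J))) (sp_line hJ hg v s)]
    have h2 : ∀ Q : MvPolynomial (Fin n × Fin n) ℚ, Polynomial.eval s (MvPolynomial.aeval
        (fun z : Fin n × Fin n => Polynomial.C (g z.1 z.2) + Polynomial.X * Polynomial.C (Y z.1 z.2)) Q) =
        MvPolynomial.aeval (fun z => (g * (1 + s • (vecMulVec v v * J))) z.1 z.2) Q := by
      intro Q
      induction Q using MvPolynomial.induction_on with
      | C c =>
        rw [MvPolynomial.aeval_C, MvPolynomial.aeval_C]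
        exact Polynomial.eval_C
      | add P Q h1 h2 => rw [map_add, map_add, Polynomial.eval_add, h1, h2]
      | mul_X P i h1 =>
        rw [map_mul, map_mul, Polynomial.eval_mul, h1, MvPolynomial.aeval_X, MvPolynomial.aeval_X]
        congr 1
        rw [Polynomial.eval_add, Polynomial.eval_C, Polynomial.eval_mul, Polynomial.eval_X, Polynomial.eval_C, mul_add, mul_one,
          Matrix.mul_smul, Matrix.add_apply, Matrix.smul_apply, smul_eq_mul]
    exact h2 P
  have h3 := chain (fun z : Fin n × Fin n => g z.1 z.2) (fun z => Y z.1 z.2) P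
  rw [h1, map_zero] at h3
  have h4 := congrArg (Polynomial.eval 0) h3
  rw [Polynomial.eval_zero, Polynomial.eval_finsetSum] at h4
  rw [h4]
  refine Finset.sum_congr rfl fun z _ => ?_
  rw [Polynomial.eval_mul, Polynomial.eval_C]
  congr 1
  generalize MvPolynomial.pderiv z P = Q
  induction Q using MvPolynomial.induction_on with
  | C c =>
    rw [MvPolynomial.aeval_C, MvPolynomial.aeval_C]
    exact Polynomial.eval_C.symm
  | add P Q h1 h2 => rw [map_add, map_add, Polynomial.eval_add, h1, h2]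
  | mul_X P i h1 =>
    rw [map_mul, map_mul, Polynomial.eval_mul, h1, MvPolynomial.aeval_X, MvPolynomial.aeval_X]
    congr 1
    simp

/-- **Transfer of generic points.** -/
theorem generic {n : ℕ} {J : Matrix (Fin n) (Fin n) ℂ} (hJ : Jᵀ = -J) {g : ℕ → Matrix (Fin n) (Fin n) ℂ}
    (hg : ∀ k, (g k)ᵀ * J * g k = J)
    (hgen : ∀ k, ∀ P : MvPolynomial (Fin n × Fin n) ℚ, P.totalDegree ≤ k →
      MvPolynomial.aeval (fun z => g k z.1 z.2) P = 0 → ∀ h : Matrix (Fin n) (Fin n) ℂ, hᵀ * J * h = J →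
      MvPolynomial.aeval (fun z => h z.1 z.2) P = 0)
    (P : MvPolynomial (Fin n × Fin n) UK) (hP : MvPolynomial.aeval (fun z => gm g z.1 z.2) P = 0) (v : Fin n → UF) :
    ∑ z : Fin n × Fin n, (gm g * (vecMulVec v v * gm fun _ => J)) z.1 z.2 *
      MvPolynomial.aeval (fun z => gm g z.1 z.2) (MvPolynomial.pderiv z P) = 0 := by
  obtain ⟨P, rfl⟩ := MvPolynomial.map_surjective rq rq_surj P
  choose w hw using fun i => rh_surj (v i)
  have e1 : ∀ Q : MvPolynomial (Fin n × Fin n) (ℕ → ℚ), MvPolynomial.aeval (fun z : Fin n × Fin n => gm g z.1 z.2)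
      (MvPolynomial.map rq Q) = rh fun k => MvPolynomial.aeval (fun z : Fin n × Fin n => g k z.1 z.2)
      (MvPolynomial.map (Pi.evalRingHom (fun _ : ℕ => ℚ) k) Q) := fun Q => aeval_rq Q fun k z => g k z.1 z.2
  rw [e1, rh_zero] at hP
  have h1 : ∀ᶠ k in ((hyperfilter ℕ : Ultrafilter ℕ) : Filter ℕ), P.totalDegree ≤ k :=
    (eventually_ge_atTop P.totalDegree).filter_mono Nat.hyperfilter_le_atTop
  have e2 : (vecMulVec v v : Matrix (Fin n) (Fin n) UF) = gm fun k => vecMulVec (fun i => w i k) fun i => w i k := by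
    ext i j
    rw [gm_apply, vecMulVec_apply, ← hw i, ← hw j, ← map_mul]
    rfl
  rw [e2, ← gm_mul, ← gm_mul]
  have e3 : ∀ z : Fin n × Fin n, MvPolynomial.pderiv z (MvPolynomial.map rq P) = MvPolynomial.map rq (MvPolynomial.pderiv z P) :=
    fun z => MvPolynomial.pderiv_map
  have e4 : ∀ z : Fin n × Fin n, (gm fun k => g k * ((vecMulVec (fun i => w i k) fun i => w i k) * J)) z.1 z.2 *
      MvPolynomial.aeval (fun z : Fin n × Fin n => gm g z.1 z.2) (MvPolynomial.pderiv z (MvPolynomial.map rq P)) =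
      rh fun k => (g k * ((vecMulVec (fun i => w i k) fun i => w i k) * J)) z.1 z.2 *
        MvPolynomial.aeval (fun z : Fin n × Fin n => g k z.1 z.2)
        (MvPolynomial.map (Pi.evalRingHom (fun _ : ℕ => ℚ) k) (MvPolynomial.pderiv z P)) := by
    intro z
    rw [e3, e1, gm_apply, ← map_mul]
    rfl
  rw [Finset.sum_congr rfl fun z _ => e4 z, ← map_sum, rh_zero]
  filter_upwards [hP, h1] with k hk hk1
  have h2 := tangent hJ (hg k) (MvPolynomial.map (Pi.evalRingHom (fun _ : ℕ => ℚ) k) P)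
    (hgen k _ ((Finset.sup_mono (MvPolynomial.support_map_subset _ _)).trans hk1) hk) fun i => w i k
  rw [Finset.sum_apply, ← h2]
  refine Finset.sum_congr rfl fun z _ => ?_
  rw [MvPolynomial.pderiv_map]

end Pool.Agent.Y113.MT
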