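import Pool.Agent.Y113.MT.AsmW
import Pool.Agent.Y113.MT.WStm

/-!
# The windows theorems
-/

set_option autoImplicit false
set_option maxHeartbeats 1000000

open Matrix PowerSeries Pool.Agent.Y119.HY Pool.Agent.Y119.HZ Pool.Agent.Y118.CM

namespace Pool.Agent.Y113.MT

section
variable {m : ℕ} {β : Fin m → ℚ}

/-- the windows theorem for a fixed base change -/
theorem win_fix (hm : 2 ≤ m) (hβ : ∀ j, ∀ a : ℤ, β j ≠ a) : ∃ G0 : ℕ, ∀ G : ℕ, G0 ≤ G →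
    ∀ C : Matrix (Fin (2 * m)) (Fin (2 * m)) ℂ, ∃ E : ℕ, ∀ H t : ℕ, (H + 2) ^ E ≤ t → (∀ u ≤ H, G * u + 2 ≤ t) ∧
      ∃ S : Finset ℕ, (S.card : Cardinal) ≤ Algebra.trdeg ℚ (IntermediateField.adjoin ℚ
        (Set.range fun z : Fin (2 * m) × Fin (2 * m) => C z.1 z.2)) ∧
      ∀ u : ℕ, 1 ≤ u → u ≤ H → u ∉ S → ∀ (M A : Matrix (Fin (2 * m)) (Fin (2 * m)) ℚ) (q κ : ℂ), C.det ≠ 0 → q ≠ 0 →
        C * cq M = q • (NN ℂ (2 * m) * C) → κ ≠ 0 → C * cq A * Cᵀ = κ • SS ℂ (2 * m) → Conc β (t - G * u) C A := by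
  obtain ⟨G0, hG0⟩ := win_core hm hβ
  refine ⟨G0, fun G hG C => ?_⟩
  set Ω : Fin (2 * m * (2 * m)) → ℂ := fun i => C (finProdFinEquiv.symm i).1 (finProdFinEquiv.symm i).2 with hΩ
  have hΩr : Set.range Ω = Set.range fun z : Fin (2 * m) × Fin (2 * m) => C z.1 z.2 := by
    ext z
    constructor
    · rintro ⟨i, rfl⟩
      exact ⟨finProdFinEquiv.symm i, rfl⟩
    · rintro ⟨i, rfl⟩
      refine ⟨finProdFinEquiv i, ?_⟩
      rw [hΩ]
      simp only [Equiv.symm_apply_apply]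
  obtain ⟨E, hE⟩ := hG0 G hG (2 * m * (2 * m)) Ω 0
    (fun a _ _ C' _ => ∀ i j, C' i j = a (Sum.inl (finProdFinEquiv (i, j)))) (by
      intro a q κ C' A h1 _ _ D hD hDa
      refine dmap_zero D fun i j => ?_
      rw [gm_apply]
      have e : (fun k => C' k i j) = fun k => a k (Sum.inl (finProdFinEquiv (i, j))) := funext fun k => h1 k i j
      rw [e]
      exact hDa _)
  refine ⟨E, fun H t ht => ?_⟩
  obtain ⟨h1, h2⟩ := hE H t ht
  obtain ⟨S, hS, hS2⟩ := h2 Fin.elim0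
  refine ⟨h1, S, ?_, fun u hu1 hu2 huS M A q κ hC hq hM hκ hA => hS2 u hu1 hu2 huS C M A q κ (fun i j => ?_) hC hq hM hκ hA⟩
  · rw [hΩr, Nat.cast_zero, add_zero] at hS
    exact hS
  · show C i j = C _ _
    rw [Equiv.symm_apply_apply]

/-- the diagonal matrix with entries `x ^ i` -/
noncomputable def Dg (n : ℕ) (x : ℂ) : Matrix (Fin n) (Fin n) ℂ := Matrix.diagonal fun i => x ^ (i : ℕ)

lemma cq_NN (n : ℕ) : cq (NN ℚ n) = NN ℂ n := by
  ext i j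
  rw [cq_apply]
  unfold NN
  rw [Matrix.of_apply, Matrix.of_apply]
  split_ifs <;> simp

lemma Dg_mul {n : ℕ} (x y : ℂ) : Dg n x * Dg n y = Dg n (x * y) := by
  unfold Dg
  rw [Matrix.diagonal_mul_diagonal]
  congr 1
  funext i
  rw [mul_pow]

lemma Dg_one (n : ℕ) : Dg n 1 = 1 := by
  unfold Dg
  simp

lemma Dg_NN {n : ℕ} (x : ℂ) : x • (Dg n x * NN ℂ n) = NN ℂ n * Dg n x := by
  ext i j
  unfold Dg NN
  rw [Matrix.smul_apply, Matrix.diagonal_mul, Matrix.mul_diagonal, Matrix.of_apply, smul_eq_mul]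
  split_ifs with h
  · rw [h, pow_succ]
    ring
  · ring

lemma Fl_smul {t : ℕ} {C : Matrix (Fin (2 * m)) (Fin (2 * m)) ℂ} {l : ℂ} (hl : l ≠ 0) (p : ℕ) : Fl β t (l • C) p = Fl β t C p := by
  unfold Fl
  apply le_antisymm
  · rw [Submodule.span_le]
    rintro _ ⟨i, hi, rfl⟩
    rw [Matrix.vecMul_smul]
    exact Submodule.smul_mem _ _ (Submodule.subset_span ⟨i, hi, rfl⟩)
  · rw [Submodule.span_le]
    rintro _ ⟨i, hi, rfl⟩
    have h1 : perr β t i ᵥ* C = l⁻¹ • (perr β t i ᵥ* (l • C)) := by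
      rw [Matrix.vecMul_smul, smul_smul, inv_mul_cancel₀ hl, one_smul]
    rw [h1]
    exact Submodule.smul_mem _ _ (Submodule.subset_span ⟨i, hi, rfl⟩)

lemma Conc_smul {t : ℕ} {C : Matrix (Fin (2 * m)) (Fin (2 * m)) ℂ} {A : Matrix (Fin (2 * m)) (Fin (2 * m)) ℚ} {l : ℂ} (hl : l ≠ 0)
    (h : Conc β t (l • C) A) : Conc β t C A := by
  intro Fil H hFil
  exact h Fil H fun p hp => by rw [hFil p hp, Fl_smul hl]

/-- the class of normalised base changes -/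
def Nrm (m : ℕ) (a : Fin 0 ⊕ Fin (m + 1) → ℂ) (q : ℂ) (C : Matrix (Fin (2 * m)) (Fin (2 * m)) ℂ) : Prop :=
  ∃ (R : Matrix (Fin (2 * m)) (Fin (2 * m)) ℚ) (T : Matrix (Fin (2 * m)) (Fin (2 * m)) ℂ),
    C = T * Dg (2 * m) q⁻¹ * cq R ∧ T * NN ℂ (2 * m) = NN ℂ (2 * m) * T ∧
    (∀ i j : Fin (2 * m), (i : ℕ) = 0 → (j : ℕ) = 0 → T i j = 1) ∧
    (∀ i j : Fin (2 * m), (i : ℕ) = 0 → (h : (j : ℕ) % 2 = 1) →
      T i j = a (Sum.inr ⟨(j : ℕ) / 2, by have := j.2; omega⟩)) ∧ q⁻¹ = a (Sum.inr (Fin.last m))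

lemma nrm_kill (td : S_TD) {a : ℕ → Fin 0 ⊕ Fin (m + 1) → ℂ} {q κ : ℕ → ℂ} {C : ℕ → Matrix (Fin (2 * m)) (Fin (2 * m)) ℂ}
    {A : ℕ → Matrix (Fin (2 * m)) (Fin (2 * m)) ℚ} (h : ∀ k, Nrm m (a k) (q k) (C k)) (hκ : ∀ k, κ k ≠ 0)
    (hA : ∀ k, C k * cq (A k) * (C k)ᵀ = κ k • SS ℂ (2 * m)) (D : Derivation ℤ UF UF) (hD : ∀ z ∈ UK, D z = 0)
    (hDa : ∀ i, D (rh fun k => a k i) = 0) : (gm C).map D = 0 := by
  choose R T hC hTN hT1 hT2 hq using h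
  -- the diagonal matrix
  have hDg : (gm fun k => Dg (2 * m) (q k)⁻¹).map D = 0 := by
    refine dmap_zero D fun i j => ?_
    rw [gm_apply]
    by_cases hij : i = j
    · subst hij
      have e : (fun k => Dg (2 * m) (q k)⁻¹ i i) = (fun k => a k (Sum.inr (Fin.last m))) ^ (i : ℕ) := by
        funext k
        unfold Dg
        rw [Matrix.diagonal_apply_eq, hq]
        rfl
      rw [e, map_pow, D.leibniz_pow, hDa, smul_zero, smul_zero]
    · have e : (fun k => Dg (2 * m) (q k)⁻¹ i j) = fun _ => 0 := by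
        funext k
        unfold Dg
        rw [Matrix.diagonal_apply_ne _ hij]
      rw [e, rh_c0, map_zero]
  have hR : (gm fun k => cq (R k)).map D = 0 := dmap_zero D fun i j => hD _ (gm_cq _ i j)
  have hRT : (gm fun k => cq (R k * A k * (R k)ᵀ)).map D = 0 := dmap_zero D fun i j => hD _ (gm_cq _ i j)
  have hT : (gm T).map D = 0 := by
    refine td UF m D (gm T) (gm fun k => Dg (2 * m) (q k)⁻¹ * cq (R k * A k * (R k)ᵀ) * Dg (2 * m) (q k)⁻¹) (rh κ) ?_ ?_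
      (rh_ne hκ) ?_ ?_ ?_
    · rw [← gm_NN, ← gm_mul, ← gm_mul]
      congr 1
      funext k
      exact hTN k
    · intro i j hi hj
      rw [gm_apply]
      have e : (fun k => T k i j) = fun _ => 1 := funext fun k => hT1 k i j hi hj
      rw [e, rh_c1]
    · rw [← gm_mul, ← gm_tr, ← gm_mul, ← gm_SS, ← gm_smul]
      congr 1
      funext k
      rw [← hA k, hC k, Matrix.transpose_mul, Matrix.transpose_mul]
      have e : (Dg (2 * m) (q k)⁻¹)ᵀ = Dg (2 * m) (q k)⁻¹ := by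
        unfold Dg
        exact Matrix.diagonal_transpose _
      rw [e, cq_mul, cq_mul, cq_tr]
      simp only [Matrix.mul_assoc]
    · have e : (gm fun k => Dg (2 * m) (q k)⁻¹ * cq (R k * A k * (R k)ᵀ) * Dg (2 * m) (q k)⁻¹) =
          (gm fun k => Dg (2 * m) (q k)⁻¹) * (gm fun k => cq (R k * A k * (R k)ᵀ)) * gm fun k => Dg (2 * m) (q k)⁻¹ := by
        rw [← gm_mul, ← gm_mul]
      rw [e, dmap_mul, dmap_mul, hDg, hRT]
      simp
    · intro i j hi hj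
      rw [gm_apply]
      have e : (fun k => T k i j) = fun k => a k (Sum.inr ⟨(j : ℕ) / 2, by have := j.2; omega⟩) :=
        funext fun k => hT2 k i j hi hj
      rw [e]
      exact hDa _
  have e : gm C = gm T * (gm fun k => Dg (2 * m) (q k)⁻¹) * gm fun k => cq (R k) := by
    rw [← gm_mul, ← gm_mul]
    congr 1
    funext k
    exact hC k
  rw [e, dmap_mul, dmap_mul, hDg, hR, hT]
  simp

/-- existence of the normal form -/
lemma nrm_exists (nf : S_NF) (hm : 1 ≤ m) {C : Matrix (Fin (2 * m)) (Fin (2 * m)) ℂ} {M : Matrix (Fin (2 * m)) (Fin (2 * m)) ℚ}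
    {q : ℂ} (hC : C.det ≠ 0) (hq : q ≠ 0) (hM : C * cq M = q • (NN ℂ (2 * m) * C)) :
    ∃ (l : ℂ) (w : Fin (m + 1) → ℂ), l ≠ 0 ∧ Nrm m (Sum.elim Fin.elim0 w) q (l • C) := by
  obtain ⟨R, hR, hRM⟩ := nf (2 * m) C M q hC hq hM
  have hRu : IsUnit (cq R).det := by
    rw [isUnit_iff_ne_zero, cq_det]
    exact_mod_cast hR
  have hRM' : cq R * cq M = NN ℂ (2 * m) * cq R := by rw [← cq_NN, ← cq_mul, ← cq_mul, hRM]
  have hRi : (cq R)⁻¹ * NN ℂ (2 * m) = cq M * (cq R)⁻¹ := by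
    calc (cq R)⁻¹ * NN ℂ (2 * m) = (cq R)⁻¹ * (NN ℂ (2 * m) * cq R) * (cq R)⁻¹ := by
          rw [Matrix.mul_assoc, Matrix.mul_assoc, Matrix.mul_nonsing_inv _ hRu, Matrix.mul_one]
      _ = cq M * (cq R)⁻¹ := by
          rw [← hRM', ← Matrix.mul_assoc (cq R)⁻¹, Matrix.nonsing_inv_mul _ hRu, Matrix.one_mul]
  set T' := C * (cq R)⁻¹ * Dg (2 * m) q with hT'
  have hTN : T' * NN ℂ (2 * m) = NN ℂ (2 * m) * T' := by
    have h1 : Dg (2 * m) q * NN ℂ (2 * m) = q⁻¹ • (NN ℂ (2 * m) * Dg (2 * m) q) := by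
      rw [← Dg_NN, smul_smul, inv_mul_cancel₀ hq, one_smul]
    calc T' * NN ℂ (2 * m) = C * (cq R)⁻¹ * (Dg (2 * m) q * NN ℂ (2 * m)) := by rw [hT', Matrix.mul_assoc]
      _ = q⁻¹ • (C * ((cq R)⁻¹ * NN ℂ (2 * m)) * Dg (2 * m) q) := by
          rw [h1, Matrix.mul_smul]
          simp only [Matrix.mul_assoc]
      _ = q⁻¹ • ((C * cq M) * (cq R)⁻¹ * Dg (2 * m) q) := by
          rw [hRi]
          simp only [Matrix.mul_assoc]
      _ = NN ℂ (2 * m) * T' := by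
          rw [hM, Matrix.smul_mul, Matrix.smul_mul, smul_smul, inv_mul_cancel₀ hq, one_smul, hT']
          simp only [Matrix.mul_assoc]
  have hTd : T'.det ≠ 0 := by
    rw [hT', Matrix.det_mul, Matrix.det_mul]
    refine mul_ne_zero (mul_ne_zero hC ?_) ?_
    · have h1 : (cq R)⁻¹.det * (cq R).det = 1 := by
        rw [← Matrix.det_mul, Matrix.nonsing_inv_mul _ hRu, Matrix.det_one]
      exact left_ne_zero_of_mul_eq_one h1
    · unfold Dg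
      rw [Matrix.det_diagonal]
      exact Finset.prod_ne_zero_iff.2 fun i _ => pow_ne_zero _ hq
  have hcol : ∀ i : Fin (2 * m), (i : ℕ) ≠ 0 → ∀ j : Fin (2 * m), (j : ℕ) = 0 → T' i j = 0 := by
    intro i hi j hj
    have h1 := congrFun (congrFun hTN ⟨(i : ℕ) - 1, by have := i.2; omega⟩) j
    rw [Matrix.mul_apply, Matrix.mul_apply, Finset.sum_eq_zero, Finset.sum_eq_single i] at h1
    · unfold NN at h1
      rw [Matrix.of_apply, if_pos (by show (i : ℕ) = (i : ℕ) - 1 + 1; omega), one_mul] at h1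
      exact h1.symm
    · intro b _ hb
      unfold NN
      rw [Matrix.of_apply, if_neg, zero_mul]
      intro h2
      apply hb
      have h3 : (b : ℕ) = (i : ℕ) - 1 + 1 := h2
      exact Fin.ext (by omega)
    · intro h2
      exact absurd (Finset.mem_univ _) h2
    · intro b _
      unfold NN
      rw [Matrix.of_apply, if_neg (by omega), mul_zero]
  set z : Fin (2 * m) := ⟨0, by omega⟩ with hz
  have hl : T' z z ≠ 0 := by
    intro h0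
    apply hTd
    refine Matrix.det_eq_zero_of_column_eq_zero z fun i => ?_
    by_cases hi : (i : ℕ) = 0
    · have : i = z := Fin.ext hi
      rw [this, h0]
    · exact hcol i hi z rfl
  refine ⟨(T' z z)⁻¹, fun i => if h : (i : ℕ) < m then (T' z z)⁻¹ * T' z ⟨2 * i + 1, by omega⟩ else q⁻¹, inv_ne_zero hl, R,
    (T' z z)⁻¹ • T', ?_, ?_, ?_, ?_, ?_⟩
  · rw [Matrix.smul_mul, Matrix.smul_mul]
    congr 1
    rw [hT', Matrix.mul_assoc (C * (cq R)⁻¹), Dg_mul, mul_inv_cancel₀ hq, Dg_one, Matrix.mul_one, Matrix.mul_assoc,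
      Matrix.nonsing_inv_mul _ hRu, Matrix.mul_one]
  · rw [Matrix.smul_mul, Matrix.mul_smul, hTN]
  · intro i j hi hj
    have h1 : i = z := Fin.ext hi
    have h2 : j = z := Fin.ext hj
    rw [h1, h2, Matrix.smul_apply, smul_eq_mul, inv_mul_cancel₀ hl]
  · intro i j hi hj
    have h1 : i = z := Fin.ext hi
    have hj2 := j.2
    have h3 : (j : ℕ) / 2 < m := by omega
    show ((T' z z)⁻¹ • T') i j = dite _ _ _
    rw [dif_pos h3, h1, Matrix.smul_apply, smul_eq_mul]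
    congr 2
    exact Fin.ext (by show (j : ℕ) = 2 * ((j : ℕ) / 2) + 1; omega)
  · show q⁻¹ = dite _ _ _
    rw [dif_neg (by simp)]

/-- the uniform windows theorem -/
theorem win_unif (nf : S_NF) (td : S_TD) (hm : 2 ≤ m) (hβ : ∀ j, ∀ a : ℤ, β j ≠ a) : ∃ G0 : ℕ, ∀ G : ℕ, G0 ≤ G →
    ∃ E : ℕ, ∀ H t : ℕ, (H + 2) ^ E ≤ t → (∀ u ≤ H, G * u + 2 ≤ t) ∧
      ∀ (C : Matrix (Fin (2 * m)) (Fin (2 * m)) ℂ) (M : Matrix (Fin (2 * m)) (Fin (2 * m)) ℚ) (q : ℂ), C.det ≠ 0 → q ≠ 0 →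
      C * cq M = q • (NN ℂ (2 * m) * C) → ∃ S : Finset ℕ, S.card ≤ m + 1 ∧
      ∀ u : ℕ, 1 ≤ u → u ≤ H → u ∉ S → ∀ (A : Matrix (Fin (2 * m)) (Fin (2 * m)) ℚ) (κ : ℂ),
        κ ≠ 0 → C * cq A * Cᵀ = κ • SS ℂ (2 * m) → Conc β (t - G * u) C A := by
  obtain ⟨G0, hG0⟩ := win_core hm hβ
  refine ⟨G0, fun G hG => ?_⟩
  obtain ⟨E, hE⟩ := hG0 G hG 0 Fin.elim0 (m + 1) (fun a q _ C _ => Nrm m a q C)
    (fun a q κ C A h hκ hA D hD hDa => nrm_kill td h hκ hA D hD hDa)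
  refine ⟨E, fun H t ht => ?_⟩
  obtain ⟨h1, h2⟩ := hE H t ht
  refine ⟨h1, fun C M q hC hq hM => ?_⟩
  obtain ⟨l, w, hl, hN⟩ := nrm_exists nf (by omega) hC hq hM
  obtain ⟨S, hS, hS2⟩ := h2 w
  refine ⟨S, ?_, fun u hu1 hu2 huS A κ hκ hA => ?_⟩
  · have h3 : IntermediateField.adjoin ℚ (Set.range (Fin.elim0 : Fin 0 → ℂ)) = ⊥ := by
      rw [IntermediateField.adjoin_eq_bot_iff]
      rintro _ ⟨i, -⟩
      exact i.elim0
    rw [h3] at hS
    have h4 : Algebra.trdeg ℚ (⊥ : IntermediateField ℚ ℂ) = 0 := trdeg_eq_zero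
    rw [h4, zero_add] at hS
    exact_mod_cast hS
  · refine Conc_smul hl (hS2 u hu1 hu2 huS (l • C) M A q (l * l * κ) hN ?_ hq ?_ (mul_ne_zero (mul_ne_zero hl hl) hκ) ?_)
    · rw [Matrix.det_smul]
      exact mul_ne_zero (pow_ne_zero _ hl) hC
    · rw [Matrix.smul_mul, hM, Matrix.mul_smul, smul_comm]
    · rw [Matrix.transpose_smul, Matrix.smul_mul, Matrix.smul_mul, Matrix.mul_smul, hA, smul_smul, smul_smul]

/-- the power saving -/
theorem win_count (nf : S_NF) (td : S_TD) (cn : S_CNT) (hm : 2 ≤ m) (hβ : ∀ j, ∀ a : ℤ, β j ≠ a) : ∃ δ K : ℝ, 0 < δ ∧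
      ∀ (C : Matrix (Fin (2 * m)) (Fin (2 * m)) ℂ) (M A : Matrix (Fin (2 * m)) (Fin (2 * m)) ℚ) (q κ : ℂ), C.det ≠ 0 → q ≠ 0 →
      C * cq M = q • (NN ℂ (2 * m) * C) → κ ≠ 0 → C * cq A * Cᵀ = κ • SS ℂ (2 * m) →
      ∀ T : ℕ, 1 ≤ T → ({t : ℕ | t ≤ T ∧ ¬ Conc β t C A}.ncard : ℝ) ≤ K * (T : ℝ) ^ (1 - δ) := by
  obtain ⟨G0, hG0⟩ := win_unif nf td hm hβ
  obtain ⟨E, hE⟩ := hG0 (G0 + 1) (by omega)
  obtain ⟨δ, K, hδ, hK⟩ := cn (G0 + 1) E (m + 1) (by omega)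
  refine ⟨δ, K, hδ, fun C M A q κ hC hq hM hκ hA => hK (fun t => ¬ Conc β t C A) fun H t ht => ?_⟩
  obtain ⟨-, h2⟩ := hE H t ht
  obtain ⟨S, hS, hS2⟩ := h2 C M q hC hq hM
  refine le_trans (Set.ncard_le_ncard (t := (S : Set ℕ)) ?_ S.finite_toSet) ?_
  · rintro u ⟨hu1, hu2, hu3⟩
    by_contra hu
    exact hu3 (hS2 u hu1 hu2 (by simpa using hu) A κ hκ hA)
  · rw [Set.ncard_coe_finset]
    exact hS

end

end Pool.Agent.Y113.MT
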